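import Mathlib

/-! Critical points of logarithmic barriers on chambers of a connected arrangement. -/

set_option autoImplicit false

namespace Pool.Agent.Lib.MP_e310f3_mp

open Set Filter Topology

section Barrier

variable {V B : Type} [AddCommGroup V] [Module ℝ V] [Fintype B]

/-- elasticity: a load that vanishes on the common kernel is carried by springs -/
theorem elastic (β : B → V →ₗ[ℝ] ℝ) (Z : B → Prop) [DecidablePred Z] (l : V →ₗ[ℝ] ℝ)
    (h : ∀ u, (∀ b, Z b → β b u = 0) → l u = 0) :
    ∃ p : V, ∀ u, l u = ∑ b, if Z b then β b p * β b u else 0 := by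
  classical
  let L : B → V →ₗ[ℝ] ℝ := fun b => if Z b then β b else 0
  have hk : ⨅ b, LinearMap.ker (L b) ≤ LinearMap.ker l := by
    intro u hu
    rw [Submodule.mem_iInf] at hu
    refine h u fun b hb => ?_
    simpa [L, hb] using hu b
  obtain ⟨y, hy⟩ := (Submodule.mem_span_range_iff_exists_fun ℝ).1 (mem_span_of_iInf_ker_le_ker hk)
  let T : V →ₗ[ℝ] EuclideanSpace ℝ B :=
    (WithLp.linearEquiv 2 ℝ (B → ℝ)).symm.toLinearMap ∘ₗ LinearMap.pi L
  have hT : ∀ u b, T u b = L b u := fun u b => rfl
  obtain ⟨z, ⟨p, rfl⟩, r, hr, hyz⟩ :=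
    (LinearMap.range T).exists_add_mem_mem_orthogonal (WithLp.toLp 2 y)
  refine ⟨p, fun u => ?_⟩
  have h1 : l u = ∑ b, y b * L b u := by
    rw [← hy]; simp
  have h2 := hr (T u) ⟨u, rfl⟩
  have h3 : ∀ b, y b = L b p + r b := fun b => by
    have := congrArg (fun v : EuclideanSpace ℝ B => v b) hyz
    simpa [hT] using this
  simp only [PiLp.inner_apply, hT, RCLike.inner_apply, conj_trivial] at h2
  rw [h1]
  simp only [h3, add_mul, Finset.sum_add_distrib]
  rw [h2, add_zero]
  refine Finset.sum_congr rfl fun b _ => ?_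
  by_cases hb : Z b <;> simp [L, hb]

/-- descent to a strictly sign-compatible pair -/
theorem compat (β : B → V →ₗ[ℝ] ℝ) (l : V →ₗ[ℝ] ℝ) (hl : ∃ u, l u ≠ 0)
    (h : ∀ u, (∀ b, β b u = 0) → l u = 0)
    (conn : ∀ c, (∃ b, β b c = 0) → (∃ b, β b c ≠ 0) → ∃ lam : B → ℝ,
      (∀ u, ∑ b, lam b * β b u = 0) ∧ ∃ u, ∑ b, (if β b c = 0 then lam b * β b u else 0) ≠ 0) :
    ∃ (c : V) (y : B → ℝ), (∀ u, l u = ∑ b, y b * β b u) ∧ ∀ b, 0 < y b * β b c := by
  classical
  have main : ∀ n : ℕ, ∀ (c : V) (y : B → ℝ), (Finset.univ.filter fun b => β b c = 0).card = n →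
      (∀ u, l u = ∑ b, y b * β b u) → (∀ b, (β b c = 0 ∧ y b = 0) ∨ 0 < y b * β b c) →
      ∃ (c : V) (y : B → ℝ), (∀ u, l u = ∑ b, y b * β b u) ∧ ∀ b, 0 < y b * β b c := by
    intro n
    induction n using Nat.strong_induction_on with
    | _ n ih =>
      intro c y hn hy hs
      by_cases hz : ∃ b, β b c = 0
      swap
      · push Not at hz
        exact ⟨c, y, hy, fun b => (hs b).resolve_left fun h' => hz b h'.1⟩
      have hnz : ∃ b, β b c ≠ 0 := by
        by_contra hall
        push Not at hall
        obtain ⟨u, hu⟩ := hl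
        refine hu ?_
        rw [hy]
        refine Finset.sum_eq_zero fun b _ => ?_
        rcases hs b with h' | h'
        · rw [h'.2, zero_mul]
        · rw [hall b] at h'; simp at h'
      obtain ⟨lam, hlam, u0, hu0⟩ := conn c hz hnz
      obtain ⟨p, hp⟩ := elastic β (fun b => β b c = 0)
        (∑ b, if β b c = 0 then lam b • β b else 0) (by
          intro u hu
          rw [LinearMap.sum_apply]
          refine Finset.sum_eq_zero fun b _ => ?_
          split_ifs with hb
          · simp [hu b hb]
          · simp)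
      have hp' : ∀ u, ∑ b, (if β b c = 0 then lam b * β b u else 0) =
          ∑ b, if β b c = 0 then β b p * β b u else 0 := by
        intro u
        rw [← hp u, LinearMap.sum_apply]
        refine Finset.sum_congr rfl fun b _ => ?_
        split_ifs <;> simp
      obtain ⟨b0, hb0, hb0'⟩ : ∃ b, β b c = 0 ∧ β b p ≠ 0 := by
        by_contra hall
        push Not at hall
        refine hu0 ?_
        rw [hp']
        refine Finset.sum_eq_zero fun b _ => ?_
        split_ifs with hb
        · rw [hall b hb, zero_mul]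
        · rfl
      let lam' : B → ℝ := fun b => if β b c = 0 then β b p else lam b
      have hlam' : ∀ u, ∑ b, lam' b * β b u = 0 := by
        intro u
        have e1 : ∑ b, lam' b * β b u = ∑ b, (if β b c = 0 then β b p * β b u else 0) +
            ∑ b, (if β b c = 0 then 0 else lam b * β b u) := by
          rw [← Finset.sum_add_distrib]
          refine Finset.sum_congr rfl fun b _ => ?_
          simp only [lam']
          split_ifs <;> simp
        rw [e1, ← hp', ← Finset.sum_add_distrib]
        refine Eq.trans (Finset.sum_congr rfl fun b _ => ?_) (hlam u)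
        split_ifs <;> simp
      have hev : ∀ᶠ e in 𝓝[>] (0:ℝ), ∀ b, 0 < y b * β b c →
          0 < (y b + e * lam' b) * (β b c + e * β b p) := by
        refine eventually_all.2 fun b => ?_
        by_cases hb : 0 < y b * β b c
        · have hc : Continuous fun e : ℝ => (y b + e * lam' b) * (β b c + e * β b p) := by
            fun_prop
          have := (hc.tendsto 0).eventually (lt_mem_nhds (by simpa using hb :
            0 < (y b + 0 * lam' b) * (β b c + 0 * β b p)))
          exact (this.filter_mono nhdsWithin_le_nhds).mono fun e he _ => he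
        · exact Eventually.of_forall fun e h' => absurd h' hb
      obtain ⟨e, he, he0⟩ := (hev.and self_mem_nhdsWithin).exists
      have he0' : 0 < e := he0
      have hβ : ∀ b, β b (c + e • p) = β b c + e * β b p := fun b => by simp
      refine ih _ ?_ (c + e • p) (fun b => y b + e * lam' b) rfl ?_ ?_
      · rw [← hn]
        refine Finset.card_lt_card ⟨fun b hb => ?_, fun hsub => ?_⟩
        · simp only [Finset.mem_filter, Finset.mem_univ, true_and] at hb ⊢
          rcases hs b with h' | h'
          · exact h'.1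
          · have := he b h'
            rw [← hβ, hb] at this
            simp at this
        · have := hsub (Finset.mem_filter.2 ⟨Finset.mem_univ b0, hb0⟩)
          simp only [Finset.mem_filter, Finset.mem_univ, true_and, hβ, hb0, zero_add] at this
          exact hb0' ((mul_eq_zero.1 this).resolve_left he0'.ne')
      · intro u
        simp only [add_mul, Finset.sum_add_distrib, mul_assoc, ← Finset.mul_sum, hlam', mul_zero,
          add_zero, hy]
      · intro b
        rw [hβ]
        rcases hs b with h' | h'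
        · simp only [lam', h'.1, h'.2, if_true, zero_add]
          by_cases hb : β b p = 0
          · left; simp [hb]
          · right
            have : e * β b p ≠ 0 := mul_ne_zero he0'.ne' hb
            exact mul_self_pos.2 this
        · exact Or.inr (he b h')
  obtain ⟨p, hp⟩ := elastic β (fun _ => True) l fun u hu => h u fun b => hu b trivial
  refine main _ p (fun b => β b p) rfl (by simpa using hp) fun b => ?_
  by_cases hb : β b p = 0
  · exact Or.inl ⟨hb, hb⟩
  · exact Or.inr (mul_self_pos.2 hb)

theorem psi_lower {w t : ℝ} (hw : 0 < w) (ht : 0 < t) : w - w * Real.log w ≤ t - w * Real.log t := by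
  have h1 := Real.log_le_sub_one_of_pos (div_pos ht hw)
  rw [Real.log_div ht.ne' hw.ne'] at h1
  have h2 := mul_le_mul_of_nonneg_left h1 hw.le
  have h3 : w * (t / w - 1) = t - w := by field_simp
  linarith

theorem psi_proper {w : ℝ} (hw : 0 < w) (A : ℝ) : ∃ lo > 0, ∃ hi, ∀ t > 0,
    t - w * Real.log t ≤ A → lo < t ∧ t < hi := by
  refine ⟨Real.exp (-A / w) / 2, by positivity, 2 * (A + w * Real.log (2 * w)) + 1,
    fun t ht h => ⟨?_, ?_⟩⟩
  · have h1 : -A / w ≤ Real.log t := by
      rw [div_le_iff₀ hw]; linarith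
    have h2 := Real.exp_le_exp.2 h1
    rw [Real.exp_log ht] at h2
    linarith [Real.exp_pos (-A / w)]
  · have h1 := psi_lower (w := 2 * w) (by positivity) ht
    linarith

/-- the logarithmic barrier has a critical point in the chamber of a compatible pair -/
theorem barrier (β : B → V →ₗ[ℝ] ℝ) (l : V →ₗ[ℝ] ℝ) (w : B → ℝ) (hw : ∀ b, 0 < w b) (c : V)
    (y : B → ℝ) (hy : ∀ u, l u = ∑ b, y b * β b u) (hs : ∀ b, 0 < y b * β b c) :
    ∃ c' : V, (∀ b, β b c' ≠ 0) ∧ ∀ u, l u = ∑ b, w b / β b c' * β b u := by
  classical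
  let T : V →ₗ[ℝ] (B → ℝ) := LinearMap.pi fun b => y b • β b
  have hT : ∀ u b, T u b = y b * β b u := fun u b => rfl
  let φ : (B → ℝ) → ℝ := fun t => ∑ b, (t b - w b * Real.log (t b))
  let A : ℝ := φ (T c) + ∑ b, |w b - w b * Real.log (w b)|
  choose lo hlo hi hlh using fun b => psi_proper (hw b) A
  have hin : ∀ t : B → ℝ, (∀ b, 0 < t b) → φ t ≤ φ (T c) → ∀ b, lo b < t b ∧ t b < hi b := by
    intro t ht hφ b
    refine hlh b _ (ht b) ?_
    have e1 : ∑ b', ((t b' - w b' * Real.log (t b')) + |w b' - w b' * Real.log (w b')|) ≤ A := by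
      rw [Finset.sum_add_distrib]
      simp only [A]
      linarith
    have e2 := Finset.single_le_sum (s := Finset.univ)
      (f := fun b' => (t b' - w b' * Real.log (t b')) + |w b' - w b' * Real.log (w b')|)
      (fun b' _ => by
        have := psi_lower (hw b') (ht b')
        have := neg_abs_le (w b' - w b' * Real.log (w b'))
        linarith) (Finset.mem_univ b)
    have := abs_nonneg (w b - w b * Real.log (w b))
    linarith
  let K : Set (B → ℝ) := (LinearMap.range T : Set (B → ℝ)) ∩ Set.pi univ fun b => Icc (lo b) (hi b)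
  have hK : IsCompact K := (isCompact_univ_pi fun b => isCompact_Icc).inter_left
    (Submodule.closed_of_finiteDimensional _)
  have hpos : ∀ t ∈ K, ∀ b, 0 < t b := fun t ht b => (hlo b).trans_le (ht.2 b trivial).1
  have hc : T c ∈ K := ⟨⟨c, rfl⟩, fun b _ =>
    ⟨(hin _ hs le_rfl b).1.le, (hin _ hs le_rfl b).2.le⟩⟩
  have hφ : ContinuousOn φ K := by
    refine continuousOn_finset_sum _ fun b _ => ?_
    exact (continuous_apply b).continuousOn.sub (continuousOn_const.mul
      ((continuous_apply b).continuousOn.log fun t ht => (hpos t ht b).ne'))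
  obtain ⟨t, ht, hmin⟩ := hK.exists_isMinOn ⟨_, hc⟩ hφ
  obtain ⟨c', rfl⟩ := ht.1
  have hint := hin _ (hpos _ ht) (hmin hc)
  have hy0 : ∀ b, y b ≠ 0 := fun b h => by simpa [h] using hs b
  have hc' : ∀ b, β b c' ≠ 0 := fun b h => by simpa [hT, h] using hpos _ ht b
  refine ⟨c', hc', fun u => ?_⟩
  have hloc : IsLocalMin (fun s : ℝ => φ (T c' + s • T u)) 0 := by
    have hev : ∀ᶠ s in 𝓝 (0:ℝ), ∀ b, T c' b + s * T u b ∈ Ioo (lo b) (hi b) := by
      refine eventually_all.2 fun b => ?_
      have hcont : Continuous fun s : ℝ => T c' b + s * T u b := by fun_prop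
      exact (hcont.tendsto 0).eventually (isOpen_Ioo.mem_nhds (by simpa using hint b))
    refine hev.mono fun s hs' => ?_
    have : T c' + s • T u ∈ K := ⟨⟨c' + s • u, by simp⟩, fun b _ => Ioo_subset_Icc_self (hs' b)⟩
    simpa using hmin this
  have hder : HasDerivAt (fun s : ℝ => φ (T c' + s • T u))
      (∑ b, (T u b - w b * (T u b / T c' b))) 0 := by
    refine HasDerivAt.fun_sum fun b _ => ?_
    have h1 : HasDerivAt (fun s : ℝ => T c' b + s * T u b) (T u b) 0 := by
      simpa using ((hasDerivAt_id (0:ℝ)).mul_const (T u b)).const_add (T c' b)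
    have h2 := h1.log (by simpa using (hpos _ ht b).ne')
    simpa using h1.fun_sub (h2.const_mul (w b))
  have h0 := hloc.hasDerivAt_eq_zero hder
  rw [Finset.sum_sub_distrib, sub_eq_zero] at h0
  rw [hy]
  refine h0.trans (Finset.sum_congr rfl fun b _ => ?_)
  rw [hT, hT]
  have := hy0 b
  have := hc' b
  field_simp

end Barrier

end Pool.Agent.Lib.MP_e310f3_mp
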