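import Mathlib

/-! The scattered image of an incoming beam of the Newtonian `N`-body problem. -/

set_option autoImplicit false

namespace Pool.Agent.Lib.MP_e310f3_mp

open Filter Topology

/-- configurations of `N` points in `ℝ^d` -/
abbrev Cfg (N d : ℕ) := Fin N → EuclideanSpace ℝ (Fin d)

/-- the mass norm `‖q‖ = (∑ m_i |q_i|^2)^(1/2)` -/
noncomputable def massNorm {N d : ℕ} (m : Fin N → ℝ) (q : Cfg N d) : ℝ :=
  Real.sqrt (∑ i, m i * ‖q i‖ ^ 2)

/-- The scattered image of the incoming beam of energy `E` and backward asymptotic shape `sm`: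
the collision-free shapes `sp` such that some collision-free centred solution of Newton's equations,
defined for all times and of energy `E`, has normalised configuration `q(t)/‖q(t)‖` tending to `sm`
as `t → -∞` and to `sp` as `t → +∞`. -/
def scatteredImage {N d : ℕ} (m : Fin N → ℝ) (E : ℝ) (sm : Cfg N d) : Set (Cfg N d) :=
  {sp | (∀ i j, i ≠ j → sp i ≠ sp j) ∧ ∃ q v : ℝ → Cfg N d,
    (∀ t, HasDerivAt q (v t) t) ∧
    (∀ t, HasDerivAt v (fun i => ∑ j, (m j / ‖q t j - q t i‖ ^ 3) • (q t j - q t i)) t) ∧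
    (∀ t, ∀ i j, i ≠ j → q t i ≠ q t j) ∧
    (∀ t, ∑ i, m i • q t i = 0) ∧
    (∀ t, (1 / 2 : ℝ) * ∑ i, m i * ‖v t i‖ ^ 2 -
      ∑ i, ∑ j ∈ Finset.univ.filter (fun j => i < j), m i * m j / ‖q t i - q t j‖ = E) ∧
    Tendsto (fun t : ℝ => (massNorm m (q t))⁻¹ • q t) atBot (𝓝 sm) ∧
    Tendsto (fun t : ℝ => (massNorm m (q t))⁻¹ • q t) atTop (𝓝 sp)}

end Pool.Agent.Lib.MP_e310f3_mp
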