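import Mathlib
import Pool.Agent.Lib.MP_e310f3_mp.Defs
import Pool.Agent.Lib.MP_e310f3_mp.Barrier

-- part Pool.Agent.Lib.MP_e310f3_mp.Weak
section

/-! Weak coupling: solutions of `Q'' = ε G(Q)` close to a straight line, `G` of degree `-2`. -/

set_option autoImplicit false

namespace Pool.Agent.Lib.MP_e310f3_mp

open Set Filter Topology Metric MeasureTheory BoundedContinuousFunction

section Weak

variable {X : Type} [NormedAddCommGroup X] [NormedSpace ℝ X] [FiniteDimensional ℝ X]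

theorem local_bounds {G : X → X} {Ω Z : Set X} (hΩ : IsOpen Ω) (hG : ContDiffOn ℝ 1 G Ω)
    (hZ : IsCompact Z) (hZΩ : Z ⊆ Ω) : ∃ δ0 > 0, ∃ L > 0,
    (∀ z ∈ Z, ∀ p, ‖p‖ ≤ 2 * δ0 → z + p ∈ Ω ∧ ‖G (z + p)‖ ≤ L) ∧
    (∀ z ∈ Z, ∀ p p', ‖p‖ ≤ 2 * δ0 → ‖p'‖ ≤ 2 * δ0 → ‖G (z + p) - G (z + p')‖ ≤ L * ‖p - p'‖) ∧
    ∀ η > 0, ∃ δ > 0, δ ≤ δ0 ∧ ∀ z ∈ Z, ∀ p p' r, ‖p‖ ≤ δ0 → ‖p'‖ ≤ δ0 → ‖r‖ ≤ δ →
      ‖G (z + p + r) - G (z + p) - (G (z + p' + r) - G (z + p'))‖ ≤ η * ‖p - p'‖ := by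
  haveI : ProperSpace X := FiniteDimensional.proper_real X
  obtain ⟨R, hR, hK⟩ := hZ.exists_cthickening_subset_open hΩ hZΩ
  have hKc : IsCompact (cthickening R Z) := hZ.cthickening
  have hD : ContinuousOn (fderiv ℝ G) Ω := hG.continuousOn_fderiv_of_isOpen hΩ le_rfl
  obtain ⟨L1, hL1⟩ := hKc.exists_bound_of_continuousOn (hG.continuousOn.mono hK)
  obtain ⟨L2, hL2⟩ := hKc.exists_bound_of_continuousOn (hD.mono hK)
  have hmem : ∀ z ∈ Z, ∀ p : X, ‖p‖ ≤ R → z + p ∈ cthickening R Z := fun z hz p hp =>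
    mem_cthickening_of_dist_le _ z R Z hz (by simpa [dist_eq_norm] using hp)
  have hdiff : ∀ x ∈ Ω, HasFDerivAt G (fderiv ℝ G x) x := fun x hx =>
    ((hG.differentiableOn one_ne_zero).differentiableAt (hΩ.mem_nhds hx)).hasFDerivAt
  refine ⟨R / 2, by positivity, max (max L1 L2) 1, by positivity, fun z hz p hp => ?_,
    fun z hz p p' hp hp' => ?_, fun η hη => ?_⟩
  · have := hmem z hz p (by linarith)
    exact ⟨hK this, (hL1 _ this).trans ((le_max_left _ _).trans (le_max_left _ _))⟩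
  · have := (convex_closedBall (0 : X) R).norm_image_sub_le_of_norm_hasFDerivWithin_le
      (f := fun x => G (z + x)) (f' := fun x => fderiv ℝ G (z + x)) (C := max (max L1 L2) 1)
      (fun x hx => by
        have h1 := hdiff _ (hK (hmem z hz x (by simpa using hx)))
        have h2 := (h1.comp x ((hasFDerivAt_id x).const_add z)).hasFDerivWithinAt
          (s := closedBall (0 : X) R)
        rw [ContinuousLinearMap.comp_id] at h2
        exact h2)
      (fun x hx => (hL2 _ (hmem z hz x (by simpa using hx))).trans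
        ((le_max_right _ _).trans (le_max_left _ _)))
      (x := p') (y := p) (by simpa using (by linarith : ‖p'‖ ≤ R))
      (by simpa using (by linarith : ‖p‖ ≤ R))
    exact this
  · obtain ⟨δ, hδ, hu⟩ := Metric.uniformContinuousOn_iff_le.1
      (hKc.uniformContinuousOn_of_continuous (hD.mono hK)) η hη
    refine ⟨min δ (R / 2), by positivity, min_le_right _ _, fun z hz p p' r hp hp' hr => ?_⟩
    have r1 := hr.trans (min_le_left _ _)
    have r2 := hr.trans (min_le_right _ _)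
    have m1 : ∀ x ∈ closedBall (0 : X) (R / 2), z + x ∈ cthickening R Z := fun x hx =>
      hmem z hz x (by have : ‖x‖ ≤ R / 2 := by simpa using hx
                      linarith)
    have m2 : ∀ x ∈ closedBall (0 : X) (R / 2), z + x + r ∈ cthickening R Z := fun x hx => by
      rw [add_assoc]
      have h1 : ‖x‖ ≤ R / 2 := by simpa using hx
      exact hmem z hz _ (by linarith [norm_add_le x r])
    have := (convex_closedBall (0 : X) (R / 2)).norm_image_sub_le_of_norm_hasFDerivWithin_le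
      (f := fun x => G (z + x + r) - G (z + x))
      (f' := fun x => fderiv ℝ G (z + x + r) - fderiv ℝ G (z + x)) (C := η)
      (fun x hx => by
        have h1 := (hdiff _ (hK (m1 x hx))).comp x ((hasFDerivAt_id x).const_add z)
        have h2 := (hdiff _ (hK (m2 x hx))).comp x (((hasFDerivAt_id x).const_add z).add_const r)
        simpa using (h2.fun_sub h1).hasFDerivWithinAt)
      (fun x hx => by
        have := hu _ (m2 x hx) _ (m1 x hx) (by simpa [dist_eq_norm] using r1)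
        rwa [dist_eq_norm] at this)
      (x := p') (y := p) (by simpa using hp') (by simpa using hp)
    exact this

theorem int_bound {f : ℝ → X} (hf : Continuous f) {C : ℝ}
    (h : ∀ t, ‖f t‖ ≤ C * (1 + t ^ 2)⁻¹) :
    Integrable f ∧ (∀ S : Set ℝ, ‖∫ t in S, f t‖ ≤ C * Real.pi) ∧ ‖∫ t, f t‖ ≤ C * Real.pi := by
  have hi : Integrable fun t : ℝ => C * (1 + t ^ 2)⁻¹ := integrable_inv_one_add_sq.const_mul C
  have hI : ∫ t : ℝ, C * (1 + t ^ 2)⁻¹ = C * Real.pi := by
    rw [integral_const_mul, integral_univ_inv_one_add_sq]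
  refine ⟨hi.mono' hf.aestronglyMeasurable (Eventually.of_forall h), fun S => ?_, ?_⟩
  · refine (norm_integral_le_of_norm_le hi.integrableOn (Eventually.of_forall h)).trans ?_
    rw [← hI]
    exact setIntegral_le_integral hi (Eventually.of_forall fun t => (norm_nonneg _).trans (h t))
  · rw [← hI]
    exact norm_integral_le_of_norm_le hi (Eventually.of_forall h)

theorem fix_exists {Y : Type} [MetricSpace Y] [CompleteSpace Y] {S : Set Y} (hS : IsClosed S)
    (hne : S.Nonempty) (R : Y → Y → Prop) (h1 : ∀ x ∈ S, ∃ y ∈ S, R x y)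
    (h2 : ∀ x ∈ S, ∀ x' ∈ S, ∀ y y', R x y → R x' y' → dist y y' ≤ 1 / 2 * dist x x') :
    ∃ x ∈ S, R x x := by
  choose T hT hR using h1
  haveI : CompleteSpace S := hS.completeSpace_coe
  haveI : Nonempty S := hne.to_subtype
  let f : S → S := fun x => ⟨T x.1 x.2, hT x.1 x.2⟩
  have hf : ContractingWith (1 / 2) f := by
    refine ⟨by norm_num, LipschitzWith.of_dist_le_mul fun x y => ?_⟩
    have := h2 x.1 x.2 y.1 y.2 _ _ (hR x.1 x.2) (hR y.1 y.2)
    rw [NNReal.coe_div, NNReal.coe_one, NNReal.coe_ofNat]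
    exact this
  have hx := hf.fixedPoint_isFixedPt
  set x := hf.fixedPoint
  refine ⟨x.1, x.2, ?_⟩
  have := hR x.1 x.2
  have e : T x.1 x.2 = x.1 := congrArg Subtype.val hx
  rwa [e] at this

/-- rescaled displacement -/
noncomputable def PP (u : X) (W : ℝ →ᵇ X) (t : ℝ) : X := (1 + |t|)⁻¹ • (u + ∫ s in (0:ℝ)..t, W s)

theorem PP_norm (u : X) (W : ℝ →ᵇ X) (t : ℝ) : ‖PP u W t‖ ≤ ‖u‖ + ‖W‖ := by
  have h0 : 0 < 1 + |t| := by positivity
  have h1 : ‖∫ s in (0:ℝ)..t, W s‖ ≤ ‖W‖ * |t - 0| :=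
    intervalIntegral.norm_integral_le_of_norm_le_const fun s _ => W.norm_coe_le_norm s
  rw [sub_zero] at h1
  rw [PP, norm_smul, Real.norm_eq_abs, abs_of_pos (inv_pos.2 h0), inv_mul_le_iff₀ h0]
  have h2 := norm_add_le u (∫ s in (0:ℝ)..t, W s)
  nlinarith [norm_nonneg u, norm_nonneg W, abs_nonneg t]

theorem PP_sub (u u' : X) (W W' : ℝ →ᵇ X) (t : ℝ) :
    PP u W t - PP u' W' t = PP (u - u') (W - W') t := by
  simp only [PP, ← smul_sub, BoundedContinuousFunction.coe_sub, Pi.sub_apply]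
  rw [intervalIntegral.integral_sub (W.continuous.intervalIntegrable _ _)
    (W'.continuous.intervalIntegrable _ _)]
  congr 1
  abel

theorem PP_split (u : X) (W : ℝ →ᵇ X) (t : ℝ) : PP u W t = PP u 0 t + PP 0 W t := by
  simp [PP, smul_add]

theorem hasDerivAt_prim (W : ℝ →ᵇ X) (t : ℝ) :
    HasDerivAt (fun t => ∫ s in (0:ℝ)..t, W s) (W t) t := by
  haveI : CompleteSpace X := FiniteDimensional.complete ℝ X
  exact (W.continuous.integral_hasStrictDerivAt 0 t).hasDerivAt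

theorem PP_cont (u : X) (W : ℝ →ᵇ X) : Continuous (PP u W) := by
  have h1 : Continuous fun t => ∫ s in (0:ℝ)..t, W s :=
    continuous_iff_continuousAt.2 fun t => (hasDerivAt_prim W t).continuousAt
  refine Continuous.smul (Continuous.inv₀ (by fun_prop) fun t => by positivity)
    (continuous_const.add h1)

theorem weight_le (t : ℝ) : ((1 + |t|) ^ 2)⁻¹ ≤ (1 + t ^ 2)⁻¹ := by
  refine inv_anti₀ (by positivity) ?_
  nlinarith [abs_nonneg t, sq_abs t]

theorem hasDerivAt_Iic {f : ℝ → X} (hf : Continuous f) (hi : Integrable f) (t : ℝ) :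
    HasDerivAt (fun s => ∫ x in Iic s, f x) (f t) t := by
  haveI : CompleteSpace X := FiniteDimensional.complete ℝ X
  have h1 : (fun s => ∫ x in Iic s, f x) = fun s => (∫ x in Iic 0, f x) + ∫ x in (0:ℝ)..s, f x := by
    funext s
    rw [← intervalIntegral.integral_Iic_sub_Iic hi.integrableOn hi.integrableOn]
    abel
  rw [h1]
  exact (hf.integral_hasStrictDerivAt 0 t).hasDerivAt.const_add _

theorem weak {G : X → X} {Ω : Set X} (hΩ : IsOpen Ω) (hG : ContDiffOn ℝ 1 G Ω)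
    (hcone : ∀ r : ℝ, 0 < r → ∀ z ∈ Ω, r • z ∈ Ω)
    (hom : ∀ r : ℝ, 0 < r → ∀ z, G (r • z) = (r ^ 2)⁻¹ • G z) {a c0 : X}
    (hline : ∀ t : ℝ, c0 + t • a ∈ Ω) (ha : a ∈ Ω) (ha' : -a ∈ Ω) :
    ∃ C, ∀ η > 0, ∃ δ > 0, ∃ ε0 > 0,
    (∀ u, ‖u‖ ≤ δ → Integrable fun t : ℝ => G (c0 + u + t • a)) ∧
    ∀ ε, 0 < ε → ε ≤ ε0 → ∃ Ψ : X → X,
      (∀ u, ‖u‖ ≤ δ → ∃ Q V : ℝ → X, (∀ t, HasDerivAt Q (V t) t) ∧
        (∀ t, HasDerivAt V (ε • G (Q t)) t) ∧ (∀ t, Q t ∈ Ω) ∧ Tendsto V atBot (𝓝 a) ∧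
        Tendsto V atTop (𝓝 (a + ε • Ψ u)) ∧ a + ε • Ψ u ∈ Ω) ∧
      (∀ u u', ‖u‖ ≤ δ → ‖u'‖ ≤ δ → ‖(Ψ u - ∫ t : ℝ, G (c0 + u + t • a)) -
        (Ψ u' - ∫ t : ℝ, G (c0 + u' + t • a))‖ ≤ η * ‖u - u'‖) ∧
      ∀ u, ‖u‖ ≤ δ → ‖Ψ u - ∫ t : ℝ, G (c0 + u + t • a)‖ ≤ C * ε := by
  haveI : CompleteSpace X := FiniteDimensional.complete ℝ X
  have hseg : ∀ b : X, b ∈ Ω → (∀ t : ℝ, c0 + t • b ∈ Ω) → segment ℝ c0 b ⊆ Ω := by
    rintro b hb hl _ ⟨s, t, hs, ht, hst, rfl⟩
    rcases hs.eq_or_lt with rfl | hs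
    · rw [zero_add] at hst
      simpa [hst] using hb
    · have := hcone s hs _ (hl (t / s))
      rwa [smul_add, smul_smul, mul_div_cancel₀ _ hs.ne'] at this
  have hZc : ∀ b : X, IsCompact (segment ℝ c0 b) := fun b => by
    rw [segment_eq_image]
    exact isCompact_Icc.image (by fun_prop)
  obtain ⟨δ0, hδ0, L, hL, B1, B2, B3⟩ := local_bounds hΩ hG ((hZc a).union (hZc (-a)))
    (union_subset (hseg a ha hline) (hseg (-a) ha' fun t => by simpa using hline (-t)))
  set Z := segment ℝ c0 a ∪ segment ℝ c0 (-a) with hZ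
  let z0 : ℝ → X := fun t => (1 + |t|)⁻¹ • (c0 + t • a)
  have hz0 : ∀ t, z0 t ∈ Z := by
    intro t
    have h0 : 0 < 1 + |t| := by positivity
    rcases le_total 0 t with ht | ht
    · refine Or.inl ⟨(1 + |t|)⁻¹, (1 + |t|)⁻¹ * |t|, by positivity, by positivity,
        by field_simp, ?_⟩
      simp only [z0, smul_add, smul_smul, abs_of_nonneg ht]
    · refine Or.inr ⟨(1 + |t|)⁻¹, (1 + |t|)⁻¹ * |t|, by positivity, by positivity,
        by field_simp, ?_⟩
      simp only [z0, smul_add, smul_smul, abs_of_nonpos ht, smul_neg, mul_neg, neg_smul, neg_neg]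
  have hz0c : Continuous z0 :=
    Continuous.smul (Continuous.inv₀ (by fun_prop) fun t => by positivity) (by fun_prop)
  let g : X → (ℝ →ᵇ X) → ℝ → X := fun u W t => ((1 + |t|) ^ 2)⁻¹ • G (z0 t + PP u W t)
  have hQ : ∀ u (W : ℝ →ᵇ X) t, c0 + u + t • a + ∫ s in (0:ℝ)..t, W s =
      (1 + |t|) • (z0 t + PP u W t) := by
    intro u W t
    have h0 : (1 + |t|) ≠ 0 := by positivity
    simp only [z0, PP, ← smul_add, smul_smul, mul_inv_cancel₀ h0, one_smul]
    abel
  have hg : ∀ u (W : ℝ →ᵇ X) t, G (c0 + u + t • a + ∫ s in (0:ℝ)..t, W s) = g u W t := by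
    intro u W t
    rw [hQ, hom _ (by positivity)]
  have hg0 : ∀ u, (fun t : ℝ => G (c0 + u + t • a)) = g u 0 := fun u => by
    funext t
    rw [← hg]; simp
  have hP : ∀ u (W : ℝ →ᵇ X), ‖u‖ ≤ δ0 → ‖W‖ ≤ δ0 → ∀ t, ‖PP u W t‖ ≤ 2 * δ0 :=
    fun u W hu hW t => (PP_norm u W t).trans (by linarith)
  have hsm : ∀ (t : ℝ) (x : X) (C : ℝ), ‖x‖ ≤ C → ‖((1 + |t|) ^ 2)⁻¹ • x‖ ≤ C * (1 + t ^ 2)⁻¹ := by
    intro t x C hx
    rw [norm_smul, Real.norm_eq_abs, abs_of_pos (by positivity), mul_comm]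
    exact mul_le_mul hx (weight_le t) (by positivity) ((norm_nonneg _).trans hx)
  have gc : ∀ u (W : ℝ →ᵇ X), ‖u‖ ≤ δ0 → ‖W‖ ≤ δ0 → Continuous (g u W) := by
    intro u W hu hW
    refine Continuous.smul (Continuous.inv₀ (by fun_prop) fun t => by positivity) ?_
    exact hG.continuousOn.comp_continuous (hz0c.add (PP_cont u W))
      fun t => (B1 _ (hz0 t) _ (hP u W hu hW t)).1
  have gb : ∀ u (W : ℝ →ᵇ X), ‖u‖ ≤ δ0 → ‖W‖ ≤ δ0 → Integrable (g u W) ∧
      (∀ S : Set ℝ, ‖∫ t in S, g u W t‖ ≤ L * Real.pi) ∧ ‖∫ t, g u W t‖ ≤ L * Real.pi :=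
    fun u W hu hW => int_bound (gc u W hu hW) fun t =>
      hsm t _ _ (B1 _ (hz0 t) _ (hP u W hu hW t)).2
  have gl : ∀ u u' (W W' : ℝ →ᵇ X), ‖u‖ ≤ δ0 → ‖W‖ ≤ δ0 → ‖u'‖ ≤ δ0 → ‖W'‖ ≤ δ0 →
      (∀ S : Set ℝ, ‖(∫ t in S, g u W t) - ∫ t in S, g u' W' t‖ ≤
        L * (‖u - u'‖ + ‖W - W'‖) * Real.pi) ∧
      ‖(∫ t, g u W t) - ∫ t, g u' W' t‖ ≤ L * (‖u - u'‖ + ‖W - W'‖) * Real.pi := by
    intro u u' W W' hu hW hu' hW'
    obtain ⟨-, h1, h2⟩ := int_bound (f := fun t => g u W t - g u' W' t)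
      ((gc u W hu hW).sub (gc u' W' hu' hW')) (C := L * (‖u - u'‖ + ‖W - W'‖)) fun t => by
        simp only [g, ← smul_sub]
        refine hsm t _ _ ((B2 _ (hz0 t) _ _ (hP u W hu hW t) (hP u' W' hu' hW' t)).trans ?_)
        rw [PP_sub]
        exact mul_le_mul_of_nonneg_left (PP_norm _ _ _) hL.le
    refine ⟨fun S => ?_, ?_⟩
    · rw [← integral_sub (gb u W hu hW).1.integrableOn (gb u' W' hu' hW').1.integrableOn]
      exact h1 S
    · rw [← integral_sub (gb u W hu hW).1 (gb u' W' hu' hW').1]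
      exact h2
  have hpi := Real.pi_pos
  set M := L * Real.pi with hM
  have hM0 : 0 < M := by positivity
  refine ⟨M * M, fun η hη => ?_⟩
  obtain ⟨δ1, hδ1, hδ10, B4⟩ := B3 (η / 2 / Real.pi) (by positivity)
  have h00 : ‖(0 : ℝ →ᵇ X)‖ ≤ δ0 := by simp [hδ0.le]
  refine ⟨δ0, hδ0, min (δ1 / M) (min (1 / 2 / M) (η / 4 / (M * M))), by positivity,
    fun u hu => by rw [hg0]; exact (gb u 0 hu h00).1, fun ε hε hε0 => ?_⟩
  rw [le_min_iff, le_min_iff] at hε0
  obtain ⟨e1, e2, e3⟩ := hε0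
  rw [le_div_iff₀ hM0] at e1 e2
  rw [le_div_iff₀ (by positivity)] at e3
  have hfix : ∀ u : X, ∃ W : ℝ →ᵇ X, ‖u‖ ≤ δ0 →
      ‖W‖ ≤ δ0 ∧ ∀ s, W s = ε • ∫ t in Iic s, g u W t := by
    intro u
    by_cases hu : ‖u‖ ≤ δ0
    swap
    · exact ⟨0, fun h => absurd h hu⟩
    obtain ⟨W, hW, hR⟩ := fix_exists (S := closedBall (0 : ℝ →ᵇ X) δ0) isClosed_closedBall
      ⟨0, mem_closedBall_self hδ0.le⟩ (fun W W' => ∀ s, W' s = ε • ∫ t in Iic s, g u W t)
      (fun W hW => by
        rw [mem_closedBall_zero_iff] at hW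
        have hb : ∀ s, ‖ε • ∫ t in Iic s, g u W t‖ ≤ δ0 := fun s => by
          rw [norm_smul, Real.norm_eq_abs, abs_of_pos hε]
          have := mul_le_mul_of_nonneg_left ((gb u W hu hW).2.1 (Iic s)) hε.le
          linarith
        refine ⟨ofNormedAddCommGroup _ ((continuous_iff_continuousAt.2 fun s =>
          (hasDerivAt_Iic (gc u W hu hW) (gb u W hu hW).1 s).continuousAt).const_smul ε) δ0 hb,
          ?_, fun s => rfl⟩
        rw [mem_closedBall_zero_iff]
        exact (norm_le hδ0.le).2 hb)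
      (fun W hW W' hW' y y' hy hy' => by
        rw [mem_closedBall_zero_iff] at hW hW'
        refine (dist_le (by positivity)).2 fun s => ?_
        rw [hy, hy', dist_eq_norm, ← smul_sub, norm_smul, Real.norm_eq_abs, abs_of_pos hε,
          dist_eq_norm]
        have h1 := mul_le_mul_of_nonneg_left ((gl u u W W' hu hW hu hW').1 (Iic s)) hε.le
        rw [sub_self, norm_zero, zero_add] at h1
        have h2 := mul_le_mul_of_nonneg_right e2 (norm_nonneg (W - W'))
        nlinarith)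
    exact ⟨W, fun _ => ⟨mem_closedBall_zero_iff.1 hW, hR⟩⟩
  choose W hW using hfix
  have hWn : ∀ u, ‖u‖ ≤ δ0 → ‖W u‖ ≤ ε * M := fun u hu => by
    refine (norm_le (by positivity)).2 fun s => ?_
    rw [(hW u hu).2, norm_smul, Real.norm_eq_abs, abs_of_pos hε]
    exact mul_le_mul_of_nonneg_left ((gb u _ hu (hW u hu).1).2.1 (Iic s)) hε.le
  have hWl : ∀ u u', ‖u‖ ≤ δ0 → ‖u'‖ ≤ δ0 → ‖W u - W u'‖ ≤ 2 * (ε * M) * ‖u - u'‖ := by
    intro u u' hu hu'
    have h1 : ‖W u - W u'‖ ≤ ε * M * (‖u - u'‖ + ‖W u - W u'‖) := by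
      refine (norm_le (by positivity)).2 fun s => ?_
      rw [BoundedContinuousFunction.sub_apply, (hW u hu).2, (hW u' hu').2, ← smul_sub, norm_smul,
        Real.norm_eq_abs, abs_of_pos hε]
      have := mul_le_mul_of_nonneg_left
        ((gl u u' _ _ hu (hW u hu).1 hu' (hW u' hu').1).1 (Iic s)) hε.le
      linarith
    have h2 := mul_le_mul_of_nonneg_right e2 (norm_nonneg (W u - W u'))
    linarith
  refine ⟨fun u => ∫ t, g u (W u) t, fun u hu => ?_, fun u u' hu hu' => ?_, fun u hu => ?_⟩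
  · obtain ⟨w1, w2⟩ := hW u hu
    have hVe : (fun s => a + W u s) = fun s => a + ε • ∫ t in Iic s, g u (W u) t := by
      funext s; rw [w2]
    refine ⟨fun t => c0 + u + t • a + ∫ s in (0:ℝ)..t, W u s, fun s => a + W u s, fun t => ?_,
      fun t => ?_, fun t => ?_, ?_, ?_, ?_⟩
    · simpa using (((hasDerivAt_id t).smul_const a).const_add (c0 + u)).fun_add
        (hasDerivAt_prim (W u) t)
    · rw [hVe, hg]
      exact ((hasDerivAt_Iic (gc u _ hu w1) (gb u _ hu w1).1 t).const_smul ε).const_add a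
    · beta_reduce
      rw [hQ]
      exact hcone _ (by positivity) _ (B1 _ (hz0 t) _ (hP u _ hu w1 t)).1
    · rw [hVe]
      simpa using ((tendsto_integral_Iic_zero (μ := volume) (f := g u (W u))
        tendsto_id).const_smul ε).const_add a
    · rw [hVe]
      exact (((aecover_Iic tendsto_id).integral_tendsto_of_countably_generated
        (gb u _ hu w1).1).const_smul ε).const_add a
    · refine (B1 a (Or.inl (right_mem_segment ℝ c0 a)) _ ?_).1
      rw [norm_smul, Real.norm_eq_abs, abs_of_pos hε]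
      have := mul_le_mul_of_nonneg_left (gb u _ hu w1).2.2 hε.le
      linarith
  · rw [hg0, hg0]
    have w1 := (hW u hu).1
    have w1' := (hW u' hu').1
    have h1 := (gl u u (W u) (W u') hu w1 hu w1').2
    rw [sub_self, norm_zero, zero_add] at h1
    obtain ⟨-, -, h2⟩ := int_bound
      (f := fun t => (g u (W u') t - g u 0 t) - (g u' (W u') t - g u' 0 t))
      (((gc u _ hu w1').sub (gc u 0 hu h00)).sub
      ((gc u' _ hu' w1').sub (gc u' 0 hu' h00))) (C := η / 2 / Real.pi * ‖u - u'‖) fun t => by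
        simp only [g, ← smul_sub]
        refine hsm t _ _ ?_
        rw [PP_split u (W u'), PP_split u' (W u'), ← add_assoc, ← add_assoc]
        refine (B4 _ (hz0 t) _ _ _ ((PP_norm _ _ _).trans (by simpa using hu))
          ((PP_norm _ _ _).trans (by simpa using hu')) ((PP_norm _ _ _).trans ?_)).trans ?_
        · have := hWn u' hu'
          simp only [norm_zero, zero_add]
          linarith
        · rw [PP_sub]
          exact mul_le_mul_of_nonneg_left ((PP_norm _ _ _).trans (by simp)) (by positivity)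
    rw [integral_sub (f := fun t => g u (W u') t - g u 0 t) (g := fun t => g u' (W u') t - g u' 0 t)
      ((gb u _ hu w1').1.sub (gb u 0 hu h00).1)
      ((gb u' _ hu' w1').1.sub (gb u' 0 hu' h00).1), integral_sub (gb u _ hu w1').1 (gb u 0 hu h00).1,
      integral_sub (gb u' _ hu' w1').1 (gb u' 0 hu' h00).1] at h2
    have h3 : η / 2 / Real.pi * ‖u - u'‖ * Real.pi = η / 2 * ‖u - u'‖ := by field_simp
    have h4 := hWl u u' hu hu'
    have h5 := mul_le_mul_of_nonneg_left h4 hM0.le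
    have h6 := mul_le_mul_of_nonneg_right e3 (norm_nonneg (u - u'))
    have h7 := norm_add_le ((∫ t, g u (W u) t) - ∫ t, g u (W u') t)
      (((∫ t, g u (W u') t) - ∫ t, g u 0 t) - ((∫ t, g u' (W u') t) - ∫ t, g u' 0 t))
    have h8 : ((∫ t, g u (W u) t) - ∫ t, g u (W u') t) +
        (((∫ t, g u (W u') t) - ∫ t, g u 0 t) - ((∫ t, g u' (W u') t) - ∫ t, g u' 0 t)) =
        ((∫ t, g u (W u) t) - ∫ t, g u 0 t) - ((∫ t, g u' (W u') t) - ∫ t, g u' 0 t) := by abel
    rw [h8] at h7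
    have h9 : L * ‖W u - W u'‖ * Real.pi = M * ‖W u - W u'‖ := by rw [hM]; ring
    nlinarith
  · rw [hg0]
    have h1 := (gl u u (W u) 0 hu (hW u hu).1 hu h00).2
    rw [sub_self, norm_zero, zero_add, sub_zero] at h1
    have h2 := mul_le_mul_of_nonneg_left (hWn u hu) hM0.le
    have h9 : L * ‖W u‖ * Real.pi = M * ‖W u‖ := by rw [hM]; ring
    nlinarith

end Weak

end Pool.Agent.Lib.MP_e310f3_mp
end

-- part Pool.Agent.Lib.MP_e310f3_mp.Solve
section

/-! Prescribing the outgoing velocity; elementary asymptotics. -/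

set_option autoImplicit false

namespace Pool.Agent.Lib.MP_e310f3_mp

open Set Filter Topology Metric MeasureTheory

variable {X : Type} [NormedAddCommGroup X] [NormedSpace ℝ X]

theorem cesaro_top {Q V : ℝ → X} {b : X} (hQ : ∀ t, HasDerivAt Q (V t) t)
    (hV : Tendsto V atTop (𝓝 b)) : Tendsto (fun t : ℝ => t⁻¹ • Q t) atTop (𝓝 b) := by
  rw [Metric.tendsto_nhds] at hV ⊢
  intro η hη
  obtain ⟨T, hT⟩ := eventually_atTop.1 (hV (η / 2) (by positivity))
  have h1 : ∀ t, T ≤ t → ‖(Q t - t • b) - (Q T - T • b)‖ ≤ η / 2 * ‖t - T‖ := fun t ht =>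
    (convex_Ici T).norm_image_sub_le_of_norm_hasDerivWithin_le (f := fun s => Q s - s • b)
      (f' := fun s => V s - b)
      (fun s _ => by simpa using ((hQ s).fun_sub ((hasDerivAt_id s).smul_const b)).hasDerivWithinAt)
      (fun s hs => by rw [← dist_eq_norm]; exact (hT s hs).le) (mem_Ici.2 le_rfl) ht
  set C := ‖Q T - T • b‖ + η / 2 * |T| with hC
  filter_upwards [eventually_ge_atTop T, eventually_gt_atTop 0,
    eventually_gt_atTop (C / (η / 2))] with t ht ht0 htC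
  rw [div_lt_iff₀ (by positivity)] at htC
  have e : t⁻¹ • Q t - b = t⁻¹ • (Q t - t • b) := by
    rw [smul_sub, smul_smul, inv_mul_cancel₀ ht0.ne', one_smul]
  rw [dist_eq_norm, e, norm_smul, Real.norm_eq_abs, abs_of_pos (inv_pos.2 ht0),
    inv_mul_lt_iff₀ ht0]
  have h2 := h1 t ht
  have h3 := norm_le_insert' (Q t - t • b) (Q T - T • b)
  have h4 : ‖t - T‖ ≤ t + |T| := by
    rw [Real.norm_eq_abs, abs_of_nonneg (by linarith)]
    linarith [neg_abs_le T]
  nlinarith

theorem cesaro_bot {Q V : ℝ → X} {b : X} (hQ : ∀ t, HasDerivAt Q (V t) t)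
    (hV : Tendsto V atBot (𝓝 b)) : Tendsto (fun t : ℝ => t⁻¹ • Q t) atBot (𝓝 b) := by
  have h1 := cesaro_top (Q := fun t => -Q (-t)) (V := fun t => V (-t)) (b := b) (fun t => by
    simpa using ((hQ (-t)).scomp t (hasDerivAt_neg t)).fun_neg) (hV.comp tendsto_neg_atTop_atBot)
  refine (h1.comp tendsto_neg_atBot_atTop).congr fun t => ?_
  simp

theorem shape_top {n : X → ℝ} (hn : Continuous n) (hh : ∀ r : ℝ, 0 < r → ∀ x, n (r • x) = r * n x)
    {Q : ℝ → X} {b : X} (hb : n b ≠ 0) (h : Tendsto (fun t : ℝ => t⁻¹ • Q t) atTop (𝓝 b)) :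
    Tendsto (fun t => (n (Q t))⁻¹ • Q t) atTop (𝓝 ((n b)⁻¹ • b)) := by
  refine ((((hn.tendsto b).comp h).inv₀ hb).smul h).congr' ?_
  filter_upwards [eventually_gt_atTop 0] with t ht
  simp only [Function.comp, hh _ (inv_pos.2 ht), smul_smul]
  congr 1
  field_simp

theorem shape_bot {n : X → ℝ} (hn : Continuous n) (hh : ∀ r : ℝ, 0 < r → ∀ x, n (r • x) = r * n x)
    {Q : ℝ → X} {b : X} (hb : n (-b) ≠ 0) (h : Tendsto (fun t : ℝ => t⁻¹ • Q t) atBot (𝓝 b)) :
    Tendsto (fun t => (n (Q t))⁻¹ • Q t) atBot (𝓝 ((n (-b))⁻¹ • -b)) := by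
  have h1 := shape_top hn hh (Q := fun t => Q (-t)) hb (by
    refine (h.comp tendsto_neg_atTop_atBot).neg.congr fun t => ?_
    simp)
  refine (h1.comp tendsto_neg_atBot_atTop).congr fun t => ?_
  simp

variable [FiniteDimensional ℝ X]

theorem scatter [Nontrivial X] {G : X → X} {Ω : Set X} (hΩ : IsOpen Ω) (hG : ContDiffOn ℝ 1 G Ω)
    (hcone : ∀ r : ℝ, 0 < r → ∀ z ∈ Ω, r • z ∈ Ω)
    (hom : ∀ r : ℝ, 0 < r → ∀ z, G (r • z) = (r ^ 2)⁻¹ • G z) {a c0 : X}
    (hline : ∀ t : ℝ, c0 + t • a ∈ Ω) (ha : a ∈ Ω) (ha' : -a ∈ Ω) (B : X →L[ℝ] X) (A : X ≃L[ℝ] X)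
    (hΦ : HasStrictFDerivAt (fun u => (∫ t : ℝ, G (c0 + u + t • a)) + B u) (A : X →L[ℝ] X) 0) :
    ∀ᶠ z : ℝ × X in 𝓝 (0, ∫ t : ℝ, G (c0 + t • a)), 0 < z.1 → ∃ u, ‖u‖ ≤ 1 ∧ ∃ Q V : ℝ → X,
      (∀ t, HasDerivAt Q (V t) t) ∧ (∀ t, HasDerivAt V (z.1 • G (Q t)) t) ∧ (∀ t, Q t ∈ Ω) ∧
      Tendsto V atBot (𝓝 a) ∧ Tendsto V atTop (𝓝 (a + z.1 • (z.2 - B u))) ∧
      a + z.1 • (z.2 - B u) ∈ Ω := by
  haveI : CompleteSpace X := FiniteDimensional.complete ℝ X
  obtain ⟨C, HC⟩ := weak hΩ hG hcone hom hline ha ha'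
  have hκ : (0 : NNReal) < ‖(A.symm : X →L[ℝ] X)‖₊⁻¹ := inv_pos.2 A.nnnorm_symm_pos
  set κ : NNReal := ‖(A.symm : X →L[ℝ] X)‖₊⁻¹ with hκd
  have hκ' : (0 : ℝ) < κ := hκ
  obtain ⟨s, hs, hap⟩ := hΦ.approximates_deriv_on_nhds (c := κ / 4) (Or.inr (by positivity))
  obtain ⟨δ, hδ, ε0, hε0, -, H⟩ := HC (κ / 4) (by positivity)
  obtain ⟨r, hr, hrs⟩ := Metric.nhds_basis_closedBall.mem_iff.1 hs
  obtain ⟨ρ, hρ, k1, k2, k3⟩ : ∃ ρ > 0, ρ ≤ δ ∧ ρ ≤ r ∧ ρ ≤ 1 :=
    ⟨min δ (min r 1), by positivity, by simp, by simp, by simp⟩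
  have ev1 : ∀ᶠ z : ℝ × X in 𝓝 (0, ∫ t : ℝ, G (c0 + t • a)), z.1 < ε0 :=
    (continuous_fst.tendsto _).eventually (gt_mem_nhds hε0)
  have ev2 : ∀ᶠ z : ℝ × X in 𝓝 (0, ∫ t : ℝ, G (c0 + t • a)),
      C * z.1 + ‖z.2 - ∫ t : ℝ, G (c0 + t • a)‖ < κ / 2 * ρ := by
    have hc : Continuous fun z : ℝ × X => C * z.1 + ‖z.2 - ∫ t : ℝ, G (c0 + t • a)‖ := by fun_prop
    exact (hc.tendsto _).eventually (gt_mem_nhds (by
      simp only [mul_zero, sub_self, norm_zero, add_zero]; positivity))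
  filter_upwards [ev1, ev2] with z h1 h2 hz
  obtain ⟨Ψ, P1, P2, P3⟩ := H z.1 hz h1.le
  have hap' : ApproximatesLinearOn (fun u => Ψ u + B u) (A : X →L[ℝ] X) (closedBall 0 ρ)
      (κ / 2) := by
    intro x hx y hy
    have a1 := hap x (hrs (closedBall_subset_closedBall k2 hx)) y
      (hrs (closedBall_subset_closedBall k2 hy))
    have a2 := P2 x y ((mem_closedBall_zero_iff.1 hx).trans k1)
      ((mem_closedBall_zero_iff.1 hy).trans k1)
    have a3 := norm_add_le _ _ |>.trans (add_le_add a1 a2)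
    refine le_trans (le_of_eq ?_) (a3.trans (le_of_eq ?_))
    · beta_reduce
      congr 1
      generalize (∫ t : ℝ, G (c0 + x + t • a)) = I
      generalize (∫ t : ℝ, G (c0 + y + t • a)) = I'
      abel
    · push_cast; ring
  have hsurj := hap'.surjOn_closedBall_of_nonlinearRightInverse A.toNonlinearRightInverse hρ.le
    Subset.rfl
  obtain ⟨u, hu, hue⟩ := hsurj (a := z.2) (by
    have a1 := P3 0 (by simp [hδ.le])
    rw [add_zero] at a1
    have a2 : ((A.toNonlinearRightInverse.nnnorm : ℝ))⁻¹ = κ := by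
      rw [hκd]; push_cast; rfl
    rw [mem_closedBall, a2, map_zero, add_zero, dist_eq_norm]
    have a3 := norm_sub_le_norm_sub_add_norm_sub z.2 (∫ t : ℝ, G (c0 + t • a)) (Ψ 0)
    rw [norm_sub_rev (∫ t : ℝ, G (c0 + t • a)) (Ψ 0)] at a3
    push_cast
    linarith)
  rw [mem_closedBall_zero_iff] at hu
  have e : z.2 - B u = Ψ u := by rw [← hue]; simp
  exact ⟨u, hu.trans k3, by rw [e]; exact P1 u (hu.trans k1)⟩

end Pool.Agent.Lib.MP_e310f3_mp
end

-- part Pool.Agent.Lib.MP_e310f3_mp.Newton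
section

/-! The Newtonian force field, conservation laws, and the passage to the scattered image. -/

set_option autoImplicit false

namespace Pool.Agent.Lib.MP_e310f3_mp

open Set Filter Topology Metric MeasureTheory
open scoped RealInnerProductSpace

variable {N d : ℕ}

noncomputable def newt (m : Fin N → ℝ) (q : Cfg N d) : Cfg N d :=
  fun i => ∑ j, (m j / ‖q j - q i‖ ^ 3) • (q j - q i)

def Om (N d : ℕ) : Set (Cfg N d) := {q | ∀ i j, i ≠ j → q i ≠ q j}

noncomputable def ip (m : Fin N → ℝ) (x y : Cfg N d) : ℝ := ∑ i, m i * ⟪x i, y i⟫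

noncomputable def pot (m : Fin N → ℝ) (q : Cfg N d) : ℝ :=
  ∑ i, ∑ j ∈ Finset.univ.filter (fun j => i < j), m i * m j / ‖q i - q j‖

theorem isOpen_Om : IsOpen (Om N d) := by
  have : Om N d = ⋂ i, ⋂ j, {q : Cfg N d | i ≠ j → q i ≠ q j} := by
    ext q; simp [Om]
  rw [this]
  refine isOpen_iInter_of_finite fun i => isOpen_iInter_of_finite fun j => ?_
  by_cases h : i = j
  · simp [h]
  · simp only [ne_eq, h, not_false_eq_true, forall_const]
    exact isOpen_ne_fun (continuous_apply i) (continuous_apply j)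

theorem newt_smooth (m : Fin N → ℝ) : ContDiffOn ℝ 1 (newt m) (Om N d) := by
  intro q hq
  refine ContDiffAt.contDiffWithinAt ?_
  refine contDiffAt_pi.2 fun i => ContDiffAt.sum fun j _ => ?_
  by_cases h : j = i
  · subst h
    simp only [sub_self, smul_zero]
    exact contDiffAt_const
  · have h1 : ContDiffAt ℝ 1 (fun q : Cfg N d => q j - q i) q := by fun_prop
    have h2 : q j - q i ≠ 0 := sub_ne_zero.2 (hq j i h)
    exact (contDiffAt_const.div ((h1.norm ℝ h2).pow 3) (by positivity)).smul h1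

theorem Om_smul {r : ℝ} (hr : r ≠ 0) {z : Cfg N d} (hz : z ∈ Om N d) : r • z ∈ Om N d :=
  fun i j h e => hz i j h (smul_right_injective _ hr e)

theorem newt_hom (m : Fin N → ℝ) (r : ℝ) (hr : 0 < r) (z : Cfg N d) :
    newt m (r • z) = (r ^ 2)⁻¹ • newt m z := by
  funext i
  simp only [newt, Pi.smul_apply, ← smul_sub, Finset.smul_sum, smul_smul, norm_smul,
    Real.norm_eq_abs, abs_of_pos hr]
  refine Finset.sum_congr rfl fun j _ => ?_
  congr 1
  by_cases h : ‖z j - z i‖ = 0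
  · simp [h]
  · field_simp

theorem sum_antisymm {M : Type} [AddCommGroup M] [Module ℝ M] (F : Fin N → Fin N → M)
    (h : ∀ i j, F j i = -F i j) : ∑ i, ∑ j, F i j = 0 := by
  have h1 : ∑ i, ∑ j, F i j = -∑ i, ∑ j, F i j := by
    conv_lhs => rw [Finset.sum_comm]
    rw [← Finset.sum_neg_distrib]
    refine Finset.sum_congr rfl fun i _ => ?_
    rw [← Finset.sum_neg_distrib]
    exact Finset.sum_congr rfl fun j _ => h i j
  have h2 : (2 : ℝ) • ∑ i, ∑ j, F i j = 0 := by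
    rw [two_smul]; nth_rewrite 1 [h1]; abel
  exact (smul_eq_zero.1 h2).resolve_left two_ne_zero

theorem pair_antisymm (F : Fin N → Fin N → EuclideanSpace ℝ (Fin d))
    (h : ∀ i j, F j i = -F i j) (u : Cfg N d) :
    ∑ i, ⟪∑ j, F i j, u i⟫ = -(1 / 2) * ∑ i, ∑ j, ⟪F i j, u j - u i⟫ := by
  have h1 := sum_antisymm (fun i j => ⟪F i j, u j + u i⟫) (fun i j => by
    rw [h, inner_neg_left, add_comm])
  simp only [inner_add_right, inner_sub_right, Finset.sum_add_distrib, Finset.sum_sub_distrib,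
    sum_inner] at h1 ⊢
  linarith

theorem newt_centered (m : Fin N → ℝ) (q : Cfg N d) : ∑ i, m i • newt m q i = 0 := by
  simp only [newt, Finset.smul_sum, smul_smul]
  refine sum_antisymm _ fun i j => ?_
  rw [norm_sub_rev (q i), ← smul_neg, neg_sub]
  congr 1
  ring

theorem half_sum (f : Fin N → Fin N → ℝ) (h : ∀ i j, f j i = f i j) (h0 : ∀ i, f i i = 0) :
    ∑ i, ∑ j ∈ Finset.univ.filter (fun j => i < j), f i j = 1 / 2 * ∑ i, ∑ j, f i j := by
  have h1 := sum_antisymm (fun i j => if i < j then f i j else -f i j) (fun i j => by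
    rcases lt_trichotomy i j with e | rfl | e
    · simp [e, e.not_gt, h]
    · simp [h0]
    · simp [e, e.not_gt, h])
  have h2 : ∀ i j, (if i < j then f i j else -f i j) = 2 * (if i < j then f i j else 0) - f i j := by
    intro i j; split_ifs <;> ring
  simp only [h2, Finset.sum_sub_distrib, ← Finset.mul_sum] at h1
  simp only [Finset.sum_filter]
  linarith

theorem energy_deriv (m : Fin N → ℝ) {q v : ℝ → Cfg N d} (hq : ∀ t, HasDerivAt q (v t) t)
    (hv : ∀ t, HasDerivAt v (newt m (q t)) t) (hO : ∀ t, q t ∈ Om N d) (t : ℝ) :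
    HasDerivAt (fun t => (1 / 2 : ℝ) * ∑ i, m i * ‖v t i‖ ^ 2 - pot m (q t)) 0 t := by
  have hqi : ∀ i, HasDerivAt (fun t => q t i) (v t i) t := fun i => hasDerivAt_pi.1 (hq t) i
  have hvi : ∀ i, HasDerivAt (fun t => v t i) (newt m (q t) i) t := fun i => hasDerivAt_pi.1 (hv t) i
  have h1 : HasDerivAt (fun t => (1 / 2 : ℝ) * ∑ i, m i * ‖v t i‖ ^ 2)
      ((1 / 2 : ℝ) * ∑ i, m i * (2 * ⟪v t i, newt m (q t) i⟫)) t :=
    (HasDerivAt.fun_sum fun i _ => ((hvi i).norm_sq.const_mul (m i))).const_mul _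
  have h2 : HasDerivAt (fun t => pot m (q t)) (∑ i, ∑ j ∈ Finset.univ.filter (fun j => i < j),
      -(m i * m j / ‖q t j - q t i‖ ^ 3 * ⟪q t j - q t i, v t j - v t i⟫)) t := by
    refine HasDerivAt.fun_sum fun i _ => HasDerivAt.fun_sum fun j hj => ?_
    have hij : i ≠ j := (Finset.mem_filter.1 hj).2.ne
    have hne : q t i - q t j ≠ 0 := sub_ne_zero.2 (hO t i j hij)
    have hn : ‖q t i - q t j‖ ≠ 0 := norm_ne_zero_iff.2 hne
    have a1 := ((hqi i).fun_sub (hqi j)).norm_sq.sqrt (by positivity)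
    simp only [Real.sqrt_sq (norm_nonneg _)] at a1
    have a2 := (hasDerivAt_const t (m i * m j)).fun_div a1 hn
    refine a2.congr_deriv ?_
    rw [norm_sub_rev (q t j), ← neg_sub (q t i), ← neg_sub (v t i), inner_neg_neg]
    field_simp
    ring
  refine (h1.fun_sub h2).congr_deriv ?_
  rw [half_sum _ (fun i j => by
    rw [norm_sub_rev (q t i), ← neg_sub (q t j), ← neg_sub (v t j), inner_neg_neg, mul_comm (m j)])
    (fun i => by simp)]
  have h3 := pair_antisymm (fun i j => (m i * m j / ‖q t j - q t i‖ ^ 3) • (q t j - q t i))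
    (fun i j => by rw [norm_sub_rev (q t i), ← smul_neg, neg_sub, mul_comm (m j)]) (v t)
  simp only [real_inner_smul_left] at h3
  have h4 : ∀ i, m i * (2 * ⟪v t i, newt m (q t) i⟫) =
      2 * ⟪∑ j, (m i * m j / ‖q t j - q t i‖ ^ 3) • (q t j - q t i), v t i⟫ := by
    intro i
    rw [real_inner_comm, newt, sum_inner, sum_inner, Finset.mul_sum, Finset.mul_sum,
      Finset.mul_sum]
    refine Finset.sum_congr rfl fun j _ => ?_
    simp only [real_inner_smul_left]
    ring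
  simp only [h4, ← Finset.mul_sum, h3, Finset.sum_neg_distrib]
  ring

theorem pot_zero (m : Fin N → ℝ) {l : Filter ℝ} (hl : Tendsto (fun t : ℝ => t⁻¹) l (𝓝 0))
    (hl0 : ∀ᶠ t in l, t ≠ 0) {q : ℝ → Cfg N d} {b : Cfg N d} (hb : b ∈ Om N d)
    (h : Tendsto (fun t : ℝ => t⁻¹ • q t) l (𝓝 b)) : Tendsto (fun t => pot m (q t)) l (𝓝 0) := by
  have : Tendsto (fun t => pot m (q t)) l
      (𝓝 (∑ i : Fin N, ∑ j ∈ Finset.univ.filter (fun j => i < j), (0:ℝ))) := by
    refine tendsto_finset_sum _ fun i _ => tendsto_finset_sum _ fun j hj => ?_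
    have hij : i ≠ j := (Finset.mem_filter.1 hj).2.ne
    have h1 := ((tendsto_pi_nhds.1 h i).sub (tendsto_pi_nhds.1 h j)).norm
    have h2 := (hl.abs.const_mul (m i * m j)).div h1
      (norm_ne_zero_iff.2 (sub_ne_zero.2 (hb i j hij)))
    simp only [abs_zero, mul_zero, zero_div] at h2
    refine h2.congr' (hl0.mono fun t ht => ?_)
    have h3 : |t⁻¹| ≠ 0 := abs_ne_zero.2 (inv_ne_zero ht)
    simp only [Pi.div_apply, Pi.smul_apply, ← smul_sub, norm_smul, Real.norm_eq_abs]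
    rw [mul_comm (m i * m j), mul_div_mul_left _ _ h3]
  simpa using this

theorem massNorm_cont (m : Fin N → ℝ) : Continuous (massNorm (d := d) m) := by
  unfold massNorm
  fun_prop

theorem massNorm_smul (m : Fin N → ℝ) (r : ℝ) (hr : 0 < r) (x : Cfg N d) :
    massNorm m (r • x) = r * massNorm m x := by
  unfold massNorm
  rw [← Real.sqrt_sq hr.le, ← Real.sqrt_mul (sq_nonneg r), Real.sqrt_sq hr.le, Finset.mul_sum]
  congr 1
  refine Finset.sum_congr rfl fun i _ => ?_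
  rw [Pi.smul_apply, norm_smul, Real.norm_eq_abs, mul_pow, sq_abs]
  ring

theorem const_of_deriv {M : Type} [NormedAddCommGroup M] [NormedSpace ℝ M] {f : ℝ → M}
    (h : ∀ t, HasDerivAt f 0 t) (s t : ℝ) : f s = f t :=
  is_const_of_deriv_eq_zero (fun x => (h x).differentiableAt) (fun x => (h x).deriv) s t

theorem const_lim {M : Type} [NormedAddCommGroup M] [NormedSpace ℝ M] {f : ℝ → M}
    (h : ∀ t, HasDerivAt f 0 t) {l : Filter ℝ} [l.NeBot] {c : M} (hc : Tendsto f l (𝓝 c)) (t : ℝ) :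
    f t = c := by
  have : f = fun _ => f t := funext fun s => const_of_deriv h s t
  rw [this] at hc
  exact tendsto_nhds_unique tendsto_const_nhds hc

theorem realize {m : Fin N → ℝ} (hM : ∑ i, m i ≠ 0) {ε : ℝ} (hε : 0 < ε) {Q V : ℝ → Cfg N d}
    {a b : Cfg N d} (hQ : ∀ t, HasDerivAt Q (V t) t) (hV : ∀ t, HasDerivAt V (ε • newt m (Q t)) t)
    (hO : ∀ t, Q t ∈ Om N d) (h1 : Tendsto V atBot (𝓝 a)) (h2 : Tendsto V atTop (𝓝 b))
    (ha : a ∈ Om N d) (hb : b ∈ Om N d) (hc : ∑ i, m i • a i = 0) (hn : massNorm m (-a) ≠ 0) :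
    ∑ i, m i • b i = 0 ∧ ∑ i, m i * ‖b i‖ ^ 2 = ∑ i, m i * ‖a i‖ ^ 2 ∧
    (massNorm m b)⁻¹ • b ∈ scatteredImage m ((1 / 2 : ℝ) * ∑ i, m i * ‖a i‖ ^ 2)
      ((massNorm m (-a))⁻¹ • -a) := by
  have cV : ∀ t, HasDerivAt (fun t => ∑ i, m i • V t i) 0 t := fun t => by
    have := HasDerivAt.fun_sum (u := Finset.univ) fun i _ =>
      (hasDerivAt_pi.1 (hV t) i).const_smul (m i)
    simp only [Pi.smul_apply, smul_comm (m _) ε, ← Finset.smul_sum, newt_centered, smul_zero] at this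
    exact this
  have lim : ∀ {l : Filter ℝ} {x : Cfg N d}, Tendsto V l (𝓝 x) →
      Tendsto (fun t => ∑ i, m i • V t i) l (𝓝 (∑ i, m i • x i)) := fun h =>
    tendsto_finset_sum _ fun i _ => (tendsto_pi_nhds.1 h i).const_smul (m i)
  have V0 : ∀ t, ∑ i, m i • V t i = 0 := fun t => (const_lim cV (lim h1) t).trans hc
  have cQ : ∀ t, ∑ i, m i • Q t i = ∑ i, m i • Q 0 i := fun t =>
    const_of_deriv (f := fun t => ∑ i, m i • Q t i) (fun t => by
      have := HasDerivAt.fun_sum (u := Finset.univ) fun i _ =>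
        (hasDerivAt_pi.1 (hQ t) i).const_smul (m i)
      rw [V0] at this
      exact this) t 0
  let cm : Cfg N d := fun _ => (∑ i, m i)⁻¹ • ∑ i, m i • Q 0 i
  let q : ℝ → Cfg N d := fun t => ε⁻¹ • (Q (ε * t) - cm)
  let v : ℝ → Cfg N d := fun t => V (ε * t)
  have hlin : ∀ t, HasDerivAt (fun t : ℝ => ε * t) ε t := fun t => by
    simpa using (hasDerivAt_id t).const_mul ε
  have hq : ∀ t, HasDerivAt q (v t) t := fun t => by
    have := (((hQ (ε * t)).scomp t (hlin t)).sub_const cm).const_smul ε⁻¹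
    rwa [smul_smul, inv_mul_cancel₀ hε.ne', one_smul] at this
  have hsub : ∀ x : Cfg N d, ∀ i j, (x - cm) j - (x - cm) i = x j - x i := fun x i j => by
    simp [cm]
  have hv : ∀ t, HasDerivAt v (newt m (q t)) t := fun t => by
    have := (hV (ε * t)).scomp t (hlin t)
    have e : newt m (q t) = ε • ε • newt m (Q (ε * t)) := by
      rw [newt_hom m _ (inv_pos.2 hε), inv_pow, inv_inv, smul_smul, sq]
      congr 1
      funext i
      simp only [newt, hsub]
    rw [e]
    exact this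
  have hqO : ∀ t, q t ∈ Om N d := fun t => Om_smul (inv_ne_zero hε.ne') fun i j hij e =>
    hO (ε * t) i j hij (by
      have := hsub (Q (ε * t)) i j
      rw [e, sub_self] at this
      exact (sub_eq_zero.1 this.symm).symm)
  have v1 : Tendsto v atBot (𝓝 a) := h1.comp (tendsto_id.const_mul_atBot hε)
  have v2 : Tendsto v atTop (𝓝 b) := h2.comp (tendsto_id.const_mul_atTop hε)
  have q1 := cesaro_bot hq v1
  have q2 := cesaro_top hq v2
  have kin : ∀ {l : Filter ℝ} {x : Cfg N d}, Tendsto v l (𝓝 x) →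
      Tendsto (fun t => (1 / 2 : ℝ) * ∑ i, m i * ‖v t i‖ ^ 2) l
        (𝓝 ((1 / 2 : ℝ) * ∑ i, m i * ‖x i‖ ^ 2)) := fun h =>
    (tendsto_finset_sum _ fun i _ =>
      (((tendsto_pi_nhds.1 h i).norm.pow 2).const_mul (m i))).const_mul _
  have E1 := const_lim (energy_deriv m hq hv hqO) ((kin v1).sub
    (pot_zero m tendsto_inv_atBot_zero (eventually_ne_atBot 0) ha q1))
  have E2 := const_lim (energy_deriv m hq hv hqO) ((kin v2).sub
    (pot_zero m tendsto_inv_atTop_zero (eventually_ne_atTop 0) hb q2))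
  have hE : ∑ i, m i * ‖b i‖ ^ 2 = ∑ i, m i * ‖a i‖ ^ 2 := by
    have := (E1 0).symm.trans (E2 0)
    linarith
  have hnb : massNorm m b ≠ 0 := by
    unfold massNorm at hn ⊢
    simpa [hE] using hn
  refine ⟨(const_lim cV (lim h2) 0).symm.trans (V0 0), hE,
    Om_smul (inv_ne_zero hnb) hb, q, v, hq, hv, hqO, fun t => ?_, fun t => ?_,
    shape_bot (massNorm_cont m) (massNorm_smul m) hn q1,
    shape_top (massNorm_cont m) (massNorm_smul m) hnb q2⟩
  · simp only [q, cm, Pi.smul_apply, Pi.sub_apply, smul_comm (m _) ε⁻¹, ← Finset.smul_sum, smul_sub,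
      Finset.sum_sub_distrib, ← Finset.sum_smul, cQ (ε * t)]
    rw [smul_smul (∑ i, m i), mul_inv_cancel₀ hM, one_smul, sub_self]
  · have := E1 t
    rw [sub_zero] at this
    exact this

end Pool.Agent.Lib.MP_e310f3_mp
end

-- part Pool.Agent.Lib.MP_e310f3_mp.Plane
section

/-! The first-order deflection map in the plane. -/

set_option autoImplicit false

namespace Pool.Agent.Lib.MP_e310f3_mp

open Set Filter Topology Metric MeasureTheory
open scoped RealInnerProductSpace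

abbrev E2 := EuclideanSpace ℝ (Fin 2)

noncomputable def rot : E2 →ₗ[ℝ] E2 where
  toFun v := !₂[-v 1, v 0]
  map_add' x y := by ext i; fin_cases i <;> simp [add_comm]
  map_smul' c x := by ext i; fin_cases i <;> simp

@[simp] theorem rot0 (v : E2) : rot v 0 = -v 1 := rfl
@[simp] theorem rot1 (v : E2) : rot v 1 = v 0 := rfl

theorem inner2 (x y : E2) : ⟪x, y⟫ = x 0 * y 0 + x 1 * y 1 := by
  simp [PiLp.inner_apply, Fin.sum_univ_two, mul_comm]

theorem ext2 {x y : E2} (h0 : x 0 = y 0) (h1 : x 1 = y 1) : x = y := by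
  ext i; fin_cases i
  · exact h0
  · exact h1

theorem rot_id (r α : E2) : rot (‖r‖ ^ 2 • α - ⟪r, α⟫ • r) = ⟪rot α, r⟫ • r := by
  rw [← real_inner_self_eq_norm_sq]
  refine ext2 ?_ ?_ <;> simp [inner2, -inner_self_eq_norm_sq_to_K, -real_inner_self_eq_norm_sq] <;> ring

theorem inner_rot_self (α : E2) : ⟪rot α, α⟫ = 0 := by simp [inner2]; ring

variable {N : ℕ}

noncomputable def be (a : Cfg N 2) (i j : Fin N) : Cfg N 2 →ₗ[ℝ] ℝ where
  toFun u := ⟪rot (a j - a i), u j - u i⟫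
  map_add' x y := by rw [← inner_add_right]; congr 1; simp only [Pi.add_apply]; abel
  map_smul' c x := by simp [← smul_sub, real_inner_smul_right]

theorem be_apply (a : Cfg N 2) (i j : Fin N) (u : Cfg N 2) :
    be a i j u = ⟪rot (a j - a i), u j - u i⟫ := rfl

theorem be_symm (a : Cfg N 2) (i j : Fin N) (u : Cfg N 2) : be a j i u = be a i j u := by
  rw [be_apply, be_apply, ← neg_sub (a j), ← neg_sub (u j), map_neg, inner_neg_neg]

theorem be_self (a : Cfg N 2) (i j : Fin N) : be a i j a = 0 := inner_rot_self _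

theorem be_diag (a : Cfg N 2) (i : Fin N) (u : Cfg N 2) : be a i i u = 0 := by simp [be_apply]

noncomputable def Phi (m : Fin N → ℝ) (a c : Cfg N 2) : Cfg N 2 :=
  fun i => ∑ j, (2 * m j / (‖a j - a i‖ * be a i j c)) • rot (a j - a i)

theorem line_mem {a c : Cfg N 2} (hc : ∀ i j, i ≠ j → be a i j c ≠ 0) (t : ℝ) :
    c + t • a ∈ Om N 2 := by
  intro i j hij e
  refine hc i j hij ?_
  have : be a i j (c + t • a) = 0 := by rw [be_apply, e, sub_self, inner_zero_right]
  rwa [map_add, map_smul, be_self, smul_zero, add_zero] at this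

theorem unit_deriv {p α : E2} (hβ : ⟪rot α, p⟫ ≠ 0) (μ t : ℝ) :
    HasDerivAt (fun t : ℝ => (μ / ⟪rot α, p⟫) • rot (‖p + t • α‖⁻¹ • (p + t • α)))
      ((μ / ‖p + t • α‖ ^ 3) • (p + t • α)) t := by
  have hβ' : ⟪rot α, p + t • α⟫ = ⟪rot α, p⟫ := by
    rw [inner_add_right, real_inner_smul_right, inner_rot_self, mul_zero, add_zero]
  have hr : p + t • α ≠ 0 := fun h => hβ (by rw [← hβ', h, inner_zero_right])
  have hn : ‖p + t • α‖ ≠ 0 := norm_ne_zero_iff.2 hr
  have h1 : HasDerivAt (fun t : ℝ => p + t • α) α t := by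
    simpa using ((hasDerivAt_id t).smul_const α).const_add p
  have h2 := h1.norm_sq.sqrt (by positivity)
  simp only [Real.sqrt_sq (norm_nonneg _)] at h2
  have h3 := (h2.fun_inv hn).fun_smul h1
  have h4 := ((LinearMap.toContinuousLinearMap rot).hasFDerivAt.comp_hasDerivAt t h3).const_smul
    (μ / ⟪rot α, p⟫)
  refine h4.congr_deriv ?_
  have h5 := rot_id (p + t • α) α
  rw [hβ'] at h5
  generalize p + t • α = r at hn h5
  have e : ‖r‖⁻¹ • α + (-(2 * ⟪r, α⟫ / (2 * ‖r‖)) / ‖r‖ ^ 2) • r =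
      (‖r‖ ^ 3)⁻¹ • (‖r‖ ^ 2 • α - ⟪r, α⟫ • r) := by
    rw [smul_sub, smul_smul, smul_smul, sub_eq_add_neg, ← neg_smul]
    congr 2 <;> field_simp
  rw [LinearMap.coe_toContinuousLinearMap', e, map_smul, h5, smul_smul, smul_smul]
  congr 1
  field_simp

theorem line_integral (m : Fin N → ℝ) {a c : Cfg N 2} (ha : a ∈ Om N 2)
    (hc : ∀ i j, i ≠ j → be a i j c ≠ 0) (hi : Integrable fun t : ℝ => newt m (c + t • a)) :
    ∫ t : ℝ, newt m (c + t • a) = Phi m a c := by
  have hrot : Continuous rot := rot.continuous_of_finiteDimensional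
  have hlin : ∀ p α : E2, ∀ t, HasDerivAt (fun t : ℝ => p + t • α) α t := fun p α t => by
    simpa using ((hasDerivAt_id t).smul_const α).const_add p
  have hn : ∀ r : ℝ, 0 < r → ∀ x : E2, ‖r • x‖ = r * ‖x‖ := fun r hr x => by
    rw [norm_smul, Real.norm_eq_abs, abs_of_pos hr]
  let f : ℝ → Cfg N 2 := fun t i => ∑ j, (m j / ⟪rot (a j - a i), c j - c i⟫) •
    rot (‖(c j - c i) + t • (a j - a i)‖⁻¹ • ((c j - c i) + t • (a j - a i)))
  have hd : ∀ t, HasDerivAt f (newt m (c + t • a)) t := fun t => by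
    refine hasDerivAt_pi.2 fun i => HasDerivAt.fun_sum fun j _ => ?_
    have e : (c + t • a) j - (c + t • a) i = (c j - c i) + t • (a j - a i) := by
      simp only [Pi.add_apply, Pi.smul_apply, smul_sub]; abel
    rw [e]
    by_cases h : i = j
    · subst h
      simpa using hasDerivAt_const t (0 : E2)
    · exact unit_deriv (hc i j h) (m j) t
  have top : Tendsto f atTop (𝓝 fun i => ∑ j, (m j / ⟪rot (a j - a i), c j - c i⟫) •
      rot (‖a j - a i‖⁻¹ • (a j - a i))) := by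
    refine tendsto_pi_nhds.2 fun i => tendsto_finset_sum _ fun j _ => ?_
    by_cases h : i = j
    · subst h; simp
    · exact ((hrot.tendsto _).comp (shape_top continuous_norm hn
        (norm_ne_zero_iff.2 (sub_ne_zero.2 (ha j i (Ne.symm h))))
        (cesaro_top (hlin _ _) tendsto_const_nhds))).const_smul _
  have bot : Tendsto f atBot (𝓝 fun i => ∑ j, (m j / ⟪rot (a j - a i), c j - c i⟫) •
      rot (‖-(a j - a i)‖⁻¹ • -(a j - a i))) := by
    refine tendsto_pi_nhds.2 fun i => tendsto_finset_sum _ fun j _ => ?_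
    by_cases h : i = j
    · subst h; simp
    · exact ((hrot.tendsto _).comp (shape_bot continuous_norm hn
        (norm_ne_zero_iff.2 (neg_ne_zero.2 (sub_ne_zero.2 (ha j i (Ne.symm h)))))
        (cesaro_bot (hlin _ _) tendsto_const_nhds))).const_smul _
  rw [integral_of_hasDerivAt_of_tendsto hd hi bot top]
  funext i
  simp only [Pi.sub_apply, Phi, ← Finset.sum_sub_distrib, be_apply]
  refine Finset.sum_congr rfl fun j _ => ?_
  rw [norm_neg, smul_neg, map_neg, smul_neg, sub_neg_eq_add, map_smul, smul_smul, ← add_smul]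
  congr 1
  ring

theorem ip_Phi (m : Fin N → ℝ) (a c u : Cfg N 2) : ip m (Phi m a c) u =
    -(1 / 2) * ∑ i, ∑ j, 2 * m i * m j / ‖a j - a i‖ / be a i j c * be a i j u := by
  have h := pair_antisymm (fun i j => (2 * m i * m j / ‖a j - a i‖ / be a i j c) • rot (a j - a i))
    (fun i j => by
      rw [be_symm, norm_sub_rev (a i), ← neg_sub (a j), map_neg, smul_neg]
      congr 2; ring) u
  simp only [real_inner_smul_left, ← be_apply] at h
  rw [← h, ip]
  refine Finset.sum_congr rfl fun i _ => ?_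
  rw [← real_inner_smul_left, Phi, Finset.smul_sum]
  congr 1
  refine Finset.sum_congr rfl fun j _ => ?_
  rw [smul_smul]
  congr 1
  ring

/-- twice the signed area -/
def ar (a : Cfg N 2) (i j k : Fin N) : ℝ :=
  (a j 0 - a i 0) * (a k 1 - a i 1) - (a j 1 - a i 1) * (a k 0 - a i 0)

theorem be_coord (a : Cfg N 2) (i j : Fin N) (u : Cfg N 2) : be a i j u =
    (a j 0 - a i 0) * (u j 1 - u i 1) - (a j 1 - a i 1) * (u j 0 - u i 0) := by
  simp [be_apply, inner2]; ring

theorem rigid {a u : Cfg N 2} {i j k : Fin N} (h : ar a i j k ≠ 0)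
    (hu : ∀ p q, be a p q u = 0) : ∃ (l : ℝ) (τ : E2), ∀ p, u p = τ + l • a p := by
  have hij := hu i j
  have hik := hu i k
  have hjk := hu j k
  simp only [be_coord] at hij hik hjk
  unfold ar at h
  obtain ⟨l, hl⟩ : ∃ l : ℝ, l * ((a j 0 - a i 0) * (a k 1 - a i 1) -
      (a j 1 - a i 1) * (a k 0 - a i 0)) =
      (u j 0 - u i 0) * (a k 1 - a i 1) - (u j 1 - u i 1) * (a k 0 - a i 0) :=
    ⟨_, div_mul_cancel₀ _ h⟩
  have j0 : u j 0 - u i 0 = l * (a j 0 - a i 0) := mul_left_cancel₀ h (by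
    linear_combination -(a j 0 - a i 0) * hl + (a k 0 - a i 0) * hij)
  have j1 : u j 1 - u i 1 = l * (a j 1 - a i 1) := mul_left_cancel₀ h (by
    linear_combination -(a j 1 - a i 1) * hl + (a k 1 - a i 1) * hij)
  have k0 : u k 0 - u i 0 = l * (a k 0 - a i 0) := mul_left_cancel₀ h (by
    linear_combination -(a k 0 - a i 0) * hl + (a k 0 - a i 0) * (hij + hik - hjk) -
      (a j 0 - a i 0) * hik)
  have k1 : u k 1 - u i 1 = l * (a k 1 - a i 1) := mul_left_cancel₀ h (by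
    linear_combination -(a k 1 - a i 1) * hl + (a k 1 - a i 1) * (hij + hik - hjk) -
      (a j 1 - a i 1) * hik)
  refine ⟨l, u i - l • a i, fun p => ?_⟩
  have p1 := hu i p
  have p2 := hu j p
  have p3 := hu k p
  simp only [be_coord] at p1 p2 p3
  have x1 : (a j 0 - a i 0) * (u p 1 - u i 1 - l * (a p 1 - a i 1)) -
      (a j 1 - a i 1) * (u p 0 - u i 0 - l * (a p 0 - a i 0)) = 0 := by
    linear_combination p1 - p2 - (a p 0 - a j 0) * j1 + (a p 1 - a j 1) * j0
  have x2 : (a k 0 - a i 0) * (u p 1 - u i 1 - l * (a p 1 - a i 1)) -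
      (a k 1 - a i 1) * (u p 0 - u i 0 - l * (a p 0 - a i 0)) = 0 := by
    linear_combination p1 - p3 - (a p 0 - a k 0) * k1 + (a p 1 - a k 1) * k0
  have y0 : u p 0 - u i 0 - l * (a p 0 - a i 0) = 0 := mul_left_cancel₀ h (by
    linear_combination (a k 0 - a i 0) * x1 - (a j 0 - a i 0) * x2)
  have y1 : u p 1 - u i 1 - l * (a p 1 - a i 1) = 0 := mul_left_cancel₀ h (by
    linear_combination (a k 1 - a i 1) * x1 - (a j 1 - a i 1) * x2)
  refine ext2 ?_ ?_ <;> simp <;> linarith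

end Pool.Agent.Lib.MP_e310f3_mp
end

-- part Pool.Agent.Lib.MP_e310f3_mp.Cone
section

/-! Cones over compact sets of good directions lie in the scattered image. -/

set_option autoImplicit false

namespace Pool.Agent.Lib.MP_e310f3_mp

open Set Filter Topology Metric MeasureTheory
open scoped RealInnerProductSpace

variable {N : ℕ}

section ip
variable {d : ℕ} (m : Fin N → ℝ)

theorem ip_add (x y z : Cfg N d) : ip m (x + y) z = ip m x z + ip m y z := by
  simp [ip, inner_add_left, mul_add, Finset.sum_add_distrib]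

theorem ip_smul (r : ℝ) (x z : Cfg N d) : ip m (r • x) z = r * ip m x z := by
  simp only [ip, Pi.smul_apply, real_inner_smul_left, Finset.mul_sum]
  exact Finset.sum_congr rfl fun i _ => by ring

theorem ip_comm (x z : Cfg N d) : ip m x z = ip m z x := by
  simp only [ip, real_inner_comm]

theorem ip_smul_right (r : ℝ) (x z : Cfg N d) : ip m x (r • z) = r * ip m x z := by
  rw [ip_comm, ip_smul, ip_comm]

theorem ip_self (x : Cfg N d) : ip m x x = ∑ i, m i * ‖x i‖ ^ 2 := by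
  simp only [ip, real_inner_self_eq_norm_sq]

theorem ip_const (τ : EuclideanSpace ℝ (Fin d)) (u : Cfg N d) :
    ip m (fun _ => τ) u = ⟪τ, ∑ i, m i • u i⟫ := by
  simp only [ip, inner_sum, real_inner_smul_right]

theorem ip_cont : Continuous fun z : Cfg N d × Cfg N d => ip m z.1 z.2 := by
  unfold ip; fun_prop

/-- the mass inner product with a fixed vector, as a linear form -/
noncomputable def ipL (z : Cfg N d) : Cfg N d →ₗ[ℝ] ℝ where
  toFun x := ip m x z
  map_add' x y := ip_add m x y z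
  map_smul' r x := ip_smul m r x z

variable {m}

theorem ip_eq_zero (hm : ∀ i, 0 < m i) {x : Cfg N d} (h : ip m x x = 0) : x = 0 := by
  rw [ip_self, Finset.sum_eq_zero_iff_of_nonneg fun i _ => by have := hm i; positivity] at h
  funext i
  have := (mul_eq_zero.1 (h i (Finset.mem_univ i))).resolve_left (hm i).ne'
  simpa using this

theorem ip_sq (x y : Cfg N d) (s t : ℝ) (h : ip m x y = 0) :
    ip m (s • x + t • y) (s • x + t • y) = s ^ 2 * ip m x x + t ^ 2 * ip m y y := by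
  rw [ip_add, ip_smul, ip_smul, ip_comm m x, ip_comm m y, ip_add, ip_add, ip_smul, ip_smul, ip_smul,
    ip_smul, ip_comm m y x, h]
  ring

theorem massNorm_eq (x : Cfg N d) : massNorm m x = Real.sqrt (ip m x x) := by
  rw [ip_self, massNorm]

end ip

/-- the gauge-fixing map -/
noncomputable def Bm (m : Fin N → ℝ) (a : Cfg N 2) : Cfg N 2 →ₗ[ℝ] Cfg N 2 where
  toFun u := ip m u a • a + fun _ => ∑ j, m j • u j
  map_add' x y := by
    funext i
    simp only [ip_add, add_smul, Pi.add_apply, smul_add, Finset.sum_add_distrib]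
    abel
  map_smul' r x := by
    funext i
    simp only [ip_smul, Pi.add_apply, Pi.smul_apply, RingHom.id_apply, smul_add, mul_smul,
      Finset.smul_sum, smul_comm r (m _)]

theorem Bm_apply (m : Fin N → ℝ) (a u : Cfg N 2) :
    Bm m a u = ip m u a • a + fun _ => ∑ j, m j • u j := rfl

theorem ip_Bm (m : Fin N → ℝ) (a u v : Cfg N 2) :
    ip m (Bm m a v) u = ip m v a * ip m u a + ⟪∑ j, m j • v j, ∑ j, m j • u j⟫ := by
  rw [Bm_apply, ip_add, ip_smul, ip_const, ip_comm m a]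

theorem triv_zero {m : Fin N → ℝ} (hm : ∀ i, 0 < m i) {a u : Cfg N 2} {i j k : Fin N}
    (h : ar a i j k ≠ 0) (hc : ∑ i, m i • a i = 0) (hu : ∀ p q, be a p q u = 0)
    (h1 : ip m u a = 0) (h2 : ∑ j, m j • u j = 0) : u = 0 := by
  obtain ⟨l, τ, hl⟩ := rigid h hu
  have hM : 0 < ∑ i, m i := Finset.sum_pos (fun i _ => hm i) ⟨i, Finset.mem_univ _⟩
  have hτ : τ = 0 := by
    simp only [hl, smul_add, Finset.sum_add_distrib, ← Finset.sum_smul, smul_comm (m _) l,
      ← Finset.smul_sum, hc, smul_zero, add_zero] at h2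
    exact (smul_eq_zero.1 h2).resolve_left hM.ne'
  have hu' : u = l • a := funext fun p => by rw [hl, hτ, zero_add]; rfl
  rw [hu', ip_smul] at h1
  rcases mul_eq_zero.1 h1 with h3 | h3
  · rw [hu', h3, zero_smul]
  · rw [hu', ip_eq_zero hm h3, smul_zero]

theorem Phi_smooth (m : Fin N → ℝ) {a c : Cfg N 2} (ha : a ∈ Om N 2)
    (hc : ∀ i j, i ≠ j → be a i j c ≠ 0) : ContDiffAt ℝ 1 (fun u => Phi m a (c + u)) 0 := by
  refine contDiffAt_pi.2 fun i => ContDiffAt.sum fun j _ => ?_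
  by_cases h : i = j
  · subst h
    simp only [sub_self, map_zero, smul_zero]
    exact contDiffAt_const
  · have h1 : ContDiffAt ℝ 1 (fun u : Cfg N 2 => be a i j (c + u)) 0 :=
      ((LinearMap.toContinuousLinearMap (be a i j)).contDiff.comp
        (contDiff_const.add contDiff_id)).contDiffAt
    refine (contDiffAt_const.div (contDiffAt_const.mul h1) ?_).smul contDiffAt_const
    rw [add_zero]
    exact mul_ne_zero (norm_ne_zero_iff.2 (sub_ne_zero.2 (ha j i (Ne.symm h)))) (hc i j h)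

theorem deriv_equiv {m : Fin N → ℝ} (hm : ∀ i, 0 < m i) {a c : Cfg N 2} (ha : a ∈ Om N 2)
    {i0 j0 k0 : Fin N} (h : ar a i0 j0 k0 ≠ 0) (hca : ∑ i, m i • a i = 0)
    (hc : ∀ i j, i ≠ j → be a i j c ≠ 0) : ∃ A : Cfg N 2 ≃L[ℝ] Cfg N 2,
      HasStrictFDerivAt (fun u => Phi m a (c + u) + LinearMap.toContinuousLinearMap (Bm m a) u)
        (A : Cfg N 2 →L[ℝ] Cfg N 2) 0 := by
  have hs : ContDiffAt ℝ 1
      (fun u => Phi m a (c + u) + LinearMap.toContinuousLinearMap (Bm m a) u) 0 :=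
    (Phi_smooth m ha hc).add (LinearMap.toContinuousLinearMap (Bm m a)).contDiff.contDiffAt
  have hD := hs.hasStrictFDerivAt one_ne_zero
  set D := fderiv ℝ (fun u => Phi m a (c + u) + LinearMap.toContinuousLinearMap (Bm m a) u) 0
  have hinj : Function.Injective D := by
    rw [injective_iff_map_eq_zero]
    intro u hu
    have h1 : HasDerivAt (fun s : ℝ => s • u) u 0 := by
      simpa using (hasDerivAt_id (0:ℝ)).smul_const u
    have h2 := (LinearMap.toContinuousLinearMap (ipL m u)).hasFDerivAt.comp_hasDerivAt (0:ℝ)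
      (hD.hasFDerivAt.comp_hasDerivAt_of_eq (0:ℝ) h1 (by simp))
    rw [hu, map_zero] at h2
    have h3 : HasDerivAt (fun s : ℝ => -(1 / 2) * (∑ i, ∑ j, 2 * m i * m j / ‖a j - a i‖ /
        (be a i j c + s * be a i j u) * be a i j u) +
        s * (ip m u a * ip m u a + ⟪∑ j, m j • u j, ∑ j, m j • u j⟫))
        (-(1 / 2) * (∑ i, ∑ j, -(2 * m i * m j / ‖a j - a i‖ * (be a i j u / be a i j c) ^ 2)) +
          (ip m u a * ip m u a + ⟪∑ j, m j • u j, ∑ j, m j • u j⟫)) 0 := by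
      refine HasDerivAt.fun_add (HasDerivAt.const_mul _ (HasDerivAt.fun_sum fun i _ =>
        HasDerivAt.fun_sum fun j _ => ?_)) (by simpa using (hasDerivAt_id (0:ℝ)).mul_const _)
      by_cases hij : i = j
      · subst hij
        simpa [be_diag] using hasDerivAt_const (0:ℝ) (0:ℝ)
      · have a1 : HasDerivAt (fun s : ℝ => be a i j c + s * be a i j u) (be a i j u) 0 := by
          simpa using ((hasDerivAt_id (0:ℝ)).mul_const (be a i j u)).const_add (be a i j c)
        have a2 := ((hasDerivAt_const (0:ℝ) (2 * m i * m j / ‖a j - a i‖)).fun_div a1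
          (by simpa using hc i j hij)).mul_const (be a i j u)
        refine a2.congr_deriv ?_
        have := hc i j hij
        simp only [zero_mul, add_zero, zero_sub]
        field_simp
    have h4 := h2.unique (h3.congr_of_eventuallyEq (Eventually.of_forall fun s => by
      show ip m (Phi m a (c + s • u) + Bm m a (s • u)) u = _
      rw [ip_add, ip_Phi, map_smul, ip_smul, ip_Bm]
      simp only [map_add, map_smul, smul_eq_mul]))
    simp only [Finset.sum_neg_distrib] at h4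
    have t0 : ∀ i j, 0 ≤ 2 * m i * m j / ‖a j - a i‖ * (be a i j u / be a i j c) ^ 2 := fun i j => by
      have := hm i; have := hm j; positivity
    have t1 : 0 ≤ ∑ i, ∑ j, 2 * m i * m j / ‖a j - a i‖ * (be a i j u / be a i j c) ^ 2 :=
      Finset.sum_nonneg fun i _ => Finset.sum_nonneg fun j _ => t0 i j
    have t2 := mul_self_nonneg (ip m u a)
    have t3 := real_inner_self_nonneg (x := ∑ j, m j • u j)
    have s1 : ∑ i, ∑ j, 2 * m i * m j / ‖a j - a i‖ * (be a i j u / be a i j c) ^ 2 = 0 := by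
      linarith
    refine triv_zero hm h hca (fun p q => ?_) (mul_self_eq_zero.1 (by linarith))
      (inner_self_eq_zero.1 (by linarith : ⟪∑ j, m j • u j, ∑ j, m j • u j⟫ = 0))
    by_cases hpq : p = q
    · rw [hpq, be_diag]
    rw [Finset.sum_eq_zero_iff_of_nonneg fun i _ => Finset.sum_nonneg fun j _ => t0 i j] at s1
    have s2 := (Finset.sum_eq_zero_iff_of_nonneg fun j _ => t0 p j).1 (s1 p (Finset.mem_univ _)) q
      (Finset.mem_univ _)
    have s3 : 0 < ‖a q - a p‖ := norm_pos_iff.2 (sub_ne_zero.2 (ha q p (Ne.symm hpq)))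
    have := hm p
    have := hm q
    have s4 := (mul_eq_zero.1 s2).resolve_left (by positivity)
    simpa [hc p q hpq] using s4
  exact ⟨(LinearEquiv.ofInjectiveEndo (D : Cfg N 2 →ₗ[ℝ] Cfg N 2) hinj).toContinuousLinearEquiv, hD⟩

/-- directions that are first-order deflections of a collision-free straight line -/
def Good (m : Fin N → ℝ) (a ξ : Cfg N 2) : Prop :=
  ∃ c, (∀ i j, i ≠ j → be a i j c ≠ 0) ∧ Phi m a c = ξ

theorem cone {m : Fin N → ℝ} (hm : ∀ i, 0 < m i) {a : Cfg N 2} (ha : a ∈ Om N 2)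
    {i0 j0 k0 : Fin N} (h : ar a i0 j0 k0 ≠ 0) (hca : ∑ i, m i • a i = 0) {K : Set (Cfg N 2)}
    (hK : IsCompact K) (hg : ∀ ξ ∈ K, Good m a ξ) :
    ∀ᶠ ε in 𝓝 (0:ℝ), 0 < ε → ∀ ξ ∈ K, ∑ i, m i • ξ i = 0 → ip m ξ a = 0 → ∀ κ : ℝ, 0 < κ →
      ip m (ε • ξ + κ • a) (ε • ξ + κ • a) = ip m a a →
      (massNorm m (ε • ξ + κ • a))⁻¹ • (ε • ξ + κ • a) ∈
        scatteredImage m ((1 / 2 : ℝ) * ∑ i, m i * ‖a i‖ ^ 2) ((massNorm m (-a))⁻¹ • -a) := by
  have : Nonempty (Fin N) := ⟨i0⟩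
  have hM : 0 < ∑ i, m i := Finset.sum_pos (fun i _ => hm i) ⟨i0, Finset.mem_univ _⟩
  have ha0 : ip m a a ≠ 0 := fun e => h (by rw [ip_eq_zero hm e]; simp [ar])
  have ha' : -a ∈ Om N 2 := by simpa using Om_smul (r := -1) (by norm_num) ha
  have hcone : ∀ r : ℝ, 0 < r → ∀ z ∈ Om N 2, r • z ∈ Om N 2 := fun r hr z hz => Om_smul hr.ne' hz
  have H := hK.eventually_forall_of_forall_eventually (x₀ := (0:ℝ)) (P := fun ε ξ => 0 < ε →
    ∃ u, ‖u‖ ≤ 1 ∧ ∃ Q V : ℝ → Cfg N 2, (∀ t, HasDerivAt Q (V t) t) ∧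
      (∀ t, HasDerivAt V (ε • newt m (Q t)) t) ∧ (∀ t, Q t ∈ Om N 2) ∧ Tendsto V atBot (𝓝 a) ∧
      Tendsto V atTop (𝓝 (a + ε • (ξ - Bm m a u))) ∧ a + ε • (ξ - Bm m a u) ∈ Om N 2) (by
    intro ξ hξ
    obtain ⟨c, hc, rfl⟩ := hg ξ hξ
    obtain ⟨A, hA⟩ := deriv_equiv hm ha h hca hc
    obtain ⟨_, HC⟩ := weak isOpen_Om (newt_smooth m) hcone (newt_hom m) (line_mem hc) ha ha'
    obtain ⟨δ, hδ, -, -, hi, -⟩ := HC 1 one_pos
    have ev : ∀ᶠ u in 𝓝 (0 : Cfg N 2), ∫ t : ℝ, newt m (c + u + t • a) = Phi m a (c + u) := by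
      have e1 : ∀ᶠ u in 𝓝 (0 : Cfg N 2), ∀ i j, i ≠ j → be a i j (c + u) ≠ 0 := by
        refine eventually_all.2 fun i => eventually_all.2 fun j => eventually_all.2 fun hij => ?_
        have : Continuous fun u : Cfg N 2 => be a i j (c + u) :=
          (be a i j).continuous_of_finiteDimensional.comp (continuous_const.add continuous_id)
        exact this.continuousAt.eventually_ne (by simpa using hc i j hij)
      filter_upwards [e1, closedBall_mem_nhds 0 hδ] with u h1 h2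
      exact line_integral m ha h1 (hi u (mem_closedBall_zero_iff.1 h2))
    have e0 := ev.self_of_nhds
    rw [add_zero] at e0
    rw [← e0]
    exact scatter isOpen_Om (newt_smooth m) hcone (newt_hom m) (line_mem hc) ha ha'
      (LinearMap.toContinuousLinearMap (Bm m a)) A
      (hA.congr_of_eventuallyEq (ev.mono fun u hu => by simp only [hu])))
  obtain ⟨C, hC⟩ := (isCompact_closedBall (0 : Cfg N 2) 1).exists_bound_of_continuousOn
    (ipL m a).continuous_of_finiteDimensional.continuousOn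
  have ev : ∀ᶠ ε in 𝓝 (0:ℝ), ε * C < 1 := by
    have : Continuous fun ε : ℝ => ε * C := by fun_prop
    exact (this.tendsto 0).eventually (gt_mem_nhds (by simp))
  filter_upwards [H, ev] with ε H1 H2 hε ξ hξ c1 c2 κ hκ hE
  obtain ⟨u, hu, Q, V, q1, q2, q3, q4, q5, q6⟩ := H1 ξ hξ hε
  have hn : massNorm m (-a) ≠ 0 := by
    rw [massNorm_eq, ← neg_one_smul ℝ a, ip_smul, ip_smul_right]
    refine Real.sqrt_ne_zero'.2 (lt_of_le_of_ne ?_ (by simpa using ha0.symm))
    rw [ip_self]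
    have : 0 ≤ ∑ i, m i * ‖a i‖ ^ 2 := Finset.sum_nonneg fun i _ => by have := hm i; positivity
    linarith
  obtain ⟨r1, r2, r3⟩ := realize hM.ne' hε q1 q2 q3 q4 q5 ha q6 hca hn
  have hτ : ∑ j, m j • u j = 0 := by
    have e : ∀ i, m i • (a + ε • (ξ - Bm m a u)) i = m i • a i + ε • m i • ξ i -
        (ε * ip m u a) • m i • a i - m i • ε • ∑ j, m j • u j := fun i => by
      show m i • (a i + ε • (ξ i - (ip m u a • a i + ∑ j, m j • u j))) = _
      module
    simp only [e, Finset.sum_sub_distrib, Finset.sum_add_distrib, ← Finset.smul_sum, hca, c1,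
      smul_zero, add_zero, sub_zero, zero_sub, neg_eq_zero, ← Finset.sum_smul] at r1
    exact (smul_eq_zero.1 ((smul_eq_zero.1 r1).resolve_left hM.ne')).resolve_left hε.ne'
  have hb : a + ε • (ξ - Bm m a u) = ε • ξ + (1 - ε * ip m u a) • a := by
    funext i
    show a i + ε • (ξ i - (ip m u a • a i + ∑ j, m j • u j)) = ε • ξ i + (1 - ε * ip m u a) • a i
    rw [hτ]
    module
  rw [hb] at r2 r3
  rw [← ip_self, ← ip_self, ip_sq _ _ _ _ c2] at r2
  rw [ip_sq _ _ _ _ c2] at hE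
  have hκ' : 0 < 1 - ε * ip m u a := by
    have h1 : |ip m u a| ≤ C := hC u (mem_closedBall_zero_iff.2 hu)
    have h2 := mul_le_mul_of_nonneg_left ((le_abs_self _).trans h1) hε.le
    linarith
  have e : 1 - ε * ip m u a = κ := by
    have h1 : (1 - ε * ip m u a) ^ 2 = κ ^ 2 := mul_right_cancel₀ ha0 (by linarith)
    exact (pow_left_inj₀ hκ'.le hκ.le two_ne_zero).1 h1
  rwa [e] at r3

theorem near {m : Fin N → ℝ} (hm : ∀ i, 0 < m i) {E : ℝ} (hE : 0 < E) {sm : Cfg N 2}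
    (hn : massNorm m sm = 1) (hs : sm ∈ Om N 2) {i0 j0 k0 : Fin N} (h : ar sm i0 j0 k0 ≠ 0)
    (hc : ∑ i, m i • sm i = 0) {K : Set (Cfg N 2)} (hK : IsCompact K)
    (hg : ∀ ξ ∈ K, Good m (-(Real.sqrt (2 * E)) • sm) ξ) :
    ∀ᶠ x in 𝓝 (-sm), massNorm m x = 1 → ∑ i, m i • x i = 0 → x ≠ -sm →
      ‖x - ip m x sm • sm‖⁻¹ • (x - ip m x sm • sm) ∈ K → x ∈ scatteredImage m E sm := by
  set s := Real.sqrt (2 * E) with hsd
  have hs0 : 0 < s := Real.sqrt_pos.2 (by positivity)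
  have hs2 : s ^ 2 = 2 * E := Real.sq_sqrt (by positivity)
  have one : ∀ x : Cfg N 2, massNorm m x = 1 → ip m x x = 1 := fun x hx => by
    rw [massNorm_eq] at hx
    exact Real.sqrt_eq_one.1 hx
  have h11 := one sm hn
  have H := cone hm (Om_smul (neg_ne_zero.2 hs0.ne') hs) (a := -s • sm) (i0 := i0) (j0 := j0)
    (k0 := k0) (by
      have : ar (-s • sm) i0 j0 k0 = s ^ 2 * ar sm i0 j0 k0 := by simp [ar]; ring
      rw [this]; positivity) (by
      simp only [Pi.smul_apply, smul_comm (m _) (-s), ← Finset.smul_sum, hc, smul_zero]) hK hg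
  have c1 : Continuous fun x : Cfg N 2 => ip m x sm := (ipL m sm).continuous_of_finiteDimensional
  have e1 : ip m (-sm) sm = -1 := by rw [← neg_one_smul ℝ sm, ip_smul, h11, mul_one]
  have c2 : Continuous fun x : Cfg N 2 => s * ‖x - ip m x sm • sm‖ := by fun_prop
  have t2 := c2.tendsto' (-sm) 0 (by simp [e1])
  filter_upwards [t2.eventually H, (c1.tendsto _).eventually (gt_mem_nhds (by
    rw [e1]; norm_num : ip m (-sm) sm < 0))] with x H1 hx0 hx1 hx2 hx3 hxK
  have hxx := one x hx1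
  have hη : x - ip m x sm • sm ≠ 0 := fun e => hx3 (by
    rw [sub_eq_zero] at e
    generalize ip m x sm = r at e hx0
    have a1 := hxx
    rw [e, ip_smul, ip_smul_right, h11, mul_one] at a1
    have a2 : r = -1 := by nlinarith
    rw [e, a2, neg_one_smul])
  have hη' : 0 < ‖x - ip m x sm • sm‖ := norm_pos_iff.2 hη
  have hb : (s * ‖x - ip m x sm • sm‖) • ‖x - ip m x sm • sm‖⁻¹ • (x - ip m x sm • sm) +
      (-ip m x sm) • -s • sm = s • x := by
    rw [smul_smul, mul_assoc, mul_inv_cancel₀ hη'.ne', mul_one]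
    module
  have H2 := H1 (by positivity) _ hxK (by
      simp only [Pi.smul_apply, Pi.sub_apply, smul_comm (m _) ‖x - ip m x sm • sm‖⁻¹,
        ← Finset.smul_sum, smul_sub, Finset.sum_sub_distrib, smul_comm (m _) (ip m x sm), hx2, hc,
        smul_zero, sub_self])
    (by
      rw [ip_smul, ip_smul_right, sub_eq_add_neg, ip_add, ← neg_smul, ip_smul, h11]
      ring) (-ip m x sm) (by linarith) (by
      rw [hb, ip_smul, ip_smul_right, hxx, ip_smul, ip_smul_right, h11]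
      ring)
  rw [hb, massNorm_smul m s hs0, hx1, mul_one, smul_smul, inv_mul_cancel₀ hs0.ne', one_smul,
    ← ip_self, ip_smul, ip_smul_right, h11, neg_smul, neg_neg, massNorm_smul m s hs0, hn,
    mul_one, mul_one, smul_smul, inv_mul_cancel₀ hs0.ne', one_smul] at H2
  have e : 1 / 2 * (-s * -s) = E := by linarith
  rwa [e] at H2

end Pool.Agent.Lib.MP_e310f3_mp
end
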