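import Pool.Agent.Lib.MP_e310f3_mp.Lam2b

/-! Lambert pairs of arcs of `z'' = l z` in an inner product space. -/

set_option autoImplicit false

namespace Pool.Agent.Lib.MP_e310f3_mp.Lam

open Set
open scoped InnerProductSpace

variable {E : Type} [NormedAddCommGroup E] [InnerProductSpace ℝ E]

theorem norm_comb (c d : ℝ) (z w : E) :
    ‖c • z + d • w‖ ^ 2 = c ^ 2 * ‖z‖ ^ 2 + 2 * c * d * ⟪z, w⟫_ℝ + d ^ 2 * ‖w‖ ^ 2 := by
  rw [norm_add_sq_real, norm_smul, norm_smul, inner_smul_left, inner_smul_right, mul_pow, mul_pow,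
    Real.norm_eq_abs, Real.norm_eq_abs, sq_abs, sq_abs]
  simp
  ring

theorem inner_comb (a b c d : ℝ) (z w : E) :
    ⟪a • z + b • w, c • z + d • w⟫_ℝ
      = a * c * ‖z‖ ^ 2 + (a * d + b * c) * ⟪z, w⟫_ℝ + b * d * ‖w‖ ^ 2 := by
  simp only [inner_add_left, inner_add_right, inner_smul_left, inner_smul_right,
    real_inner_self_eq_norm_sq, real_inner_comm z w, conj_trivial]
  ring

theorem inner_comb' (c d : ℝ) (z w : E) :
    ⟪z, c • z + d • w⟫_ℝ = c * ‖z‖ ^ 2 + d * ⟪z, w⟫_ℝ := by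
  simp only [inner_add_right, inner_smul_right, real_inner_self_eq_norm_sq]

theorem exists_MN (z0 z1 : E) : ∃ M N : ℝ, -M ≤ N ∧ N ≤ M ∧
    M ^ 2 + N ^ 2 = ‖z0‖ ^ 2 + ‖z1‖ ^ 2 ∧ M * N = ⟪z0, z1⟫_ℝ ∧
    N ^ 2 ≤ ‖z0‖ ^ 2 ∧ N ^ 2 ≤ ‖z1‖ ^ 2 := by
  have h1 := norm_add_sq_real z0 z1
  have h2 := norm_sub_sq_real z0 z1
  have p1 := norm_nonneg (z0 + z1)
  have p2 := norm_nonneg (z0 - z1)
  have cs := real_inner_mul_inner_self_le z0 z1
  rw [real_inner_self_eq_norm_sq, real_inner_self_eq_norm_sq] at cs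
  set M := (‖z0 + z1‖ + ‖z0 - z1‖) / 2 with hM
  set N := (‖z0 + z1‖ - ‖z0 - z1‖) / 2 with hN
  have e1 : M ^ 2 + N ^ 2 = ‖z0‖ ^ 2 + ‖z1‖ ^ 2 := by rw [hM, hN]; linarith
  have e2 : M * N = ⟪z0, z1⟫_ℝ := by rw [hM, hN]; linarith
  have a1 : -M ≤ N := by rw [hM, hN]; linarith
  have a2 : N ≤ M := by rw [hM, hN]; linarith
  have a3 : N ^ 2 ≤ M ^ 2 := sq_le_sq' a1 a2
  rw [← e2] at cs
  clear_value M N
  refine ⟨M, N, a1, a2, e1, e2, ?_, ?_⟩
  · generalize ‖z0‖ ^ 2 = r0 at *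
    generalize ‖z1‖ ^ 2 = r1 at *
    by_contra hn
    have hn' := not_le.1 hn
    have : r1 = M ^ 2 + N ^ 2 - r0 := by linarith
    subst this
    nlinarith [mul_pos (sub_pos.2 hn') (sub_pos.2 (hn'.trans_le a3))]
  · generalize ‖z0‖ ^ 2 = r0 at *
    generalize ‖z1‖ ^ 2 = r1 at *
    by_contra hn
    have hn' := not_le.1 hn
    have : r0 = M ^ 2 + N ^ 2 - r1 := by linarith
    subst this
    nlinarith [mul_pos (sub_pos.2 hn') (sub_pos.2 (hn'.trans_le a3))]

/-- reduction of an arc to a scalar arc with the same energy, length and time -/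
theorem reduce {G l s M N : ℝ} {C S : ℝ → ℝ} (h : CS l C S) {z0 w z1 : E}
    (hw : ‖w‖ ^ 2 = G + l * ‖z0‖ ^ 2) (hz : z1 = C s • z0 + S s • w) (hS : S s ≠ 0)
    (h1 : M ^ 2 + N ^ 2 = ‖z0‖ ^ 2 + ‖z1‖ ^ 2) (h2 : M * N = ⟪z0, z1⟫_ℝ) :
    ∃ a b : ℝ, S s * a = M - C s * N ∧ S s * b = C s * M - N ∧ a ^ 2 = G + l * N ^ 2 ∧
      N * C s + a * S s = M ∧ N * (l * S s) + a * C s = b ∧
      ∫ u in (0 : ℝ)..s, (N * C u + a * S u) ^ 2
        = ∫ u in (0 : ℝ)..s, ‖C u • z0 + S u • w‖ ^ 2 := by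
  have one := h.one s
  obtain ⟨a, ha⟩ : ∃ a : ℝ, S s * a = M - C s * N := ⟨(M - C s * N) / S s, by field_simp⟩
  rw [hz, norm_comb, hw] at h1
  rw [hz, inner_comb'] at h2
  have hS2 : S s ^ 2 ≠ 0 := pow_ne_zero 2 hS
  have ha2 : a ^ 2 = G + l * N ^ 2 := by
    apply mul_left_cancel₀ hS2
    linear_combination (S s * a + M - C s * N) * ha + h1 - 2 * C s * h2
      + (N ^ 2 - ‖z0‖ ^ 2) * one
  refine ⟨a, N * (l * S s) + a * C s, ha, ?_, ha2, by linear_combination ha, rfl, ?_⟩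
  · linear_combination C s * ha - N * one
  obtain ⟨κ, hκ⟩ : ∃ κ : ℝ, S s * κ = C s := ⟨C s / S s, by field_simp⟩
  have hp : ⟪z0, w⟫_ℝ = N * a - κ * (‖z0‖ ^ 2 - N ^ 2) := by
    apply mul_left_cancel₀ hS
    linear_combination -h2 - N * ha + (‖z0‖ ^ 2 - N ^ 2) * hκ
  have hd : ∀ u, HasDerivAt (fun u => (‖z0‖ ^ 2 - N ^ 2) * (C u * S u - κ * S u ^ 2))
      (‖C u • z0 + S u • w‖ ^ 2 - (N * C u + a * S u) ^ 2) u := fun u => by
    refine ((((h.dC u).mul (h.dS u)).sub (((h.dS u).pow 2).const_mul κ)).const_mul _).congr_deriv ?_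
    rw [norm_comb, hw, hp]
    simp only [Nat.cast_ofNat, Nat.add_one_sub_one, pow_one]
    linear_combination (S u ^ 2) * ha2
  have c1 : Continuous fun u => ‖C u • z0 + S u • w‖ ^ 2 :=
    (((h.cC.smul continuous_const).add (h.cS.smul continuous_const)).norm).pow 2
  have c2 : Continuous fun u => (N * C u + a * S u) ^ 2 :=
    ((h.cC.const_mul N).add (h.cS.const_mul a)).pow 2
  have := intervalIntegral.integral_eq_sub_of_hasDerivAt (a := 0) (b := s) (fun u _ => hd u)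
    ((c1.sub c2).intervalIntegrable _ _)
  rw [intervalIntegral.integral_sub (c1.intervalIntegrable _ _) (c2.intervalIntegrable _ _),
    h.S0] at this
  have h3 : C s * S s - κ * S s ^ 2 = 0 := by linear_combination (-S s) * hκ
  rw [h3] at this
  simp only [mul_zero, ne_eq, OfNat.ofNat_ne_zero, not_false_eq_true, zero_pow, sub_self] at this
  linarith

theorem vec0 {c d : ℝ} {z0 w z1 : E} (hz : z1 = c • z0 + d • w) : d • w = z1 - c • z0 := by
  rw [hz]
  abel

theorem vec1 {l c d : ℝ} {z0 w z1 : E} (one : c ^ 2 - l * d ^ 2 = 1) (hz : z1 = c • z0 + d • w) :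
    d • ((l * d) • z0 + c • w) = c • z1 - z0 := by
  have h1 : (d * (l * d)) • z0 = (c * c - 1) • z0 := by
    congr 1
    linarith
  rw [hz, smul_add, smul_add, smul_smul, smul_smul, smul_smul, smul_smul, h1, sub_smul, one_smul,
    mul_comm d c]
  abel

theorem in0 {c d : ℝ} {z0 w z1 : E} (hz : z1 = c • z0 + d • w) :
    d * -⟪z0, w⟫_ℝ = c * ‖z0‖ ^ 2 - ⟪z0, z1⟫_ℝ := by
  rw [hz, inner_comb']
  ring

theorem in1 {l c d : ℝ} {z0 w z1 : E} (one : c ^ 2 - l * d ^ 2 = 1) (hz : z1 = c • z0 + d • w) :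
    d * ⟪z1, (l * d) • z0 + c • w⟫_ℝ = c * ‖z1‖ ^ 2 - ⟪z0, z1⟫_ℝ := by
  rw [← real_inner_smul_right, vec1 one hz, inner_sub_right, inner_smul_right,
    real_inner_self_eq_norm_sq, real_inner_comm]

theorem aff1 {c d M N a b ρ j : ℝ} (hd : d ≠ 0) (ha : d * a = M - c * N) (hb : d * b = c * M - N)
    (hj : d * j = c * ρ - M * N) :
    (M ^ 2 - N ^ 2) * j = (ρ - N ^ 2) * (M * b) - (M ^ 2 - ρ) * (N * a) ∧
      (ρ = M ^ 2 → j = M * b) := by
  constructor
  · apply mul_left_cancel₀ hd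
    linear_combination (M ^ 2 - N ^ 2) * hj - (ρ - N ^ 2) * M * hb + (M ^ 2 - ρ) * N * ha
  · intro h
    apply mul_left_cancel₀ hd
    linear_combination hj - M * hb + c * h

theorem aff2 {x y ρ j P Q : ℝ} (h1 : y ≤ ρ) (h2 : ρ ≤ x) (hP : 0 < P) (hQ : 0 < Q)
    (h : (x - y) * j = (ρ - y) * P + (x - ρ) * Q) (h' : ρ = x → j = P) : 0 < j := by
  rcases h2.lt_or_eq with h3 | h3
  · have : 0 < (x - y) * j := by
      rw [h]
      have := mul_nonneg (sub_nonneg.2 h1) hP.le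
      have := mul_pos (sub_pos.2 h3) hQ
      linarith
    exact (mul_pos_iff_of_pos_left (by linarith)).1 this
  · rw [h' h3]
    exact hP

theorem pow_pos_of_ne_zero' {a : ℝ} (h : a ≠ 0) : 0 < a ^ 2 := by positivity

theorem lt_of_sq {a b : ℝ} (ha : 0 < a) (h : b ^ 2 < a ^ 2) : -a < b ∧ b < a :=
  abs_lt_of_sq_lt_sq' h ha.le

/-- both conclusions when the first arc has the larger energy -/
theorem pair_aux {C S : ℝ → ℝ → ℝ} (h : ∀ l, CS l (C l) (S l)) {G la lb sa sb : ℝ} (hG : 0 < G)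
    {z0 wa wb za zb : E} (ha : ‖wa‖ ^ 2 = G + la * ‖z0‖ ^ 2) (hb : ‖wb‖ ^ 2 = G + lb * ‖z0‖ ^ 2)
    (hza : za = C la sa • z0 + S la sa • wa) (hzb : zb = C lb sb • z0 + S lb sb • wb)
    (hz : zb = za ∨ zb = -za) (hsa : 0 < sa) (hsb : 0 < sb)
    (hT : ∫ u in (0 : ℝ)..sa, ‖C la u • z0 + S la u • wa‖ ^ 2
      = ∫ u in (0 : ℝ)..sb, ‖C lb u • z0 + S lb u • wb‖ ^ 2)
    (hl : 0 ≤ la) (hle : lb ≤ la) (hw : wa ≠ wb) :
    (za ≠ 0 ∧ 0 < ⟪za, (la * S la sa) • z0 + C la sa • wa⟫_ℝ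
        + ⟪zb, (lb * S lb sb) • z0 + C lb sb • wb⟫_ℝ ∧ ⟪z0, wa⟫_ℝ + ⟪z0, wb⟫_ℝ ≤ 0) ∧
      (lb = -la → ⟪wa, wb⟫_ℝ = 0 →
        |⟪(la * S la sa) • z0 + C la sa • wa, (lb * S lb sb) • z0 + C lb sb • wb⟫_ℝ|
          ≤ 7 / 10 * G) := by
  have Sa : 0 < S la sa := (h la).Spos hl hsa
  have Ca : 0 < C la sa := (h la).Cpos hl sa
  have onea := (h la).one sa
  have oneb := (h lb).one sb
  obtain ⟨M, N, a1, a2, e1, e2, r0, r1⟩ := exists_MN z0 za
  obtain ⟨αa, βa, A1, A2, A3, A4, A5, A6⟩ := reduce (h la) ha hza Sa.ne' e1 e2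
  have arca := (h la).arc A3
  have ya0 : N * C la 0 + αa * S la 0 = N := by simp [(h la).C0, (h la).S0]
  have ya0' : N * (la * S la 0) + αa * C la 0 = αa := by simp [(h la).C0, (h la).S0]
  have up := arca.up hG hl hsa (by simp only [ya0, A4]; exact a2)
  have hαa : 0 < αa := by simpa only [ya0'] using up 0
  have hβa : 0 < βa := by simpa only [A5] using up sa
  have βa2 : βa ^ 2 = G + la * M ^ 2 := by simpa only [A4, A5] using arca.e sa
  have hNM : N < M := by
    simpa only [ya0, A4] using strictMono_of_hasDerivAt_pos arca.d up hsa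
  have hM : 0 < M := by linarith
  have nb : ‖zb‖ = ‖za‖ := by rcases hz with hz | hz <;> simp [hz]
  have ia0 := in0 hza
  have ia1 := in1 onea hza
  have ib0 := in0 hzb
  have ib1 := in1 oneb hzb
  rw [← e2] at ia0 ia1
  set wa1 := (la * S la sa) • z0 + C la sa • wa with hwa1
  set wb1 := (lb * S lb sb) • z0 + C lb sb • wb with hwb1
  by_cases Sb : S lb sb = 0
  · have hlt : lb < la := hle.lt_of_ne fun hh => ((h lb).Spos (hh ▸ hl) hsb).ne' Sb
    have c2 : C lb sb ^ 2 = 1 := by rw [Sb] at oneb; linarith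
    have hzb' : zb = C lb sb • z0 := by rw [hzb, Sb]; simp
    have hwb' : wb1 = C lb sb • wb := by rw [hwb1, Sb]; simp
    have n1 : ‖za‖ ^ 2 = ‖z0‖ ^ 2 := by
      rw [← nb, hzb', norm_smul, mul_pow, Real.norm_eq_abs, sq_abs, c2, one_mul]
    have n2 : (M * N) ^ 2 = (‖z0‖ ^ 2) ^ 2 := by
      have : ⟪z0, zb⟫_ℝ ^ 2 = (‖z0‖ ^ 2) ^ 2 := by
        rw [hzb', inner_smul_right, real_inner_self_eq_norm_sq, mul_pow, c2, one_mul]
      rw [e2, ← this]
      rcases hz with hz | hz <;> simp [hz]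
    have n3 : N = -M := by
      have h1 : ((M - N) * (M + N)) ^ 2 = 0 := by
        rw [n1] at e1
        linear_combination (M ^ 2 + N ^ 2 + 2 * ‖z0‖ ^ 2) * e1 - 4 * n2
      rcases mul_eq_zero.1 (pow_eq_zero_iff (two_ne_zero) |>.1 h1) with h2 | h2 <;> linarith
    have n4 : ‖z0‖ ^ 2 = M ^ 2 := by rw [n1, n3] at e1; linarith
    have j0 : -⟪z0, wa⟫_ℝ = M * βa := (aff1 Sa.ne' A1 A2 ia0).2 n4
    have j1 : ⟪za, wa1⟫_ℝ = M * βa := (aff1 Sa.ne' A1 A2 ia1).2 (n1.trans n4)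
    have j2 : ⟪zb, wb1⟫_ℝ = ⟪z0, wb⟫_ℝ := by
      rw [hzb', hwb', inner_smul_right, real_inner_smul_left]
      linear_combination ⟪z0, wb⟫_ℝ * c2
    have cs := real_inner_mul_inner_self_le z0 wb
    rw [real_inner_self_eq_norm_sq, real_inner_self_eq_norm_sq, hb, n4] at cs
    have j3 := lt_of_sq (a := M * βa) (b := ⟪z0, wb⟫_ℝ) (mul_pos hM hβa) (by
      rw [mul_pow, βa2]
      have hM2 : 0 < M ^ 2 := by positivity
      linarith [mul_pos (mul_pos hM2 hM2) (sub_pos.2 hlt)])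
    refine ⟨⟨fun h0 => ?_, by linarith [j3.1], by linarith [j3.2]⟩, fun _ h0 => ?_⟩
    · rw [h0, n4] at n1
      have : 0 < M ^ 2 := by positivity
      simp at n1
      linarith
    · have z1 : za = -z0 := by
        have : ‖z0 + za‖ ^ 2 = 0 := by
          rw [norm_add_sq_real, ← e2, n1, n4, n3]
          ring
        exact eq_neg_of_add_eq_zero_right (norm_eq_zero.1 (pow_eq_zero_iff two_ne_zero |>.1 this))
      have z2 : wa1 = wa := by
        apply smul_right_injective E Sa.ne'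
        simp only
        rw [hwa1, vec1 onea hza, vec0 hza, z1, smul_neg]
        abel
      rw [z2, hwb', inner_smul_right, h0]
      simp only [mul_zero, abs_zero]
      positivity
  · obtain ⟨N', hN', e2'⟩ : ∃ N' : ℝ, ((N' = N ∧ zb = za) ∨ (N' = -N ∧ zb = -za)) ∧
        M * N' = ⟪z0, zb⟫_ℝ := by
      rcases hz with hz | hz
      · exact ⟨N, Or.inl ⟨rfl, hz⟩, by rw [hz, e2]⟩
      · exact ⟨-N, Or.inr ⟨rfl, hz⟩, by rw [hz, inner_neg_right, ← e2]; ring⟩
    have sq' : N' ^ 2 = N ^ 2 := by rcases hN' with h1 | h1 <;> simp [h1.1]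
    obtain ⟨αb, βb, B1, B2, B3, B4, B5, B6⟩ := reduce (h lb) hb hzb Sb
      (by rw [sq', nb]; exact e1) e2'
    have arcb := (h lb).arc B3
    have yb0 : N' * C lb 0 + αb * S lb 0 = N' := by simp [(h lb).C0, (h lb).S0]
    have yb0' : N' * (lb * S lb 0) + αb * C lb 0 = αb := by simp [(h lb).C0, (h lb).S0]
    have βb2 : βb ^ 2 = G + lb * M ^ 2 := by simpa only [B4, B5] using arcb.e sb
    rw [← A6, ← B6] at hT
    rw [← e2'] at ib0 ib1
    rw [nb] at ib1
    have zero : zb = -za → ⟪wa, wb⟫_ℝ - ⟪wa1, wb1⟫_ℝ = βa * βb - αa * αb ∧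
        ⟪wa, wb⟫_ℝ * (S la sa * S lb sb)
          = βa * βb * (S la sa * S lb sb) - (M ^ 2 - ‖z0‖ ^ 2) * (1 + C la sa * C lb sb) ∧
        ⟪wa, wb⟫_ℝ * (S la sa * S lb sb)
          = -(αa * αb) * (S la sa * S lb sb) + (‖z0‖ ^ 2 - N ^ 2) * (1 + C la sa * C lb sb) := by
      intro hzz
      have hN2 : N' = -N := by
        apply mul_left_cancel₀ hM.ne'
        rw [e2', hzz, inner_neg_right, ← e2]
        ring
      have k0 : ⟪wa, wb⟫_ℝ * (S la sa * S lb sb) = -‖za‖ ^ 2 - C lb sb * (M * N)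
          + C la sa * (M * N) + C la sa * C lb sb * ‖z0‖ ^ 2 := by
        have : ⟪wa, wb⟫_ℝ * (S la sa * S lb sb) = ⟪S la sa • wa, S lb sb • wb⟫_ℝ := by
          rw [inner_smul_right, real_inner_smul_left]
          ring
        rw [this, vec0 hza, vec0 hzb, hzz, e2]
        simp only [inner_sub_left, inner_sub_right, inner_smul_right, real_inner_smul_left,
          inner_neg_right, real_inner_self_eq_norm_sq, real_inner_comm z0 za]
        ring
      have k1 : ⟪wa1, wb1⟫_ℝ * (S la sa * S lb sb) = -(C la sa * C lb sb * ‖za‖ ^ 2)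
          - C la sa * (M * N) + C lb sb * (M * N) + ‖z0‖ ^ 2 := by
        have : ⟪wa1, wb1⟫_ℝ * (S la sa * S lb sb) = ⟪S la sa • wa1, S lb sb • wb1⟫_ℝ := by
          rw [inner_smul_right, real_inner_smul_left]
          ring
        rw [this, hwa1, hwb1, vec1 onea hza, vec1 oneb hzb, hzz, e2]
        simp only [inner_sub_left, inner_sub_right, inner_smul_right, real_inner_smul_left,
          inner_neg_right, real_inner_self_eq_norm_sq, real_inner_comm z0 za]
        ring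
      have k2 : βa * βb * (S la sa * S lb sb) = (C la sa * M - N) * (C lb sb * M + N) := by
        rw [← A2, show C lb sb * M + N = S lb sb * βb by rw [B2, hN2]; ring]
        ring
      have k3 : αa * αb * (S la sa * S lb sb) = (M - C la sa * N) * (M + C lb sb * N) := by
        rw [← A1, show M + C lb sb * N = S lb sb * αb by rw [B1, hN2]; ring]
        ring
      refine ⟨?_, ?_, ?_⟩
      · apply mul_right_cancel₀ (mul_ne_zero Sa.ne' Sb)
        linear_combination k0 - k1 - k2 + k3 - (C la sa * C lb sb - 1) * e1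
      · linear_combination k0 - k2 + e1
      · linear_combination k0 + k3 + e1
    rcases hle.lt_or_eq with hlt | heq
    · have st := start_lt arca arcb hG hl hlt hsb up (by simp only [A4, B4])
        (by simp only [A4]; exact hM.ne') hT
      simp only [ya0, yb0] at st
      obtain ⟨hN2, hzz⟩ : N' = -N ∧ zb = -za := by
        rcases hN' with h1 | h1
        · linarith [h1.1]
        · exact h1
      have hN0 : N < 0 := by linarith
      have hN3 : 0 < N ^ 2 := pow_pos_of_ne_zero' hN0.ne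
      have hM2 : 0 < M ^ 2 := by positivity
      have cα := lt_of_sq (b := αb) hαa (by
        rw [A3, B3, sq']
        linarith [mul_pos hN3 (sub_pos.2 hlt)])
      have cβ := lt_of_sq (b := βb) hβa (by
        rw [βa2, βb2]
        linarith [mul_pos hM2 (sub_pos.2 hlt)])
      have key : ∀ ρ ja jb : ℝ, N ^ 2 ≤ ρ → ρ ≤ M ^ 2 → S la sa * ja = C la sa * ρ - M * N →
          S lb sb * jb = C lb sb * ρ - M * N' → 0 < ja + jb := by
        intro ρ ja jb q1 q2 q3 q4
        obtain ⟨u1, u2⟩ := aff1 Sa.ne' A1 A2 q3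
        obtain ⟨u3, u4⟩ := aff1 Sb B1 B2 q4
        refine aff2 (P := M * (βa + βb)) (Q := -N * (αa - αb)) q1 q2
          (mul_pos hM (by linarith [cβ.1])) (mul_pos (by linarith) (by linarith [cα.2])) ?_
          fun q => by rw [u2 q, u4 q]; ring
        rw [sq'] at u3
        rw [hN2] at u3
        linear_combination u1 + u3
      refine ⟨⟨fun h0 => ?_, key _ _ _ r1 (by linarith) ia1 ib1, ?_⟩, fun hl0 h0 => ?_⟩
      · rw [h0] at r1
        simp at r1
        linarith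
      · linarith [key _ _ _ r0 (by linarith) ia0 ib0]
      · obtain ⟨y1, y2, y3⟩ := zero hzz
        subst hl0
        have hla : 0 < la := by linarith
        have s0 := start_up (M := M) (N := -N) arca arcb hG hla hsa hsb up
          (by simp only [ya0, neg_neg]) (yb0.trans hN2) A4 B4 (by linarith) hT
        simp only [yb0'] at s0
        rw [h0] at y1 y2 y3
        have s1 : 0 ≤ βb := by
          by_contra hn
          have hn' := mul_neg_of_pos_of_neg hβa (not_le.1 hn)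
          have w1 : ((‖z0‖ ^ 2 - N ^ 2) * (βa * βb) - (M ^ 2 - ‖z0‖ ^ 2) * (αa * αb))
              * (S la sa * S (-la) sb) = 0 := by
            linear_combination (-(‖z0‖ ^ 2 - N ^ 2)) * y2 - (M ^ 2 - ‖z0‖ ^ 2) * y3
          have w2 := (mul_eq_zero.1 w1).resolve_right (mul_ne_zero Sa.ne' Sb)
          have w3 : 0 ≤ M ^ 2 - ‖z0‖ ^ 2 := by linarith
          have w4 := mul_nonneg w3 (mul_nonneg hαa.le s0)
          have w5 := mul_nonneg (sub_nonneg.2 r0) (neg_nonneg.2 hn'.le)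
          have w6 : (M ^ 2 - ‖z0‖ ^ 2) * (αa * αb) = 0 := by linarith
          rcases mul_eq_zero.1 w6 with w7 | w7
          · rw [w7, zero_mul, zero_mul, sub_zero] at y2
            exact (mul_ne_zero hn'.ne (mul_ne_zero Sa.ne' Sb)) y2.symm
          · have w8 : αb = 0 := (mul_eq_zero.1 w7).resolve_left hαa.ne'
            rw [w8, sq'] at B3
            have w9 : N ^ 2 ≤ M ^ 2 := sq_le_sq' a1 a2
            linarith [mul_pos_of_neg_of_neg (not_le.1 hn) (not_le.1 hn),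
              mul_le_mul_of_nonneg_left w9 hla.le]
        have zb' := zero_bound' (M := M) (N := -N) arca arcb hG hla hsa hsb up
          (by simp only [ya0, neg_neg]) (yb0.trans hN2) A4 B4 (by linarith)
          (by linarith) (by simpa only [yb0'] using s0) (by simpa only [B5] using s1) hT
        simp only [ya0', yb0', A5, B5] at zb'
        rw [show ⟪wa1, wb1⟫_ℝ = -(βa * βb - αa * αb) by linarith, abs_neg]
        exact zb'
    · subst heq
      have hN'M : N' ≤ M := by rcases hN' with h1 | h1 <;> linarith [h1.1]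
      have upb := arcb.up hG hl hsb (by simp only [yb0, B4]; exact hN'M)
      have st := start_eq arca arcb hG hl up upb (by simp only [A4, B4]) hT
      simp only [ya0, yb0] at st
      subst st
      have hαb : 0 < αb := by simpa only [yb0'] using upb 0
      have hβb : 0 < βb := by simpa only [B5] using upb sb
      have eα : αb = αa := (pow_left_inj₀ hαb.le hαa.le two_ne_zero).1 (by rw [A3, B3])
      have eβ : βb = βa := (pow_left_inj₀ hβb.le hβa.le two_ne_zero).1 (by rw [βa2, βb2])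
      subst eα
      have es : sb = sa :=
        (strictMono_of_hasDerivAt_pos arca.d up).injective (by simp only [A4, B4])
      subst es
      have hne : zb ≠ za := fun hh => hw (by
        apply smul_right_injective E Sa.ne'
        simp only
        rw [vec0 hza, vec0 hzb, hh])
      obtain ⟨hN2, hzz⟩ : N = -N ∧ zb = -za := by
        rcases hN' with h1 | h1
        · exact absurd h1.2 hne
        · exact h1
      have hN0 : N = 0 := by linarith
      have hza0 : za ≠ 0 := fun hh => hne (by rw [hzz, hh, neg_zero])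
      have p1 : 0 < ‖za‖ ^ 2 := by positivity
      rw [hN0, mul_zero, sub_zero] at ia0 ia1 ib0 ib1
      refine ⟨⟨hza0, ?_, ?_⟩, fun hl0 h0 => ?_⟩
      · have := (mul_pos_iff_of_pos_left Sa).1 (ia1 ▸ mul_pos Ca p1)
        have := (mul_pos_iff_of_pos_left Sa).1 (ib1 ▸ mul_pos Ca p1)
        linarith
      · have p0 : 0 ≤ C lb sb * ‖z0‖ ^ 2 := by positivity
        have := (mul_nonneg_iff_of_pos_left Sa).1 (ia0 ▸ p0)
        have := (mul_nonneg_iff_of_pos_left Sa).1 (ib0 ▸ p0)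
        linarith
      · obtain ⟨y1, -, -⟩ := zero hzz
        have hl1 : lb = 0 := by linarith
        rw [hl1] at A3 βa2
        rw [show ⟪wa1, wb1⟫_ℝ = 0 by rw [h0, eβ] at y1; linarith, abs_zero]
        positivity

/-- Lambert pairs: two different arcs from `z0` to `za` and to `zb = ± za`, with the same time and
nonnegative total energy, start inwards and end strictly outwards. -/
theorem pair_sign {C S : ℝ → ℝ → ℝ} (h : ∀ l, CS l (C l) (S l)) {G la lb sa sb : ℝ} (hG : 0 < G)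
    {z0 wa wb za zb : E} (ha : ‖wa‖ ^ 2 = G + la * ‖z0‖ ^ 2) (hb : ‖wb‖ ^ 2 = G + lb * ‖z0‖ ^ 2)
    (hza : za = C la sa • z0 + S la sa • wa) (hzb : zb = C lb sb • z0 + S lb sb • wb)
    (hz : zb = za ∨ zb = -za) (hsa : 0 < sa) (hsb : 0 < sb)
    (hT : ∫ u in (0 : ℝ)..sa, ‖C la u • z0 + S la u • wa‖ ^ 2
      = ∫ u in (0 : ℝ)..sb, ‖C lb u • z0 + S lb u • wb‖ ^ 2)
    (hl : 0 ≤ la + lb) (hw : wa ≠ wb) :
    za ≠ 0 ∧ 0 < ⟪za, (la * S la sa) • z0 + C la sa • wa⟫_ℝ
        + ⟪zb, (lb * S lb sb) • z0 + C lb sb • wb⟫_ℝ ∧ ⟪z0, wa⟫_ℝ + ⟪z0, wb⟫_ℝ ≤ 0 := by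
  rcases le_total lb la with hle | hle
  · exact (pair_aux h hG ha hb hza hzb hz hsa hsb hT (by linarith) hle hw).1
  · have hz' : za = zb ∨ za = -zb := by
      rcases hz with hz | hz
      · exact Or.inl hz.symm
      · exact Or.inr (by rw [hz, neg_neg])
    obtain ⟨h1, h2, h3⟩ :=
      (pair_aux h hG hb ha hzb hza hz' hsb hsa hT.symm (by linarith) hle hw.symm).1
    refine ⟨fun h0 => h1 ?_, by linarith, by linarith⟩
    rcases hz with hz | hz <;> simp [hz, h0]

/-- Lambert pairs of zero total energy with orthogonal initial velocities -/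
theorem pair_zero' {C S : ℝ → ℝ → ℝ} (h : ∀ l, CS l (C l) (S l)) {G la lb sa sb : ℝ} (hG : 0 < G)
    {z0 wa wb za zb : E} (ha : ‖wa‖ ^ 2 = G + la * ‖z0‖ ^ 2) (hb : ‖wb‖ ^ 2 = G + lb * ‖z0‖ ^ 2)
    (hza : za = C la sa • z0 + S la sa • wa) (hzb : zb = C lb sb • z0 + S lb sb • wb)
    (hz : zb = za ∨ zb = -za) (hsa : 0 < sa) (hsb : 0 < sb)
    (hT : ∫ u in (0 : ℝ)..sa, ‖C la u • z0 + S la u • wa‖ ^ 2
      = ∫ u in (0 : ℝ)..sb, ‖C lb u • z0 + S lb u • wb‖ ^ 2)
    (hl : la + lb = 0) (hw : wa ≠ wb) (h0 : ⟪wa, wb⟫_ℝ = 0) :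
    |⟪(la * S la sa) • z0 + C la sa • wa, (lb * S lb sb) • z0 + C lb sb • wb⟫_ℝ|
      ≤ 7 / 10 * G := by
  rcases le_total lb la with hle | hle
  · exact (pair_aux h hG ha hb hza hzb hz hsa hsb hT (by linarith) hle hw).2 (by linarith) h0
  · have hz' : za = zb ∨ za = -zb := by
      rcases hz with hz | hz
      · exact Or.inl hz.symm
      · exact Or.inr (by rw [hz, neg_neg])
    rw [real_inner_comm]
    exact (pair_aux h hG hb ha hzb hza hz' hsb hsa hT.symm (by linarith) hle hw.symm).2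
      (by linarith) (by rw [real_inner_comm]; exact h0)

/-- Lambert pairs of zero total energy with orthogonal initial velocities -/
theorem pair_zero {C S : ℝ → ℝ → ℝ} (h : ∀ l, CS l (C l) (S l)) {G la lb sa sb : ℝ} (hG : 0 < G)
    {z0 wa wb za zb : E} (ha : ‖wa‖ ^ 2 = G + la * ‖z0‖ ^ 2) (hb : ‖wb‖ ^ 2 = G + lb * ‖z0‖ ^ 2)
    (hza : za = C la sa • z0 + S la sa • wa) (hzb : zb = C lb sb • z0 + S lb sb • wb)
    (hz : zb = za ∨ zb = -za) (hsa : 0 < sa) (hsb : 0 < sb)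
    (hT : ∫ u in (0 : ℝ)..sa, ‖C la u • z0 + S la u • wa‖ ^ 2
      = ∫ u in (0 : ℝ)..sb, ‖C lb u • z0 + S lb u • wb‖ ^ 2)
    (hl : la + lb = 0) (hw : wa ≠ wb) (h0 : ⟪wa, wb⟫_ℝ = 0) :
    |⟪(la * S la sa) • z0 + C la sa • wa, (lb * S lb sb) • z0 + C lb sb • wb⟫_ℝ|
      ≤ 85 / 100 * G :=
  (pair_zero' h hG ha hb hza hzb hz hsa hsb hT hl hw h0).trans (by linarith)

/-- the explicit fundamental solution -/
noncomputable def Cf (l s : ℝ) : ℝ :=
  Real.cosh (Real.sqrt l * s) * Real.cos (Real.sqrt (-l) * s)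

/-- its primitive -/
noncomputable def Sf (l s : ℝ) : ℝ := ∫ u in (0 : ℝ)..s, Cf l u

theorem Cf_cont (l : ℝ) : Continuous (Cf l) := by
  unfold Cf
  fun_prop

theorem cs_f (l : ℝ) : CS l (Cf l) (Sf l) := by
  have dS : ∀ u, HasDerivAt (Sf l) (Cf l u) u := fun u =>
    ((Cf_cont l).integral_hasStrictDerivAt 0 u).hasDerivAt
  obtain ⟨h1, h2⟩ : Real.sqrt l * Real.sqrt (-l) = 0 ∧
      Real.sqrt l ^ 2 - Real.sqrt (-l) ^ 2 = l := by
    rcases le_total 0 l with h | h
    · rw [Real.sqrt_eq_zero_of_nonpos (neg_nonpos.2 h), Real.sq_sqrt h]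
      simp
    · rw [Real.sqrt_eq_zero_of_nonpos h, Real.sq_sqrt (neg_nonneg.2 h)]
      simp
  refine ⟨fun u => ?_, dS, by simp [Cf], by simp [Sf]⟩
  generalize ha : Real.sqrt l = a at h1 h2
  generalize hb : Real.sqrt (-l) = b at h1 h2
  have hC : Cf l = fun s => Real.cosh (a * s) * Real.cos (b * s) := by
    funext s
    rw [Cf, ha, hb]
  have da : ∀ s : ℝ, HasDerivAt (fun s => a * s) a s := fun s => by
    simpa using (hasDerivAt_id s).const_mul a
  have db : ∀ s : ℝ, HasDerivAt (fun s => b * s) b s := fun s => by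
    simpa using (hasDerivAt_id s).const_mul b
  have hD := const_of_deriv (f := fun s => a * (Real.sinh (a * s) * Real.cos (b * s))
      - b * (Real.cosh (a * s) * Real.sin (b * s)) - l * Sf l s) (fun s =>
    (((((da s).sinh.mul (db s).cos).const_mul a).sub
      (((da s).cosh.mul (db s).sin).const_mul b)).sub ((dS s).const_mul l)).congr_deriv (by
        rw [hC]
        linear_combination (-2 * Real.sinh (a * s) * Real.sin (b * s)) * h1
          + Real.cosh (a * s) * Real.cos (b * s) * h2)) u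
  have hS0 : Sf l 0 = 0 := by simp [Sf]
  simp only [mul_zero, Real.sinh_zero, Real.sin_zero, hS0, zero_mul, sub_self] at hD
  rw [hC]
  exact ((da u).cosh.mul (db u).cos).congr_deriv (by linarith)

end Pool.Agent.Lib.MP_e310f3_mp.Lam
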