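import Mathlib

/-! Scalar arcs of `y'' = l y` with first integral `y'^2 = G + l y^2` and calibration bounds for
the time `∫ y^2`. -/

set_option autoImplicit false

namespace Pool.Agent.Lib.MP_e310f3_mp.Lam

open Set

/-- fundamental solutions of `z'' = l z` -/
structure CS (l : ℝ) (C S : ℝ → ℝ) : Prop where
  dC : ∀ u, HasDerivAt C (l * S u) u
  dS : ∀ u, HasDerivAt S (C u) u
  C0 : C 0 = 1
  S0 : S 0 = 0

theorem const_of_deriv {f : ℝ → ℝ} (h : ∀ u, HasDerivAt f 0 u) (u : ℝ) : f u = f 0 :=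
  is_const_of_deriv_eq_zero (fun x => (h x).differentiableAt) (fun x => (h x).deriv) u 0

theorem CS.one {l : ℝ} {C S : ℝ → ℝ} (h : CS l C S) (u : ℝ) : C u ^ 2 - l * S u ^ 2 = 1 := by
  have := const_of_deriv (f := fun u => C u ^ 2 - l * S u ^ 2)
    (fun u => (((h.dC u).pow 2).sub (((h.dS u).pow 2).const_mul l)).congr_deriv (by simp; ring)) u
  simpa [h.C0, h.S0] using this

theorem CS.cC {l : ℝ} {C S : ℝ → ℝ} (h : CS l C S) : Continuous C :=
  continuous_iff_continuousAt.2 fun u => (h.dC u).continuousAt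

theorem CS.cS {l : ℝ} {C S : ℝ → ℝ} (h : CS l C S) : Continuous S :=
  continuous_iff_continuousAt.2 fun u => (h.dS u).continuousAt

/-- a continuous function without zeros keeps its sign -/
theorem pos_of_ne {f : ℝ → ℝ} (hf : Continuous f) (h : ∀ u, f u ≠ 0) {a : ℝ} (ha : 0 < f a)
    (u : ℝ) : 0 < f u := by
  by_contra hu
  have hu' : f u ≤ 0 := not_lt.1 hu
  obtain ⟨c, hc⟩ : (0 : ℝ) ∈ range f := intermediate_value_univ u a hf ⟨hu', ha.le⟩
  exact h c hc

theorem CS.Cpos {l : ℝ} {C S : ℝ → ℝ} (h : CS l C S) (hl : 0 ≤ l) (u : ℝ) : 0 < C u := by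
  refine pos_of_ne h.cC (fun v hv => ?_) (a := 0) (by rw [h.C0]; norm_num) u
  have := h.one v
  rw [hv] at this
  nlinarith [mul_nonneg hl (sq_nonneg (S v))]

theorem CS.Spos {l : ℝ} {C S : ℝ → ℝ} (h : CS l C S) (hl : 0 ≤ l) {u : ℝ} (hu : 0 < u) :
    0 < S u := by
  have : StrictMono S := strictMono_of_hasDerivAt_pos h.dS (h.Cpos hl)
  simpa [h.S0] using this hu

/-- a scalar arc -/
structure Arc (G l : ℝ) (y y' : ℝ → ℝ) : Prop where
  d : ∀ u, HasDerivAt y (y' u) u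
  d2 : ∀ u, HasDerivAt y' (l * y u) u
  e : ∀ u, y' u ^ 2 = G + l * y u ^ 2

theorem Arc.c {G l : ℝ} {y y' : ℝ → ℝ} (h : Arc G l y y') : Continuous y :=
  continuous_iff_continuousAt.2 fun u => (h.d u).continuousAt

theorem Arc.c' {G l : ℝ} {y y' : ℝ → ℝ} (h : Arc G l y y') : Continuous y' :=
  continuous_iff_continuousAt.2 fun u => (h.d2 u).continuousAt

theorem CS.arc {G l N a : ℝ} {C S : ℝ → ℝ} (h : CS l C S) (ha : a ^ 2 = G + l * N ^ 2) :
    Arc G l (fun u => N * C u + a * S u) (fun u => N * (l * S u) + a * C u) where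
  d u := ((h.dC u).const_mul N).add ((h.dS u).const_mul a)
  d2 u := ((((h.dS u).const_mul l).const_mul N).add ((h.dC u).const_mul a)).congr_deriv (by ring)
  e u := by
    have := h.one u
    have h1 : (N * (l * S u) + a * C u) ^ 2 - l * (N * C u + a * S u) ^ 2
        = (a ^ 2 - l * N ^ 2) * (C u ^ 2 - l * S u ^ 2) := by ring
    rw [this] at h1
    linarith

/-- an arc of nonnegative energy that does not go down goes strictly up -/
theorem Arc.up {G l s : ℝ} {y y' : ℝ → ℝ} (h : Arc G l y y') (hG : 0 < G) (hl : 0 ≤ l)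
    (hs : 0 < s) (hy : y 0 ≤ y s) (u : ℝ) : 0 < y' u := by
  have hne : ∀ v, y' v ≠ 0 := fun v hv => by
    have := h.e v
    rw [hv] at this
    nlinarith [mul_nonneg hl (sq_nonneg (y v))]
  rcases lt_or_gt_of_ne (hne 0) with h0 | h0
  · exfalso
    have hneg : ∀ v, 0 < -y' v :=
      pos_of_ne (f := fun v => -y' v) h.c'.neg (fun v => neg_ne_zero.2 (hne v)) (a := 0)
        (by linarith)
    have : StrictAnti y := strictAnti_of_hasDerivAt_neg h.d (fun v => by linarith [hneg v])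
    linarith [this hs]
  · exact pos_of_ne h.c' hne h0 u

theorem Arc.chain {G l a b : ℝ} {y y' : ℝ → ℝ} (h : Arc G l y y') {f : ℝ → ℝ}
    (hf : Continuous f) : ∫ u in a..b, f (y u) * y' u = ∫ x in y a..y b, f x :=
  intervalIntegral.integral_comp_mul_deriv (fun u _ => h.d u) h.c'.continuousOn hf

theorem Arc.ge {G l a b : ℝ} {y y' : ℝ → ℝ} (h : Arc G l y y') {f : ℝ → ℝ} (hf : Continuous f)
    (hab : a ≤ b) (hle : ∀ u ∈ Icc a b, f (y u) * y' u ≤ y u ^ 2) :
    ∫ x in y a..y b, f x ≤ ∫ u in a..b, y u ^ 2 := by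
  rw [← h.chain hf]
  exact intervalIntegral.integral_mono_on hab
    (((hf.comp h.c).mul h.c').intervalIntegrable _ _) ((h.c.pow 2).intervalIntegrable _ _) hle

theorem Arc.le {G l a b : ℝ} {y y' : ℝ → ℝ} (h : Arc G l y y') {f : ℝ → ℝ} (hf : Continuous f)
    (hab : a ≤ b) (hle : ∀ u ∈ Icc a b, y u ^ 2 ≤ f (y u) * y' u) :
    ∫ u in a..b, y u ^ 2 ≤ ∫ x in y a..y b, f x := by
  rw [← h.chain hf]
  exact intervalIntegral.integral_mono_on hab ((h.c.pow 2).intervalIntegrable _ _)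
    (((hf.comp h.c).mul h.c').intervalIntegrable _ _) hle

theorem Arc.gt {G l a b : ℝ} {y y' : ℝ → ℝ} (h : Arc G l y y') {f : ℝ → ℝ} (hf : Continuous f)
    (hab : a < b) (hle : ∀ u ∈ Icc a b, f (y u) * y' u ≤ y u ^ 2)
    (hlt : f (y b) * y' b < y b ^ 2) :
    ∫ x in y a..y b, f x < ∫ u in a..b, y u ^ 2 := by
  rw [← h.chain hf]
  exact intervalIntegral.integral_lt_integral_of_continuousOn_of_le_of_exists_lt hab
    ((hf.comp h.c).mul h.c').continuousOn (h.c.pow 2).continuousOn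
    (fun u hu => hle u (Ioc_subset_Icc_self hu)) ⟨b, right_mem_Icc.2 hab.le, hlt⟩

/-- the exact calibration density -/
noncomputable def cal (G l x : ℝ) : ℝ := x ^ 2 / Real.sqrt (G + l * x ^ 2)

theorem cal_cont {G l : ℝ} (hG : 0 < G) (hl : 0 ≤ l) : Continuous (cal G l) := by
  unfold cal
  refine Continuous.div (by fun_prop) (by fun_prop) fun x => ?_
  exact (Real.sqrt_pos.2 (by positivity)).ne'

theorem cal_nonneg (G l x : ℝ) : 0 ≤ cal G l x := by
  unfold cal
  positivity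

theorem cal_int_pos {G l a b : ℝ} (hG : 0 < G) (hl : 0 ≤ l) (hab : a < b) :
    0 < ∫ x in a..b, cal G l x := by
  refine intervalIntegral.integral_pos hab (cal_cont hG hl).continuousOn
    (fun x _ => cal_nonneg G l x) ?_
  have key : ∀ x : ℝ, x ≠ 0 → 0 < cal G l x := fun x hx => by
    unfold cal
    exact div_pos (by positivity) (Real.sqrt_pos.2 (by positivity))
  by_cases ha : a = 0
  · exact ⟨b, right_mem_Icc.2 hab.le, key b (by rw [ha] at hab; exact hab.ne')⟩
  · exact ⟨a, left_mem_Icc.2 hab.le, key a ha⟩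

theorem cal_mul_le {G l k x v : ℝ} (hG : 0 < G) (hl : 0 ≤ l) (hk : k ≤ l)
    (hv : v ^ 2 = G + k * x ^ 2) : cal G l x * v ≤ x ^ 2 := by
  have hp : 0 < Real.sqrt (G + l * x ^ 2) := Real.sqrt_pos.2 (by positivity)
  have h1 : v ≤ Real.sqrt (G + l * x ^ 2) :=
    Real.le_sqrt_of_sq_le (by nlinarith [mul_le_mul_of_nonneg_right hk (sq_nonneg x)])
  unfold cal
  rw [div_mul_eq_mul_div, div_le_iff₀ hp]
  exact mul_le_mul_of_nonneg_left h1 (sq_nonneg x)

theorem cal_mul_lt {G l k x v : ℝ} (hG : 0 < G) (hl : 0 ≤ l) (hk : k < l) (hx : x ≠ 0)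
    (hv : v ^ 2 = G + k * x ^ 2) : cal G l x * v < x ^ 2 := by
  have hp : 0 < Real.sqrt (G + l * x ^ 2) := Real.sqrt_pos.2 (by positivity)
  have hx2 : 0 < x ^ 2 := by positivity
  have h1 : v < Real.sqrt (G + l * x ^ 2) :=
    Real.lt_sqrt_of_sq_lt (by nlinarith [mul_lt_mul_of_pos_right hk hx2])
  unfold cal
  rw [div_mul_eq_mul_div, div_lt_iff₀ hp]
  exact mul_lt_mul_of_pos_left h1 hx2

theorem cal_mul_eq {G l x v : ℝ} (hv0 : 0 < v) (hv : v ^ 2 = G + l * x ^ 2) :
    cal G l x * v = x ^ 2 := by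
  unfold cal
  rw [← hv, Real.sqrt_sq hv0.le]
  field_simp

/-- the time along an increasing arc -/
theorem Arc.time_eq {G l a b : ℝ} {y y' : ℝ → ℝ} (h : Arc G l y y') (hG : 0 < G) (hl : 0 ≤ l)
    (hup : ∀ u, 0 < y' u) : ∫ u in a..b, y u ^ 2 = ∫ x in y a..y b, cal G l x := by
  rw [← h.chain (cal_cont hG hl)]
  exact intervalIntegral.integral_congr fun u _ => (cal_mul_eq (hup u) (h.e u)).symm

/-- strictly smaller energy and the same end point: the start is strictly higher -/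
theorem start_lt {G la lb sa sb : ℝ} {ya ya' yb yb' : ℝ → ℝ} (ha : Arc G la ya ya')
    (hb : Arc G lb yb yb') (hG : 0 < G) (hl : 0 ≤ la) (hlt : lb < la) (hsb : 0 < sb)
    (hup : ∀ u, 0 < ya' u) (hM : yb sb = ya sa) (hM0 : ya sa ≠ 0)
    (hT : ∫ u in (0 : ℝ)..sa, ya u ^ 2 = ∫ u in (0 : ℝ)..sb, yb u ^ 2) : ya 0 < yb 0 := by
  have hc := cal_cont hG hl
  have h1 := ha.time_eq hG hl hup (a := 0) (b := sa)
  have h2 := hb.gt hc hsb (fun u _ => cal_mul_le hG hl hlt.le (hb.e u))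
    (cal_mul_lt hG hl hlt (by rw [hM]; exact hM0) (hb.e sb))
  rw [hM, ← hT, h1] at h2
  by_contra hn
  have hn' : yb 0 ≤ ya 0 := not_lt.1 hn
  have h3 := intervalIntegral.integral_add_adjacent_intervals
    (hc.intervalIntegrable (μ := MeasureTheory.volume) (yb 0) (ya 0))
    (hc.intervalIntegrable (ya 0) (ya sa))
  have h4 : 0 ≤ ∫ x in yb 0..ya 0, cal G la x :=
    intervalIntegral.integral_nonneg hn' fun x _ => cal_nonneg G la x
  linarith

/-- the same energy, the same end point and both increasing: the same start -/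
theorem start_eq {G l sa sb : ℝ} {ya ya' yb yb' : ℝ → ℝ} (ha : Arc G l ya ya')
    (hb : Arc G l yb yb') (hG : 0 < G) (hl : 0 ≤ l)
    (hup : ∀ u, 0 < ya' u) (hup' : ∀ u, 0 < yb' u) (hM : yb sb = ya sa)
    (hT : ∫ u in (0 : ℝ)..sa, ya u ^ 2 = ∫ u in (0 : ℝ)..sb, yb u ^ 2) : ya 0 = yb 0 := by
  have hc := cal_cont hG hl
  rw [ha.time_eq hG hl hup, hb.time_eq hG hl hup', hM] at hT
  have h3 := intervalIntegral.integral_add_adjacent_intervals
    (hc.intervalIntegrable (μ := MeasureTheory.volume) (yb 0) (ya 0))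
    (hc.intervalIntegrable (ya 0) (ya sa))
  have h5 := intervalIntegral.integral_add_adjacent_intervals
    (hc.intervalIntegrable (μ := MeasureTheory.volume) (ya 0) (yb 0))
    (hc.intervalIntegrable (yb 0) (ya sa))
  rcases lt_trichotomy (ya 0) (yb 0) with h | h | h
  · linarith [cal_int_pos hG hl h]
  · exact h
  · linarith [cal_int_pos hG hl h]

end Pool.Agent.Lib.MP_e310f3_mp.Lam
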