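import Pool.Agent.Lib.MP_e310f3_mp.Lam1

/-! Pairs of scalar arcs with opposite energies. -/

set_option autoImplicit false

namespace Pool.Agent.Lib.MP_e310f3_mp.Lam

open Set

theorem int_sq (c a b : ℝ) : ∫ x in a..b, c * x ^ 2 = c * (b ^ 3 - a ^ 3) / 3 := by
  rw [intervalIntegral.integral_const_mul, integral_pow]
  norm_num
  ring

/-- the bound arc starts upwards -/
theorem start_up {G l sa sb M N : ℝ} {ya ya' yb yb' : ℝ → ℝ} (ha : Arc G l ya ya')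
    (hb : Arc G (-l) yb yb') (hG : 0 < G) (hl : 0 < l) (hsa : 0 < sa) (hsb : 0 < sb)
    (hup : ∀ u, 0 < ya' u) (ha0 : ya 0 = -N) (hb0 : yb 0 = N) (has : ya sa = M) (hbs : yb sb = M)
    (hNM : N ≤ M)
    (hT : ∫ u in (0 : ℝ)..sa, ya u ^ 2 = ∫ u in (0 : ℝ)..sb, yb u ^ 2) : 0 ≤ yb' 0 := by
  obtain ⟨γ, hγ, hγ2⟩ : ∃ γ : ℝ, 0 < γ ∧ γ ^ 2 = G := ⟨Real.sqrt G, Real.sqrt_pos.2 hG,
    Real.sq_sqrt hG.le⟩
  have hA : ∫ u in (0 : ℝ)..sa, ya u ^ 2 ≤ γ⁻¹ * (M ^ 3 + N ^ 3) / 3 := by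
    have := ha.le (f := fun x => γ⁻¹ * x ^ 2) (by fun_prop) hsa.le fun u _ => by
      have h1 : γ ≤ ya' u := by
        refine abs_le_of_sq_le_sq' ?_ (hup u).le |>.2
        nlinarith [ha.e u, mul_nonneg hl.le (sq_nonneg (ya u))]
      have h2 : 1 ≤ γ⁻¹ * ya' u := by
        rw [inv_mul_eq_div, le_div_iff₀ hγ]
        linarith
      nlinarith [mul_le_mul_of_nonneg_left h2 (sq_nonneg (ya u))]
    rw [int_sq, ha0, has] at this
    calc _ ≤ _ := this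
      _ = _ := by ring
  have hsp : ∀ u, -1 ≤ γ⁻¹ * yb' u ∧ γ⁻¹ * yb' u ≤ 1 := fun u => by
    have h1 := abs_le_of_sq_le_sq' (a := yb' u) (b := γ)
      (by nlinarith [hb.e u, mul_nonneg hl.le (sq_nonneg (yb u))]) hγ.le
    rw [inv_mul_eq_div, le_div_iff₀ hγ, div_le_iff₀ hγ]
    constructor <;> linarith [h1.1, h1.2]
  have hnn : ∀ u ∈ Icc 0 sb, 0 ≤ yb u := fun u hu => by
    by_contra hn
    have hn' : yb u < 0 := not_le.1 hn
    have h1 := hb.ge (f := fun x => -γ⁻¹ * x ^ 2) (by fun_prop) hu.1 fun v _ => by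
      nlinarith [mul_le_mul_of_nonneg_left (hsp v).1 (sq_nonneg (yb v))]
    have h2 := hb.ge (f := fun x => γ⁻¹ * x ^ 2) (by fun_prop) hu.2 fun v _ => by
      nlinarith [mul_le_mul_of_nonneg_left (hsp v).2 (sq_nonneg (yb v))]
    have h3 := intervalIntegral.integral_add_adjacent_intervals
      ((hb.c.pow 2).intervalIntegrable (μ := MeasureTheory.volume) 0 u)
      ((hb.c.pow 2).intervalIntegrable u sb)
    rw [int_sq, hb0] at h1
    rw [int_sq, hbs] at h2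
    have h4 : yb u ^ 3 < 0 := Odd.pow_neg (by decide) hn'
    have h5 : γ⁻¹ * yb u ^ 3 < 0 := mul_neg_of_pos_of_neg (inv_pos.2 hγ) h4
    simp only [Pi.pow_apply] at h3
    nlinarith
  by_contra hn
  have hn' : yb' 0 < 0 := not_le.1 hn
  have hanti : AntitoneOn yb' (Icc 0 sb) :=
    antitoneOn_of_deriv_nonpos (convex_Icc _ _) hb.c'.continuousOn
      (fun x _ => (hb.d2 x).differentiableAt.differentiableWithinAt) fun x hx => by
        rw [(hb.d2 x).deriv]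
        nlinarith [hnn x (interior_subset hx)]
  have hdec : StrictAntiOn yb (Icc 0 sb) :=
    strictAntiOn_of_deriv_neg (convex_Icc _ _) hb.c.continuousOn fun x hx => by
      rw [(hb.d x).deriv]
      have hx' := interior_subset hx
      exact (hanti (left_mem_Icc.2 hsb.le) hx' hx'.1).trans_lt hn'
  have := hdec (left_mem_Icc.2 hsb.le) (right_mem_Icc.2 hsb.le) hsb
  linarith

/-- truncated series of `(1 - v)^(-1/2)` -/
noncomputable def pA (v : ℝ) : ℝ :=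
  1 + v / 2 + 3 / 8 * v ^ 2 + 5 / 16 * v ^ 3 + 35 / 128 * v ^ 4 + 63 / 256 * v ^ 5
    + 231 / 1024 * v ^ 6

/-- truncated series of `(1 + v)^(-1/2)` -/
noncomputable def pB (v : ℝ) : ℝ := 1 - v / 2 + 3 / 8 * v ^ 2

theorem pA_le {v : ℝ} (hv : 0 ≤ v) : pA v ^ 2 * (1 - v) ≤ 1 := by
  have : 1 - pA v ^ 2 * (1 - v) = v ^ 7 * (429 / 1024 + 3003 / 16384 * v + 1001 / 8192 * v ^ 2
      + 3003 / 32768 * v ^ 3 + 9555 / 131072 * v ^ 4 + 63063 / 1048576 * v ^ 5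
      + 53361 / 1048576 * v ^ 6) := by
    unfold pA
    ring
  have h2 : 0 ≤ 1 - pA v ^ 2 * (1 - v) := by
    rw [this]
    positivity
  linarith

theorem pB_pos (v : ℝ) : 0 < pB v := by
  unfold pB
  nlinarith [sq_nonneg (v - 2 / 3)]

theorem pB_ge {v : ℝ} (hv : 0 ≤ v) : 1 ≤ pB v ^ 2 * (1 + v) := by
  have : pB v ^ 2 * (1 + v) - 1 = v ^ 3 * (5 / 8 - 15 / 64 * v + 9 / 64 * v ^ 2) := by
    unfold pB
    ring
  have h2 : 0 ≤ 5 / 8 - 15 / 64 * v + 9 / 64 * v ^ 2 := by nlinarith [sq_nonneg (v - 1)]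
  nlinarith [mul_nonneg (pow_nonneg hv 3) h2]

/-- primitive of `x^2 pA (k x^2)` -/
noncomputable def qA (v : ℝ) : ℝ :=
  1 / 3 + v / 10 + 3 / 56 * v ^ 2 + 5 / 144 * v ^ 3 + 35 / 1408 * v ^ 4 + 63 / 3328 * v ^ 5
    + 231 / 15360 * v ^ 6

/-- primitive of `x^2 pB (k x^2)` -/
noncomputable def qB (v : ℝ) : ℝ := 1 / 3 - v / 10 + 3 / 56 * v ^ 2

theorem int_pA (c k a b : ℝ) : ∫ x in a..b, c * (x ^ 2 * pA (k * x ^ 2))
    = c * (b ^ 3 * qA (k * b ^ 2)) - c * (a ^ 3 * qA (k * a ^ 2)) := by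
  refine intervalIntegral.integral_eq_sub_of_hasDerivAt
    (f := fun x => c * (x ^ 3 * qA (k * x ^ 2))) (fun x _ => ?_)
    (Continuous.intervalIntegrable (by unfold pA; fun_prop) _ _)
  have h1 : (fun x : ℝ => c * (x ^ 3 * qA (k * x ^ 2))) = fun x => c * (1 / 3 * x ^ 3
      + k / 10 * x ^ 5 + 3 / 56 * k ^ 2 * x ^ 7 + 5 / 144 * k ^ 3 * x ^ 9
      + 35 / 1408 * k ^ 4 * x ^ 11 + 63 / 3328 * k ^ 5 * x ^ 13 + 231 / 15360 * k ^ 6 * x ^ 15) := by
    funext x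
    unfold qA
    ring
  rw [h1]
  refine ((((((((hasDerivAt_pow 3 x).const_mul _).add ((hasDerivAt_pow 5 x).const_mul _)).add
    ((hasDerivAt_pow 7 x).const_mul _)).add ((hasDerivAt_pow 9 x).const_mul _)).add
    ((hasDerivAt_pow 11 x).const_mul _)).add ((hasDerivAt_pow 13 x).const_mul _)).add
    ((hasDerivAt_pow 15 x).const_mul _)).const_mul c |>.congr_deriv ?_
  unfold pA
  norm_num
  left
  ring

theorem int_pB (c k a b : ℝ) : ∫ x in a..b, c * (x ^ 2 * pB (k * x ^ 2))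
    = c * (b ^ 3 * qB (k * b ^ 2)) - c * (a ^ 3 * qB (k * a ^ 2)) := by
  refine intervalIntegral.integral_eq_sub_of_hasDerivAt
    (f := fun x => c * (x ^ 3 * qB (k * x ^ 2))) (fun x _ => ?_)
    (Continuous.intervalIntegrable (by unfold pB; fun_prop) _ _)
  have h1 : (fun x : ℝ => c * (x ^ 3 * qB (k * x ^ 2))) = fun x => c * (1 / 3 * x ^ 3
      + -k / 10 * x ^ 5 + 3 / 56 * k ^ 2 * x ^ 7) := by
    funext x
    unfold qB
    ring
  rw [h1]
  refine ((((hasDerivAt_pow 3 x).const_mul _).add ((hasDerivAt_pow 5 x).const_mul _)).add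
    ((hasDerivAt_pow 7 x).const_mul _)).const_mul c |>.congr_deriv ?_
  unfold pB
  norm_num
  left
  ring

theorem sq_lt_of {G t c d : ℝ} (hG : 0 < G) (h : (c * G) ^ 2 < G ^ 2 * (1 - t ^ 2))
    (hd : 0 ≤ d) (hcd : 1 - c ^ 2 ≤ d ^ 2) : t < d := by
  have hG2 : 0 < G ^ 2 := by positivity
  have h1 : G ^ 2 * c ^ 2 < G ^ 2 * (1 - t ^ 2) := by linarith [mul_pow c G 2]
  have h2 := lt_of_mul_lt_mul_left h1 hG2.le
  exact lt_of_pow_lt_pow_left₀ 2 hd (by linarith)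

theorem lt_sq_of {G t c d : ℝ} (hG : 0 < G) (h : G ^ 2 * (1 - t ^ 2) < (c * G) ^ 2)
    (ht : 0 ≤ t) (hcd : d ^ 2 ≤ 1 - c ^ 2) : d < t := by
  have hG2 : 0 < G ^ 2 := by positivity
  have h1 : G ^ 2 * (1 - t ^ 2) < G ^ 2 * c ^ 2 := by linarith [mul_pow c G 2]
  have h2 := lt_of_mul_lt_mul_left h1 hG2.le
  exact lt_of_pow_lt_pow_left₀ 2 ht (by linarith)

theorem numeric {k M N : ℝ} (hk : 0 < k) (hN : 0 ≤ N) (hNM : N ≤ M)
    (hy1 : k * N ^ 2 < 5268 / 10000) (hx1 : 9886 / 10000 < k * M ^ 2)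
    (htime : M ^ 3 * (qA (k * M ^ 2) - qB (k * M ^ 2))
      ≤ N ^ 3 * (qA (k * N ^ 2) + qB (k * N ^ 2))) : False := by
  have hM : 0 < M := by
    rcases (hN.trans hNM).lt_or_eq with h | h
    · exact h
    · rw [← h] at hx1
      norm_num at hx1
  have hNM' : N ≤ 73 / 100 * M := by
    refine abs_le_of_sq_le_sq' ?_ (by positivity) |>.2
    have : k * N ^ 2 ≤ k * (73 / 100 * M) ^ 2 := by
      have : k * (73 / 100 * M) ^ 2 = 5329 / 10000 * (k * M ^ 2) := by ring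
      linarith
    exact le_of_mul_le_mul_left this hk
  have hN3 : N ^ 3 ≤ (73 / 100 * M) ^ 3 := pow_le_pow_left₀ hN hNM' 3
  have hy0 : 0 ≤ k * N ^ 2 := by positivity
  generalize k * M ^ 2 = x at *
  generalize k * N ^ 2 = y at *
  have hD : 2869 / 10000 ≤ qA x - qB x := by
    have p3 := pow_le_pow_left₀ (by norm_num) hx1.le 3
    have p4 := pow_le_pow_left₀ (by norm_num) hx1.le 4
    have p5 := pow_le_pow_left₀ (by norm_num) hx1.le 5
    have p6 := pow_le_pow_left₀ (by norm_num) hx1.le 6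
    unfold qA qB
    norm_num at p3 p4 p5 p6 ⊢
    linarith
  have hS : qA y + qB y ≤ 7045 / 10000 := by
    have p2 := pow_le_pow_left₀ hy0 hy1.le 2
    have p3 := pow_le_pow_left₀ hy0 hy1.le 3
    have p4 := pow_le_pow_left₀ hy0 hy1.le 4
    have p5 := pow_le_pow_left₀ hy0 hy1.le 5
    have p6 := pow_le_pow_left₀ hy0 hy1.le 6
    unfold qA qB
    norm_num at p2 p3 p4 p5 p6 ⊢
    linarith
  have hM3 : 0 < M ^ 3 := by positivity
  have hN0 : 0 ≤ N ^ 3 := by positivity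
  have h1 := mul_le_mul_of_nonneg_left hD hM3.le
  have h2 := mul_le_mul_of_nonneg_left hS hN0
  have h3 : (73 / 100 * M) ^ 3 = 389017 / 1000000 * M ^ 3 := by ring
  linarith

/-- the quantitative bound at zero total energy -/
theorem zero_bound {G l sa sb M N : ℝ} {ya ya' yb yb' : ℝ → ℝ} (ha : Arc G l ya ya')
    (hb : Arc G (-l) yb yb') (hG : 0 < G) (hl : 0 < l) (hsa : 0 < sa) (hsb : 0 < sb)
    (hup : ∀ u, 0 < ya' u) (ha0 : ya 0 = -N) (hb0 : yb 0 = N) (has : ya sa = M) (hbs : yb sb = M)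
    (hN : 0 ≤ N) (hNM : N ≤ M) (h0 : 0 ≤ yb' 0) (h1 : 0 ≤ yb' sb)
    (hT : ∫ u in (0 : ℝ)..sa, ya u ^ 2 = ∫ u in (0 : ℝ)..sb, yb u ^ 2) :
    |ya' sa * yb' sb - ya' 0 * yb' 0| ≤ 85 / 100 * G := by
  obtain ⟨γ, hγ, hγ2⟩ : ∃ γ : ℝ, 0 < γ ∧ γ ^ 2 = G := ⟨Real.sqrt G, Real.sqrt_pos.2 hG,
    Real.sq_sqrt hG.le⟩
  obtain ⟨k, hk, hkl⟩ : ∃ k : ℝ, 0 < k ∧ l = k * G := ⟨l / G, by positivity, by field_simp⟩
  have hci : 0 < γ⁻¹ := inv_pos.2 hγ
  have hγi : γ⁻¹ ^ 2 * G = 1 := by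
    rw [← hγ2]
    field_simp
  have hA := ha.le (f := fun x => γ⁻¹ * (x ^ 2 * pB (k * x ^ 2))) (by unfold pB; fun_prop) hsa.le
    fun u _ => by
      have hv : 0 ≤ k * ya u ^ 2 := by positivity
      have h2 : 1 ≤ γ⁻¹ * pB (k * ya u ^ 2) * ya' u := by
        refine abs_le_of_sq_le_sq' ?_ (mul_pos (mul_pos hci (pB_pos _)) (hup u)).le |>.2
        have : (γ⁻¹ * pB (k * ya u ^ 2) * ya' u) ^ 2
            = (γ⁻¹ ^ 2 * G) * (pB (k * ya u ^ 2) ^ 2 * (1 + k * ya u ^ 2)) := by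
          rw [mul_pow, ha.e u, hkl]
          ring
        rw [this, hγi]
        simpa using pB_ge hv
      nlinarith [mul_le_mul_of_nonneg_left h2 (sq_nonneg (ya u))]
  have hB := hb.ge (f := fun x => γ⁻¹ * (x ^ 2 * pA (k * x ^ 2))) (by unfold pA; fun_prop) hsb.le
    fun u _ => by
      have hv : 0 ≤ k * yb u ^ 2 := by positivity
      have h2 : γ⁻¹ * pA (k * yb u ^ 2) * yb' u ≤ 1 := by
        refine abs_le_of_sq_le_sq' ?_ zero_le_one |>.2
        have : (γ⁻¹ * pA (k * yb u ^ 2) * yb' u) ^ 2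
            = (γ⁻¹ ^ 2 * G) * (pA (k * yb u ^ 2) ^ 2 * (1 - k * yb u ^ 2)) := by
          rw [mul_pow, hb.e u, hkl]
          ring
        rw [this, hγi]
        simpa using pA_le hv
      nlinarith [mul_le_mul_of_nonneg_left h2 (sq_nonneg (yb u))]
  rw [int_pB, ha0, has] at hA
  rw [int_pA, hb0, hbs] at hB
  set x := k * M ^ 2 with hx
  set y := k * N ^ 2 with hy
  have hy' : k * (-N) ^ 2 = y := by rw [hy]; ring
  rw [hy'] at hA
  have htime : M ^ 3 * (qA x - qB x) ≤ N ^ 3 * (qA y + qB y) := by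
    have : γ⁻¹ * (M ^ 3 * (qA x - qB x)) ≤ γ⁻¹ * (N ^ 3 * (qA y + qB y)) := by
      have h3 : (-N) ^ 3 = -N ^ 3 := by ring
      rw [h3] at hA
      linarith
    exact le_of_mul_le_mul_left this hci
  have hA0 : 0 ≤ ya' 0 * yb' 0 := mul_nonneg (hup 0).le h0
  have hB0 : 0 ≤ ya' sa * yb' sb := mul_nonneg (hup sa).le h1
  have hA2 : (ya' 0 * yb' 0) ^ 2 = G ^ 2 * (1 - y ^ 2) := by
    rw [mul_pow, ha.e, hb.e, ha0, hb0, hkl, hy]
    ring
  have hB2 : (ya' sa * yb' sb) ^ 2 = G ^ 2 * (1 - x ^ 2) := by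
    rw [mul_pow, ha.e, hb.e, has, hbs, hkl, hx]
    ring
  set A := ya' 0 * yb' 0
  set B := ya' sa * yb' sb
  have hy0 : 0 ≤ y := by positivity
  have hyx : y ≤ x := mul_le_mul_of_nonneg_left (pow_le_pow_left₀ hN hNM 2) hk.le
  have hG2 : 0 < G ^ 2 := by positivity
  have hBA : B ≤ A := by
    refine abs_le_of_sq_le_sq' ?_ hA0 |>.2
    rw [hA2, hB2]
    exact mul_le_mul_of_nonneg_left (by nlinarith) hG2.le
  have hAG : A ≤ G := by
    refine abs_le_of_sq_le_sq' ?_ hG.le |>.2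
    rw [hA2]
    nlinarith [mul_nonneg hG2.le (sq_nonneg y)]
  rw [abs_le]
  refine ⟨?_, by linarith⟩
  by_contra hn
  have hn' : 85 / 100 * G < A - B := by linarith [not_le.1 hn]
  have hy1 : y < 5268 / 10000 := by
    have h3 : (85 / 100 * G) ^ 2 < A ^ 2 := by
      apply pow_lt_pow_left₀ (by linarith) (by positivity) (by norm_num)
    rw [hA2] at h3
    exact sq_lt_of hG h3 (by norm_num) (by norm_num)
  have hx1 : 9886 / 10000 < x := by
    have h3 : B ^ 2 < (15 / 100 * G) ^ 2 := by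
      apply pow_lt_pow_left₀ (by linarith) hB0 (by norm_num)
    rw [hB2] at h3
    exact lt_sq_of hG h3 (hy0.trans hyx) (by norm_num)
  exact numeric hk hN hNM hy1 hx1 htime

end Pool.Agent.Lib.MP_e310f3_mp.Lam
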