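import Pool.Agent.Lib.MP_e310f3_mp.Lam2

/-! A sharper bound for pairs of scalar arcs with opposite energies. -/

set_option autoImplicit false

namespace Pool.Agent.Lib.MP_e310f3_mp.Lam

open Set

/-- calibration in the velocity -/
noncomputable def nV (v : ℝ) : ℝ := v - v ^ 3 / 6 - v ^ 5 / 10

theorem nV_mono {a b : ℝ} (ha : 0 ≤ a) (hab : a ≤ b) (hb : b ≤ 1) : nV a ≤ nV b := by
  have ha1 : a ≤ 1 := hab.trans hb
  have hb0 : 0 ≤ b := ha.trans hab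
  have m : ∀ i j : ℕ, a ^ i * b ^ j ≤ 1 := fun i j =>
    mul_le_one₀ (pow_le_one₀ ha ha1) (by positivity) (pow_le_one₀ hb0 hb)
  have : nV b - nV a = (b - a) * (1 - (a ^ 2 * b ^ 0 + a ^ 1 * b ^ 1 + a ^ 0 * b ^ 2) / 6
      - (a ^ 4 * b ^ 0 + a ^ 3 * b ^ 1 + a ^ 2 * b ^ 2 + a ^ 1 * b ^ 3 + a ^ 0 * b ^ 4) / 10) := by
    unfold nV
    ring
  have h2 : 0 ≤ nV b - nV a := by
    rw [this]
    exact mul_nonneg (by linarith)
      (by linarith [m 2 0, m 1 1, m 0 2, m 4 0, m 3 1, m 2 2, m 1 3, m 0 4])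
  linarith

theorem nV_le {b : ℝ} (hb : 0 ≤ b) : nV b ≤ b := by
  unfold nV
  have : 0 ≤ b ^ 3 := by positivity
  have : 0 ≤ b ^ 5 := by positivity
  linarith

theorem uB_mono {a b : ℝ} (hab : a ≤ b) : a ^ 3 * qB (a ^ 2) ≤ b ^ 3 * qB (b ^ 2) := by
  have h := int_pB 1 1 a b
  have h2 : 0 ≤ ∫ x in a..b, 1 * (x ^ 2 * pB (1 * x ^ 2)) :=
    intervalIntegral.integral_nonneg hab fun x _ =>
      mul_nonneg zero_le_one (mul_nonneg (sq_nonneg x) (pB_pos _).le)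
  simp only [one_mul] at h h2
  linarith

theorem step {a b X Y A B : ℝ} (ha : 0 ≤ a) (hb : 0 ≤ b) (hY : 0 ≤ Y) (hYX : Y ≤ X)
    (ea : a ^ 2 = 1 - Y ^ 2) (eb : b ^ 2 = 1 - X ^ 2) (hB : 0 ≤ B)
    (eA : A ^ 2 = (1 + Y ^ 2) * a ^ 2) (eB : B ^ 2 = (1 + X ^ 2) * b ^ 2)
    (ht : nV a - nV b ≤ X ^ 3 * qB (X ^ 2) + Y ^ 3 * qB (Y ^ 2)) (hAB : 7 / 10 < A - B)
    (y0 Y1 a1 A0 b0 : ℝ) (h0 : 0 ≤ y0) (h1 : y0 ≤ Y ^ 2) (h2 : Y ≤ Y1) (h3 : 0 ≤ a1)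
    (h4 : a1 ^ 2 ≤ 1 - Y1 ^ 2) (h5 : 0 ≤ A0) (h6 : 1 - y0 ^ 2 ≤ A0 ^ 2) (h7 : A0 ≤ 1)
    (h8 : 0 ≤ b0) (h9 : (A0 - 7 / 10) ^ 2 ≤ 195 / 100 * b0 ^ 2)
    (h10 : 1 / 3 - 1 / 10 + 3 / 56 + Y1 ^ 3 * qB (Y1 ^ 2) + b0 ≤ nV a1) : False := by
  have hX : 0 ≤ X := hY.trans hYX
  have hX1 : X ≤ 1 := abs_le_of_sq_le_sq' (by nlinarith [sq_nonneg b]) zero_le_one |>.2
  have ha1 : a ≤ 1 := abs_le_of_sq_le_sq' (by nlinarith [sq_nonneg Y]) zero_le_one |>.2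
  have k1 : a1 ≤ a := abs_le_of_sq_le_sq' (by nlinarith [pow_le_pow_left₀ hY h2 2]) ha |>.2
  have k2 : A ≤ A0 := by
    refine abs_le_of_sq_le_sq' ?_ h5 |>.2
    rw [eA, ea]
    nlinarith [pow_le_pow_left₀ h0 h1 2]
  have k3 : B ^ 2 < (A0 - 7 / 10) ^ 2 := pow_lt_pow_left₀ (by linarith) hB (by norm_num)
  have k4 : B ^ 2 < (3 / 10) ^ 2 := pow_lt_pow_left₀ (by linarith) hB (by norm_num)
  have k5 : 95 / 100 < X ^ 2 := by
    refine lt_of_pow_lt_pow_left₀ 2 (sq_nonneg X) ?_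
    rw [eB, eb] at k4
    linarith
  have k6 : b < b0 := by
    refine lt_of_pow_lt_pow_left₀ 2 h8 ?_
    have := mul_le_mul_of_nonneg_right k5.le (sq_nonneg b)
    linarith
  have k7 := uB_mono hX1
  have k8 := uB_mono h2
  have k9 := nV_mono h3 k1 ha1
  have k10 := nV_le hb
  have k11 : (1 : ℝ) ^ 3 * qB (1 ^ 2) = 1 / 3 - 1 / 10 + 3 / 56 := by
    unfold qB
    norm_num
  rw [k11] at k7
  linarith

theorem numeric' {a b X Y A B : ℝ} (ha : 0 ≤ a) (hb : 0 ≤ b) (hY : 0 ≤ Y) (hYX : Y ≤ X)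
    (ea : a ^ 2 = 1 - Y ^ 2) (eb : b ^ 2 = 1 - X ^ 2) (hB : 0 ≤ B)
    (eA : A ^ 2 = (1 + Y ^ 2) * a ^ 2) (eB : B ^ 2 = (1 + X ^ 2) * b ^ 2)
    (ht : nV a - nV b ≤ X ^ 3 * qB (X ^ 2) + Y ^ 3 * qB (Y ^ 2)) : A - B ≤ 7 / 10 := by
  by_contra hn
  have hAB := not_le.1 hn
  have st := step ha hb hY hYX ea eb hB eA eB ht hAB
  have hY1 : Y ≤ 8452 / 10000 := by
    have k1 : (7 / 10) ^ 2 < A ^ 2 := pow_lt_pow_left₀ (by linarith) (by norm_num) (by norm_num)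
    rw [eA, ea] at k1
    have k2 : Y ^ 2 < 7142 / 10000 := lt_of_pow_lt_pow_left₀ 2 (by norm_num) (by linarith)
    exact (lt_of_pow_lt_pow_left₀ 2 (by norm_num) (by linarith)).le
  rcases le_total Y (1 / 2) with c1 | c1
  · exact st 0 (1 / 2) (866 / 1000) 1 (3 / 10) le_rfl (sq_nonneg Y) c1 (by norm_num) (by norm_num)
      (by norm_num) (by norm_num) (by norm_num) (by norm_num) (by norm_num)
      (by unfold qB nV; norm_num)
  rcases le_total Y (7416 / 10000) with c2 | c2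
  · exact st (1 / 4) (7416 / 10000) (6708 / 10000) (9683 / 10000) (193 / 1000) (by norm_num)
      (by nlinarith) c2 (by norm_num) (by norm_num)
      (by norm_num) (by norm_num) (by norm_num) (by norm_num) (by norm_num)
      (by unfold qB nV; norm_num)
  rcases le_total Y (8124 / 10000) with c3 | c3
  · exact st (5499 / 10000) (8124 / 10000) (583 / 1000) (8353 / 10000) (97 / 1000) (by norm_num)
      (by nlinarith) c3 (by norm_num) (by norm_num)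
      (by norm_num) (by norm_num) (by norm_num) (by norm_num) (by norm_num)
      (by unfold qB nV; norm_num)
  · exact st (6599 / 10000) (8452 / 10000) (5344 / 10000) (7514 / 10000) (37 / 1000) (by norm_num)
      (by nlinarith) hY1 (by norm_num) (by norm_num)
      (by norm_num) (by norm_num) (by norm_num) (by norm_num) (by norm_num)
      (by unfold qB nV; norm_num)

/-- the sharper bound at zero total energy -/
theorem zero_bound' {G l sa sb M N : ℝ} {ya ya' yb yb' : ℝ → ℝ} (ha : Arc G l ya ya')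
    (hb : Arc G (-l) yb yb') (hG : 0 < G) (hl : 0 < l) (hsa : 0 < sa) (hsb : 0 < sb)
    (hup : ∀ u, 0 < ya' u) (ha0 : ya 0 = -N) (hb0 : yb 0 = N) (has : ya sa = M) (hbs : yb sb = M)
    (hN : 0 ≤ N) (hNM : N ≤ M) (h0 : 0 ≤ yb' 0) (h1 : 0 ≤ yb' sb)
    (hT : ∫ u in (0 : ℝ)..sa, ya u ^ 2 = ∫ u in (0 : ℝ)..sb, yb u ^ 2) :
    |ya' sa * yb' sb - ya' 0 * yb' 0| ≤ 7 / 10 * G := by
  obtain ⟨γ, hγ, hγ2⟩ : ∃ γ : ℝ, 0 < γ ∧ G = γ ^ 2 := ⟨Real.sqrt G, Real.sqrt_pos.2 hG,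
    (Real.sq_sqrt hG.le).symm⟩
  obtain ⟨κ, hκ, hkl⟩ : ∃ κ : ℝ, 0 < κ ∧ l = κ ^ 2 * G :=
    ⟨Real.sqrt (l / G), Real.sqrt_pos.2 (by positivity), by
      rw [Real.sq_sqrt (by positivity)]; field_simp⟩
  obtain ⟨ι, hι, hιγ⟩ : ∃ ι : ℝ, 0 < ι ∧ ι * γ = 1 := ⟨γ⁻¹, inv_pos.2 hγ, by field_simp⟩
  have hγi : ι ^ 2 * G = 1 := by rw [hγ2, ← mul_pow, hιγ, one_pow]
  have hA := ha.le (f := fun x => ι * (x ^ 2 * pB (κ ^ 2 * x ^ 2))) (by unfold pB; fun_prop) hsa.le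
    fun u _ => by
      have hv : 0 ≤ κ ^ 2 * ya u ^ 2 := by positivity
      have h2 : 1 ≤ ι * pB (κ ^ 2 * ya u ^ 2) * ya' u := by
        refine abs_le_of_sq_le_sq' ?_ (mul_pos (mul_pos hι (pB_pos _)) (hup u)).le |>.2
        have : (ι * pB (κ ^ 2 * ya u ^ 2) * ya' u) ^ 2
            = (ι ^ 2 * G) * (pB (κ ^ 2 * ya u ^ 2) ^ 2 * (1 + κ ^ 2 * ya u ^ 2)) := by
          rw [mul_pow, ha.e u, hkl]
          ring
        rw [this, hγi]
        simpa using pB_ge hv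
      nlinarith [mul_le_mul_of_nonneg_left h2 (sq_nonneg (ya u))]
  rw [int_pB, ha0, has] at hA
  have ev : ∀ u, (ι * yb' u) ^ 2 = 1 - (κ * yb u) ^ 2 := fun u => by
    rw [mul_pow, hb.e u, hkl]
    linear_combination (1 - κ ^ 2 * yb u ^ 2) * hγi
  have dV : ∀ u, HasDerivAt (fun u => -nV (ι * yb' u))
      ((κ * yb u) ^ 2 * (1 + (ι * yb' u) ^ 2 / 2) * (κ ^ 2 * γ * yb u)) u := fun u => by
    have d1 := (hb.d2 u).const_mul ι
    unfold nV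
    refine (((d1.sub ((d1.pow 3).div_const 6)).sub ((d1.pow 5).div_const 10)).neg).congr_deriv ?_
    have e1 : ι * (-l * yb u) = -(κ ^ 2 * γ * yb u) := by
      rw [hkl, hγ2]
      linear_combination (-κ ^ 2 * γ * yb u) * hιγ
    have e2 : (κ * yb u) ^ 2 = 1 - (ι * yb' u) ^ 2 := by linarith [ev u]
    rw [e1, e2]
    simp only [Nat.cast_ofNat]
    ring
  have hB : nV (ι * yb' 0) - nV (ι * yb' sb) ≤ κ ^ 3 * γ * ∫ u in (0 : ℝ)..sb, yb u ^ 2 := by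
    have c1 := hb.c
    have c2 := hb.c'
    have := intervalIntegral.integral_eq_sub_of_hasDerivAt (a := 0) (b := sb) (fun u _ => dV u)
      (Continuous.intervalIntegrable (by fun_prop) _ _)
    rw [← intervalIntegral.integral_const_mul]
    refine le_trans (le_of_eq (by rw [this]; ring)) (intervalIntegral.integral_mono_on hsb.le
      (Continuous.intervalIntegrable (by fun_prop) _ _)
      (Continuous.intervalIntegrable (by fun_prop) _ _) fun u _ => ?_ :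
        ∫ u in (0 : ℝ)..sb, (κ * yb u) ^ 2 * (1 + (ι * yb' u) ^ 2 / 2) * (κ ^ 2 * γ * yb u) ≤ _)
    have e2 : (κ * yb u) ^ 2 = 1 - (ι * yb' u) ^ 2 := by linarith [ev u]
    have h2 : κ * yb u * (1 + (ι * yb' u) ^ 2 / 2) ≤ 1 := by
      refine abs_le_of_sq_le_sq' ?_ zero_le_one |>.2
      rw [mul_pow, e2]
      have : 0 ≤ (ι * yb' u) ^ 2 := sq_nonneg _
      generalize (ι * yb' u) ^ 2 = w at this
      nlinarith [mul_nonneg this this, mul_nonneg this (mul_nonneg this this)]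
    have h3 : 0 ≤ κ ^ 3 * γ * yb u ^ 2 := by positivity
    nlinarith [mul_le_mul_of_nonneg_left h2 h3]
  have ht : nV (ι * yb' 0) - nV (ι * yb' sb)
      ≤ (κ * M) ^ 3 * qB ((κ * M) ^ 2) + (κ * N) ^ 3 * qB ((κ * N) ^ 2) := by
    rw [← hT] at hB
    refine hB.trans ((mul_le_mul_of_nonneg_left hA (by positivity)).trans (le_of_eq ?_))
    rw [neg_sq, mul_pow κ M 2, mul_pow κ N 2]
    linear_combination κ ^ 3 * (M ^ 3 * qB (κ ^ 2 * M ^ 2) + N ^ 3 * qB (κ ^ 2 * N ^ 2)) * hιγ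
  have eu : ∀ u, (ι * ya' u) ^ 2 = 1 + (κ * ya u) ^ 2 := fun u => by
    rw [mul_pow, ha.e u, hkl]
    linear_combination (1 + κ ^ 2 * ya u ^ 2) * hγi
  have hA0 : 0 ≤ ι * ya' 0 * (ι * yb' 0) := by have := (hup 0).le; positivity
  have hB0 : 0 ≤ ι * ya' sa * (ι * yb' sb) := by have := (hup sa).le; positivity
  have eA : (ι * ya' 0 * (ι * yb' 0)) ^ 2 = (1 + (κ * N) ^ 2) * (ι * yb' 0) ^ 2 := by
    rw [mul_pow, eu, ha0]
    ring
  have eB : (ι * ya' sa * (ι * yb' sb)) ^ 2 = (1 + (κ * M) ^ 2) * (ι * yb' sb) ^ 2 := by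
    rw [mul_pow, eu, has]
  have hYX : κ * N ≤ κ * M := mul_le_mul_of_nonneg_left hNM hκ.le
  have key := numeric' (by positivity) (by positivity) (by positivity) hYX
    (by rw [ev, hb0]) (by rw [ev, hbs]) hB0 eA eB ht
  have hBA : ι * ya' sa * (ι * yb' sb) ≤ ι * ya' 0 * (ι * yb' 0) := by
    refine abs_le_of_sq_le_sq' ?_ hA0 |>.2
    rw [eA, eB, ev, ev, hb0, hbs]
    have h2 := pow_le_pow_left₀ (by positivity) (pow_le_pow_left₀ (by positivity) hYX 2) 2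
    linarith
  have e3 : ya' sa * yb' sb - ya' 0 * yb' 0
      = -(G * (ι * ya' 0 * (ι * yb' 0) - ι * ya' sa * (ι * yb' sb))) := by
    linear_combination (ya' 0 * yb' 0 - ya' sa * yb' sb) * hγi
  rw [e3, abs_neg, abs_of_nonneg (mul_nonneg hG.le (by linarith))]
  nlinarith [mul_le_mul_of_nonneg_left key hG.le]

end Pool.Agent.Lib.MP_e310f3_mp.Lam
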