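import Pool.Agent.Lib.MP_e310f3_mp.Lam3

/-! Joint continuity and uniqueness for the fundamental solutions. -/

set_option autoImplicit false

namespace Pool.Agent.Lib.MP_e310f3_mp.Lam

open Set

theorem Cf_cont2 : Continuous fun p : ℝ × ℝ => Cf p.1 p.2 := by
  unfold Cf
  fun_prop

theorem Sf_cont2 : Continuous fun p : ℝ × ℝ => Sf p.1 p.2 := by
  unfold Sf
  exact intervalIntegral.continuous_parametric_intervalIntegral_of_continuous
    (f := fun (p : ℝ × ℝ) u => Cf p.1 u) (μ := MeasureTheory.volume)
    (Cf_cont2.comp (by fun_prop : Continuous fun q : (ℝ × ℝ) × ℝ => (q.1.1, q.2)))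
    continuous_snd

theorem CS.unique {l : ℝ} {C S C' S' : ℝ → ℝ} (h : CS l C S) (h' : CS l C' S') (u : ℝ) :
    C u = C' u ∧ S u = S' u := by
  have h1 := const_of_deriv (f := fun u => C u * S' u - S u * C' u)
    (fun u => (((h.dC u).mul (h'.dS u)).sub ((h.dS u).mul (h'.dC u))).congr_deriv (by ring)) u
  have h2 := const_of_deriv (f := fun u => C u * C' u - l * (S u * S' u))
    (fun u => (((h.dC u).mul (h'.dC u)).sub (((h.dS u).mul (h'.dS u)).const_mul l)).congr_deriv
      (by ring)) u
  simp only [h.C0, h.S0, h'.C0, h'.S0, mul_zero, sub_zero, mul_one] at h1 h2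
  have h3 := h.one u
  constructor
  · linear_combination -C u * h2 + C' u * h3 - l * S u * h1
  · linear_combination -S u * h2 + S' u * h3 - C u * h1

end Pool.Agent.Lib.MP_e310f3_mp.Lam
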