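import Pool.Agent.Lib.MP_e310f3_mp.Lam4

/-! Lambert pairs including the massless limit, where an arc may break at the origin. -/

set_option autoImplicit false

namespace Pool.Agent.Lib.MP_e310f3_mp.Lam

open Set
open scoped InnerProductSpace

variable {E : Type} [NormedAddCommGroup E] [InnerProductSpace ℝ E]

/-- a regular arc -/
def Reg (G k T : ℝ) (z0 p0 z1 p1 : E) : Prop :=
  ‖p0‖ ^ 2 = G + k * ‖z0‖ ^ 2 ∧ ∃ s : ℝ, 0 ≤ s ∧ z1 = Cf k s • z0 + Sf k s • p0 ∧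
    p1 = (k * Sf k s) • z0 + Cf k s • p0 ∧
    T = ∫ u in (0 : ℝ)..s, ‖Cf k u • z0 + Sf k u • p0‖ ^ 2

/-- an arc broken at the origin -/
def Brk (G k T : ℝ) (z0 p0 z1 p1 : E) : Prop :=
  G = 0 ∧ ∃ ω : ℝ, 0 < ω ∧ k = ω ^ 2 ∧ p0 = -ω • z0 ∧ p1 = ω • z1 ∧
    2 * ω * T = ‖z0‖ ^ 2 + ‖z1‖ ^ 2

/-- a limit arc -/
def Rel (G k T : ℝ) (z0 p0 z1 p1 : E) : Prop := Reg G k T z0 p0 z1 p1 ∨ Brk G k T z0 p0 z1 p1

theorem Reg.energy {G k T : ℝ} {z0 p0 z1 p1 : E} (h : Reg G k T z0 p0 z1 p1) :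
    ‖p1‖ ^ 2 = G + k * ‖z1‖ ^ 2 := by
  obtain ⟨h0, s, -, h1, h2, -⟩ := h
  have one := (cs_f k).one s
  rw [h1, h2, norm_comb, norm_comb, h0]
  linear_combination G * one

theorem Rel.energy0 {G k T : ℝ} {z0 p0 z1 p1 : E} (h : Rel G k T z0 p0 z1 p1) :
    ‖p0‖ ^ 2 = G + k * ‖z0‖ ^ 2 := by
  rcases h with h | ⟨hG, ω, -, hk, h0, -, -⟩
  · exact h.1
  · rw [h0, norm_smul, mul_pow, Real.norm_eq_abs, sq_abs, hG, hk]
    ring

theorem Rel.energy {G k T : ℝ} {z0 p0 z1 p1 : E} (h : Rel G k T z0 p0 z1 p1) :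
    ‖p1‖ ^ 2 = G + k * ‖z1‖ ^ 2 := by
  rcases h with h | ⟨hG, ω, -, hk, -, h1, -⟩
  · exact h.energy
  · rw [h1, norm_smul, mul_pow, Real.norm_eq_abs, sq_abs, hG, hk]
    ring

/-- the scalar data of a regular massless arc -/
theorem free {k s M N T : ℝ} {z0 w z1 : E} (hz0 : z0 ≠ 0) (hw : ‖w‖ ^ 2 = 0 + k * ‖z0‖ ^ 2)
    (hz : z1 = Cf k s • z0 + Sf k s • w) (hs : 0 < s)
    (hT : T = ∫ u in (0 : ℝ)..s, ‖Cf k u • z0 + Sf k u • w‖ ^ 2) (a1 : -M ≤ N) (a2 : N ≤ M)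
    (h1 : M ^ 2 + N ^ 2 = ‖z0‖ ^ 2 + ‖z1‖ ^ 2) (h2 : M * N = ⟪z0, z1⟫_ℝ) :
    ∃ ω : ℝ, 0 ≤ ω ∧ k = ω ^ 2 ∧ 0 < N ∧ M = N * Real.exp (ω * s) ∧
      2 * ω * T = M ^ 2 - N ^ 2 := by
  have p0 : 0 < ‖z0‖ ^ 2 := by positivity
  have hk : 0 ≤ k := by
    have : 0 ≤ k * ‖z0‖ ^ 2 := by linarith [sq_nonneg ‖w‖]
    exact (mul_nonneg_iff_of_pos_right p0).1 this
  have hcs := cs_f k
  obtain ⟨a, b, -, -, A3, A4, -, A6⟩ := reduce hcs hw hz (hcs.Spos hk hs).ne' h1 h2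
  have hM : 0 < M := by
    rcases (show 0 ≤ M by linarith).lt_or_eq with h | h
    · exact h
    · have : N = 0 := by linarith
      rw [← h, this] at h1
      nlinarith [sq_nonneg ‖z1‖]
  obtain ⟨ω, hω, hk2⟩ : ∃ ω : ℝ, 0 ≤ ω ∧ k = ω ^ 2 := ⟨Real.sqrt k, Real.sqrt_nonneg k,
    (Real.sq_sqrt hk).symm⟩
  obtain ⟨σ, hσ, ha⟩ : ∃ σ : ℝ, (σ = ω ∨ σ = -ω) ∧ a = σ * N := by
    have : (a - ω * N) * (a + ω * N) = 0 := by linear_combination A3 + N ^ 2 * hk2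
    rcases mul_eq_zero.1 this with h | h
    · exact ⟨ω, Or.inl rfl, by linarith⟩
    · exact ⟨-ω, Or.inr rfl, by linarith⟩
  have hσ2 : k = σ ^ 2 := by rcases hσ with h | h <;> rw [h, hk2] <;> ring
  have hexp : ∀ u, Cf k u + σ * Sf k u = Real.exp (σ * u) := fun u => by
    have de : ∀ v : ℝ, HasDerivAt (fun v => Real.exp (-σ * v)) (Real.exp (-σ * v) * -σ) v :=
      fun v => by simpa using ((hasDerivAt_id v).const_mul (-σ)).exp
    have := const_of_deriv (f := fun v => (Cf k v + σ * Sf k v) * Real.exp (-σ * v))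
      (fun v => (((hcs.dC v).add ((hcs.dS v).const_mul σ)).mul (de v)).congr_deriv (by
        rw [hσ2]
        simp only [Pi.add_apply]
        ring)) u
    simp only [hcs.C0, hcs.S0, mul_zero, Real.exp_zero, add_zero, mul_one] at this
    have h3 : Real.exp (-σ * u) * Real.exp (σ * u) = 1 := by
      rw [← Real.exp_add]
      simp
    linear_combination Real.exp (σ * u) * this - (Cf k u + σ * Sf k u) * h3
  have hy : ∀ u, N * Cf k u + a * Sf k u = N * Real.exp (σ * u) := fun u => by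
    rw [ha, ← hexp u]
    ring
  rw [hy] at A4
  have hN : 0 < N := by
    rw [← A4] at hM
    exact (mul_pos_iff_of_pos_right (Real.exp_pos _)).1 hM
  have hσω : σ = ω := by
    rcases hσ with h | h
    · exact h
    · have h3 : N * 1 ≤ N * Real.exp (σ * s) := by linarith
      have h4 := Real.one_le_exp_iff.1 (le_of_mul_le_mul_left h3 hN)
      have h5 : 0 ≤ σ := (mul_nonneg_iff_of_pos_right hs).1 h4
      linarith
  subst hσω
  refine ⟨σ, hω, hk2, hN, A4.symm, ?_⟩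
  rw [hT, ← A6, ← intervalIntegral.integral_const_mul]
  simp only [hy]
  have de : ∀ v : ℝ, HasDerivAt (fun v => (N * Real.exp (σ * v)) ^ 2)
      (2 * σ * (N * Real.exp (σ * v)) ^ 2) v := fun v =>
    (((((hasDerivAt_id v).const_mul σ).exp).const_mul N).pow 2).congr_deriv (by simp; ring)
  rw [intervalIntegral.integral_eq_sub_of_hasDerivAt (fun v _ => de v)
    (Continuous.intervalIntegrable (by fun_prop) _ _), A4]
  simp

theorem pos_len {f : ℝ → ℝ} {s T : ℝ} (hs : 0 ≤ s) (hT : 0 < T) (h : T = ∫ u in (0 : ℝ)..s, f u) :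
    0 < s := hs.lt_of_ne fun h0 => by
  rw [← h0] at h
  simp at h
  exact hT.ne' h

theorem brk_reg {ka kb T : ℝ} {z0 wa wb za zb wa1 wb1 : E} (hz0 : z0 ≠ 0) (hT : 0 < T)
    (ha : Brk 0 ka T z0 wa za wa1) (hb : Reg 0 kb T z0 wb zb wb1) (hz : ‖zb‖ = ‖za‖) :
    zb ≠ 0 ∧ 0 < ⟪za, wa1⟫_ℝ + ⟪zb, wb1⟫_ℝ ∧ ⟪z0, wa⟫_ℝ + ⟪z0, wb⟫_ℝ ≤ 0 := by
  have eb := hb.energy
  obtain ⟨-, ω, hω, -, h0, h1, h2⟩ := ha
  obtain ⟨b0, s, hs, b1, -, b3⟩ := hb
  obtain ⟨M, N, a1, a2, e1, e2, -, r1⟩ := exists_MN z0 zb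
  obtain ⟨ν, hν, hk, hN, -, hT2⟩ := free hz0 b0 b1 (pos_len hs hT b3) b3 a1 a2 e1 e2
  have hN2 : 0 < N ^ 2 := by positivity
  have hlt : ν < ω := by
    have : 2 * T * ν < 2 * T * ω := by rw [← hz] at h2; linarith
    exact lt_of_mul_lt_mul_left this (by linarith)
  have cs : ∀ z w : E, ‖w‖ ^ 2 = 0 + kb * ‖z‖ ^ 2 → |⟪z, w⟫_ℝ| ≤ ν * ‖z‖ ^ 2 := fun z w h => by
    have h3 : ‖w‖ = ν * ‖z‖ :=
      (pow_left_inj₀ (norm_nonneg _) (by positivity) two_ne_zero).1 (by rw [h, hk]; ring)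
    calc _ ≤ ‖z‖ * ‖w‖ := abs_real_inner_le_norm z w
      _ = _ := by rw [h3]; ring
  have c0 := abs_le.1 (cs z0 wb b0)
  have c1 := abs_le.1 (cs zb wb1 eb)
  refine ⟨fun h => ?_, ?_, ?_⟩
  · rw [h] at r1
    simp at r1
    linarith
  · rw [h1, inner_smul_right, real_inner_self_eq_norm_sq, ← hz]
    nlinarith [mul_pos (sub_pos.2 hlt) (hN2.trans_le r1), c1.1]
  · rw [h0, inner_smul_right, real_inner_self_eq_norm_sq]
    nlinarith [mul_nonneg (sub_pos.2 hlt).le (sq_nonneg ‖z0‖), c0.2]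

/-- Lambert pairs of limit arcs -/
theorem rel_pair {G ka kb T : ℝ} {z0 wa wb za zb wa1 wb1 : E} (hG : 0 ≤ G) (hz0 : z0 ≠ 0)
    (hT : 0 < T) (ha : Rel G ka T z0 wa za wa1) (hb : Rel G kb T z0 wb zb wb1)
    (hz : zb = za ∨ zb = -za) (hk : 0 ≤ ka + kb) (hw : wa ≠ wb) :
    za ≠ 0 ∧ 0 < ⟪za, wa1⟫_ℝ + ⟪zb, wb1⟫_ℝ ∧ ⟪z0, wa⟫_ℝ + ⟪z0, wb⟫_ℝ ≤ 0 := by
  have nb : ‖zb‖ = ‖za‖ := by rcases hz with hz | hz <;> simp [hz]
  rcases ha with ha | ha <;> rcases hb with hb | hb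
  · obtain ⟨a0, sa, hsa, a1, a2, a3⟩ := ha
    obtain ⟨b0, sb, hsb, b1, b2, b3⟩ := hb
    have hsa' := pos_len hsa hT a3
    have hsb' := pos_len hsb hT b3
    rcases hG.lt_or_eq with hG | hG
    · rw [a2, b2]
      exact pair_sign cs_f hG a0 b0 a1 b1 hz hsa' hsb' (a3.symm.trans b3) hk hw
    · exfalso
      subst hG
      obtain ⟨M, N, c1, c2, e1, e2, -, -⟩ := exists_MN z0 za
      obtain ⟨ω, hω, k1, hN, hM, t1⟩ := free hz0 a0 a1 hsa' a3 c1 c2 e1 e2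
      rcases hz with hz | hz
      · obtain ⟨ν, hν, k2, -, hM', t2⟩ := free hz0 b0 b1 hsb' b3 c1 c2 (by rw [hz, e1])
          (by rw [hz, e2])
        have h1 : ω = ν := mul_left_cancel₀ (a := 2 * T) (by positivity) (by linarith)
        subst h1
        have h2 : ω * sa = ω * sb :=
          Real.exp_injective (mul_left_cancel₀ hN.ne' (hM.symm.trans hM'))
        rcases hω.lt_or_eq with h3 | h3
        · have h4 : sa = sb := mul_left_cancel₀ h3.ne' h2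
          have h5 : ka = kb := k1.trans k2.symm
          subst h4 h5
          apply hw
          apply smul_right_injective E ((cs_f ka).Spos (by rw [k1]; positivity) hsa').ne'
          simp only
          rw [vec0 a1, vec0 b1, hz]
        · rw [← h3] at k1 k2
          rw [k1] at a0
          rw [k2] at b0
          simp at a0 b0
          exact hw (a0.trans b0.symm)
      · obtain ⟨ν, -, -, hN', -, -⟩ := free (M := M) (N := -N) hz0 b0 b1 hsb' b3 (by linarith)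
          (by linarith) (by rw [nb, ← e1]; ring) (by rw [hz, inner_neg_right, ← e2]; ring)
        linarith
  · obtain rfl := hb.1
    obtain ⟨h1, h2, h3⟩ := brk_reg hz0 hT hb ha nb.symm
    exact ⟨h1, by linarith, by linarith⟩
  · obtain rfl := ha.1
    obtain ⟨h1, h2, h3⟩ := brk_reg hz0 hT ha hb nb
    exact ⟨fun h => h1 (norm_eq_zero.1 (by rw [nb, h, norm_zero])), h2, h3⟩
  · exfalso
    obtain ⟨-, ω, -, -, a0, -, a2⟩ := ha
    obtain ⟨-, ν, -, -, b0, -, b2⟩ := hb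
    rw [nb] at b2
    have h1 : ω = ν := mul_left_cancel₀ (a := 2 * T) (by positivity) (by linarith)
    exact hw (by rw [a0, b0, h1])

/-- Lambert pairs of limit arcs with zero total energy -/
theorem rel_zero {G ka kb T : ℝ} {z0 wa wb za zb wa1 wb1 : E} (hG : 0 < G)
    (hT : 0 < T) (ha : Rel G ka T z0 wa za wa1) (hb : Rel G kb T z0 wb zb wb1)
    (hz : zb = za ∨ zb = -za) (hk : ka + kb = 0) (hw : wa ≠ wb) (h0 : ⟪wa, wb⟫_ℝ = 0) :
    |⟪wa1, wb1⟫_ℝ| ≤ 7 / 10 * G := by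
  obtain ⟨a0, sa, hsa, a1, a2, a3⟩ := ha.resolve_right fun h => hG.ne' h.1
  obtain ⟨b0, sb, hsb, b1, b2, b3⟩ := hb.resolve_right fun h => hG.ne' h.1
  rw [a2, b2]
  exact pair_zero' cs_f hG a0 b0 a1 b1 hz (pos_len hsa hT a3) (pos_len hsb hT b3)
    (a3.symm.trans b3) hk hw h0

end Pool.Agent.Lib.MP_e310f3_mp.Lam
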