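import Pool.Agent.Lib.MP_e310f3_mp.Cone

-- part Pool.Agent.Lib.MP_e310f3_mp.Conn
section

/-! Every admissible direction is a first-order deflection when four points are in general
position. -/

set_option autoImplicit false

namespace Pool.Agent.Lib.MP_e310f3_mp

open Set Filter Topology Metric
open scoped RealInnerProductSpace

variable {N : ℕ}

abbrev Pr (N : ℕ) := {p : Fin N × Fin N // p.1 ≠ p.2}

theorem sum_Pr (f : Fin N → Fin N → ℝ) (h : ∀ i, f i i = 0) :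
    ∑ b : Pr N, f b.1.1 b.1.2 = ∑ i, ∑ j, f i j := by
  classical
  rw [← Fintype.sum_prod_type', ← Finset.sum_filter_of_ne (p := fun p : Fin N × Fin N => p.1 ≠ p.2)
    (fun p _ hp e => hp (by rw [e, h]))]
  exact (Finset.sum_subtype _ (fun p => by simp) (fun p : Fin N × Fin N => f p.1 p.2)).symm

theorem good_of {m : Fin N → ℝ} (hm : ∀ i, 0 < m i) {a ξ : Cfg N 2} (ha : a ∈ Om N 2)
    (c : Cfg N 2) (y : Pr N → ℝ)
    (hy : ∀ u, ((-2 : ℝ) • ipL m ξ) u = ∑ b : Pr N, y b * be a b.1.1 b.1.2 u)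
    (hs : ∀ b : Pr N, 0 < y b * be a b.1.1 b.1.2 c) : Good m a ξ := by
  obtain ⟨c', h1, h2⟩ := barrier (fun b : Pr N => be a b.1.1 b.1.2) _
    (fun b => 2 * m b.1.1 * m b.1.2 / ‖a b.1.2 - a b.1.1‖) (fun b => by
      have := hm b.1.1
      have := hm b.1.2
      have : 0 < ‖a b.1.2 - a b.1.1‖ := norm_pos_iff.2 (sub_ne_zero.2 (ha _ _ (Ne.symm b.2)))
      positivity) c y hy hs
  refine ⟨c', fun i j hij => h1 ⟨(i, j), hij⟩, sub_eq_zero.1 (ip_eq_zero hm ?_)⟩
  have h3 := h2 (Phi m a c' - ξ)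
  rw [sum_Pr (fun i j => 2 * m i * m j / ‖a j - a i‖ / be a i j c' * be a i j (Phi m a c' - ξ))
    (fun i => by rw [be_diag a i (Phi m a c' - ξ), mul_zero])] at h3
  have h4 := ip_Phi m a c' (Phi m a c' - ξ)
  have h5 : ((-2 : ℝ) • ipL m ξ) (Phi m a c' - ξ) = -2 * ip m ξ (Phi m a c' - ξ) := by
    rw [ip_comm]; rfl
  rw [← h3, h5] at h4
  have h6 := ip_add m (Phi m a c' - ξ) ξ (Phi m a c' - ξ)
  rw [sub_add_cancel] at h6
  linarith

theorem ker_cond {m : Fin N → ℝ} {a ξ : Cfg N 2} {i j k : Fin N} (h : ar a i j k ≠ 0)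
    (h1 : ∑ i, m i • ξ i = 0) (h2 : ip m ξ a = 0) (u : Cfg N 2)
    (hu : ∀ b : Pr N, be a b.1.1 b.1.2 u = 0) : ((-2 : ℝ) • ipL m ξ) u = 0 := by
  obtain ⟨l, τ, hl⟩ := rigid (u := u) h fun p q => by
    by_cases e : p = q
    · rw [e, be_diag]
    · exact hu ⟨(p, q), e⟩
  have e : u = (fun _ => τ) + l • a := funext hl
  show -2 * ip m u ξ = 0
  rw [e, ip_add, ip_const, ip_smul, h1, ip_comm, h2]
  simp

theorem link {a c : Cfg N 2}
    (H : ∀ lam : Fin N → Fin N → ℝ, (∀ u, ∑ p, ∑ q, lam p q * be a p q u = 0) →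
      ∀ u, ∑ p, ∑ q, lam p q * (if be a p q c = 0 then be a p q u else 0) = 0)
    {i j k l : Fin N} (h1 : ar a i j l ≠ 0) (h2 : ar a i k l ≠ 0) (h3 : ar a j k l ≠ 0)
    (hz : be a i j c = 0) : be a i k c = 0 := by
  classical
  by_contra hk
  have nij : i ≠ j := fun e => h1 (by simp [e, ar])
  have nil : i ≠ l := fun e => h1 (by simp [e, ar])
  have nik : i ≠ k := fun e => h2 (by simp [e, ar])
  let α : Fin N → ℝ := fun p => (if p = i then ar a j k l else 0) + (if p = j then -ar a i k l else 0) +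
    (if p = k then ar a i j l else 0) + (if p = l then -ar a i j k else 0)
  have quad : ∀ f : Fin N → ℝ, ∑ p, α p * f p =
      ar a j k l * f i - ar a i k l * f j + ar a i j l * f k - ar a i j k * f l := fun f => by
    simp only [α, add_mul, ite_mul, zero_mul, Finset.sum_add_distrib, Finset.sum_ite_eq',
      Finset.mem_univ, if_true]
    ring
  have H1 := H (fun p q => α p * α q) (fun u => by
    simp only [mul_assoc, ← Finset.mul_sum, quad, be_coord, ar]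
    ring) (Pi.single i (a l - a i))
  have z0 : ∀ p q, p ≠ i → q ≠ i → be a p q (Pi.single i (a l - a i)) = 0 := fun p q hp hq => by
    simp [be_apply, hp, hq]
  have z1 : ∀ q, q ≠ i → be a i q (Pi.single i (a l - a i)) = -ar a i q l := fun q hq => by
    simp [be_coord, hq, ar]
    ring
  have z2 : ar a i l l = 0 := by simp [ar, mul_comm]
  simp only [mul_assoc, ← Finset.mul_sum, quad, be_symm a i j, be_symm a i k, be_symm a i l,
    be_diag, z0 j k nij.symm nik.symm, z0 k j nik.symm nij.symm, z0 j l nij.symm nil.symm,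
    z0 l j nil.symm nij.symm, z0 k l nik.symm nil.symm, z0 l k nil.symm nik.symm, z1 j nij.symm,
    z1 k nik.symm, z1 l nil.symm, z2, hz, hk, if_true, if_false, neg_zero, ite_self] at H1
  have : ar a j k l * (ar a i k l * ar a i j l) = 0 := by linarith
  exact mul_ne_zero h3 (mul_ne_zero h2 h1) this

theorem two_lines {a : Cfg N 2} {p l x y : Fin N} (h : a p ≠ a l) (h1 : ar a p x l = 0)
    (h2 : ar a p y l = 0) : ar a x y l = 0 := by
  by_contra h3
  unfold ar at h1 h2 h3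
  refine h (ext2 (sub_eq_zero.1 (mul_left_cancel₀ h3 ?_)) (sub_eq_zero.1 (mul_left_cancel₀ h3 ?_)))
  · linear_combination (a x 0 - a l 0) * h2 - (a y 0 - a l 0) * h1
  · linear_combination (a x 1 - a l 1) * h2 - (a y 1 - a l 1) * h1

theorem connected {a c : Cfg N 2} (ha : a ∈ Om N 2) (t : Fin 4 → Fin N)
    (ht : ∀ x y w, x ≠ y → x ≠ w → y ≠ w → ar a (t x) (t y) (t w) ≠ 0)
    (H : ∀ lam : Fin N → Fin N → ℝ, (∀ u, ∑ p, ∑ q, lam p q * be a p q u = 0) →
      ∀ u, ∑ p, ∑ q, lam p q * (if be a p q c = 0 then be a p q u else 0) = 0)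
    (p q : Fin N) (hpq : p ≠ q) : be a p q c = 0 ↔ be a (t 0) (t 1) c = 0 := by
  have sw : ∀ i j k, ar a i j k ≠ 0 → ar a j i k ≠ 0 := fun i j k h e => h (by
    unfold ar at e ⊢; linarith)
  have L : ∀ {i j k l}, ar a i j l ≠ 0 → ar a i k l ≠ 0 → ar a j k l ≠ 0 →
      (be a i j c = 0 ↔ be a i k c = 0) := fun h1 h2 h3 =>
    ⟨link H h1 h2 h3, link H h2 h1 (sw _ _ _ h3)⟩
  have S : ∀ p q, p ≠ q → ∃ x, t x ≠ p ∧ (be a p q c = 0 ↔ be a p (t x) c = 0) := by
    intro p q hpq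
    obtain ⟨l, hl⟩ : ∃ l, ar a p q (t l) ≠ 0 := by
      by_contra! h
      have h0 := h 0
      have h1 := h 1
      have h2 := h 2
      have h3 := ht 0 1 2 (by decide) (by decide) (by decide)
      unfold ar at h0 h1 h2 h3
      refine ha q p hpq.symm (ext2 (sub_eq_zero.1 (mul_left_cancel₀ h3 ?_))
        (sub_eq_zero.1 (mul_left_cancel₀ h3 ?_)))
      · linear_combination (a (t 1) 0 - a (t 0) 0) * (h2 - h0) - (a (t 2) 0 - a (t 0) 0) * (h1 - h0)
      · linear_combination (a (t 1) 1 - a (t 0) 1) * (h2 - h0) - (a (t 2) 1 - a (t 0) 1) * (h1 - h0)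
    have np : a p ≠ a (t l) := fun e => hl (by simp [ar, e])
    have nq : a q ≠ a (t l) := fun e => hl (by simp [ar, e, mul_comm])
    obtain ⟨x, hx1, hx2⟩ : ∃ x, ar a p (t x) (t l) ≠ 0 ∧ ar a q (t x) (t l) ≠ 0 := by
      by_contra! h
      obtain ⟨x, y, w, n1, n2, n3, n4, n5, n6⟩ : ∃ x y w : Fin 4, x ≠ y ∧ x ≠ w ∧ y ≠ w ∧ x ≠ l ∧
        y ≠ l ∧ w ≠ l := (by decide : ∀ l : Fin 4, ∃ x y w : Fin 4, x ≠ y ∧ x ≠ w ∧ y ≠ w ∧
          x ≠ l ∧ y ≠ l ∧ w ≠ l) l
      have A : ∀ x y, x ≠ y → x ≠ l → y ≠ l → ar a p (t x) (t l) = 0 →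
        ar a p (t y) (t l) ≠ 0 := fun x y e1 e2 e3 e4 e5 => ht x y l e1 e2 e3 (two_lines np e4 e5)
      have B : ∀ x y, x ≠ y → x ≠ l → y ≠ l → ar a q (t x) (t l) = 0 →
        ar a q (t y) (t l) ≠ 0 := fun x y e1 e2 e3 e4 e5 => ht x y l e1 e2 e3 (two_lines nq e4 e5)
      by_cases e1 : ar a p (t x) (t l) = 0
      · exact B y w n3 n5 n6 (h y (A x y n1 n4 n5 e1)) (h w (A x w n2 n4 n6 e1))
      · by_cases e2 : ar a p (t y) (t l) = 0
        · exact B x w n2 n4 n6 (h x e1) (h w (A y w n3 n5 n6 e2))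
        · exact B x y n1 n4 n5 (h x e1) (h y e2)
    exact ⟨x, fun e => hx1 (by simp [ar, e]), L hl hx1 hx2⟩
  have T : ∀ x y w, x ≠ y → x ≠ w → (be a (t x) (t y) c = 0 ↔ be a (t x) (t w) c = 0) := by
    intro x y w n1 n2
    by_cases n3 : y = w
    · rw [n3]
    obtain ⟨v, v1, v2, v3⟩ : ∃ v : Fin 4, x ≠ v ∧ y ≠ v ∧ w ≠ v :=
      (by decide : ∀ x y w : Fin 4, ∃ v : Fin 4, x ≠ v ∧ y ≠ v ∧ w ≠ v) x y w
    exact L (ht _ _ _ n1 v1 v2) (ht _ _ _ n2 v1 v3) (ht _ _ _ n3 v2 v3)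
  obtain ⟨x, x1, x2⟩ := S p q hpq
  obtain ⟨y, y1, y2⟩ := S (t x) p x1
  have nxy : x ≠ y := fun e => y1 (by rw [e])
  rw [x2, be_symm, y2]
  by_cases e : x = 0
  · subst e
    exact T 0 y 1 nxy (by decide)
  · rw [T x y 0 nxy e, be_symm]
    exact T 0 x 1 (Ne.symm e) (by decide)

theorem good_four {m : Fin N → ℝ} (hm : ∀ i, 0 < m i) {a ξ : Cfg N 2} (ha : a ∈ Om N 2)
    (t : Fin 4 → Fin N) (ht : ∀ x y w, x ≠ y → x ≠ w → y ≠ w → ar a (t x) (t y) (t w) ≠ 0)
    (h0 : ξ ≠ 0) (h1 : ∑ i, m i • ξ i = 0) (h2 : ip m ξ a = 0) : Good m a ξ := by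
  classical
  obtain ⟨c, y, hy, hs⟩ := compat (fun b : Pr N => be a b.1.1 b.1.2) ((-2 : ℝ) • ipL m ξ)
    ⟨ξ, fun e => h0 (ip_eq_zero hm (m := m) (by
      have : -2 * ip m ξ ξ = 0 := e
      linarith))⟩
    (ker_cond (ht 0 1 2 (by decide) (by decide) (by decide)) h1 h2) (by
      rintro c ⟨b, hb⟩ ⟨b', hb'⟩
      by_contra! H
      have K := connected (c := c) ha t ht fun lam hl u => by
        have := H (fun b => lam b.1.1 b.1.2) (fun u => by
          rw [sum_Pr (fun p q => lam p q * be a p q u) fun i => by rw [be_diag, mul_zero]]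
          exact hl u) u
        rw [sum_Pr (fun p q => if be a p q c = 0 then lam p q * be a p q u else 0)
          fun i => by simp [be_diag]] at this
        simpa only [mul_ite, mul_zero] using this
      exact hb' ((K _ _ b'.2).2 ((K _ _ b.2).1 hb)))
  exact good_of hm ha c y hy hs

theorem ar_ne {a : Cfg N 2} {i j k : Fin N} (h : ¬ Collinear ℝ {a i, a j, a k}) :
    ar a i j k ≠ 0 := by
  intro e
  refine h ((collinear_iff_of_mem (p₀ := a i) (by simp)).2 ?_)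
  unfold ar at e
  by_cases h1 : a j = a i
  · refine ⟨a k - a i, fun p hp => ?_⟩
    rcases hp with rfl | rfl | rfl
    · exact ⟨0, by simp⟩
    · exact ⟨0, by simp [h1]⟩
    · exact ⟨1, by simp⟩
  · refine ⟨a j - a i, fun p hp => ?_⟩
    rcases hp with rfl | rfl | rfl
    · exact ⟨0, by simp⟩
    · exact ⟨1, by simp⟩
    · by_cases h2 : a j 0 - a i 0 = 0
      · have h3 : a j 1 - a i 1 ≠ 0 := fun h3 => h1 (ext2 (sub_eq_zero.1 h2) (sub_eq_zero.1 h3))
        rw [h2, zero_mul, zero_sub, neg_eq_zero] at e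
        have h4 := (mul_eq_zero.1 e).resolve_left h3
        refine ⟨(a k 1 - a i 1) / (a j 1 - a i 1), ext2 ?_ ?_⟩
        · simp [h2]; linarith
        · simp [div_mul_cancel₀ _ h3]
      · refine ⟨(a k 0 - a i 0) / (a j 0 - a i 0), ext2 ?_ ?_⟩
        · simp [div_mul_cancel₀ _ h2]
        · simp only [vadd_eq_add, PiLp.add_apply, PiLp.smul_apply, PiLp.sub_apply, smul_eq_mul]
          field_simp
          linarith

theorem good_three {m : Fin 3 → ℝ} (hm : ∀ i, 0 < m i) {a ξ : Cfg 3 2} (ha : a ∈ Om 3 2)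
    (h : ar a 0 1 2 ≠ 0) (h0 : ∀ i k, i ≠ k → ⟪ξ i, a k - a i⟫ ≠ 0) (h1 : ∑ i, m i • ξ i = 0)
    (h2 : ip m ξ a = 0) : Good m a ξ := by
  obtain ⟨c, hc⟩ := elastic (fun b : Pr 3 => be a b.1.1 b.1.2) (fun _ => True) ((-2 : ℝ) • ipL m ξ)
    fun u hu => ker_cond h h1 h2 u fun b => hu b trivial
  simp only [if_true] at hc
  refine good_of hm ha c (fun b => be a b.1.1 b.1.2 c) hc fun b => mul_self_pos.2 fun e => ?_
  obtain ⟨⟨i, j⟩, hij⟩ := b
  obtain ⟨k, hik, hjk, hall⟩ := (by decide : ∀ i j : Fin 3, i ≠ j →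
    ∃ k, i ≠ k ∧ j ≠ k ∧ ∀ p, p = i ∨ p = j ∨ p = k) i j hij
  have H := hc (Pi.single i (a k - a i))
  rw [Finset.sum_eq_zero] at H
  · have e2 : ((-2 : ℝ) • ipL m ξ) (Pi.single i (a k - a i)) = -2 * (m i * ⟪ξ i, a k - a i⟫) := by
      show -2 * ip m (Pi.single i (a k - a i)) ξ = _
      rw [ip, Finset.sum_eq_single i (fun p _ hp => by simp [hp]) (by simp), Pi.single_eq_same,
        real_inner_comm]
    rw [e2] at H
    exact mul_ne_zero (hm i).ne' (h0 i k hik) (by linarith)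
  · have e' : be a i j c = 0 := e
    have hij' : i ≠ j := hij
    have z : be a i k (Pi.single i (a k - a i)) = 0 := by
      simp [be_coord, hik.symm]
      ring
    have z' : be a j k (Pi.single i (a k - a i)) = 0 := by
      simp [be_apply, hik.symm, hij'.symm]
    rintro ⟨⟨p, q⟩, hpq⟩ -
    show be a p q c * be a p q _ = 0
    rcases hall p with rfl | rfl | rfl <;> rcases hall q with rfl | rfl | rfl <;>
      first
      | exact absurd rfl hpq
      | rw [e', zero_mul]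
      | rw [be_symm, e', zero_mul]
      | rw [z, mul_zero]
      | rw [be_symm a _ _ (Pi.single _ _), z, mul_zero]
      | rw [z', mul_zero]
      | rw [be_symm a _ _ (Pi.single _ _), z', mul_zero]

end Pool.Agent.Lib.MP_e310f3_mp
end

-- part Pool.Agent.Lib.MP_e310f3_mp.Main
section

/-! The scattered image near the undeflected direction. -/

set_option autoImplicit false

namespace Pool.Agent.Lib.MP_e310f3_mp

open Set Filter Topology Metric
open scoped RealInnerProductSpace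

variable {N : ℕ}

theorem ar_smul (r : ℝ) (a : Cfg N 2) (i j k : Fin N) : ar (r • a) i j k = r ^ 2 * ar a i j k := by
  simp [ar]; ring

theorem one_of {m : Fin N → ℝ} {x : Cfg N 2} (hx : massNorm m x = 1) : ip m x x = 1 := by
  rw [massNorm_eq] at hx
  exact Real.sqrt_eq_one.1 hx

theorem K_compact (m : Fin N → ℝ) (sm : Cfg N 2) :
    IsCompact {ξ : Cfg N 2 | ‖ξ‖ = 1 ∧ ∑ i, m i • ξ i = 0 ∧ ip m ξ sm = 0} := by
  refine (isCompact_sphere (0 : Cfg N 2) 1).of_isClosed_subset ?_ fun ξ h => by simpa using h.1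
  refine (isClosed_eq continuous_norm continuous_const).inter
    ((isClosed_eq (by fun_prop) continuous_const).inter
      (isClosed_eq (ipL m sm).continuous_of_finiteDimensional continuous_const))

theorem mem_K {m : Fin N → ℝ} {sm x : Cfg N 2} (hn : massNorm m sm = 1) (hc : ∑ i, m i • sm i = 0)
    (hx1 : massNorm m x = 1) (hx2 : ∑ i, m i • x i = 0) (hx3 : x ≠ -sm) (hx0 : ip m x sm < 0) :
    x - ip m x sm • sm ≠ 0 ∧ ‖x - ip m x sm • sm‖⁻¹ • (x - ip m x sm • sm) ∈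
      {ξ : Cfg N 2 | ‖ξ‖ = 1 ∧ ∑ i, m i • ξ i = 0 ∧ ip m ξ sm = 0} := by
  have h11 := one_of hn
  have hη : x - ip m x sm • sm ≠ 0 := fun e => hx3 (by
    rw [sub_eq_zero] at e
    generalize ip m x sm = r at e hx0
    have a1 := one_of hx1
    rw [e, ip_smul, ip_smul_right, h11, mul_one] at a1
    have a2 : r = -1 := by nlinarith
    rw [e, a2, neg_one_smul])
  refine ⟨hη, ?_, ?_, ?_⟩
  · rw [norm_smul, norm_inv, norm_norm, inv_mul_cancel₀ (norm_ne_zero_iff.2 hη)]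
  · simp only [Pi.smul_apply, Pi.sub_apply, smul_comm (m _) ‖x - ip m x sm • sm‖⁻¹,
      ← Finset.smul_sum, smul_sub, Finset.sum_sub_distrib, smul_comm (m _) (ip m x sm), hx2, hc,
      smul_zero, sub_self]
  · rw [ip_smul, sub_eq_add_neg, ip_add, ← neg_smul, ip_smul, h11]
    ring

theorem neg_side {m : Fin N → ℝ} {sm : Cfg N 2} (hn : massNorm m sm = 1) :
    ∀ᶠ x in 𝓝 (-sm), ip m x sm < 0 := by
  have c1 : Continuous fun x : Cfg N 2 => ip m x sm := (ipL m sm).continuous_of_finiteDimensional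
  refine (c1.tendsto _).eventually (gt_mem_nhds ?_)
  rw [← neg_one_smul ℝ sm, ip_smul, one_of hn]
  norm_num

theorem punctured {m : Fin N → ℝ} (hm : ∀ i, 0 < m i) {E : ℝ} (hE : 0 < E) {sm : Cfg N 2}
    (hn : massNorm m sm = 1) (hc : ∑ i, m i • sm i = 0) (hs : sm ∈ Om N 2) (t : Fin 4 → Fin N)
    (ht : ∀ x y w, x ≠ y → x ≠ w → y ≠ w → ¬ Collinear ℝ {sm (t x), sm (t y), sm (t w)}) :
    ∃ ε > 0, ∀ x : Cfg N 2, massNorm m x = 1 → ∑ i, m i • x i = 0 → dist x (-sm) < ε →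
      x ≠ -sm → x ∈ scatteredImage m E sm := by
  have hs0 : -Real.sqrt (2 * E) ≠ 0 := neg_ne_zero.2 (Real.sqrt_pos.2 (by positivity)).ne'
  have H := near hm hE hn hs (ar_ne (ht 0 1 2 (by decide) (by decide) (by decide))) hc
    (K_compact m sm) fun ξ hξ => good_four hm (Om_smul hs0 hs) t
      (fun x y w n1 n2 n3 => by
        rw [ar_smul]
        exact mul_ne_zero (pow_ne_zero 2 hs0) (ar_ne (ht x y w n1 n2 n3)))
      (fun e => by simpa [e] using hξ.1) hξ.2.1 (by rw [ip_smul_right, hξ.2.2, mul_zero])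
  obtain ⟨ε, hε, H⟩ := Metric.eventually_nhds_iff.1 (H.and (neg_side hn))
  exact ⟨ε, hε, fun x h1 h2 h3 h4 => (H h3).1 h1 h2 h4 (mem_K hn hc h1 h2 h4 (H h3).2).2⟩

theorem three {m : Fin 3 → ℝ} (hm : ∀ i, 0 < m i) {E : ℝ} (hE : 0 < E) {sm : Cfg 3 2}
    (hn : massNorm m sm = 1) (hc : ∑ i, m i • sm i = 0) (ht : ¬ Collinear ℝ {sm 0, sm 1, sm 2})
    {θ : ℝ} (hθ : 0 < θ) :
    ∃ ε > 0, ∀ x : Cfg 3 2, massNorm m x = 1 → ∑ i, m i • x i = 0 → dist x (-sm) < ε →
      x ≠ -sm → (∀ i k, i ≠ k → θ * ‖x + sm‖ ≤ |⟪x i + sm i, sm k - sm i⟫|) →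
      x ∈ scatteredImage m E sm := by
  have hs0 : -Real.sqrt (2 * E) ≠ 0 := neg_ne_zero.2 (Real.sqrt_pos.2 (by positivity)).ne'
  have har := ar_ne ht
  have hs : sm ∈ Om 3 2 := by
    intro i j hij e
    have e0 := congrArg (fun v : E2 => v 0) e
    have e1 := congrArg (fun v : E2 => v 1) e
    refine har ?_
    unfold ar
    fin_cases i <;> fin_cases j <;> simp at hij e0 e1 <;> rw [e0, e1] <;> ring
  have hK : IsCompact ({ξ : Cfg 3 2 | ‖ξ‖ = 1 ∧ ∑ i, m i • ξ i = 0 ∧ ip m ξ sm = 0} ∩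
      ⋂ i, ⋂ k, ⋂ _ : i ≠ k, {ξ : Cfg 3 2 | θ / 4 ≤ |⟪ξ i, sm k - sm i⟫|}) :=
    (K_compact m sm).inter_right (isClosed_iInter fun i => isClosed_iInter fun k =>
      isClosed_iInter fun _ => isClosed_le continuous_const (by fun_prop))
  have H := near hm hE hn hs har hc hK fun ξ hξ => good_three hm (Om_smul hs0 hs)
      (by rw [ar_smul]; exact mul_ne_zero (pow_ne_zero 2 hs0) har)
      (fun i k hik e => by
        have h1 := hξ.2
        simp only [mem_iInter, mem_setOf_eq] at h1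
        have h2 := h1 i k hik
        rw [Pi.smul_apply, Pi.smul_apply, ← smul_sub, real_inner_smul_right] at e
        rw [(mul_eq_zero.1 e).resolve_left hs0, abs_zero] at h2
        linarith) hξ.1.2.1 (by rw [ip_smul_right, hξ.1.2.2, mul_zero])
  have hM : 0 ≤ ∑ i, m i := Finset.sum_nonneg fun i _ => (hm i).le
  have c2 : Continuous fun x : Cfg 3 2 => (∑ i, m i) * ‖x + sm‖ * (‖sm‖ + ‖sm‖ ^ 2) := by fun_prop
  have ev := (c2.tendsto' (-sm) 0 (by simp)).eventually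
    (gt_mem_nhds (lt_min one_pos (half_pos hθ)))
  obtain ⟨ε, hε, H⟩ := Metric.eventually_nhds_iff.1 (H.and ((neg_side hn).and ev))
  refine ⟨ε, hε, fun x h1 h2 h3 h4 h5 => ?_⟩
  obtain ⟨H1, H2, H3⟩ := H h3
  obtain ⟨k1, k2⟩ := mem_K hn hc h1 h2 h4 H2
  refine H1 h1 h2 h4 ⟨k2, ?_⟩
  simp only [mem_iInter, mem_setOf_eq]
  intro i k hik
  have h6 := h5 i k hik
  obtain ⟨y, rfl⟩ : ∃ y, x = y - sm := ⟨x + sm, by simp⟩
  have h11 := one_of hn
  have e1 : ip m (y - sm) sm = ip m y sm - 1 := by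
    rw [sub_eq_add_neg, ip_add, ← neg_one_smul ℝ sm, ip_smul, h11]; ring
  have e2 : 2 * ip m y sm = ip m y y := by
    have := one_of h1
    rw [sub_eq_add_neg, ← neg_one_smul ℝ sm, ip_add, ip_smul, ip_comm m y, ip_comm m sm, ip_add,
      ip_add, ip_smul, ip_smul, h11, ip_comm m sm] at this
    linarith
  have e3 : y - sm - ip m (y - sm) sm • sm = y - ip m y sm • sm := by rw [e1]; module
  have e4 : ip m y y ≤ (∑ i, m i) * ‖y‖ ^ 2 := by
    rw [ip_self, Finset.sum_mul]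
    exact Finset.sum_le_sum fun i _ => mul_le_mul_of_nonneg_left
      (pow_le_pow_left₀ (norm_nonneg _) (norm_le_pi_norm y i) 2) (hm i).le
  have e5 : 0 ≤ ip m y y := by
    rw [ip_self]; exact Finset.sum_nonneg fun i _ => by have := hm i; positivity
  rw [e3] at k1 ⊢
  simp only [sub_add_cancel, Pi.sub_apply] at h6 H3
  generalize ip m y sm = r at e2 k1
  have hr : 0 ≤ r := by linarith
  have hr' : 2 * r ≤ (∑ i, m i) * ‖y‖ ^ 2 := by linarith
  generalize ∑ i, m i = M at hM H3 hr'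
  obtain ⟨H4, H5⟩ := lt_min_iff.1 H3
  have ny := norm_nonneg y
  have ns := norm_nonneg sm
  have a1 : ‖y - r • sm‖ ≤ 2 * ‖y‖ := by
    have b1 := norm_sub_le y (r • sm)
    rw [norm_smul, Real.norm_eq_abs, abs_of_nonneg hr] at b1
    have b2 := mul_le_mul_of_nonneg_right hr' ns
    have b3 := mul_le_mul_of_nonneg_right H4.le ny
    have b4 : 0 ≤ M * ‖y‖ * ‖sm‖ ^ 2 * ‖y‖ := by positivity
    have b5 := mul_nonneg hr ns
    nlinarith
  have a2 : |⟪sm i, sm k - sm i⟫| ≤ 2 * ‖sm‖ ^ 2 := by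
    have b1 := abs_real_inner_le_norm (sm i) (sm k - sm i)
    have b2 := norm_sub_le (sm k) (sm i)
    have b3 := norm_le_pi_norm sm i
    have b4 := norm_le_pi_norm sm k
    have b5 := mul_le_mul b3 (b2.trans (add_le_add b4 b3)) (norm_nonneg _) ns
    nlinarith
  have a3 : θ / 2 * ‖y‖ ≤ |⟪(y - r • sm) i, sm k - sm i⟫| := by
    have b1 := abs_add_le ⟪(y - r • sm) i, sm k - sm i⟫ (r * ⟪sm i, sm k - sm i⟫)
    have b2 : ⟪(y - r • sm) i, sm k - sm i⟫ + r * ⟪sm i, sm k - sm i⟫ = ⟪y i, sm k - sm i⟫ := by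
      rw [Pi.sub_apply, Pi.smul_apply, inner_sub_left, real_inner_smul_left]; ring
    rw [b2, abs_mul, abs_of_nonneg hr] at b1
    have b3 := mul_le_mul_of_nonneg_left a2 hr
    have b4 := mul_le_mul_of_nonneg_right hr' (sq_nonneg ‖sm‖)
    have b5 := mul_le_mul_of_nonneg_right H5.le ny
    have b6 : 0 ≤ M * ‖y‖ * ‖sm‖ * ‖y‖ := by positivity
    nlinarith
  have hp : 0 < ‖y - r • sm‖ := norm_pos_iff.2 k1
  rw [Pi.smul_apply, real_inner_smul_left, abs_mul, abs_of_pos (inv_pos.2 hp), ← div_eq_inv_mul,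
    le_div_iff₀ hp]
  nlinarith

end Pool.Agent.Lib.MP_e310f3_mp
end
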