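import Pool.Agent.Lib.MP_e310f3_mp.Cone
import Pool.Agent.Shared.Brouwer.Basic

/-! Comparison and shadowing for second order equations on a half line. -/

set_option autoImplicit false

namespace Pool.Agent.Lib.MP_e310f3_mp.Pl

open Set Filter Topology Metric BoundedContinuousFunction

variable {X : Type} [NormedAddCommGroup X] [NormedSpace ℝ X]

theorem fence {u u' : ℝ → X} {B B' : ℝ → ℝ} {a b : ℝ} (hab : a ≤ b)
    (hu : ∀ s ∈ Icc a b, HasDerivAt u (u' s) s) (hB : ∀ s ∈ Icc a b, HasDerivAt B (B' s) s)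
    (h : ∀ s ∈ Icc a b, ‖u' s‖ ≤ B' s) : ‖u b - u a‖ ≤ B b - B a :=
  image_norm_le_of_norm_deriv_right_le_deriv_boundary' (f := fun s => u s - u a) (f' := u')
    (B := fun s => B s - B a) (B' := B')
    (fun s hs => ((hu s hs).sub_const _).continuousAt.continuousWithinAt)
    (fun s hs => ((hu s (Ico_subset_Icc_self hs)).sub_const _).hasDerivWithinAt) (by simp)
    (fun s hs => ((hB s hs).sub_const _).continuousAt.continuousWithinAt)
    (fun s hs => ((hB s (Ico_subset_Icc_self hs)).sub_const _).hasDerivWithinAt)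
    (fun s hs => h s (Ico_subset_Icc_self hs)) (right_mem_Icc.2 hab)

theorem fence_lin {u u' : ℝ → X} {C t : ℝ} (ht : 0 ≤ t)
    (hu : ∀ s ∈ Icc 0 t, HasDerivAt u (u' s) s) (h : ∀ s ∈ Icc 0 t, ‖u' s‖ ≤ C) :
    ‖u t - u 0‖ ≤ C * t := by
  simpa using fence (B := fun s => C * s) (B' := fun _ => C) ht hu
    (fun s _ => by simpa using (hasDerivAt_id s).const_mul C) h

/-- a bounded increasing weight -/
structure Wt (Λ Λ' : ℝ → ℝ) (L : ℝ) : Prop where
  d : ∀ s, 0 ≤ s → HasDerivAt Λ (Λ' s) s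
  nn : ∀ s, 0 ≤ s → 0 ≤ Λ' s
  z : Λ 0 = 0
  le : ∀ s, 0 ≤ s → Λ s ≤ L

theorem Wt.mono {Λ Λ' : ℝ → ℝ} {L : ℝ} (h : Wt Λ Λ' L) {s t : ℝ} (hs : 0 ≤ s) (hst : s ≤ t) :
    Λ s ≤ Λ t := by
  have := fence (u := fun _ => (0 : ℝ)) (u' := fun _ => 0) hst (fun y _ => hasDerivAt_const y _)
    (fun y hy => h.d y (hs.trans hy.1)) (fun y hy => by simpa using h.nn y (hs.trans hy.1))
  simpa using this

theorem Wt.nonneg {Λ Λ' : ℝ → ℝ} {L : ℝ} (h : Wt Λ Λ' L) {s : ℝ} (hs : 0 ≤ s) : 0 ≤ Λ s :=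
  h.z.symm.le.trans (h.mono le_rfl hs)

theorem Wt.dexp {Λ Λ' : ℝ → ℝ} {L : ℝ} (h : Wt Λ Λ' L) (M : ℝ) {s : ℝ} (hs : 0 ≤ s) :
    HasDerivAt (fun s => M / 2 * Real.exp (2 * Λ s)) (Λ' s * (M * Real.exp (2 * Λ s))) s :=
  ((((h.d s hs).const_mul 2).exp).const_mul (M / 2)).congr_deriv (by ring)

/-- the position is controlled by the velocity -/
theorem Wt.pos_le {Λ Λ' : ℝ → ℝ} {L : ℝ} (h : Wt Λ Λ' L) {η u : ℝ → X} {a M t : ℝ} (ha : 0 < a)
    (hM : 0 ≤ M) (ht : 0 ≤ t) (hη : ∀ s ∈ Icc 0 t, HasDerivAt η (u s) s) (h0 : ‖η 0‖ ≤ a * M)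
    (hu : ∀ s ∈ Icc 0 t, ‖u s‖ ≤ M * Real.exp (2 * Λ s)) :
    ‖η t‖ / (t + a) ≤ M * Real.exp (2 * Λ t) := by
  have h1 := fence_lin (C := M * Real.exp (2 * Λ t)) ht hη fun s hs => (hu s hs).trans (by
    gcongr
    exact h.mono hs.1 hs.2)
  have h2 : 1 ≤ Real.exp (2 * Λ t) := Real.one_le_exp (by linarith [h.nonneg ht])
  rw [div_le_iff₀ (by linarith)]
  have h3 := norm_le_insert' (η t) (η 0)
  nlinarith [mul_le_mul_of_nonneg_left h2 (mul_nonneg ha.le hM)]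

/-- comparison of two curves -/
theorem cmp {η u h : ℝ → X} {Λ Λ' R R' : ℝ → ℝ} {L δ a D : ℝ} (ha : 0 < a) (hΛ : Wt Λ Λ' L)
    (hR : Wt R R' δ) (hη : ∀ s, 0 ≤ s → HasDerivAt η (u s) s)
    (hu : ∀ s, 0 ≤ s → HasDerivAt u (h s) s)
    (hb : ∀ s, 0 ≤ s → ‖h s‖ ≤ Λ' s * (‖η s‖ / (s + a)) + R' s) (h0 : ‖η 0‖ ≤ a * D)
    (h1 : ‖u 0‖ ≤ D) {t : ℝ} (ht : 0 ≤ t) : ‖u t‖ ≤ 2 * (D + δ) * Real.exp (2 * L) := by
  have hD : 0 ≤ D := (norm_nonneg _).trans h1
  have hδ : 0 ≤ δ := hR.z.symm.le.trans (hR.le 0 le_rfl)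
  obtain ⟨τ, hτ, hm⟩ := isCompact_Icc.exists_isMaxOn (nonempty_Icc.2 ht)
    (f := fun s => ‖u s‖ / Real.exp (2 * Λ s)) fun s hs =>
      ((hu s hs.1).continuousAt.norm.div (((hΛ.d s hs.1).const_mul 2).exp).continuousAt
        (Real.exp_pos _).ne').continuousWithinAt
  obtain ⟨M, hM⟩ : ∃ M, M = max (‖u τ‖ / Real.exp (2 * Λ τ)) D := ⟨_, rfl⟩
  have hMD : D ≤ M := hM ▸ le_max_right _ _
  have h2 : ∀ s ∈ Icc 0 t, ‖u s‖ ≤ M * Real.exp (2 * Λ s) := fun s hs => by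
    rw [← div_le_iff₀ (Real.exp_pos _), hM]
    exact le_max_of_le_left (hm hs)
  have h3 := fence (B := fun s => M / 2 * Real.exp (2 * Λ s) + R s) hτ.1
    (fun s hs => hu s hs.1) (fun s hs => (hΛ.dexp M hs.1).fun_add (hR.d s hs.1)) fun s hs => by
      refine (hb s hs.1).trans (add_le_add_left (mul_le_mul_of_nonneg_left ?_ (hΛ.nn s hs.1)) _)
      exact hΛ.pos_le ha (hD.trans hMD) hs.1 (fun y hy => hη y hy.1)
        (h0.trans (mul_le_mul_of_nonneg_left hMD ha.le))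
        fun y hy => h2 y ⟨hy.1, hy.2.trans (hs.2.trans hτ.2)⟩
  simp only [hΛ.z, hR.z, mul_zero, Real.exp_zero] at h3
  have h4 : 1 ≤ Real.exp (2 * Λ τ) := Real.one_le_exp (by linarith [hΛ.nonneg hτ.1])
  have h5 : M ≤ 2 * (D + δ) := by
    rcases le_total (‖u τ‖ / Real.exp (2 * Λ τ)) D with h | h
    · rw [hM, max_eq_right h]; linarith
    · rw [max_eq_left h, eq_div_iff (by linarith)] at hM
      have h6 := norm_le_insert' (u τ) (u 0)
      have h7 := hR.le τ hτ.1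
      nlinarith
  refine (h2 t (right_mem_Icc.2 ht)).trans ?_
  gcongr
  exact hΛ.le t ht

/-- solutions on the half line -/
def Sol (F : X → X) (q v : ℝ → X) : Prop :=
  ∀ t, 0 ≤ t → HasDerivAt q (v t) t ∧ HasDerivAt v (F (q t)) t

/-- an approximate solution is shadowed by a solution -/
theorem shadow [CompleteSpace X] {F : X → X} {O : Set X} {Ω : ℝ → Set X} {Q V f : ℝ → X}
    {Λ Λ' R R' : ℝ → ℝ} {L δ a ρ : ℝ} (ha : 0 < a) (hΛ : Wt Λ Λ' L) (hR : Wt R R' δ)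
    (hF : ContinuousOn F O) (hΩ : ∀ s, 0 ≤ s → Ω s ⊆ O)
    (hL : ∀ s, 0 ≤ s → ∀ x ∈ Ω s, ∀ y ∈ Ω s, ‖F x - F y‖ ≤ Λ' s * (‖x - y‖ / (s + a)))
    (hQ : ∀ s, 0 ≤ s → HasDerivAt Q (V s) s) (hV : ∀ s, 0 ≤ s → HasDerivAt V (f s) s)
    (hf : ContinuousOn f (Ici 0)) (ht : ∀ s, 0 ≤ s → ∀ η, ‖η‖ ≤ ρ * (s + a) → Q s + η ∈ Ω s)
    (hr : ∀ s, 0 ≤ s → ‖F (Q s) - f s‖ ≤ R' s) (hs : 2 * δ * Real.exp (2 * L) ≤ ρ) :
    ∃ q v : ℝ → X, Sol F q v ∧ q 0 = Q 0 ∧ v 0 = V 0 ∧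
      ∀ t, 0 ≤ t → q t ∈ Ω t ∧ ‖v t - V t‖ ≤ 2 * δ * Real.exp (2 * L) := by
  have hδ : 0 ≤ δ := hR.z.symm.le.trans (hR.le 0 le_rfl)
  have hρ : 0 ≤ ρ := le_trans (by positivity) hs
  have cm : ∀ {Y : Type} [TopologicalSpace Y] {g : ℝ → Y}, ContinuousOn g (Ici 0) →
      Continuous fun s => g (max s 0) := fun hg =>
    hg.comp_continuous (by fun_prop) fun s => le_max_right s 0
  let w : ℝ → ℝ := fun s => Real.exp (2 * Λ (max s 0))
  have wc : Continuous w := cm (g := fun s => Real.exp (2 * Λ s)) fun s hs =>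
    (((hΛ.d s hs).const_mul 2).exp).continuousAt.continuousWithinAt
  have w0 : ∀ s, 0 < w s := fun s => Real.exp_pos _
  have we : ∀ s, 0 ≤ s → w s = Real.exp (2 * Λ s) := fun s hs => by simp only [w, max_eq_left hs]
  let η : (ℝ →ᵇ X) → ℝ → X := fun W t => ∫ s in (0:ℝ)..t, w s • W s
  have ηd : ∀ W t, HasDerivAt (η W) (w t • W t) t := fun W t =>
    ((wc.smul W.continuous).integral_hasStrictDerivAt 0 t).hasDerivAt
  have ηb : ∀ (W W' : ℝ →ᵇ X) t, 0 ≤ t →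
      ‖η W t - η W' t‖ / (t + a) ≤ ‖W - W'‖ * Real.exp (2 * Λ t) := fun W W' t ht =>
    hΛ.pos_le (η := fun t => η W t - η W' t) ha (norm_nonneg _) ht
      (fun s _ => (ηd W s).fun_sub (ηd W' s)) (by simp only [η]; simp; positivity) fun s hs => by
        rw [← smul_sub, norm_smul, Real.norm_of_nonneg (w0 s).le, we s hs.1, mul_comm]
        exact mul_le_mul_of_nonneg_right ((W - W').norm_coe_le_norm s) (Real.exp_pos _).le
  have η0 : ∀ t, η 0 t = 0 := fun t => by simp [η]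
  have mem : ∀ W : ℝ →ᵇ X, ‖W‖ ≤ 2 * δ → ∀ t, 0 ≤ t → Q t + η W t ∈ Ω t := fun W hW t h => by
    refine ht t h _ ?_
    have h1 := ηb W 0 t h
    rw [η0, sub_zero, sub_zero, div_le_iff₀ (by linarith)] at h1
    refine h1.trans (mul_le_mul_of_nonneg_right (le_trans ?_ hs) (by linarith))
    gcongr
    exact hΛ.le t h
  let g : (ℝ →ᵇ X) → ℝ → X := fun W s => F (Q (max s 0) + η W (max s 0)) - f (max s 0)
  have ge : ∀ W s, 0 ≤ s → g W s = F (Q s + η W s) - f s := fun W s hs => by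
    simp only [g, max_eq_left hs]
  have gc : ∀ W : ℝ →ᵇ X, ‖W‖ ≤ 2 * δ → Continuous (g W) := fun W hW =>
    cm (g := fun s => F (Q s + η W s) - f s) ((hF.comp (fun s hs =>
      ((hQ s hs).fun_add (ηd W s)).continuousAt.continuousWithinAt)
      fun s hs => hΩ s hs (mem W hW s hs)).sub hf)
  let I : (ℝ →ᵇ X) → ℝ → X := fun W t => ∫ s in (0:ℝ)..t, g W s
  have Id : ∀ W : ℝ →ᵇ X, ‖W‖ ≤ 2 * δ → ∀ t, HasDerivAt (I W) (g W t) t := fun W hW t =>
    ((gc W hW).integral_hasStrictDerivAt 0 t).hasDerivAt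
  have I0 : ∀ W, I W 0 = 0 := fun W => by simp [I]
  have h00 : ‖(0 : ℝ →ᵇ X)‖ ≤ 2 * δ := by simp [hδ]
  have Il : ∀ W W' : ℝ →ᵇ X, ‖W‖ ≤ 2 * δ → ‖W'‖ ≤ 2 * δ → ∀ t, 0 ≤ t →
      ‖I W t - I W' t‖ ≤ ‖W - W'‖ / 2 * Real.exp (2 * Λ t) := fun W W' hW hW' t h => by
    have h1 := fence (u := fun t => I W t - I W' t) h (fun s _ => (Id W hW s).fun_sub (Id W' hW' s))
      (fun s hs => hΛ.dexp ‖W - W'‖ hs.1) fun s hs => by
        rw [ge W s hs.1, ge W' s hs.1, sub_sub_sub_cancel_right]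
        refine (hL s hs.1 _ (mem W hW s hs.1) _ (mem W' hW' s hs.1)).trans ?_
        rw [add_sub_add_left_eq_sub]
        exact mul_le_mul_of_nonneg_left (ηb W W' s hs.1) (hΛ.nn s hs.1)
    simp only [I0, sub_zero] at h1
    have : 0 ≤ ‖W - W'‖ / 2 * Real.exp (2 * Λ 0) := by positivity
    linarith
  have Ib : ∀ W : ℝ →ᵇ X, ‖W‖ ≤ 2 * δ → ∀ t, 0 ≤ t → ‖I W t‖ ≤ 2 * δ * Real.exp (2 * Λ t) :=
    fun W hW t h => by
    have h1 := Il W 0 hW h00 t h
    have h2 := fence h (fun s _ => Id 0 h00 s) (fun s hs => hR.d s hs.1) fun s hs => by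
      rw [ge 0 s hs.1, η0, add_zero]
      exact hr s hs.1
    rw [I0, sub_zero, hR.z, sub_zero] at h2
    rw [sub_zero] at h1
    have h3 := norm_le_insert' (I W t) (I 0 t)
    have h4 : 1 ≤ Real.exp (2 * Λ t) := Real.one_le_exp (by linarith [hΛ.nonneg h])
    have h5 := hR.le t h
    nlinarith
  obtain ⟨W, hW, hfix⟩ := fix_exists (S := closedBall (0 : ℝ →ᵇ X) (2 * δ)) isClosed_closedBall
    ⟨0, mem_closedBall_self (by positivity)⟩ (fun W W' => ∀ s, W' s = (w s)⁻¹ • I W (max s 0))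
    (fun W hW => by
      rw [mem_closedBall_zero_iff] at hW
      have hb : ∀ s, ‖(w s)⁻¹ • I W (max s 0)‖ ≤ 2 * δ := fun s => by
        rw [norm_smul, Real.norm_of_nonneg (inv_pos.2 (w0 s)).le, inv_mul_le_iff₀ (w0 s), mul_comm]
        exact Ib W hW _ (le_max_right _ _)
      refine ⟨ofNormedAddCommGroup _ ((wc.inv₀ fun s => (w0 s).ne').smul
        (cm fun s _ => (Id W hW s).continuousAt.continuousWithinAt)) _ hb, ?_, fun s => rfl⟩
      rw [mem_closedBall_zero_iff]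
      exact (norm_le (by positivity)).2 hb)
    (fun W hW W' hW' y y' hy hy' => by
      rw [mem_closedBall_zero_iff] at hW hW'
      refine (dist_le (by positivity)).2 fun s => ?_
      rw [hy, hy', dist_eq_norm, ← smul_sub, norm_smul, Real.norm_of_nonneg (inv_pos.2 (w0 s)).le,
        inv_mul_le_iff₀ (w0 s), dist_eq_norm]
      exact (Il W W' hW hW' _ (le_max_right _ _)).trans_eq (by simp only [w]; ring))
  rw [mem_closedBall_zero_iff] at hW
  have hI : ∀ t, 0 ≤ t → w t • W t = I W t := fun t h => by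
    rw [hfix, smul_smul, mul_inv_cancel₀ (w0 t).ne', one_smul, max_eq_left h]
  have Jd : ∀ t, HasDerivAt (fun t => ∫ s in (0:ℝ)..t, I W s) (I W t) t := fun t =>
    ((continuous_iff_continuousAt.2 fun s => (Id W hW s).continuousAt).integral_hasStrictDerivAt
      0 t).hasDerivAt
  have hJ : ∀ t, 0 ≤ t → ∫ s in (0:ℝ)..t, I W s = η W t := fun t h =>
    intervalIntegral.integral_congr fun s hs => (hI s (by rw [uIcc_of_le h] at hs; exact hs.1)).symm
  refine ⟨fun t => Q t + ∫ s in (0:ℝ)..t, I W s, fun t => V t + I W t, fun t h =>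
    ⟨(hQ t h).fun_add (Jd t), ((hV t h).fun_add (Id W hW t)).congr_deriv ?_⟩, by simp,
    by simp [I0], fun t h => ⟨?_, ?_⟩⟩
  · beta_reduce
    rw [ge W t h, hJ t h]; abel
  · beta_reduce
    rw [hJ t h]; exact mem W hW t h
  · rw [add_sub_cancel_left]
    refine (Ib W hW t h).trans ?_
    gcongr
    exact hΛ.le t h

/-- the velocity has a limit -/
theorem exists_lim [CompleteSpace X] {v f : ℝ → X} {C a : ℝ} (ha : 0 < a)
    (hv : ∀ t, 0 ≤ t → HasDerivAt v (f t) t) (hf : ∀ t, 0 ≤ t → ‖f t‖ ≤ C / (a + t) ^ 2) :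
    (∀ s t, 0 ≤ s → s ≤ t → ‖v t - v s‖ ≤ C / (a + s) - C / (a + t)) ∧
      ∃ b, Tendsto v atTop (𝓝 b) := by
  have hC : 0 ≤ C := by
    have := (norm_nonneg _).trans (hf 0 le_rfl)
    rwa [le_div_iff₀ (by positivity), zero_mul] at this
  have h1 : ∀ s t, 0 ≤ s → s ≤ t → ‖v t - v s‖ ≤ C / (a + s) - C / (a + t) := fun s t hs hst => by
    have := fence (B := fun y => -(C / (a + y))) hst (fun y hy => hv y (hs.trans hy.1))
      (fun y hy => (((hasDerivAt_const y C).fun_div ((hasDerivAt_id' y).const_add a)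
        (by linarith [hy.1])).fun_neg)) fun y hy => (hf y (hs.trans hy.1)).trans_eq (by ring)
    linarith
  refine ⟨h1, cauchySeq_tendsto_of_complete (Metric.cauchySeq_iff'.2 fun ε hε =>
    ⟨C / ε, fun t ht => ?_⟩)⟩
  have h2 : 0 ≤ C / ε := by positivity
  have h3 := h1 _ t h2 ht
  have h4 : 0 ≤ C / (a + t) := div_nonneg hC (by linarith)
  have h5 : C / (a + C / ε) < ε := by
    rw [div_lt_iff₀ (by positivity), mul_add, mul_div_cancel₀ _ hε.ne']
    linarith [mul_pos hε ha]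
  rw [dist_eq_norm]
  linarith

/-- gluing a forward and a backward half -/
theorem glue {F : X → X} {q v q' v' : ℝ → X} (h : Sol F q v) (h' : Sol F q' v') (e : q' 0 = q 0)
    (e' : v' 0 = -v 0) : ∃ Q V : ℝ → X, (∀ t, HasDerivAt Q (V t) t) ∧
      (∀ t, HasDerivAt V (F (Q t)) t) ∧ (∀ t, 0 ≤ t → Q t = q t ∧ V t = v t) ∧
      ∀ t, 0 ≤ t → Q (-t) = q' t ∧ V (-t) = -v' t := by
  have key : ∀ {f g f' g' : ℝ → X}, (∀ t, 0 ≤ t → HasDerivAt f (f' t) t) →
      (∀ t, t ≤ 0 → HasDerivAt g (g' t) t) → g 0 = f 0 → g' 0 = f' 0 →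
      ∀ t, HasDerivAt (fun t => if 0 ≤ t then f t else g t) (if 0 ≤ t then f' t else g' t) t := by
    intro f g f' g' hf hg e1 e2 t
    rcases lt_trichotomy t 0 with ht | rfl | ht
    · rw [if_neg ht.not_ge]
      exact (hg t ht.le).congr_of_eventuallyEq
        ((eventually_lt_nhds ht).mono fun s hs => if_neg hs.not_ge)
    · rw [if_pos le_rfl, ← hasDerivWithinAt_univ, ← Iic_union_Ici (a := (0 : ℝ))]
      refine HasDerivWithinAt.union ?_ ?_
      · refine (e2 ▸ (hg 0 le_rfl).hasDerivWithinAt).congr (fun s hs => ?_) (by simp [e1])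
        rcases (mem_Iic.1 hs).eq_or_lt with rfl | h
        · simp [e1]
        · exact if_neg h.not_ge
      · exact (hf 0 le_rfl).hasDerivWithinAt.congr (fun s hs => if_pos hs) (by simp)
    · rw [if_pos ht.le]
      exact (hf t ht.le).congr_of_eventuallyEq
        ((eventually_gt_nhds ht).mono fun s hs => if_pos hs.le)
  refine ⟨fun t => if 0 ≤ t then q t else q' (-t), fun t => if 0 ≤ t then v t else -v' (-t),
    key (fun t ht => (h t ht).1) (fun t ht =>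
      ((h' (-t) (by linarith)).1.scomp t (hasDerivAt_neg t)).congr_deriv (by simp)) (by simp [e])
      (by simp [e']), fun t => ?_, fun t ht => by simp [ht], fun t ht => ?_⟩
  · rw [apply_ite F]
    exact key (fun t ht => (h t ht).2) (g' := fun t => F (q' (-t))) (fun t ht =>
      ((h' (-t) (by linarith)).2.scomp t (hasDerivAt_neg t)).fun_neg.congr_deriv (by simp))
      (by simp [e'])
      (by simp [e]) t
  · rcases ht.eq_or_lt with rfl | ht
    · simp [e, e']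
    · have : ¬ 0 ≤ -t := by linarith
      simp [this]

/-- a small perturbation of the identity is locally onto -/
theorem surj_pert [FiniteDimensional ℝ X] : ∃ θ > 0, ∀ ρ > 0, ∀ (y₀ y : X)
    (f : X → X), ContinuousOn f (closedBall y₀ ρ) → (∀ ξ ∈ closedBall y₀ ρ, ‖f ξ - ξ‖ ≤ θ * ρ) →
    ‖y - y₀‖ ≤ θ * ρ → ∃ ξ ∈ closedBall y₀ ρ, f ξ = y := by
  let T := toEuclidean (E := X)
  obtain ⟨A, hA, hA'⟩ : ∃ A > 0, ∀ x, ‖T x‖ ≤ A * ‖x‖ := T.toContinuousLinearMap.bound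
  obtain ⟨B, hB, hB'⟩ : ∃ B > 0, ∀ x, ‖T.symm x‖ ≤ B * ‖x‖ := T.symm.toContinuousLinearMap.bound
  refine ⟨1 / B / (2 * A), by positivity, fun ρ hρ y₀ y f hf h1 h2 => ?_⟩
  have hm : ∀ η ∈ closedBall (0 : EuclideanSpace ℝ (Fin (Module.finrank ℝ X))) (ρ / B),
      y₀ + T.symm η ∈ closedBall y₀ ρ := fun η hη => by
    rw [mem_closedBall_zero_iff, le_div_iff₀ hB] at hη
    rw [mem_closedBall_iff_norm, add_sub_cancel_left]
    linarith [hB' η]
  obtain ⟨η, hη, e⟩ := Shared.Brouwer.brouwer (R := ρ / B) (by positivity)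
    (fun η => η - T (f (y₀ + T.symm η) - y))
    (continuousOn_id.sub (T.continuous.comp_continuousOn
      ((hf.comp (by fun_prop) hm).sub continuousOn_const))) fun η hη => by
      have e : η - T (f (y₀ + T.symm η) - y) =
          T ((y - y₀) - (f (y₀ + T.symm η) - (y₀ + T.symm η))) := by
        simp only [map_sub, map_add, ContinuousLinearEquiv.apply_symm_apply]; abel
      beta_reduce
      rw [mem_closedBall_zero_iff, e]
      refine (hA' _).trans ?_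
      have := (norm_sub_le _ _).trans (add_le_add h2 (h1 _ (hm η hη)))
      calc _ ≤ A * (1 / B / (2 * A) * ρ + 1 / B / (2 * A) * ρ) := by gcongr
        _ = ρ / B := by field_simp; ring
  refine ⟨_, hm η hη, ?_⟩
  rwa [sub_eq_self, map_eq_zero_iff _ T.injective, sub_eq_zero] at e

/-- continuous perturbations of a map with invertible derivative are locally onto -/
theorem local_onto [FiniteDimensional ℝ X] {M : X → X} {p : X} (hM : DifferentiableAt ℝ M p)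
    (hi : Function.Injective (fderiv ℝ M p)) {N : Set X} (hN : N ∈ 𝓝 p) : ∃ δ > 0, ∀ F : X → X,
    ContinuousOn F N → (∀ x ∈ N, ‖F x - M x‖ ≤ δ) → ∀ y, ‖y - M p‖ ≤ δ → ∃ x ∈ N, F x = y := by
  let T := (LinearEquiv.ofInjectiveEndo (fderiv ℝ M p).toLinearMap hi).toContinuousLinearEquiv
  have hT : ∀ x, T x = fderiv ℝ M p x := fun x => rfl
  obtain ⟨B, hB, hB'⟩ : ∃ B > 0, ∀ x, ‖T.symm x‖ ≤ B * ‖x‖ := T.symm.toContinuousLinearMap.bound
  obtain ⟨θ, hθ, h⟩ := surj_pert (X := X)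
  obtain ⟨ρ, hρ, h1⟩ := nhds_basis_closedBall.mem_iff.1 (inter_mem hN
    (hM.hasFDerivAt.isLittleO.bound (c := θ / (2 * B)) (by positivity)))
  refine ⟨θ * ρ / (2 * B), by positivity, fun F hF h2 y hy => ?_⟩
  obtain ⟨x, hx, e⟩ := h ρ hρ p (p + T.symm (y - M p)) (fun x => p + T.symm (F x - M p))
    (continuousOn_const.add (T.symm.continuous.comp_continuousOn
      ((hF.mono fun x hx => (h1 hx).1).sub continuousOn_const))) (fun x hx => by
      have e : p + T.symm (F x - M p) - x =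
          T.symm (F x - M x + (M x - M p - fderiv ℝ M p (x - p))) := by
        simp only [← hT, map_add, map_sub, ContinuousLinearEquiv.symm_apply_apply]; abel
      have h3 := (norm_add_le _ _).trans (add_le_add (h2 x (h1 hx).1) ((h1 hx).2.trans
        (mul_le_mul_of_nonneg_left (mem_closedBall_iff_norm.1 hx) (by positivity))))
      rw [e]
      exact (hB' _).trans ((mul_le_mul_of_nonneg_left h3 hB.le).trans_eq (by field_simp; ring)))
    (by
      rw [add_sub_cancel_left]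
      refine (hB' _).trans ((mul_le_mul_of_nonneg_left hy hB.le).trans ?_)
      rw [show B * (θ * ρ / (2 * B)) = θ * ρ / 2 by field_simp]
      exact half_le_self (by positivity))
  exact ⟨x, (h1 hx).1, by simpa using e⟩

end Pool.Agent.Lib.MP_e310f3_mp.Pl

/-! Hyperbolic Kepler arcs in Levi-Civita coordinates. -/

set_option autoImplicit false

namespace Pool.Agent.Lib.MP_e310f3_mp.Pl

open Set Filter Topology Complex ComplexConjugate

/-- the inverse square field -/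
noncomputable def g (u : ℂ) : ℂ := (‖u‖ ^ 3)⁻¹ • u

theorem g_norm {u : ℂ} {R : ℝ} (hR : 0 < R) (h : R ≤ ‖u‖) : ‖g u‖ ≤ 1 / R ^ 2 := by
  have h0 : 0 < ‖u‖ := hR.trans_le h
  rw [g, norm_smul, Real.norm_of_nonneg (by positivity)]
  calc (‖u‖ ^ 3)⁻¹ * ‖u‖ = 1 / ‖u‖ ^ 2 := by field_simp
    _ ≤ _ := by gcongr

theorem g_lip {u w : ℂ} {R : ℝ} (hR : 0 < R) (hu : R ≤ ‖u‖) (hw : R ≤ ‖w‖) :
    ‖g u - g w‖ ≤ 4 / R ^ 3 * ‖u - w‖ := by
  wlog h : ‖w‖ ≤ ‖u‖ generalizing u w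
  · rw [norm_sub_rev, norm_sub_rev u]
    exact this hw hu (le_of_not_ge h)
  have h0 : 0 < ‖w‖ := hR.trans_le hw
  have h1 : 0 < ‖u‖ := hR.trans_le hu
  have e : g u - g w = (‖u‖ ^ 3)⁻¹ • (u - w) - ((‖w‖ ^ 3)⁻¹ - (‖u‖ ^ 3)⁻¹) • w := by
    simp only [g, smul_sub, sub_smul]; abel
  have h2 : ‖u‖ - ‖w‖ ≤ ‖u - w‖ := norm_sub_norm_le u w
  have h3 : (‖u‖ ^ 3)⁻¹ ≤ (‖w‖ ^ 3)⁻¹ := by gcongr
  have h4 : (‖w‖ ^ 3)⁻¹ ≤ (R ^ 3)⁻¹ := by gcongr
  have h5 : ((‖w‖ ^ 3)⁻¹ - (‖u‖ ^ 3)⁻¹) * ‖w‖ ≤ 3 * (‖w‖ ^ 3)⁻¹ * (‖u‖ - ‖w‖) := by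
    generalize ‖u‖ = a at *
    generalize ‖w‖ = b at *
    obtain ⟨d, rfl⟩ : ∃ d, a = b + d := ⟨a - b, by ring⟩
    have hd : 0 ≤ d := by linarith
    rw [← sub_nonneg]
    have : 3 * (b ^ 3)⁻¹ * (b + d - b) - ((b ^ 3)⁻¹ - ((b + d) ^ 3)⁻¹) * b =
        d * (6 * b ^ 2 * d + 8 * b * d ^ 2 + 3 * d ^ 3) / (b ^ 3 * (b + d) ^ 3) := by
      field_simp; ring
    rw [this]; positivity
  rw [e]
  refine (norm_sub_le _ _).trans ?_
  rw [norm_smul, norm_smul, Real.norm_of_nonneg (by positivity),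
    Real.norm_of_nonneg (by linarith), div_eq_mul_inv]
  have h6 : 0 ≤ (‖w‖ ^ 3)⁻¹ := by positivity
  nlinarith [mul_le_mul_of_nonneg_right (h3.trans h4) (norm_nonneg (u - w)),
    mul_le_mul_of_nonneg_right h4 (norm_nonneg (u - w)), mul_le_mul_of_nonneg_left h2 h6]

theorem g_neg (u : ℂ) : g (-u) = -g u := by simp [g]

theorem g_smul {r : ℝ} (hr : 0 < r) (u : ℂ) : g (r • u) = (r ^ 2)⁻¹ • g u := by
  rw [g, g, norm_smul, Real.norm_of_nonneg hr.le, smul_smul, smul_smul]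
  congr 1
  by_cases h : ‖u‖ = 0
  · simp [h]
  · field_simp

theorem g_mul {φ : ℂ} (h : ‖φ‖ = 1) (u : ℂ) : g (φ * u) = φ * g u := by
  rw [g, g, norm_mul, h, one_mul, mul_smul_comm]

theorem g_cont : ContinuousOn g {u | u ≠ 0} := fun _ hu =>
  (((continuous_norm.pow 3).continuousAt.inv₀ (pow_ne_zero 3 (norm_ne_zero_iff.2 hu))).smul
    continuousAt_id).continuousWithinAt

/-- a Kepler motion on the half line escaping with velocity `b` -/
structure Kep (μ c : ℝ) (x v : ℝ → ℂ) (b : ℂ) : Prop where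
  sol : Sol (fun u => (-μ) • g u) x v
  lb : ∀ t, 0 ≤ t → c * (1 + t) ≤ ‖x t‖
  lim : Tendsto v atTop (𝓝 b)

theorem Kep.mono {μ c c' : ℝ} {x v : ℝ → ℂ} {b : ℂ} (h : Kep μ c x v b) (hc : c' ≤ c) :
    Kep μ c' x v b :=
  ⟨h.sol, fun t ht => (mul_le_mul_of_nonneg_right hc (by linarith)).trans (h.lb t ht), h.lim⟩

theorem Kep.rot {μ c : ℝ} {x v : ℝ → ℂ} {b φ : ℂ} (h : Kep μ c x v b) (hφ : ‖φ‖ = 1) :
    Kep μ c (fun t => φ * x t) (fun t => φ * v t) (φ * b) :=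
  ⟨fun t ht => ⟨(h.sol t ht).1.const_mul φ, ((h.sol t ht).2.const_mul φ).congr_deriv (by
    simp only [g_mul hφ, mul_smul_comm])⟩, fun t ht => by simpa [hφ] using h.lb t ht,
    h.lim.const_mul φ⟩

noncomputable def Zf (α β : ℂ) (s : ℝ) : ℂ := Real.exp s • α + Real.exp (-s) • β
noncomputable def Zd (α β : ℂ) (s : ℝ) : ℂ := Real.exp s • α - Real.exp (-s) • β

/-- the time as a function of the regularising parameter -/
noncomputable def Tm (α β : ℂ) (k s : ℝ) : ℝ :=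
  (normSq α * (Real.exp s ^ 2 - 1) + normSq β * (1 - Real.exp (-s) ^ 2) +
    4 * (α * conj β).re * s) / k

variable {α β : ℂ} {k : ℝ}

theorem exp_mul_neg (s : ℝ) : Real.exp s * Real.exp (-s) = 1 := by simp [← Real.exp_add]

theorem dneg (s : ℝ) : HasDerivAt (fun s : ℝ => Real.exp (-s)) (-Real.exp (-s)) s := by
  simpa using (hasDerivAt_neg s).exp

theorem Zf_d (α β : ℂ) (s : ℝ) : HasDerivAt (Zf α β) (Zd α β s) s :=
  (((Real.hasDerivAt_exp s).smul_const α).fun_add ((dneg s).smul_const β)).congr_deriv (by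
    simp [Zd, sub_eq_add_neg])

theorem Zd_d (α β : ℂ) (s : ℝ) : HasDerivAt (Zd α β) (Zf α β s) s :=
  (((Real.hasDerivAt_exp s).smul_const α).fun_sub ((dneg s).smul_const β)).congr_deriv (by
    simp [Zf])

theorem nsq_Zf (α β : ℂ) (s : ℝ) : normSq (Zf α β s) =
    normSq α * Real.exp s ^ 2 + normSq β * Real.exp (-s) ^ 2 + 2 * (α * conj β).re := by
  simp only [Zf, normSq_apply, add_re, add_im, smul_re, smul_im, smul_eq_mul, mul_re, conj_re,
    conj_im]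
  linear_combination (2 * (α.re * β.re + α.im * β.im)) * exp_mul_neg s

theorem nsq_Zd (α β : ℂ) (s : ℝ) : normSq (Zd α β s) = normSq (Zf α β s) - 4 * (α * conj β).re := by
  simp only [Zf, Zd, normSq_apply, add_re, add_im, sub_re, sub_im, smul_re, smul_im, smul_eq_mul,
    mul_re, conj_re, conj_im]
  linear_combination (-4 * (α.re * β.re + α.im * β.im)) * exp_mul_neg s

theorem Tm_d (α β : ℂ) (k s : ℝ) : HasDerivAt (Tm α β k) (2 * normSq (Zf α β s) / k) s :=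
  (((((((Real.hasDerivAt_exp s).fun_pow 2).sub_const 1).const_mul (normSq α)).fun_add
    ((((dneg s).fun_pow 2).const_sub 1).const_mul (normSq β))).fun_add
    ((hasDerivAt_id' s).const_mul (4 * (α * conj β).re))).div_const k).congr_deriv (by
      rw [nsq_Zf]; simp; ring)

theorem Zf_lb (α β : ℂ) (s : ℝ) :
    (α * conj β).im ^ 2 * Real.exp s ^ 2 ≤ normSq β * normSq (Zf α β s) ∧
    (α * conj β).im ^ 2 * Real.exp (-s) ^ 2 ≤ normSq α * normSq (Zf α β s) := by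
  simp only [Zf, normSq_apply, add_re, add_im, smul_re, smul_im, smul_eq_mul, mul_im, conj_re,
    conj_im]
  generalize Real.exp s = p
  generalize Real.exp (-s) = q
  constructor
  · nlinarith [sq_nonneg (β.re * (p * α.re + q * β.re) + β.im * (p * α.im + q * β.im))]
  · nlinarith [sq_nonneg (α.re * (p * α.re + q * β.re) + α.im * (p * α.im + q * β.im))]

theorem ne_of_im (hI : (α * conj β).im ≠ 0) : 0 < normSq α ∧ 0 < normSq β :=
  ⟨normSq_pos.2 fun h => hI (by simp [h]), normSq_pos.2 fun h => hI (by simp [h])⟩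

theorem Zf_lb' (hI : (α * conj β).im ≠ 0) (s : ℝ) :
    (α * conj β).im ^ 2 / (normSq α + normSq β) ≤ normSq (Zf α β s) := by
  obtain ⟨ha, hb⟩ := ne_of_im hI
  obtain ⟨h1, h2⟩ := Zf_lb α β s
  rw [div_le_iff₀ (by linarith)]
  have h0 := normSq_nonneg (Zf α β s)
  have h3 := sq_nonneg (α * conj β).im
  rcases le_total 0 s with h | h
  · nlinarith [mul_le_mul_of_nonneg_left (one_le_pow₀ (n := 2) (Real.one_le_exp h)) h3]
  · nlinarith [mul_le_mul_of_nonneg_left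
      (one_le_pow₀ (n := 2) (Real.one_le_exp (neg_nonneg.2 h))) h3]

theorem Zf_pos (hI : (α * conj β).im ≠ 0) (s : ℝ) : 0 < normSq (Zf α β s) :=
  lt_of_lt_of_le (div_pos (by positivity) (by linarith [(ne_of_im hI).1, (ne_of_im hI).2]))
    (Zf_lb' hI s)

theorem Zf_ne (hI : (α * conj β).im ≠ 0) (s : ℝ) : Zf α β s ≠ 0 := normSq_pos.1 (Zf_pos hI s)

/-- the regularising parameter as a function of the time -/
structure Arc (α β : ℂ) (k : ℝ) (σ : ℝ → ℝ) : Prop where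
  d : ∀ t, HasDerivAt σ (k / (2 * normSq (Zf α β (σ t)))) t
  tm : ∀ t, Tm α β k (σ t) = t
  z : σ 0 = 0
  pos : ∀ t, 0 < t → 0 < σ t
  top : Tendsto σ atTop atTop

theorem exists_arc (hk : 0 < k) (hI : (α * conj β).im ≠ 0) : ∃ σ, Arc α β k σ := by
  obtain ⟨ha, hb⟩ := ne_of_im hI
  have h0 : Tm α β k 0 = 0 := by simp [Tm]
  obtain ⟨m, hm, hm'⟩ : ∃ m > 0, ∀ s, m ≤ 2 * normSq (Zf α β s) / k :=
    ⟨2 * ((α * conj β).im ^ 2 / (normSq α + normSq β)) / k, by positivity, fun s => by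
      gcongr; exact Zf_lb' hI s⟩
  have h1 : Monotone fun s => Tm α β k s - m * s :=
    monotone_of_hasDerivAt_nonneg (f' := fun s => 2 * normSq (Zf α β s) / k - m)
      (fun s => by simpa using (Tm_d α β k s).fun_sub ((hasDerivAt_id' s).const_mul m))
      fun s => sub_nonneg.2 (hm' s)
  have h2 : StrictMono (Tm α β k) := fun s t h => by
    have := h1 h.le
    simp only at this
    nlinarith
  have hc : Continuous (Tm α β k) :=
    continuous_iff_continuousAt.2 fun s => (Tm_d α β k s).continuousAt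
  have h3 : Function.Surjective (Tm α β k) := hc.surjective
    (tendsto_atTop_mono' atTop ((eventually_ge_atTop 0).mono fun s hs => by
      have := h1 hs
      simp only [h0] at this
      show m * s ≤ _
      linarith) (tendsto_id.const_mul_atTop hm))
    (tendsto_atBot_mono' atBot ((eventually_le_atBot 0).mono fun s hs => by
      have := h1 hs
      simp only [h0] at this
      show _ ≤ m * s
      linarith) (tendsto_id.const_mul_atBot hm))
  let e := h2.orderIsoOfSurjective _ h3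
  have he : ∀ t, Tm α β k (e.symm t) = t := e.apply_symm_apply
  have hz : e.symm 0 = 0 := h2.injective ((he 0).trans h0.symm)
  refine ⟨e.symm, fun t => ?_, he, hz, fun t ht => hz ▸ e.symm.strictMono ht, e.symm.tendsto_atTop⟩
  have := HasDerivAt.of_local_left_inverse e.symm.continuous.continuousAt
    (Tm_d α β k (e.symm t)) (hm.trans_le (hm' _)).ne' (Eventually.of_forall he)
  rwa [inv_div] at this

/-- the constant in the linear escape estimate -/
noncomputable def cst (α β : ℂ) (k : ℝ) : ℝ :=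
  (α * conj β).im ^ 2 * k / (normSq β * (k + normSq α + normSq β))

theorem cst_pos (hk : 0 < k) (hI : (α * conj β).im ≠ 0) : 0 < cst α β k := by
  obtain ⟨ha, hb⟩ := ne_of_im hI
  unfold cst
  positivity

theorem Arc.nonneg {σ : ℝ → ℝ} (h : Arc α β k σ) {t : ℝ} (ht : 0 ≤ t) : 0 ≤ σ t := by
  rcases ht.eq_or_lt with rfl | ht
  · exact h.z.ge
  · exact (h.pos t ht).le

theorem Arc.dZ {σ : ℝ → ℝ} (h : Arc α β k σ) (t : ℝ) : HasDerivAt (fun t => Zf α β (σ t))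
    ((k / (2 * normSq (Zf α β (σ t)))) • Zd α β (σ t)) t := (Zf_d α β _).scomp t (h.d t)

theorem Arc.kep {σ : ℝ → ℝ} (h : Arc α β k σ) (hk : 0 < k) (hI : (α * conj β).im ≠ 0) {μ : ℝ}
    (hμ : 0 ≤ μ) (hD : 2 * k ^ 2 * (α * conj β).re = -μ) :
    Kep μ (cst α β k) (fun t => Zf α β (σ t) ^ 2)
      (fun t => k * Zd α β (σ t) / conj (Zf α β (σ t))) (k * α / conj α) := by
  obtain ⟨ha, hb⟩ := ne_of_im hI
  have hk' : (k : ℂ) ≠ 0 := by exact_mod_cast hk.ne'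
  refine ⟨fun t _ => ?_, fun t ht => ?_, ?_⟩
  · have hZ := Zf_ne hI (σ t)
    have hZ' : conj (Zf α β (σ t)) ≠ 0 := by simpa using hZ
    have h1 := h.dZ t
    have h2 := (Zd_d α β _).scomp t (h.d t)
    have h3 : HasDerivAt (fun t => conj (Zf α β (σ t)))
        ((k / (2 * normSq (Zf α β (σ t)))) • conj (Zd α β (σ t))) t := by
      simpa using h1.star
    refine ⟨(h1.fun_pow 2).congr_deriv ?_, ((h2.const_mul (k : ℂ)).fun_div h3 hZ').congr_deriv ?_⟩
    · simp only [real_smul]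
      push_cast
      rw [← mul_conj]
      field_simp
    · have e1 := congrArg ofReal (nsq_Zd α β (σ t))
      have e2 := congrArg ofReal hD
      have e3 : (‖Zf α β (σ t) ^ 2‖ ^ 3 : ℝ) = normSq (Zf α β (σ t)) ^ 3 := by
        rw [norm_pow, Complex.sq_norm]
      simp only [g, e3, real_smul, Function.comp]
      push_cast at e1 e2 ⊢
      rw [← mul_conj, ← mul_conj] at e1
      rw [← mul_conj, ← e2]
      field_simp
      linear_combination (-1 : ℂ) * e1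
  · have h1 := (Zf_lb α β (σ t)).1
    have h2 := h.tm t
    have h3 := h.nonneg ht
    have h4 := one_le_pow₀ (n := 2) (Real.one_le_exp h3)
    have h5 : (α * conj β).re ≤ 0 := by nlinarith [sq_pos_of_pos hk]
    rw [Tm, div_eq_iff hk.ne'] at h2
    rw [norm_pow, Complex.sq_norm, cst, div_mul_eq_mul_div, div_le_iff₀ (by positivity)]
    have h6 : k * (1 + t) ≤ Real.exp (σ t) ^ 2 * (k + normSq α + normSq β) := by
      nlinarith [mul_nonneg hb.le (sq_nonneg (Real.exp (-σ t))), mul_nonneg h3 (neg_nonneg.2 h5),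
        mul_le_mul_of_nonneg_left h4 hk.le, mul_le_mul_of_nonneg_left h4 hb.le]
    nlinarith [mul_le_mul_of_nonneg_left h6 (sq_nonneg (α * conj β).im),
      mul_le_mul_of_nonneg_right h1 (show 0 ≤ k + normSq α + normSq β by positivity)]
  · have h1 : Tendsto (fun t => ((Real.exp (-σ t) ^ 2 : ℝ) : ℂ)) atTop (𝓝 0) := by
      have := ((Real.tendsto_exp_neg_atTop_nhds_zero.comp h.top).pow 2).ofReal
      simpa using this
    have h2 := ((tendsto_const_nhds (x := α).sub (h1.mul_const β)).const_mul (k : ℂ)).div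
      (tendsto_const_nhds (x := conj α).add (h1.mul_const (conj β)))
      (by simpa using normSq_pos.1 ha)
    simp only [zero_mul, sub_zero, add_zero] at h2
    refine h2.congr fun t => ?_
    have e := congrArg ofReal (exp_mul_neg (σ t))
    have e0 : ((Real.exp (-σ t) : ℝ) : ℂ) ≠ 0 := by exact_mod_cast (Real.exp_pos _).ne'
    simp only [Pi.div_apply, Zd, Zf, real_smul, map_add, map_mul, conj_ofReal, ofReal_mul,
      ofReal_pow, ofReal_one] at e ⊢
    rw [← mul_div_mul_left (k * (_ * α - _ * β)) _ e0]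
    congr 1
    · linear_combination (-k * α) * e
    · linear_combination (-conj α) * e

theorem Zf_zero (α β : ℂ) : Zf α β 0 = α + β := by simp [Zf]
theorem Zd_zero (α β : ℂ) : Zd α β 0 = α - β := by simp [Zd]

end Pool.Agent.Lib.MP_e310f3_mp.Pl

/-! The motion after a close encounter of the two light bodies. -/

set_option autoImplicit false

namespace Pool.Agent.Lib.MP_e310f3_mp.Pl

open Set Filter Topology

/-- the three-body field in coordinates relative to the heavy body -/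
noncomputable def Fe (ε : ℝ) (x : ℂ × ℂ) : ℂ × ℂ :=
  (-((1 + ε) • g x.1) - ε • g x.2 - ε • g (x.1 - x.2),
    -((1 + ε) • g x.2) - ε • g x.1 + ε • g (x.1 - x.2))

/-- the region of separated configurations -/
def Sep (c ε s : ℝ) : Set (ℂ × ℂ) :=
  {x | c * (1 + s) ≤ ‖x.1‖ ∧ c * (1 + s) ≤ ‖x.2‖ ∧ c * (ε + s) ≤ ‖x.1 - x.2‖}

theorem wt_one {a : ℝ} (ha : 0 < a) :
    Wt (fun s => 1 - a / (a + s)) (fun s => a / (a + s) ^ 2) 1 :=
  ⟨fun s hs => (((hasDerivAt_const s a).fun_div ((hasDerivAt_id' s).const_add a)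
    (by linarith)).const_sub 1).congr_deriv (by ring), fun s hs => by positivity,
    by simp [ha.ne'], fun s hs => by
      have : 0 ≤ a / (a + s) := by positivity
      linarith⟩

theorem dsq {a s : ℝ} (h : 0 < a + s) :
    HasDerivAt (fun s => √(a + s)) (1 / (2 * √(a + s))) s :=
  ((hasDerivAt_id' s).const_add a).sqrt h.ne'

theorem wt_sq {e : ℝ} (he : 0 < e) :
    Wt (fun s => 1 - e / √(e ^ 2 + s)) (fun s => e / (2 * √(e ^ 2 + s) ^ 3)) 1 :=
  ⟨fun s hs => (((hasDerivAt_const s e).fun_div (dsq (by positivity))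
    (by positivity)).const_sub 1).congr_deriv (by field_simp; ring), fun s hs => by positivity,
    by simp [he.le, he.ne'], fun s hs => by
      have : 0 ≤ e / √(e ^ 2 + s) := by positivity
      linarith⟩

theorem Wt.comb {A A' B B' : ℝ → ℝ} {C : ℝ} (hC : 0 ≤ C) (hA : Wt A A' 1) (hB : Wt B B' 1) :
    Wt (fun s => C * (A s + B s)) (fun s => C * (A' s + B' s)) (2 * C) :=
  ⟨fun s hs => ((hA.d s hs).fun_add (hB.d s hs)).const_mul C,
    fun s hs => mul_nonneg hC (add_nonneg (hA.nn s hs) (hB.nn s hs)), by simp [hA.z, hB.z],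
    fun s hs => by nlinarith [hA.le s hs, hB.le s hs]⟩

theorem n3 {a b c : ℂ} {ε : ℝ} (hε : 0 ≤ ε) :
    ‖-((1 + ε) • a) - ε • b - ε • c‖ ≤ (1 + ε) * ‖a‖ + ε * ‖b‖ + ε * ‖c‖ := by
  refine (norm_sub_le _ _).trans (add_le_add ((norm_sub_le _ _).trans (add_le_add ?_ ?_)) ?_) <;>
    simp [abs_of_nonneg hε, abs_of_nonneg (show 0 ≤ 1 + ε by linarith), norm_smul, -Complex.real_smul]

variable {c ε : ℝ}

theorem Fe_lip (hc : 0 < c) (hε : 0 < ε) (h1 : ε ≤ 1) {s : ℝ} (hs : 0 ≤ s) {x y : ℂ × ℂ}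
    (hx : x ∈ Sep c ε s) (hy : y ∈ Sep c ε s) : ‖Fe ε x - Fe ε y‖ ≤
      12 / c ^ 3 * (1 / (1 + s) ^ 2 + ε / (ε + s) ^ 2) * (‖x - y‖ / (s + ε)) := by
  have a1 := g_lip (by positivity) hx.1 hy.1
  have a2 := g_lip (by positivity) hx.2.1 hy.2.1
  have a3 := g_lip (by positivity) hx.2.2 hy.2.2
  have b1 : ‖x.1 - y.1‖ ≤ ‖x - y‖ := norm_fst_le (x - y)
  have b2 : ‖x.2 - y.2‖ ≤ ‖x - y‖ := norm_snd_le (x - y)
  have b3 : ‖x.1 - x.2 - (y.1 - y.2)‖ ≤ 2 * ‖x - y‖ := by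
    rw [sub_sub_sub_comm]; linarith [norm_sub_le (x.1 - y.1) (x.2 - y.2)]
  have key : ∀ {p q r : ℝ}, p ≤ 4 / (c * (1 + s)) ^ 3 * ‖x - y‖ →
      q ≤ 4 / (c * (1 + s)) ^ 3 * ‖x - y‖ → r ≤ 4 / (c * (ε + s)) ^ 3 * (2 * ‖x - y‖) →
      (1 + ε) * p + ε * q + ε * r ≤
      12 / c ^ 3 * (1 / (1 + s) ^ 2 + ε / (ε + s) ^ 2) * (‖x - y‖ / (s + ε)) := by
    intro p q r hp hq hr
    have e1 : 4 / (c * (1 + s)) ^ 3 * ‖x - y‖ ≤
        4 / c ^ 3 * (1 / (1 + s) ^ 2) * (‖x - y‖ / (s + ε)) :=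
      calc _ = 4 / c ^ 3 * (1 / (1 + s) ^ 2) * (‖x - y‖ / (s + 1)) := by
            rw [add_comm s]; field_simp
        _ ≤ _ := by gcongr
    have e2 : ε * (4 / (c * (ε + s)) ^ 3 * (2 * ‖x - y‖)) =
        8 / c ^ 3 * (ε / (ε + s) ^ 2) * (‖x - y‖ / (s + ε)) := by
      rw [add_comm s]; field_simp; ring
    have e3 : 0 ≤ 1 / c ^ 3 * (ε / (ε + s) ^ 2) * (‖x - y‖ / (s + ε)) := by positivity
    have e4 : 0 ≤ 4 / c ^ 3 * (1 / (1 + s) ^ 2) * (‖x - y‖ / (s + ε)) := by positivity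
    have e5 := mul_le_mul_of_nonneg_left hr hε.le
    have e6 := mul_le_mul_of_nonneg_left (hq.trans e1) hε.le
    have e7 := mul_le_mul_of_nonneg_left (hp.trans e1) (show 0 ≤ 1 + ε by linarith)
    have e8 := mul_le_mul_of_nonneg_right h1 e4
    ring_nf at e2 e3 e5 e6 e7 e8 ⊢
    linarith
  have c1 := a1.trans (mul_le_mul_of_nonneg_left b1 (by positivity))
  have c2 := a2.trans (mul_le_mul_of_nonneg_left b2 (by positivity))
  have c3 := a3.trans (mul_le_mul_of_nonneg_left b3 (by positivity))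
  refine norm_prod_le_iff.2 ⟨le_trans (le_of_eq ?_) ((n3 hε.le).trans (key c1 c2 c3)),
    le_trans (le_of_eq ?_) ((n3 hε.le).trans (key c2 c1 ((norm_neg _).trans_le c3)))⟩ <;>
    congr 1 <;> simp only [Fe, Prod.fst_sub, Prod.snd_sub] <;> module

theorem Fe_norm (hc : 0 < c) (hε : 0 < ε) (h1 : ε ≤ 1) {s : ℝ} (hs : 0 ≤ s) {x : ℂ × ℂ}
    (hx : x ∈ Sep c ε s) : ‖Fe ε x‖ ≤ 4 / c ^ 2 / (ε + s) ^ 2 := by
  have h2 : c * (ε + s) ≤ c * (1 + s) := by gcongr
  have a1 := g_norm (by positivity) (h2.trans hx.1)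
  have a2 := g_norm (by positivity) (h2.trans hx.2.1)
  have a3 := g_norm (by positivity) hx.2.2
  have key : ∀ {p q r : ℝ}, p ≤ 1 / (c * (ε + s)) ^ 2 → q ≤ 1 / (c * (ε + s)) ^ 2 →
      r ≤ 1 / (c * (ε + s)) ^ 2 → (1 + ε) * p + ε * q + ε * r ≤ 4 / c ^ 2 / (ε + s) ^ 2 := by
    intro p q r hp hq hr
    have e : 4 / c ^ 2 / (ε + s) ^ 2 = 4 * (1 / (c * (ε + s)) ^ 2) := by field_simp
    have e0 : 0 ≤ 1 / (c * (ε + s)) ^ 2 := by positivity
    rw [e]
    nlinarith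
  refine norm_prod_le_iff.2 ⟨(n3 hε.le).trans (key a1 a2 a3),
    le_trans (le_of_eq ?_) ((n3 hε.le).trans (key a2 a1 ((norm_neg _).trans_le a3)))⟩
  simp only [Fe, smul_neg, sub_neg_eq_add]

/-- an escaping motion of the three-body problem -/
structure Esc (c ε : ℝ) (q v : ℝ → ℂ × ℂ) (b : ℂ × ℂ) : Prop where
  sol : Sol (Fe ε) q v
  mem : ∀ t, 0 ≤ t → q t ∈ Sep c ε t
  lim : Tendsto v atTop (𝓝 b)

theorem Esc.lip (hc : 0 < c) (hε : 0 < ε) (h1 : ε ≤ 1) : ∃ K : ℝ, ∀ q v b q' v' b',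
    Esc c ε q v b → Esc c ε q' v' b' → ‖b - b'‖ ≤ K * (‖q 0 - q' 0‖ + ‖v 0 - v' 0‖) := by
  refine ⟨2 / ε * Real.exp (2 * (2 * (12 / c ^ 3))), fun q v b q' v' b' h h' => ?_⟩
  refine le_of_tendsto (h.lim.sub h'.lim).norm ((eventually_ge_atTop 0).mono fun t ht => ?_)
  have := cmp (η := fun t => q t - q' t) (D := (‖q 0 - q' 0‖ + ‖v 0 - v' 0‖) / ε) (δ := 0)
    (R := fun _ => 0) (R' := fun _ => 0) hε
    (Wt.comb (C := 12 / c ^ 3) (by positivity) (wt_one one_pos) (wt_one hε))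
    ⟨fun s _ => hasDerivAt_const s _, fun _ _ => le_rfl, rfl, fun _ _ => le_rfl⟩
    (fun s hs => (h.sol s hs).1.fun_sub (h'.sol s hs).1)
    (fun s hs => (h.sol s hs).2.fun_sub (h'.sol s hs).2)
    (fun s hs => by simpa using Fe_lip hc hε h1 hs (h.mem s hs) (h'.mem s hs))
    (by rw [mul_div_cancel₀ _ hε.ne']; exact le_add_of_nonneg_right (norm_nonneg _))
    (by rw [le_div_iff₀ hε]; nlinarith [norm_nonneg (q 0 - q' 0), norm_nonneg (v 0 - v' 0)]) ht
  exact this.trans_eq (by ring)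

theorem Kep.acc {μ : ℝ} {x v : ℝ → ℂ} {b : ℂ} (h : Kep μ c x v b) (hc : 0 < c) (hμ : 0 ≤ μ)
    {t : ℝ} (ht : 0 ≤ t) : ‖(-μ) • g (x t)‖ ≤ μ / c ^ 2 / (1 + t) ^ 2 := by
  rw [norm_smul, norm_neg, Real.norm_of_nonneg hμ]
  refine (mul_le_mul_of_nonneg_left (g_norm (by positivity) (h.lb t ht)) hμ).trans_eq ?_
  field_simp

theorem Kep.vel {μ : ℝ} {x v : ℝ → ℂ} {b : ℂ} (h : Kep μ c x v b) (hc : 0 < c) (hμ : 0 ≤ μ)
    {t : ℝ} (ht : 0 ≤ t) : ‖v t - v 0‖ ≤ μ / c ^ 2 * (t / (1 + t)) ∧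
      ‖v t - b‖ ≤ μ / c ^ 2 / (1 + t) := by
  have h1 := (exists_lim one_pos (fun s hs => (h.sol s hs).2) fun s hs => h.acc hc hμ hs).1
  refine ⟨(h1 0 t le_rfl ht).trans_eq (by field_simp; ring), ?_⟩
  rw [norm_sub_rev]
  refine le_of_tendsto (h.lim.sub_const _).norm ((eventually_ge_atTop t).mono fun s hs => ?_)
  have : 0 ≤ μ / c ^ 2 / (1 + s) := by have := ht.trans hs; positivity
  linarith [h1 t s ht hs]

theorem small (M : ℝ) {η : ℝ} (hη : 0 < η) : ∀ᶠ e in 𝓝[>] (0 : ℝ), M * e ≤ η :=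
  nhdsWithin_le_nhds ((continuous_const.mul continuous_id).continuousAt.eventually_le_const
    (f := fun e : ℝ => M * e) (by simpa using hη))

theorem nlb {x y : ℂ} {a b : ℝ} (hx : a ≤ ‖x‖) (hy : ‖y‖ ≤ b) : a - b ≤ ‖x + y‖ := by
  linarith [norm_le_add_norm_add x y]

/-- after the encounter the light bodies follow two Kepler arcs -/
theorem half (hc : 0 < c) (S : ℝ) {δ : ℝ} (hδ : 0 < δ) : ∀ᶠ e in 𝓝[>] (0 : ℝ),
    ∀ (r s u v σ τ : ℝ → ℂ) (a b w : ℂ), Kep 1 c r u a → Kep 1 c s v b → Kep 2 c σ τ w →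
    s 0 = r 0 → u 0 - v 0 = w → (∀ t, 0 ≤ t → c * t ≤ ‖r t - s t‖) → ‖σ 0‖ ≤ S →
    ∃ q p B, Esc (c / 8) (e ^ 2) q p B ∧
      q 0 = (r 0 + (e ^ 2 / 2) • σ 0, r 0 - (e ^ 2 / 2) • σ 0) ∧
      p 0 = (u 0 + (1 / 2 : ℝ) • (τ 0 - w), v 0 - (1 / 2 : ℝ) • (τ 0 - w)) ∧ ‖B - (a, b)‖ ≤ δ := by
  obtain ⟨K, hK⟩ : ∃ K, K = 2 / c ^ 2 := ⟨_, rfl⟩
  obtain ⟨A, hA⟩ : ∃ A, A = S + 2 * K := ⟨_, rfl⟩
  obtain ⟨γ, hγ⟩ : ∃ γ, γ = c / 8 := ⟨_, rfl⟩
  obtain ⟨C, hC⟩ : ∃ C, C = 2 * A / γ ^ 3 + 2 / γ ^ 2 + 8 * K / γ ^ 3 := ⟨_, rfl⟩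
  have hK0 : 0 < K := by rw [hK]; positivity
  have hγ0 : 0 < γ := by rw [hγ]; positivity
  filter_upwards [self_mem_nhdsWithin, small 1 one_pos, small A (half_pos hc),
    small ((c + A) * K) (show 0 < 3 / 8 * c ^ 2 by positivity),
    small (4 * C * Real.exp (2 * (2 * (12 / γ ^ 3)))) (lt_min (half_pos hγ0) hδ)]
    with e (he : 0 < e) e1 e2 e3 e4 r s u v σ τ a b w hr hs hσ h0 hw hsep hS
  have hA0 : 0 < A := by linarith [norm_nonneg (σ 0)]
  have hε : 0 < e ^ 2 := by positivity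
  have hε1 : e ^ 2 ≤ 1 := by nlinarith
  rw [← hγ]
  have P : ∀ t, 0 ≤ t → ∃ p, p = √(e ^ 2 + t) ∧ e ^ 2 + t = p ^ 2 ∧ e ≤ p ∧ p ≤ 1 + t := fun t ht =>
    ⟨_, rfl, (Real.sq_sqrt (by positivity)).symm, Real.le_sqrt_of_sq_le (by linarith),
      Real.sqrt_le_iff.2 ⟨by linarith, by nlinarith⟩⟩
  have hl : ∀ t : ℝ, HasDerivAt (fun t : ℝ => t / e ^ 2) (1 / e ^ 2) t := fun t =>
    (hasDerivAt_id' t).div_const _
  let ρ : ℝ → ℂ := fun t => e ^ 2 • σ (t / e ^ 2)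
  let k : ℝ → ℂ := fun t => ρ t - t • w
  let k' : ℝ → ℂ := fun t => τ (t / e ^ 2) - w
  have dρ : ∀ t, 0 ≤ t → HasDerivAt ρ (τ (t / e ^ 2)) t := fun t ht =>
    (((hσ.sol _ (by positivity)).1.scomp t (hl t)).fun_const_smul (e ^ 2)).congr_deriv (by
      rw [smul_smul, mul_one_div_cancel hε.ne', one_smul])
  have dk : ∀ t, 0 ≤ t → HasDerivAt k (k' t) t := fun t ht =>
    ((dρ t ht).fun_sub ((hasDerivAt_id' t).smul_const w)).congr_deriv (by simp [k'])
  have dk' : ∀ t, 0 ≤ t → HasDerivAt k' ((-2 * e ^ 2) • g (ρ t)) t := fun t ht =>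
    (((hσ.sol _ (by positivity)).2.scomp t (hl t)).sub_const w).congr_deriv (by
      simp only [ρ, g_smul hε, smul_smul]
      congr 1
      field_simp)
  have bρ : ∀ t, 0 ≤ t → c * (e ^ 2 + t) ≤ ‖ρ t‖ := fun t ht => by
    have := mul_le_mul_of_nonneg_left (hσ.lb (t / e ^ 2) (by positivity)) hε.le
    rw [norm_smul, Real.norm_of_nonneg hε.le]
    exact le_trans (le_of_eq (by field_simp)) this
  have bk : ∀ t, 0 ≤ t → ‖k t‖ ≤ A * e * √(e ^ 2 + t) := fun t ht => by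
    have h1 := fence (B := fun t => 2 * K * e * √(e ^ 2 + t)) ht (fun y hy => dk y hy.1)
      (fun y hy => (dsq (by linarith [hy.1])).const_mul _) fun y hy => by
        obtain ⟨p, hp, p1, p2, -⟩ := P y hy.1
        have hp0 := he.trans_le p2
        refine (hσ.vel hc zero_le_two (t := y / e ^ 2) (div_nonneg hy.1 hε.le)).2.trans ?_
        rw [← hp, ← hK, show 1 + y / e ^ 2 = p ^ 2 / e ^ 2 by rw [← p1]; field_simp]
        calc _ = K * e * (e / p ^ 2) := by field_simp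
          _ ≤ K * e * (p / p ^ 2) := by gcongr
          _ = _ := by field_simp
    obtain ⟨p, hp, p1, p2, -⟩ := P t ht
    have h2 : ‖k 0‖ ≤ e ^ 2 * S := by
      simpa [k, ρ, norm_smul, -Complex.real_smul] using mul_le_mul_of_nonneg_left hS hε.le
    have h3 := norm_le_insert' (k t) (k 0)
    have h4 : 0 ≤ 2 * K * e * √(e ^ 2 + 0) := by positivity
    rw [← hp] at h1 ⊢
    rw [hA]
    linarith [mul_le_mul_of_nonneg_left p2 (mul_nonneg he.le ((norm_nonneg _).trans hS))]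
  have bd : ∀ t, 0 ≤ t → ‖r t - s t - t • w‖ ≤ K * √(e ^ 2 + t) ^ 3 := fun t ht => by
    obtain ⟨p, hp, p1, p2, -⟩ := P t ht
    have hp0 := he.trans_le p2
    have h1 := fence_lin (u := fun t => r t - s t - t • w) (C := K * p) ht (fun y hy =>
      ((hr.sol y hy.1).1.fun_sub (hs.sol y hy.1).1).fun_sub ((hasDerivAt_id' y).smul_const w))
      fun y hy => by
        have h2 : y / (1 + y) ≤ p := by
          rw [div_le_iff₀ (by linarith [hy.1])]
          rcases le_total p 1 with h | h <;> nlinarith [hy.1, hy.2]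
        have h3 := norm_sub_le_of_le (hr.vel hc zero_le_one hy.1).1 (hs.vel hc zero_le_one hy.1).1
        rw [sub_sub_sub_comm, hw, ← add_mul, ← add_div, one_add_one_eq_two, ← hK] at h3
        rw [one_smul]
        exact h3.trans (by gcongr)
    simp only [h0, sub_self, zero_smul, sub_zero] at h1
    rw [← hp]
    nlinarith [mul_pos hK0 hp0]
  have hh : ∀ x : ℂ, ‖(1 / 2 : ℝ) • x‖ = ‖x‖ / 2 := fun x => by
    rw [norm_smul, Real.norm_of_nonneg (by norm_num)]; ring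
  have bk2 : ∀ t, 0 ≤ t → ‖(1 / 2 : ℝ) • k t‖ ≤ 2 * γ * (1 + t) := fun t ht => by
    obtain ⟨p, hp, p1, p2, p3⟩ := P t ht
    have := bk t ht
    rw [← hp] at this
    rw [hh, hγ]
    nlinarith [mul_le_mul e2 p3 (he.le.trans p2) (half_pos hc).le]
  have eXY : ∀ t, r t + (1 / 2 : ℝ) • k t - (s t - (1 / 2 : ℝ) • k t) =
      ρ t + (r t - s t - t • w) := fun t => by simp only [k]; module
  have bXY : ∀ t, 0 ≤ t → 2 * γ * (e ^ 2 + t) ≤ ‖ρ t + (r t - s t - t • w)‖ := fun t ht => by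
    obtain ⟨p, hp, p1, p2, p3⟩ := P t ht
    have hp0 := he.trans_le p2
    rcases le_total (K * p) (c / 2) with h | h
    · have := nlb (bρ t ht) (bd t ht)
      rw [← hp, p1] at this
      rw [p1, hγ]
      nlinarith [mul_le_mul_of_nonneg_right h (sq_nonneg p), mul_pos hc (pow_pos hp0 2)]
    · have := nlb (hsep t ht) (bk t ht)
      rw [← hp, show r t - s t + k t = ρ t + (r t - s t - t • w) by simp only [k]; abel] at this
      have h2 : (c + A) * e ≤ 3 / 4 * c * p := le_of_mul_le_mul_left (by nlinarith) hK0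
      rw [p1, hγ]
      nlinarith [mul_le_mul_of_nonneg_right h2 hp0.le,
        mul_le_mul_of_nonneg_left p2 (mul_pos hc he).le]
  have tube : ∀ t, 0 ≤ t → ∀ η : ℂ × ℂ, ‖η‖ ≤ γ / 2 * (t + e ^ 2) →
      (r t + (1 / 2 : ℝ) • k t, s t - (1 / 2 : ℝ) • k t) + η ∈ Sep γ (e ^ 2) t := fun t ht η hη => by
    have b1 := (norm_fst_le η).trans hη
    have b2 := (norm_snd_le η).trans hη
    have h1 := nlb (nlb (hr.lb t ht) (bk2 t ht)) b1
    have h2 := nlb (nlb (hs.lb t ht) ((norm_neg _).trans_le (bk2 t ht))) b2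
    have h3 := nlb (bXY t ht) (norm_sub_le_of_le b1 b2)
    have h4 := mul_le_mul_of_nonneg_left hε1 hγ0.le
    have h5 := mul_nonneg hγ0.le ht
    rw [show c = 8 * γ by linarith] at h1 h2
    refine ⟨le_trans (by linarith) h1, le_trans (by linarith) (h2.trans_eq ?_),
      le_trans (by linarith) (h3.trans_eq ?_)⟩
    · simp [sub_eq_add_neg]
    · rw [← eXY]; congr 1; simp only [Prod.fst_add, Prod.snd_add]; abel
  have hC0 : 0 < C := by rw [hC]; positivity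
  have cg : ∀ {x x' : ℝ → ℂ}, (∀ t, 0 ≤ t → HasDerivAt x (x' t) t) → (∀ t, 0 ≤ t → 0 < ‖x t‖) →
      ContinuousOn (fun t => g (x t)) (Ici 0) := fun h h' => g_cont.comp
    (fun t ht => (h t ht).continuousAt.continuousWithinAt) fun t ht => norm_pos_iff.1 (h' t ht)
  have c1 := cg (fun t ht => (hr.sol t ht).1) fun t ht => lt_of_lt_of_le (by positivity) (hr.lb t ht)
  have c2 := cg (fun t ht => (hs.sol t ht).1) fun t ht => lt_of_lt_of_le (by positivity) (hs.lb t ht)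
  have c3 := cg dρ fun t ht => lt_of_lt_of_le (by positivity) (bρ t ht)
  obtain ⟨q, p, hq, q0, p0, hb⟩ := shadow (F := Fe (e ^ 2))
    (O := {x | x.1 ≠ 0 ∧ x.2 ≠ 0 ∧ x.1 - x.2 ≠ 0}) (ρ := γ / 2)
    (Q := fun t => (r t + (1 / 2 : ℝ) • k t, s t - (1 / 2 : ℝ) • k t))
    (V := fun t => (u t + (1 / 2 : ℝ) • k' t, v t - (1 / 2 : ℝ) • k' t)) hε
    (Wt.comb (C := 12 / γ ^ 3) (by positivity) (wt_one one_pos) (wt_one hε))
    (Wt.comb (C := C * e) (by positivity) (wt_one one_pos) (wt_sq he))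
    (by
      have a1 : ContinuousOn (fun x : ℂ × ℂ => g x.1) {x | x.1 ≠ 0 ∧ x.2 ≠ 0 ∧ x.1 - x.2 ≠ 0} :=
        g_cont.comp continuousOn_fst fun x hx => hx.1
      have a2 : ContinuousOn (fun x : ℂ × ℂ => g x.2) {x | x.1 ≠ 0 ∧ x.2 ≠ 0 ∧ x.1 - x.2 ≠ 0} :=
        g_cont.comp continuousOn_snd fun x hx => hx.2.1
      have a3 : ContinuousOn (fun x : ℂ × ℂ => g (x.1 - x.2))
          {x | x.1 ≠ 0 ∧ x.2 ≠ 0 ∧ x.1 - x.2 ≠ 0} :=
        g_cont.comp (continuousOn_fst.sub continuousOn_snd) fun x hx => hx.2.2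
      unfold Fe
      fun_prop)
    (fun t ht x hx => ⟨norm_pos_iff.1 (lt_of_lt_of_le (by positivity) hx.1),
      norm_pos_iff.1 (lt_of_lt_of_le (by positivity) hx.2.1),
      norm_pos_iff.1 (lt_of_lt_of_le (by positivity) hx.2.2)⟩)
    (fun t ht x hx y hy => Fe_lip hγ0 hε hε1 ht hx hy)
    (fun t ht => ((hr.sol t ht).1.fun_add ((dk t ht).fun_const_smul _)).prodMk
      ((hs.sol t ht).1.fun_sub ((dk t ht).fun_const_smul _)))
    (fun t ht => ((hr.sol t ht).2.fun_add ((dk' t ht).fun_const_smul _)).prodMk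
      ((hs.sol t ht).2.fun_sub ((dk' t ht).fun_const_smul _)))
    (by fun_prop) tube (fun t ht => by
      obtain ⟨p, hp, p1, p2, p3⟩ := P t ht
      have hp0 := he.trans_le p2
      obtain ⟨m1, m2, m3⟩ := tube t ht 0 (by rw [norm_zero]; positivity)
      rw [add_zero] at m1 m2 m3
      have h8 : γ * (1 + t) ≤ c * (1 + t) := by gcongr; linarith
      have a1 := g_lip (by positivity) m1 (h8.trans (hr.lb t ht))
      have a2 := g_lip (by positivity) m2 (h8.trans (hs.lb t ht))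
      have a3 := g_lip (by positivity) m3
        ((show γ * (e ^ 2 + t) ≤ _ by gcongr; linarith).trans (bρ t ht))
      have a4 := g_norm (by positivity) m1
      have a5 := g_norm (by positivity) m2
      simp only [add_sub_cancel_left, sub_sub_cancel_left, norm_neg, hh] at a1 a2 a4 a5
      simp only [] at a3
      nth_rewrite 2 [eXY] at a3
      rw [add_sub_cancel_left, p1] at a3
      have b1 := bk t ht
      have b2 := bd t ht
      rw [← hp] at b1 b2 ⊢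
      have key : ∀ {x₁ x₂ x₃ x₄ : ℂ}, ‖x₁‖ ≤ 4 / (γ * (1 + t)) ^ 3 * (‖k t‖ / 2) →
          ‖x₂‖ ≤ 1 / (γ * (1 + t)) ^ 2 → ‖x₃‖ ≤ 1 / (γ * (1 + t)) ^ 2 →
          ‖x₄‖ ≤ 4 / (γ * p ^ 2) ^ 3 * ‖r t - s t - t • w‖ →
          ‖-x₁ - e ^ 2 • x₂ - e ^ 2 • x₃ - e ^ 2 • x₄‖ ≤
            C * e * (1 / (1 + t) ^ 2 + e / (2 * p ^ 3)) := by
        intro x₁ x₂ x₃ x₄ h1 h2 h3 h4
        have f1 : ‖-x₁‖ ≤ 2 * A / γ ^ 3 * e * (1 / (1 + t) ^ 2) := by
          rw [norm_neg]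
          calc _ ≤ 4 / (γ * (1 + t)) ^ 3 * (A * e * (1 + t) / 2) :=
                h1.trans (by gcongr; exact b1.trans (by gcongr))
            _ = _ := by field_simp; ring
        have f2 : ∀ {x : ℂ}, ‖x‖ ≤ 1 / (γ * (1 + t)) ^ 2 →
            ‖e ^ 2 • x‖ ≤ 1 / γ ^ 2 * e * (1 / (1 + t) ^ 2) := fun h => by
          rw [norm_smul, Real.norm_of_nonneg hε.le]
          calc _ ≤ e * (1 / (γ * (1 + t)) ^ 2) := by gcongr; nlinarith
            _ = _ := by field_simp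
        have f3 : ‖e ^ 2 • x₄‖ ≤ 8 * K / γ ^ 3 * e * (e / (2 * p ^ 3)) := by
          rw [norm_smul, Real.norm_of_nonneg hε.le]
          calc _ ≤ e ^ 2 * (4 / (γ * p ^ 2) ^ 3 * (K * p ^ 3)) := by
                gcongr; exact h4.trans (by gcongr)
            _ = _ := by field_simp; ring
        refine (norm_sub_le_of_le (norm_sub_le_of_le (norm_sub_le_of_le f1 (f2 h2)) (f2 h3))
          f3).trans ?_
        have g1 : 0 ≤ 8 * K / γ ^ 3 * e * (1 / (1 + t) ^ 2) := by positivity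
        have g2 : 0 ≤ (2 * A / γ ^ 3 + 2 / γ ^ 2) * e * (e / (2 * p ^ 3)) := by positivity
        rw [hC]
        ring_nf at g1 g2 ⊢
        linarith
      refine norm_prod_le_iff.2 ⟨le_trans (le_of_eq ?_) (key a1 a4 a5 a3),
        le_trans (le_of_eq ?_) (key a2 a5 a4 ((norm_neg _).trans_le a3))⟩ <;>
        congr 1 <;> simp only [Fe, Prod.fst_sub, Prod.snd_sub] <;> module)
    (le_trans (le_of_eq (by ring)) (e4.trans (min_le_left _ _)))
  obtain ⟨B, hB⟩ := (exists_lim hε (fun t ht => (hq t ht).2)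
    fun t ht => Fe_norm hγ0 hε hε1 ht (hb t ht).1).2
  refine ⟨q, p, B, ⟨hq, fun t ht => (hb t ht).1, hB⟩, ?_, ?_, ?_⟩
  · rw [q0, h0]; simp only [k, ρ, zero_div, zero_smul, sub_zero, smul_smul]; ring_nf
  · rw [p0]; simp only [k', zero_div]
  · have l1 : Tendsto (fun t => (1 / 2 : ℝ) • k' t) atTop (𝓝 0) := by
      simpa using ((hσ.lim.comp (tendsto_id.atTop_div_const hε)).sub_const w).const_smul (1 / 2 : ℝ)
    have l2 := (hB.sub ((hr.lim.add l1).prodMk_nhds (hs.lim.sub l1))).norm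
    rw [add_zero, sub_zero] at l2
    exact le_of_tendsto l2 ((eventually_ge_atTop 0).mono fun t ht => (hb t ht).2.trans
      (le_trans (le_of_eq (by ring)) (e4.trans (min_le_right _ _))))

end Pool.Agent.Lib.MP_e310f3_mp.Pl
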