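import Pool.Agent.Lib.MP_e310f3_mp.PlA

/-! The action functions of the Kepler problem, and arcs that do not meet again. -/

set_option autoImplicit false

namespace Pool.Agent.Lib.MP_e310f3_mp.Pl

open Set Filter Topology Complex ComplexConjugate

def dot (a b : ℂ) : ℝ := a.re * b.re + a.im * b.im
def crs (a b : ℂ) : ℝ := a.re * b.im - a.im * b.re
noncomputable def mu (ν z : ℂ) : ℝ := dot ν z + √(dot ν z ^ 2 + 2 / normSq ν)

/-- the momentum at `z` of the arc escaping with velocity `ν ^ 2` -/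
noncomputable def PV (ν z : ℂ) : ℂ := mu ν z • ν - normSq ν • z
noncomputable def GG (k ρ : ℝ) : ℝ := ∫ y in (0 : ℝ)..ρ, 2 * √(y ^ 2 + 2 / k)

/-- the action -/
noncomputable def WW (ν z : ℂ) : ℝ := crs ν z ^ 2 - GG (normSq ν) (dot ν z)

variable {ν z : ℂ}

theorem mu_pos (hν : ν ≠ 0) (z : ℂ) : 0 < mu ν z := by
  have : 0 < 2 / normSq ν := div_pos two_pos (normSq_pos.2 hν)
  have := Real.lt_sqrt_of_sq_lt (x := -dot ν z) (y := dot ν z ^ 2 + 2 / normSq ν) (by linarith)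
  unfold mu; linarith

theorem mu_sq (hν : ν ≠ 0) (z : ℂ) : normSq ν * (mu ν z * (mu ν z - 2 * dot ν z)) = 2 := by
  have h := normSq_pos.2 hν
  have := Real.sq_sqrt (show 0 ≤ dot ν z ^ 2 + 2 / normSq ν by positivity)
  rw [show mu ν z * (mu ν z - 2 * dot ν z) = 2 / normSq ν by unfold mu; linarith]
  field_simp

theorem nsq_PV (hν : ν ≠ 0) (z : ℂ) : normSq (PV ν z) = normSq ν ^ 2 * normSq z + 2 := by
  have := mu_sq hν z
  simp only [PV, dot, normSq_apply, sub_re, sub_im, smul_re, smul_im, smul_eq_mul] at this ⊢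
  linear_combination this

theorem GG_d (k ρ : ℝ) : HasDerivAt (GG k) (2 * √(ρ ^ 2 + 2 / k)) ρ :=
  (Continuous.integral_hasStrictDerivAt (f := fun y => 2 * √(y ^ 2 + 2 / k)) (by fun_prop)
    0 ρ).hasDerivAt

theorem dre {Z : ℝ → ℂ} {Z' : ℂ} {t : ℝ} (h : HasDerivAt Z Z' t) :
    HasDerivAt (fun t => (Z t).re) Z'.re t := reCLM.hasFDerivAt.comp_hasDerivAt t h

theorem dim {Z : ℝ → ℂ} {Z' : ℂ} {t : ℝ} (h : HasDerivAt Z Z' t) :
    HasDerivAt (fun t => (Z t).im) Z'.im t := imCLM.hasFDerivAt.comp_hasDerivAt t h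

theorem WW_d (ν : ℂ) {Z : ℝ → ℂ} {Z' : ℂ} {t : ℝ} (h : HasDerivAt Z Z' t) :
    HasDerivAt (fun t => WW ν (Z t)) (-2 * dot (PV ν (Z t)) Z') t :=
  (((((dim h).const_mul ν.re).fun_sub ((dre h).const_mul ν.im)).fun_pow 2).fun_sub
    ((GG_d (normSq ν) _).comp t (((dre h).const_mul ν.re).fun_add
      ((dim h).const_mul ν.im)))).congr_deriv (by
    simp only [PV, mu, dot, normSq_apply, sub_re, sub_im, smul_re, smul_im, smul_eq_mul]
    norm_num
    ring)

theorem WW_lb (hν : ν ≠ 0) (z : ℂ) :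
    normSq ν * normSq z - 2 * max (dot ν z) 0 ^ 2 - 3 * (normSq ν)⁻¹ * |dot ν z| - |dot ν z| ≤
      WW ν z := by
  have hk := normSq_pos.2 hν
  have e : crs ν z ^ 2 = normSq ν * normSq z - dot ν z ^ 2 := by
    simp only [crs, dot, normSq_apply]; ring
  have h0 : GG (normSq ν) 0 = 0 := by simp [GG]
  have hi := inv_pos.2 hk
  rw [WW, e]
  rcases le_total 0 (dot ν z) with h | h
  · have := fence (B := fun y => y ^ 2 + (3 * (normSq ν)⁻¹ + 1) * y) h
      (fun y _ => GG_d (normSq ν) y) (fun y _ => ((hasDerivAt_id' y).fun_pow 2).fun_add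
        ((hasDerivAt_id' y).const_mul _)) fun y hy => by
        rw [Real.norm_of_nonneg (by positivity)]
        have : √(y ^ 2 + 2 / normSq ν) ≤ y + (3 * (normSq ν)⁻¹ + 1) / 2 :=
          Real.sqrt_le_iff.2 ⟨by linarith [hy.1], by
            rw [div_eq_mul_inv 2]; nlinarith [hy.1, sq_nonneg (3 * (normSq ν)⁻¹ - 1)]⟩
        norm_num
        linarith
    rw [h0, sub_zero] at this
    rw [max_eq_left h, abs_of_nonneg h]
    linarith [le_abs_self (GG (normSq ν) (dot ν z)), Real.norm_eq_abs (GG (normSq ν) (dot ν z))]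
  · have := fence (u := fun y => y ^ 2) h (fun y _ => (hasDerivAt_id' y).fun_pow 2)
      (fun y _ => GG_d (normSq ν) y) fun y hy => by
        have := Real.abs_le_sqrt (x := y) (y := y ^ 2 + 2 / normSq ν)
          (le_add_of_nonneg_right (by positivity))
        simpa using this
    rw [h0, norm_sub_rev, Real.norm_of_nonneg (by simpa using sq_nonneg _)] at this
    rw [max_eq_right h]
    nlinarith [abs_nonneg (dot ν z)]

variable {α β α' β' : ℂ} {k l : ℝ}

theorem arc_PV (hν : ν ≠ 0) (hl : 0 < l) (hD : 2 * normSq ν ^ 2 * (l • ν * conj β).re = -1)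
    (s : ℝ) : normSq ν • Zd (l • ν) β s = PV ν (Zf (l • ν) β s) := by
  have hk := normSq_pos.2 hν
  have h1 : normSq ν * (l * dot ν β) * (2 * normSq ν) = -1 := by
    simp only [dot, mul_re, smul_re, smul_im, conj_re, conj_im, smul_eq_mul] at hD ⊢
    linear_combination hD
  have h2 : dot ν β < 0 := by
    by_contra h
    have : 0 ≤ normSq ν * (l * dot ν β) * (2 * normSq ν) := by have := not_lt.1 h; positivity
    linarith
  have h3 : dot ν (Zf (l • ν) β s) = Real.exp s * l * normSq ν + Real.exp (-s) * dot ν β := by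
    simp only [dot, Zf, normSq_apply, add_re, add_im, smul_re, smul_im, smul_eq_mul]; ring
  have h4 : mu ν (Zf (l • ν) β s) = 2 * Real.exp s * l * normSq ν := by
    rw [mu, h3, show (Real.exp s * l * normSq ν + Real.exp (-s) * dot ν β) ^ 2 + 2 / normSq ν =
      (Real.exp s * l * normSq ν - Real.exp (-s) * dot ν β) ^ 2 by
        field_simp
        linear_combination (2 : ℝ) * h1 + (4 * normSq ν ^ 2 * l * dot ν β) * exp_mul_neg s,
      Real.sqrt_sq (by
        have := mul_pos (Real.exp_pos (-s)) (neg_pos.2 h2)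
        have : 0 < Real.exp s * l * normSq ν := by positivity
        linarith)]
    ring
  rw [PV, h4, Zd, Zf]
  module

/-- two arcs from the same point do not meet again on the same sheet -/
theorem calib {ν ν' : ℂ} {l' : ℝ} {σ σ' : ℝ → ℝ} (hν : ν ≠ 0) (hν' : ν' ≠ 0) (hl : 0 < l)
    (hl' : 0 < l') (hD : 2 * normSq ν ^ 2 * (l • ν * conj β).re = -1)
    (hD' : 2 * normSq ν' ^ 2 * (l' • ν' * conj β').re = -1) (hI : (l • ν * conj β).im ≠ 0)
    (hI' : (l' • ν' * conj β').im ≠ 0) (h : Arc (l • ν) β (normSq ν) σ)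
    (h' : Arc (l' • ν') β' (normSq ν') σ') (e : l • ν + β = l' • ν' + β') {T : ℝ} (hT : 0 < T)
    (eT : Zf (l • ν) β (σ T) = Zf (l' • ν') β' (σ' T)) :
    PV ν (l • ν + β) = PV ν' (l • ν + β) := by
  let Z := fun t => Zf (l • ν) β (σ t)
  let Y := fun t => Zf (l' • ν') β' (σ' t)
  have key : ∀ {a b x : ℂ}, a ≠ 0 → b ≠ 0 → x ≠ 0 →
      -2 * dot (PV b x) ((2 * normSq x)⁻¹ • PV a x) - -2 * dot (PV a x) ((2 * normSq x)⁻¹ • PV a x)
        = normSq (PV a x - PV b x) / (2 * normSq x) + (normSq a ^ 2 - normSq b ^ 2) / 2 := by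
    intro a b x ha hb hx
    have h1 := nsq_PV ha x
    have h2 := nsq_PV hb x
    have h3 := normSq_pos.2 hx
    generalize PV a x = p at *
    generalize PV b x = q at *
    generalize normSq x = n at *
    simp only [dot, normSq_apply p, normSq_apply q, normSq_apply (p - q), sub_re, sub_im, smul_re,
      smul_im, smul_eq_mul] at *
    field_simp
    linear_combination h1 - h2
  have dZ : ∀ t, HasDerivAt Z ((2 * normSq (Z t))⁻¹ • PV ν (Z t)) t := fun t =>
    (h.dZ t).congr_deriv (by rw [← arc_PV hν hl hD, smul_smul, div_eq_inv_mul])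
  have dY : ∀ t, HasDerivAt Y ((2 * normSq (Y t))⁻¹ • PV ν' (Y t)) t := fun t =>
    (h'.dZ t).congr_deriv (by rw [← arc_PV hν' hl' hD', smul_smul, div_eq_inv_mul])
  have dE : ∀ t, HasDerivAt (fun t => WW ν' (Z t) - WW ν (Z t) + (WW ν (Y t) - WW ν' (Y t)))
      (normSq (PV ν (Z t) - PV ν' (Z t)) / (2 * normSq (Z t)) +
        normSq (PV ν' (Y t) - PV ν (Y t)) / (2 * normSq (Y t))) t := fun t =>
    (((WW_d ν' (dZ t)).fun_sub (WW_d ν (dZ t))).fun_add
      ((WW_d ν (dY t)).fun_sub (WW_d ν' (dY t)))).congr_deriv (by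
        rw [key hν hν' (Zf_ne hI _), key hν' hν (Zf_ne hI' _)]; ring)
  have nn : ∀ a b : ℂ, 0 ≤ normSq a / (2 * normSq b) := fun a b =>
    div_nonneg (normSq_nonneg _) (by linarith [normSq_nonneg b])
  have hm := monotone_of_hasDerivAt_nonneg dE fun t => add_nonneg (nn _ _) (nn _ _)
  have Z0 : Z 0 = l • ν + β := by simp only [Z, h.z, Zf_zero]
  have Y0 : Y 0 = l • ν + β := by simp only [Y, h'.z, Zf_zero, e]
  have h1 := ((dE 0).hasDerivWithinAt (s := Icc 0 T)).congr (f₁ := fun _ => 0) (fun t ht => by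
    have a1 := hm ht.1
    have a2 := hm ht.2
    simp only [Z0, Y0, show Z T = Y T from eT] at a1 a2
    linarith) (by simp [Z0, Y0])
  have h2 := (uniqueDiffOn_Icc hT 0 (left_mem_Icc.2 hT.le)).eq_deriv _ h1
    (hasDerivWithinAt_const _ _ _)
  have h3 := (add_eq_zero_iff_of_nonneg (nn _ _) (nn _ _)).1 h2
  have h4 : 0 < normSq (Z 0) := Zf_pos hI _
  rw [← Z0, ← sub_eq_zero, ← normSq_eq_zero]
  exact (div_eq_zero_iff.1 h3.1).resolve_right (by linarith)

theorem Zf_alt (α β : ℂ) (s : ℝ) :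
    Zf α β s = Real.exp (-s) • (α + β) + (Real.exp s - Real.exp (-s)) • α := by
  rw [Zf]; module

theorem exp_sub_pos {s : ℝ} (hs : 0 < s) : 0 < Real.exp s - Real.exp (-s) :=
  sub_pos.2 (Real.exp_lt_exp.2 (by linarith))

/-- meeting on opposite sheets forces the starting point into a cone -/
theorem opp_cone (e : α + β = α' + β') {s s' : ℝ} (hs : 0 < s) (hs' : 0 < s')
    (h : Zf α β s = -Zf α' β' s') : ∃ p q : ℝ, 0 < p ∧ 0 < q ∧ α + β = -(p • α) - q • α' := by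
  have h0 : 0 < Real.exp (-s) + Real.exp (-s') := by positivity
  refine ⟨_, _, div_pos (exp_sub_pos hs) h0, div_pos (exp_sub_pos hs') h0, ?_⟩
  rw [Zf_alt, Zf_alt, ← e] at h
  refine smul_right_injective _ h0.ne' ?_
  simp only [smul_sub, smul_neg, smul_smul, mul_div_cancel₀ _ h0.ne']
  linear_combination (norm := module) h

/-- meeting on opposite sheets at equal energies -/
theorem opp_eq (e : α + β = α' + β') (hD : 2 * (α * conj β).re = -1)
    (hD' : 2 * (α' * conj β').re = -1) {s s' : ℝ} (hs : 0 < s)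
    (h : Zf α β s = -Zf α' β' s') (hT : Tm α β 1 s = Tm α' β' 1 s') :
    normSq α = normSq α' ∧ ∃ p : ℝ, α + β = p • (α + α') := by
  have key : ∀ {α β : ℂ} (s : ℝ), 2 * (α * conj β).re = -1 →
      normSq (α + β) + normSq (Zf α β s) =
        2 * Real.sinh s ^ 2 + 2 * dot (α + β) (Zf α β s) * Real.cosh s ∧
      Tm α β 1 s = 2 * (Real.sinh s * Real.cosh s - s) +
        2 * dot (α + β) (Zf α β s) * Real.sinh s := by
    intro α β s hD
    have := exp_mul_neg s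
    simp only [Real.sinh_eq, Real.cosh_eq, Tm, Zf, dot, normSq_apply, add_re, add_im, smul_re,
      smul_im, smul_eq_mul, mul_re, conj_re, conj_im] at hD ⊢
    generalize Real.exp s = E at *
    generalize Real.exp (-s) = F at *
    constructor
    · linear_combination (-(E - F) ^ 2 / 2) * hD +
        (-(α.re ^ 2 + α.im ^ 2 + β.re ^ 2 + β.im ^ 2) - 2 * (α.re * β.re + α.im * β.im)) * this
    · linear_combination (2 * s - (E ^ 2 - F ^ 2) / 2) * hD +
        ((α.re ^ 2 + α.im ^ 2 - β.re ^ 2 - β.im ^ 2)) * this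
  obtain ⟨a1, a2⟩ := key s hD
  obtain ⟨b1, b2⟩ := key s' hD'
  have e1 : dot (α' + β') (Zf α' β' s') = -dot (α + β) (Zf α β s) := by simp [h, e, dot]; ring
  rw [e1] at b1 b2
  rw [← e, ← normSq_neg (Zf α' β' s'), ← h, a1] at b1
  rw [a2, b2] at hT
  generalize hp : dot (α + β) (Zf α β s) = p at *
  have c1 : p = Real.cosh s' - Real.cosh s := by
    refine mul_right_cancel₀ (add_pos (Real.cosh_pos s) (Real.cosh_pos s')).ne' ?_
    linear_combination b1 / 2 - Real.cosh_sq s' + Real.cosh_sq s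
  have c2 : Real.sinh (s' - s) = s' - s := by
    rw [Real.sinh_sub]
    linear_combination (Real.sinh s + Real.sinh s') * c1 - hT / 2
  have c3 : s' = s := by
    rcases lt_trichotomy (s' - s) 0 with h | h | h
    · linarith [Real.sinh_lt_self_iff.2 h]
    · linarith
    · linarith [Real.self_lt_sinh_iff.2 h]
  subst c3
  have hE := exp_sub_pos hs
  have hF := Real.exp_pos (-s')
  rw [sub_self] at c1
  rw [c1, Zf_alt] at hp
  rw [Zf_alt, Zf_alt, ← e] at h
  generalize α + β = z at *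
  generalize Real.exp s' - Real.exp (-s') = E at *
  generalize Real.exp (-s') = F at *
  have h1 := congrArg re h
  have h2 := congrArg im h
  refine ⟨mul_left_cancel₀ (pow_pos hE 2).ne' ?_, -E / (2 * F), smul_right_injective _ hF.ne' ?_⟩
  · simp only [dot, normSq_apply, add_re, add_im, neg_re, neg_im, smul_re, smul_im,
      smul_eq_mul] at *
    linear_combination (-4 * F) * hp + (E * α.re - E * α'.re + 2 * F * z.re) * h1 +
      (E * α.im - E * α'.im + 2 * F * z.im) * h2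
  · simp only [smul_smul, show F * (-E / (2 * F)) = -E / 2 by field_simp]
    linear_combination (norm := module) (1 / 2 : ℝ) • h

end Pool.Agent.Lib.MP_e310f3_mp.Pl

/-! Existence of an encounter point balancing four Kepler arcs. -/

set_option autoImplicit false

namespace Pool.Agent.Lib.MP_e310f3_mp.Pl

open Set Filter Topology Complex ComplexConjugate Metric

theorem WW_cont (ν : ℂ) : Continuous (WW ν) := by
  have : Continuous (GG (normSq ν)) := continuous_iff_continuousAt.2 fun y => (GG_d _ y).continuousAt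
  unfold WW crs dot
  fun_prop

theorem dot_sq (a b : ℂ) : dot a b ^ 2 ≤ normSq a * normSq b := by
  simp only [dot, normSq_apply]
  nlinarith [sq_nonneg (a.re * b.im - a.im * b.re)]

theorem WW_lb' {ν : ℂ} (hν : ν ≠ 0) : ∃ C, ∀ z,
    normSq ν * normSq z - 2 * max (dot ν z) 0 ^ 2 - C * ‖z‖ ≤ WW ν z := by
  refine ⟨(3 * (normSq ν)⁻¹ + 1) * ‖ν‖, fun z => le_trans ?_ (WW_lb hν z)⟩
  have h1 : |dot ν z| ≤ ‖ν‖ * ‖z‖ := abs_le_of_sq_le_sq' (by
    rw [mul_pow, Complex.sq_norm, Complex.sq_norm]; exact dot_sq ν z) (by positivity) |> abs_le.2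
  nlinarith [mul_le_mul_of_nonneg_left h1 (inv_pos.2 (normSq_pos.2 hν)).le]

theorem exists_zero {a b c d : ℂ} (ha : a ≠ 0) (hb : b ≠ 0) (hc : c ≠ 0) (hd : d ≠ 0) {m : ℝ}
    (hm : 0 < m) (h : ∀ z, 2 * (max (dot a z) 0 ^ 2 + max (dot b z) 0 ^ 2 + max (dot c z) 0 ^ 2 +
      max (dot d z) 0 ^ 2) ≤ (normSq a + normSq b + normSq c + normSq d - m) * normSq z) :
    ∃ z, PV a z + PV b z + PV c z + PV d z = 0 := by
  obtain ⟨A, hA⟩ := WW_lb' ha
  obtain ⟨B, hB⟩ := WW_lb' hb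
  obtain ⟨C, hC⟩ := WW_lb' hc
  obtain ⟨D, hD⟩ := WW_lb' hd
  obtain ⟨z, -, hz⟩ := (isCompact_closedBall (0 : ℂ) (|A + B + C + D| / m + 1)).exists_isMinOn
    ⟨0, mem_closedBall_self (by positivity)⟩ (f := fun z => WW a z + WW b z + WW c z + WW d z)
    ((((WW_cont a).add (WW_cont b)).add (WW_cont c)).add (WW_cont d)).continuousOn
  have h0 : WW a z + WW b z + WW c z + WW d z ≤ 0 := by
    simpa [WW, crs, dot, GG] using hz (mem_closedBall_self (by positivity))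
  have h1 : ‖z‖ < |A + B + C + D| / m + 1 := by
    have h2 : m * ‖z‖ ^ 2 ≤ |A + B + C + D| * ‖z‖ := by
      rw [Complex.sq_norm]
      linarith [hA z, hB z, hC z, hD z, h z,
        mul_le_mul_of_nonneg_right (le_abs_self (A + B + C + D)) (norm_nonneg z)]
    by_contra h3
    have h4 := not_lt.1 h3
    rw [← le_sub_iff_add_le, div_le_iff₀ hm] at h4
    have h5 : 0 < ‖z‖ := lt_of_lt_of_le (by positivity) (not_lt.1 h3)
    nlinarith [mul_pos hm h5]
  have h2 := hz.isLocalMin (closedBall_mem_nhds_of_mem (mem_ball_zero_iff.2 h1))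
  refine ⟨z, normSq_eq_zero.1 ?_⟩
  generalize hP : PV a z + PV b z + PV c z + PV d z = P
  have hl : HasDerivAt (fun t : ℝ => z + t • P) P 0 := by
    simpa using ((hasDerivAt_id' (0 : ℝ)).smul_const P).const_add z
  have h3 := IsLocalMin.hasDerivAt_eq_zero (IsLocalMin.comp_continuous (g := fun t : ℝ => z + t • P)
    (f := fun z => WW a z + WW b z + WW c z + WW d z) (b := 0) (by simpa using h2) hl.continuousAt)
    ((((WW_d a hl).fun_add (WW_d b hl)).fun_add (WW_d c hl)).fun_add (WW_d d hl))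
  rw [zero_smul, add_zero] at h3
  rw [normSq_apply]
  nth_rewrite 1 3 [← hP]
  simp only [dot, add_re, add_im] at h3 ⊢
  linarith

theorem sq_lt {x X : ℝ} (h0 : 0 < X) (h : X ^ 2 = x ^ 2 + 2) : x < X ∧ -x < X :=
  ⟨lt_of_pow_lt_pow_left₀ 2 h0.le (by linarith), lt_of_pow_lt_pow_left₀ 2 h0.le (by linarith)⟩

theorem no_cone {a b u v x y X Y M N k l p q : ℝ} (hb : 0 < b) (hab : b ≤ a)
    (hk : k = a ^ 2 + b ^ 2) (hl : 0 < l) (hk2 : k ^ 2 ≤ 2) (hp : 0 < p) (hq : 0 < q) (hN : 0 < N)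
    (hX : 0 < X) (hY : 0 < Y) (eX : X ^ 2 = x ^ 2 + 2) (eY : Y ^ 2 = y ^ 2 + 2)
    (hD : 0 < a * v - b * u) (hx : x = p * a - q * u) (hy : y = p * b - q * v)
    (hM : k * (M * (M + 2 * (a * x + b * y))) = 2)
    (e1 : X - x - M * a + N * u - (k + l) * x = 0)
    (e2 : Y - y - M * b + N * v - (k + l) * y = 0) : False := by
  have ha := hb.trans_le hab
  have hk0 : 0 < k := by rw [hk]; positivity
  obtain ⟨g2, g2'⟩ := sq_lt hX eX
  obtain ⟨g3, g3'⟩ := sq_lt hY eY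
  have f1 : b * x - a * y = q * (a * v - b * u) := by rw [hx, hy]; ring
  have g1 := mul_pos hq hD
  have g4 : Y - y < X - x := lt_of_mul_lt_mul_left (a := a) (by
    have h1 := mul_pos hN hD
    have h2 := mul_pos (add_pos hk0 hl) g1
    have h3 := mul_le_mul_of_nonneg_right hab (sub_pos.2 g2).le
    have : b * (X - x) - a * (Y - y) = N * (a * v - b * u) + (k + l) * (q * (a * v - b * u)) := by
      linear_combination b * e1 - a * e2 + (k + l) * f1
    linarith) ha.le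
  have g5 : x < y := by
    have h1 : (X - x) * (X + x) < (X - x) * (Y + y) := by
      linarith [mul_lt_mul_of_pos_right g4 (show 0 < Y + y by linarith)]
    linarith [lt_of_mul_lt_mul_left h1 (sub_pos.2 g2).le]
  have g6 : x < 0 := by
    by_contra hh
    linarith [mul_le_mul_of_nonneg_right hab (not_lt.1 hh), mul_lt_mul_of_pos_left g5 ha]
  have g7 : y < 0 := neg_of_mul_neg_left (b := a) (by linarith [mul_neg_of_pos_of_neg hb g6]) ha.le
  obtain ⟨ρ, hρ⟩ : ∃ ρ, ρ = -(a * x + b * y) := ⟨_, rfl⟩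
  have g8 : 0 < ρ := by linarith [mul_neg_of_pos_of_neg ha g6, mul_neg_of_pos_of_neg hb g7]
  have g9 : 0 < a * u + b * v := pos_of_mul_pos_left (b := q) (by
    have : (a * u + b * v) * q = ρ + p * k := by rw [hρ, hx, hy, hk]; ring
    linarith [mul_pos hp hk0]) hq.le
  have f4 : 0 < a * X + b * Y := by positivity
  have f5 : ρ ^ 2 + 2 * k ≤ (a * X + b * Y) ^ 2 := by
    have := mul_le_mul_of_nonneg_left (mul_le_mul g2'.le g3'.le (neg_pos.2 g7).le hX.le)
      (mul_pos ha hb).le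
    rw [hρ, hk]
    nlinarith
  have f6 : (k * (M - ρ)) ^ 2 = k ^ 2 * ρ ^ 2 + 2 * k := by
    rw [hρ]; linear_combination k * hM
  have f7 : ρ + (a * X + b * Y) < k * (M - ρ) := by
    have : ρ + (a * X + b * Y) = k * (M - ρ) - l * ρ - N * (a * u + b * v) := by
      rw [hρ]; linear_combination a * e1 + b * e2 - M * hk
    linarith [mul_pos hl g8, mul_pos hN g9]
  nlinarith [pow_lt_pow_left₀ f7 (add_pos g8 f4).le two_ne_zero, mul_pos g8 f4,
    mul_le_mul_of_nonneg_right hk2 (sq_nonneg ρ)]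

theorem core {c d : ℂ} (h1 : c.re ≤ c.im) (h2 : c.im < 0) (h3 : crs c d < 0)
    (h4 : normSq c ^ 2 + normSq d ^ 2 = 2) (h5 : normSq d < normSq c) :
    ∃ z, z ≠ 0 ∧ PV 1 z + PV I z + PV c z + PV d z = 0 ∧
      ∀ p q : ℝ, 0 < p → 0 < q → z ≠ -(p • c) - q • d := by
  have hc : c ≠ 0 := fun h => by simp [h] at h2
  have hd : d ≠ 0 := fun h => by simp [h, crs] at h3
  have k3 := normSq_pos.2 hc
  have k4 := normSq_pos.2 hd
  have k1 : 1 < normSq c := by nlinarith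
  obtain ⟨z, hz⟩ := exists_zero one_ne_zero I_ne_zero hc hd (m := 2 - normSq c - normSq d)
    (by nlinarith [sq_pos_of_pos (sub_pos.2 h5)]) fun z => by
      have a1 : max (dot d z) 0 ^ 2 ≤ normSq d * normSq z := by
        rcases le_total (dot d z) 0 with h | h
        · rw [max_eq_right h]; nlinarith [mul_nonneg k4.le (normSq_nonneg z)]
        · rw [max_eq_left h]; exact dot_sq d z
      have a2 : max (dot c z) 0 ^ 2 ≤ normSq c * (min z.re 0 ^ 2 + min z.im 0 ^ 2) := by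
        have b1 : max (dot c z) 0 ≤ c.re * min z.re 0 + c.im * min z.im 0 := max_le
          (add_le_add (mul_le_mul_of_nonpos_left (min_le_left _ _) (by linarith))
            (mul_le_mul_of_nonpos_left (min_le_left _ _) h2.le))
          (add_nonneg (mul_nonneg_of_nonpos_of_nonpos (by linarith) (min_le_right _ _))
            (mul_nonneg_of_nonpos_of_nonpos h2.le (min_le_right _ _)))
        refine (pow_le_pow_left₀ (le_max_right _ _) b1 2).trans ?_
        rw [normSq_apply]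
        nlinarith [sq_nonneg (c.re * min z.im 0 - c.im * min z.re 0)]
      have a3 : ∀ x : ℝ, max x 0 ^ 2 + min x 0 ^ 2 = x * x := fun x => by
        rcases le_total x 0 with h | h <;> simp [h, sq]
      have a4 := a3 z.re
      have a5 := a3 z.im
      simp only [dot, one_re, one_im, I_re, I_im, normSq_one, normSq_I, one_mul, zero_mul,
        add_zero, zero_add] at a1 a2 ⊢
      rw [normSq_apply z] at *
      nlinarith [mul_le_mul_of_nonneg_right k1.le (sq_nonneg (max z.re 0)),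
        mul_le_mul_of_nonneg_right k1.le (sq_nonneg (max z.im 0))]
  have m3 := mu_pos hc z
  have m4 := mu_pos hd z
  have s3 := mu_sq hc z
  have s4 := mu_sq hd z
  have e1 := congrArg re hz
  have e2 := congrArg im hz
  simp only [PV, add_re, add_im, sub_re, sub_im, smul_re, smul_im, smul_eq_mul, normSq_one,
    normSq_I, one_re, one_im, I_re, I_im, zero_re, zero_im] at e1 e2
  have u1 : mu 1 z = z.re + √(z.re ^ 2 + 2) := by simp [mu, dot]
  have u2 : mu I z = z.im + √(z.im ^ 2 + 2) := by simp [mu, dot]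
  rw [u1] at e1
  rw [u2] at e2
  have r1 := Real.sq_sqrt (show 0 ≤ z.re ^ 2 + 2 by positivity)
  have r2 := Real.sq_sqrt (show 0 ≤ z.im ^ 2 + 2 by positivity)
  have r3 : 0 < √(z.re ^ 2 + 2) := by positivity
  have r4 : 0 < √(z.im ^ 2 + 2) := by positivity
  generalize √(z.re ^ 2 + 2) = X at *
  generalize √(z.im ^ 2 + 2) = Y at *
  generalize mu c z = M at *
  generalize mu d z = N at *
  refine ⟨z, fun h => ?_, hz, fun p q hp hq h => ?_⟩
  · simp only [h, dot, zero_re, zero_im, normSq_apply] at *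
    have hXY : X = Y := by nlinarith
    subst hXY
    have f1 : N * d.re = -X - M * c.re := by linarith
    have f2 : N * d.im = -X - M * c.im := by linarith
    have f3 : (X + M * c.re) ^ 2 + (X + M * c.im) ^ 2 = 2 := by
      linear_combination s4 + (X + M * c.re - N * d.re) * f1 + (X + M * c.im - N * d.im) * f2
    have f4 : X * (X + M * c.re + M * c.im) = 0 := by linear_combination f3 / 2 - s3 / 2
    have f5 := (mul_eq_zero.1 f4).resolve_left r3.ne'
    have f6 : M * c.re * (M * c.im) = 0 := by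
      linear_combination r1 / 2 - s3 / 2 + (M * c.re + M * c.im - X) / 2 * f5
    have := mul_pos (mul_pos m3 (neg_pos.2 (h1.trans_lt h2))) (mul_pos m3 (neg_pos.2 h2))
    linarith
  · have hx : z.re = -(p * c.re) - q * d.re := by simp [h]
    have hy : z.im = -(p * c.im) - q * d.im := by simp [h]
    simp only [crs, dot] at h3 s3
    exact no_cone (a := -c.re) (b := -c.im) (u := d.re) (v := d.im) (M := M) (by linarith)
      (by linarith) (k := normSq c)
      (by rw [normSq_apply]; ring) k4 (by nlinarith) hp hq m4 r3 r4 r1 r2 (by linarith)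
      (by linarith) (by linarith) (by linear_combination s3) (by linear_combination e1)
      (by linear_combination e2)

/-- a balanced encounter point -/
def Bal (a b c d : ℂ) : Prop := ∃ c' d' z, c' ^ 2 = c ^ 2 ∧ d' ^ 2 = d ^ 2 ∧ z ≠ 0 ∧
  PV a z + PV b z + PV c' z + PV d' z = 0 ∧ ∀ p q : ℝ, 0 < p → 0 < q → z ≠ -(p • c') - q • d'

theorem core' {c d : ℂ} (h1 : c.im ^ 2 ≤ c.re ^ 2) (h2 : 0 < c.re * c.im) (h3 : crs c d ≠ 0)
    (h4 : normSq c ^ 2 + normSq d ^ 2 = 2) (h5 : normSq d < normSq c) : ∃ s t : ℝ,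
    s ^ 2 = 1 ∧ t ^ 2 = 1 ∧ ∃ z, z ≠ 0 ∧ PV 1 z + PV I z + PV (s • c) z + PV (t • d) z = 0 ∧
      ∀ p q : ℝ, 0 < p → 0 < q → z ≠ -(p • s • c) - q • t • d := by
  wlog h : c.im < 0 generalizing c
  · obtain ⟨s, t, hs, ht, h⟩ := this (c := -c) (by simpa using h1) (by simpa using h2)
      (by simp only [crs, neg_re, neg_im] at h3 ⊢; intro h; apply h3; linarith) (by simpa using h4)
      (by simpa using h5) (by
        have : c.im ≠ 0 := fun h => by simp [h] at h2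
        simpa using lt_of_le_of_ne (not_lt.1 h) this.symm)
    exact ⟨-s, t, by simpa using hs, ht, by simpa using h⟩
  have h6 : c.re ≤ c.im := by
    have : c.re < 0 := neg_of_mul_pos_left h2 h.le
    nlinarith
  rcases h3.lt_or_gt with h3 | h3
  · exact ⟨1, 1, by simp, by simp, by simpa using core h6 h h3 h4 h5⟩
  · exact ⟨1, -1, by simp, by simp, by
      simpa using core (d := -d) h6 h (by simp only [crs, neg_re, neg_im] at h3 ⊢; linarith)
        (by simpa using h4) (by simpa using h5)⟩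

theorem transfer (T : ℂ ≃ₗ[ℝ] ℂ) (hT : ∀ a b, dot (T a) (T b) = dot a b) {a b c d : ℂ}
    (ha : T a = 1) (hb : T b = I) (h1 : (T c).im ^ 2 ≤ (T c).re ^ 2) (h2 : 0 < (T c).re * (T c).im)
    (h3 : crs c d ≠ 0) (h4 : normSq c ^ 2 + normSq d ^ 2 = 2) (h5 : normSq d < normSq c) :
    Bal a b c d := by
  have hn : ∀ a, normSq (T a) = normSq a := fun a => hT a a
  have hP : ∀ a z, PV (T a) (T z) = T (PV a z) := fun a z => by simp only [PV, mu, hn, hT, map_sub, map_smul]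
  have hc : ∀ a b, crs a b ^ 2 = normSq a * normSq b - dot a b ^ 2 := fun a b => by
    simp only [crs, dot, normSq_apply]; ring
  obtain ⟨s, t, hs, ht, z, h0, hz, hz'⟩ := core' (d := T d) h1 h2
    (fun h => h3 (pow_eq_zero_iff two_ne_zero |>.1 (by rw [hc, ← hn, ← hn d, ← hT, ← hc, h]; simp)))
    (by rwa [hn, hn]) (by rwa [hn, hn])
  obtain ⟨z, rfl⟩ := T.surjective z
  refine ⟨s • c, t • d, z, by rw [smul_pow, hs, one_smul], by rw [smul_pow, ht, one_smul],
    fun h => h0 (by simp [h]), T.injective ?_, fun p q hp hq h => hz' p q hp hq ?_⟩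
  · rw [← ha, ← hb, ← map_smul, ← map_smul, hP, hP, hP, hP] at hz
    simpa using hz
  · rw [h]; simp only [map_sub, map_neg, map_smul]

theorem Bal.swap {a b c d : ℂ} (h : Bal a b c d) : Bal b a c d := by
  simpa only [Bal, add_comm (PV a _)] using h

theorem Bal.swap' {a b c d : ℂ} (h : Bal a b c d) : Bal a b d c := by
  obtain ⟨c', d', z, h1, h2, h3, h4, h5⟩ := h
  exact ⟨d', c', z, h2, h1, h3, by rw [← h4]; abel, fun p q hp hq h => h5 q p hq hp (by rw [h]; abel)⟩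

theorem exists_bal {c d : ℂ} (hc : c.re * c.im ≠ 0) (hd : d.re * d.im ≠ 0) (h3 : crs c d ≠ 0)
    (h4 : normSq c ^ 2 + normSq d ^ 2 = 2) (h5 : normSq d ≠ normSq c) :
    Bal 1 I c d ∨ Bal 1 (-I) c d := by
  wlog h : normSq d < normSq c generalizing c d
  · exact (this hd hc (by simp only [crs] at h3 ⊢; intro h; apply h3; linarith) (by linarith) h5.symm
      (lt_of_le_of_ne (not_lt.1 h) h5.symm)).imp Bal.swap' Bal.swap'
  let R : ℂ ≃ₗ[ℝ] ℂ := (LinearEquiv.smulOfNeZero ℂ ℂ I I_ne_zero).restrictScalars ℝ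
  have hR : ∀ z, R z = I * z := fun z => rfl
  let C : ℂ ≃ₗ[ℝ] ℂ := conjAe.toLinearEquiv
  have hC : ∀ z, C z = conj z := fun z => rfl
  rcases le_total (c.im ^ 2) (c.re ^ 2) with h1 | h1 <;> rcases hc.lt_or_gt with h2 | h2
  · exact Or.inr (transfer C (by simp [hC, dot]) (by simp [hC]) (by simp [hC])
      (by simpa [hC] using h1) (by simpa [hC] using h2) h3 h4 h)
  · exact Or.inl (transfer (LinearEquiv.refl ℝ ℂ) (by simp) rfl rfl h1 h2 h3 h4 h)
  · exact Or.inr (transfer R (by simp [hR, dot, add_comm]) (by simp [hR]) (by simp [hR])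
      (by simpa [hR] using h1) (by simpa [hR, mul_comm] using h2) h3 h4 h).swap
  · exact Or.inl (transfer (C.trans R) (by simp [hR, hC, dot, add_comm]) (by simp [hR, hC])
      (by simp [hR, hC]) (by simpa [hR, hC] using h1) (by simpa [hR, hC, mul_comm] using h2)
      h3 h4 h).swap

end Pool.Agent.Lib.MP_e310f3_mp.Pl

/-! Pairs of Kepler arcs from a common point. -/

set_option autoImplicit false

namespace Pool.Agent.Lib.MP_e310f3_mp.Pl

open Set Filter Topology Complex ComplexConjugate Metric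

noncomputable def sg (α β : ℂ) (k : ℝ) : ℝ → ℝ := Classical.epsilon (Arc α β k)
noncomputable def xA (α β : ℂ) (k t : ℝ) : ℂ := Zf α β (sg α β k t) ^ 2
noncomputable def vA (α β : ℂ) (k t : ℝ) : ℂ :=
  k * Zd α β (sg α β k t) / conj (Zf α β (sg α β k t))

theorem sg_arc {α β : ℂ} {k : ℝ} (hk : 0 < k) (hI : (α * conj β).im ≠ 0) : Arc α β k (sg α β k) :=
  Classical.epsilon_spec (exists_arc hk hI)

theorem kepA {α β : ℂ} {k μ : ℝ} (hk : 0 < k) (hI : (α * conj β).im ≠ 0) (hμ : 0 ≤ μ)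
    (hD : 2 * k ^ 2 * (α * conj β).re = -μ) :
    Kep μ (cst α β k) (xA α β k) (vA α β k) (k * α / conj α) ∧ xA α β k 0 = (α + β) ^ 2 ∧
      vA α β k 0 = k * (α - β) / conj (α + β) :=
  ⟨(sg_arc hk hI).kep hk hI hμ hD, by rw [xA, (sg_arc hk hI).z, Zf_zero],
    by rw [vA, (sg_arc hk hI).z, Zf_zero, Zd_zero]⟩

noncomputable def kk (z U : ℂ) : ℝ := √((normSq U - 2) / normSq z)
noncomputable def al (z U : ℂ) : ℂ := (1 / 2 : ℝ) • (z + (kk z U)⁻¹ • U)
noncomputable def bt (z U : ℂ) : ℂ := (1 / 2 : ℝ) • (z - (kk z U)⁻¹ • U)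

/-- the asymptotic velocity of the arc with momentum `U` at `z` -/
noncomputable def bb (z U : ℂ) : ℂ := kk z U * al z U / conj (al z U)
noncomputable def xU (z U : ℂ) : ℝ → ℂ := xA (al z U) (bt z U) (kk z U)
noncomputable def vU (z U : ℂ) : ℝ → ℂ := vA (al z U) (bt z U) (kk z U)
noncomputable def cU (z U : ℂ) : ℝ := cst (al z U) (bt z U) (kk z U)

/-- hyperbolic data without collision -/
def Val (z U : ℂ) : Prop := 2 < normSq U ∧ crs z U ≠ 0

variable {z U U' : ℂ}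

theorem al_add (z U : ℂ) : al z U + bt z U = z := by rw [al, bt]; module

theorem Val.ne (h : Val z U) : z ≠ 0 := fun e => h.2 (by simp [e, crs])

theorem kk_pos (hz : z ≠ 0) (h : 2 < normSq U) : 0 < kk z U :=
  Real.sqrt_pos.2 (div_pos (sub_pos.2 h) (normSq_pos.2 hz))

theorem kk_sq (hz : z ≠ 0) (h : 2 < normSq U) : kk z U ^ 2 * normSq z = normSq U - 2 := by
  rw [kk, Real.sq_sqrt (div_pos (sub_pos.2 h) (normSq_pos.2 hz)).le,
    div_mul_cancel₀ _ (normSq_pos.2 hz).ne']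

theorem al_re (hz : z ≠ 0) (h : 2 < normSq U) :
    2 * kk z U ^ 2 * (al z U * conj (bt z U)).re = -1 := by
  have h1 := kk_sq hz h
  have h2 := (kk_pos hz h).ne'
  simp only [al, bt, normSq_apply, mul_re, conj_re, conj_im, smul_re, smul_im, add_re, add_im,
    sub_re, sub_im, smul_eq_mul] at h1 ⊢
  field_simp
  linear_combination h1

theorem al_ne (hz : z ≠ 0) (h : 2 < normSq U) : al z U ≠ 0 := fun e => by
  simpa [e] using al_re hz h

theorem Val.im (h : Val z U) : (al z U * conj (bt z U)).im ≠ 0 := fun e => h.2 (by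
  have h2 := (kk_pos h.ne h.1).ne'
  simp only [crs, al, bt, mul_im, conj_re, conj_im, smul_re, smul_im, add_re, add_im,
    sub_re, sub_im, smul_eq_mul] at e ⊢
  field_simp at e
  refine mul_left_cancel₀ h2 ?_
  linear_combination e / 2)

theorem Val.kep (h : Val z U) : Kep 1 (cU z U) (xU z U) (vU z U) (bb z U) ∧ xU z U 0 = z ^ 2 ∧
    vU z U 0 = U / conj z := by
  have hk := kk_pos h.ne h.1
  obtain ⟨h1, h2, h3⟩ := kepA hk h.im zero_le_one (al_re h.ne h.1)
  rw [al_add] at h2 h3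
  refine ⟨h1, h2, h3.trans ?_⟩
  rw [← real_smul, al, bt, ← smul_sub, add_sub_sub_cancel, ← two_smul ℝ, smul_smul, smul_smul,
    smul_smul, show kk z U * (1 / 2) * 2 * (kk z U)⁻¹ = 1 by field_simp, one_smul]

section cont
variable {Y : Type} [TopologicalSpace Y] {f h : Y → ℂ} {y : Y}

theorem nsq_at (hf : ContinuousAt f y) : ContinuousAt (fun y => normSq (f y)) y :=
  continuous_normSq.continuousAt.comp hf

theorem cst_at {k : Y → ℝ} (hf : ContinuousAt f y) (hh : ContinuousAt h y) (hk : ContinuousAt k y)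
    (h1 : 0 < k y) (h2 : (f y * conj (h y)).im ≠ 0) :
    ContinuousAt (fun y => cst (f y) (h y) (k y)) y := by
  obtain ⟨ha, hb⟩ := ne_of_im h2
  have := nsq_at hf
  have := nsq_at hh
  unfold cst
  fun_prop (disch := positivity)

theorem cU_at (hf : ContinuousAt f y) (hh : ContinuousAt h y) (hv : Val (f y) (h y)) :
    ContinuousAt (fun y => cU (f y) (h y)) y ∧ 0 < cU (f y) (h y) ∧ ∀ᶠ x in 𝓝 y, Val (f x) (h x) := by
  have h0 := kk_pos hv.ne hv.1
  have h1 : ContinuousAt (fun y => kk (f y) (h y)) y :=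
    (((nsq_at hh).sub continuousAt_const).div (nsq_at hf) (normSq_pos.2 hv.ne).ne').sqrt
  refine ⟨cst_at ?_ ?_ h1 h0 hv.im, cst_pos h0 hv.im,
    (continuousAt_const.eventually_lt (nsq_at hh) hv.1).and (ContinuousAt.eventually_ne ?_ hv.2)⟩
  · unfold al; fun_prop (disch := positivity)
  · unfold bt; fun_prop (disch := positivity)
  · unfold crs; fun_prop

end cont

variable {c : ℝ}

theorem Kep.near (hc : 0 < c) {x v x' v' : ℝ → ℂ} {b b' : ℂ} (h : Kep 1 c x v b)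
    (h' : Kep 1 c x' v' b') {D t : ℝ} (h0 : ‖x 0 - x' 0‖ ≤ D) (h1 : ‖v 0 - v' 0‖ ≤ D) (ht : 0 ≤ t) :
    ‖v t - v' t‖ ≤ 2 * D * Real.exp (2 * (2 * (2 / c ^ 3))) := by
  have := cmp (η := fun t => x t - x' t) (D := D) (δ := 0) (R := fun _ => 0) (R' := fun _ => 0)
    one_pos (Wt.comb (C := 2 / c ^ 3) (by positivity) (wt_one one_pos) (wt_one one_pos))
    ⟨fun s _ => hasDerivAt_const s _, fun _ _ => le_rfl, rfl, fun _ _ => le_rfl⟩
    (fun s hs => (h.sol s hs).1.fun_sub (h'.sol s hs).1)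
    (fun s hs => (h.sol s hs).2.fun_sub (h'.sol s hs).2)
    (fun s hs => by
      rw [← smul_sub, norm_smul, norm_neg, norm_one, one_mul]
      refine (g_lip (by positivity) (h.lb s hs) (h'.lb s hs)).trans_eq ?_
      rw [add_comm s]; field_simp; ring) (by rwa [one_mul]) h1 ht
  rwa [add_zero] at this

theorem sep_centre (hc : 0 < c) {r u s v : ℝ → ℂ} {a b : ℂ} (hr : Kep 1 c r u a)
    (hs : Kep 1 c s v b) (h0 : s 0 = r 0) (h1 : u 0 ≠ v 0) (h2 : a ≠ b)
    (h3 : ∀ t, 0 < t → r t ≠ s t) : ∃ m > 0, ∀ t, 0 ≤ t → m * t ≤ ‖r t - s t‖ := by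
  obtain ⟨K, hK⟩ : ∃ K, K = 2 / c ^ 2 := ⟨_, rfl⟩
  have hK0 : 0 < K := by rw [hK]; positivity
  have hd : ∀ (w : ℂ) t, 0 ≤ t → HasDerivAt (fun t => r t - s t - t • w) (u t - v t - w) t :=
    fun w t ht => by
      simpa using ((hr.sol t ht).1.fun_sub (hs.sol t ht).1).fun_sub ((hasDerivAt_id' t).smul_const w)
  have hl : ∀ (w : ℂ) t, 0 ≤ t → t * ‖w‖ - ‖r t - s t - t • w‖ ≤ ‖r t - s t‖ := fun w t ht => by
    have := nlb (x := t • w) (norm_smul_of_nonneg ht w).ge (le_refl ‖r t - s t - t • w‖)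
    rwa [add_sub_cancel] at this
  have p1 : 0 < ‖u 0 - v 0‖ := norm_sub_pos_iff.2 h1
  have p2 : 0 < ‖a - b‖ := norm_sub_pos_iff.2 h2
  obtain ⟨T, hT⟩ : ∃ T, T = 4 * K / ‖a - b‖ := ⟨_, rfl⟩
  have hT0 : 0 < T := by rw [hT]; positivity
  obtain ⟨A, hA⟩ : ∃ A, A = ‖u 0 - v 0‖ / (2 * K) := ⟨_, rfl⟩
  have hA0 : 0 < A := by rw [hA]; positivity
  obtain ⟨B, hB⟩ : ∃ B, B = A + T + 4 * ‖r T - s T - T • (a - b)‖ / ‖a - b‖ := ⟨_, rfl⟩
  have hB1 : 0 ≤ 4 * ‖r T - s T - T • (a - b)‖ / ‖a - b‖ := by positivity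
  obtain ⟨τ, hτ, hm⟩ := (isCompact_Icc (a := A) (b := B)).exists_isMinOn (nonempty_Icc.2 (by linarith))
    (f := fun t => ‖r t - s t‖) fun t ht => ((hr.sol t (hA0.le.trans ht.1)).1.fun_sub
      (hs.sol t (hA0.le.trans ht.1)).1).continuousAt.norm.continuousWithinAt
  have p3 : 0 < ‖r τ - s τ‖ := norm_sub_pos_iff.2 (h3 τ (hA0.trans_le hτ.1))
  have hB0 : 0 < B := by linarith
  refine ⟨min (‖u 0 - v 0‖ / 2) (min (‖r τ - s τ‖ / B) (‖a - b‖ / 2)), by positivity, fun t ht => ?_⟩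
  rcases le_total t A with h | h
  · refine (mul_le_mul_of_nonneg_right (min_le_left _ _) ht).trans ?_
    have := fence_lin (C := ‖u 0 - v 0‖ / 2) ht (fun y hy => hd (u 0 - v 0) y hy.1) fun y hy => by
      have h3 := norm_sub_le_of_le (hr.vel hc zero_le_one hy.1).1 (hs.vel hc zero_le_one hy.1).1
      rw [sub_sub_sub_comm, ← add_mul, ← add_div, one_add_one_eq_two, ← hK] at h3
      have h4 : y / (1 + y) ≤ A := (div_le_self hy.1 (by linarith [hy.1])).trans (hy.2.trans h)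
      refine h3.trans ((mul_le_mul_of_nonneg_left h4 hK0.le).trans_eq ?_)
      rw [hA]; field_simp
    simp only [h0, sub_self, zero_smul, sub_zero] at this
    linarith [hl (u 0 - v 0) t ht]
  refine (mul_le_mul_of_nonneg_right (min_le_right _ _) ht).trans ?_
  rcases le_total t B with h' | h'
  · refine (mul_le_mul (min_le_left _ _) h' ht (by positivity)).trans ?_
    rw [div_mul_cancel₀ _ hB0.ne']
    exact hm ⟨h, h'⟩
  · refine (mul_le_mul_of_nonneg_right (min_le_right _ _) ht).trans ?_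
    have := fence (B := fun y => ‖a - b‖ / 4 * y) (show T ≤ t by linarith)
      (fun y hy => hd (a - b) y (hT0.le.trans hy.1))
      (fun y _ => (hasDerivAt_id' y).const_mul _) fun y hy => by
        have hy0 := hT0.le.trans hy.1
        have h3 := norm_sub_le_of_le (hr.vel hc zero_le_one hy0).2 (hs.vel hc zero_le_one hy0).2
        rw [sub_sub_sub_comm, ← add_div, ← add_div, one_add_one_eq_two, ← hK] at h3
        refine h3.trans ?_
        have h4 := hy.1
        rw [hT, div_le_iff₀ p2] at h4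
        rw [div_le_iff₀ (by linarith)]
        linarith
    have h4 : 4 * ‖r T - s T - T • (a - b)‖ / ‖a - b‖ ≤ t := by linarith
    rw [div_le_iff₀ p2] at h4
    linarith [hl (a - b) t ht, norm_le_insert' (r t - s t - t • (a - b)) (r T - s T - T • (a - b)),
      mul_pos p2 hT0]

/-- two arcs from the same point that never meet again -/
def Good (z U U' : ℂ) : Prop := Val z U ∧ Val z U' ∧ U ≠ U' ∧ bb z U ≠ bb z U' ∧
  ∀ t, 0 < t → xU z U t ≠ xU z U' t

/-- uniform estimates for a pair of arcs -/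
def Unif (c : ℝ) (z U U' : ℂ) : Prop := Val z U ∧ Val z U' ∧ c ≤ cU z U ∧ c ≤ cU z U' ∧
  ∀ t, 0 ≤ t → c * t ≤ ‖xU z U t - xU z U' t‖

theorem Unif.mono {c' : ℝ} (h : Unif c z U U') (hc : c' ≤ c) : Unif c' z U U' :=
  ⟨h.1, h.2.1, hc.trans h.2.2.1, hc.trans h.2.2.2.1, fun t ht =>
    (mul_le_mul_of_nonneg_right hc ht).trans (h.2.2.2.2 t ht)⟩

theorem unif_near {Y : Type} [TopologicalSpace Y] {f h h' : Y → ℂ} {y : Y} (hf : ContinuousAt f y)
    (hh : ContinuousAt h y) (hh' : ContinuousAt h' y) (hg : Good (f y) (h y) (h' y)) :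
    ∃ c > 0, ∀ᶠ x in 𝓝 y, Unif c (f x) (h x) (h' x) := by
  obtain ⟨v1, v2, g1, g2, g3⟩ := hg
  obtain ⟨a1, a2, a3⟩ := cU_at hf hh v1
  obtain ⟨b1, b2, b3⟩ := cU_at hf hh' v2
  obtain ⟨c, hc, c1, c2⟩ : ∃ c > 0, c < cU (f y) (h y) ∧ c < cU (f y) (h' y) :=
    ⟨min (cU (f y) (h y)) (cU (f y) (h' y)) / 2, by positivity,
      by linarith [min_le_left (cU (f y) (h y)) (cU (f y) (h' y))],
      by linarith [min_le_right (cU (f y) (h y)) (cU (f y) (h' y))]⟩
  have hz : conj (f y) ≠ 0 := by simpa using v1.ne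
  obtain ⟨m, hm, hs⟩ := sep_centre hc (v1.kep.1.mono c1.le) (v2.kep.1.mono c2.le)
    (v2.kep.2.1.trans v1.kep.2.1.symm)
    (by rw [v1.kep.2.2, v2.kep.2.2]; exact fun e => g1 ((div_left_inj' hz).1 e)) g2 g3
  obtain ⟨E, hE⟩ : ∃ E, E = Real.exp (2 * (2 * (2 / c ^ 3))) := ⟨_, rfl⟩
  have hE0 : 0 < E := hE ▸ Real.exp_pos _
  have sm : ∀ {φ : Y → ℂ}, ContinuousAt φ y → ∀ᶠ x in 𝓝 y, ‖φ x - φ y‖ < m / (8 * E) := fun hφ =>
    (hφ.sub continuousAt_const).norm.eventually_lt continuousAt_const (by simp; positivity)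
  refine ⟨min c (m / 2), by positivity, ?_⟩
  filter_upwards [a3, b3, continuousAt_const.eventually_lt a1 c1,
    continuousAt_const.eventually_lt b1 c2, sm (φ := fun x => f x ^ 2) (by fun_prop),
    sm (φ := fun x => h x / conj (f x)) (by fun_prop (disch := assumption)),
    sm (φ := fun x => h' x / conj (f x)) (by fun_prop (disch := assumption))]
    with x w1 w2 d1 d2 e0 e1 e2
  refine ⟨w1, w2, (min_le_left _ _).trans d1.le, (min_le_left _ _).trans d2.le, fun t ht => ?_⟩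
  have k1 := w1.kep.1.mono d1.le
  have k2 := w2.kep.1.mono d2.le
  have k3 := v1.kep.1.mono c1.le
  have k4 := v2.kep.1.mono c2.le
  have := fence_lin (C := m / 2) ht (fun s hs => ((k1.sol s hs.1).1.fun_sub (k3.sol s hs.1).1).fun_sub
    ((k2.sol s hs.1).1.fun_sub (k4.sol s hs.1).1)) fun s hs => by
      refine (norm_sub_le_of_le
        (k1.near hc k3 (D := m / (8 * E)) (by rw [w1.kep.2.1, v1.kep.2.1]; exact e0.le)
          (by rw [w1.kep.2.2, v1.kep.2.2]; exact e1.le) hs.1)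
        (k2.near hc k4 (D := m / (8 * E)) (by rw [w2.kep.2.1, v2.kep.2.1]; exact e0.le)
          (by rw [w2.kep.2.2, v2.kep.2.2]; exact e2.le) hs.1)).trans_eq ?_
      rw [← hE]; field_simp; ring
  simp only [w1.kep.2.1, v1.kep.2.1, w2.kep.2.1, v2.kep.2.1, sub_self, sub_zero] at this
  rw [sub_sub_sub_comm] at this
  have h5 := nlb (hs t ht) this
  rw [add_sub_cancel] at h5
  linarith [mul_le_mul_of_nonneg_right (min_le_right c (m / 2)) ht]

end Pool.Agent.Lib.MP_e310f3_mp.Pl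

/-! Three-body motions with one close encounter of the light bodies. -/

set_option autoImplicit false

namespace Pool.Agent.Lib.MP_e310f3_mp.Pl

open Set Filter Topology Complex ComplexConjugate Metric

noncomputable def om (t : ℝ) : ℂ := (t + I) / (t - I)
noncomputable def U3 (U U' : ℂ) (t : ℝ) : ℂ := -(U + U') / 2 + om t * (U' - U) / 2
noncomputable def U4 (U U' : ℂ) (t : ℝ) : ℂ := -(U + U') / 2 - om t * (U' - U) / 2

/-- a collision-free motion with asymptotic velocities `-a` and `b` -/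
def Scat (ε : ℝ) (a b : ℂ × ℂ) : Prop := ∃ Q V : ℝ → ℂ × ℂ, (∀ t, HasDerivAt Q (V t) t) ∧
  (∀ t, HasDerivAt V (Fe ε (Q t)) t) ∧ (∀ t, (Q t).1 ≠ 0 ∧ (Q t).2 ≠ 0 ∧ (Q t).1 - (Q t).2 ≠ 0) ∧
  Tendsto V atBot (𝓝 (-a)) ∧ Tendsto V atTop (𝓝 b)

theorem Esc.scat {c ε : ℝ} (hc : 0 < c) (hε : 0 < ε) {q v q' v' : ℝ → ℂ × ℂ} {a b : ℂ × ℂ}
    (h : Esc c ε q v b) (h' : Esc c ε q' v' a) (e : q' 0 = q 0) (e' : v' 0 = -v 0) :
    Scat ε a b := by
  obtain ⟨Q, V, h1, h2, h3, h4⟩ := glue h.sol h'.sol e e'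
  have key : ∀ t, 0 ≤ t → ∀ x ∈ Sep c ε t, x.1 ≠ 0 ∧ x.2 ≠ 0 ∧ x.1 - x.2 ≠ 0 := fun t ht x hx =>
    ⟨norm_pos_iff.1 (lt_of_lt_of_le (by positivity) hx.1),
      norm_pos_iff.1 (lt_of_lt_of_le (by positivity) hx.2.1),
      norm_pos_iff.1 (lt_of_lt_of_le (by positivity) hx.2.2)⟩
  refine ⟨Q, V, h1, h2, fun t => ?_, ?_, h.lim.congr' ((eventually_ge_atTop 0).mono fun t ht =>
    (h3 t ht).2.symm)⟩
  · rcases le_total 0 t with ht | ht
    · exact (h3 t ht).1 ▸ key t ht _ (h.mem t ht)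
    · have := (h4 (-t) (neg_nonneg.2 ht)).1
      rw [neg_neg] at this
      exact this ▸ key _ (neg_nonneg.2 ht) _ (h'.mem _ (neg_nonneg.2 ht))
  · refine (h'.lim.comp tendsto_neg_atBot_atTop).neg.congr' ((eventually_le_atBot 0).mono
      fun t ht => ?_)
    simpa using (h4 (-t) (neg_nonneg.2 ht)).2.symm

/-- point, the two incoming momenta and the impact parameter -/
abbrev Par := ℂ × ℂ × ℂ × ℝ

noncomputable def wm (P : Par) : ℂ := (P.2.2.1 - P.2.1) / conj P.1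
noncomputable def ai (P : Par) : ℂ := (-I - P.2.2.2) / (‖wm P‖ : ℂ) ^ 2
noncomputable def s0 (P : Par) : ℂ := wm P / ‖wm P‖ * (ai P + I) ^ 2
noncomputable def t0 (P : Par) : ℂ := wm P / ‖wm P‖ * (‖wm P‖ * (ai P - I) / conj (ai P + I))
noncomputable def q0 (ε : ℝ) (P : Par) : ℂ × ℂ := (P.1 ^ 2 + (ε / 2) • s0 P, P.1 ^ 2 - (ε / 2) • s0 P)
noncomputable def p0 (P : Par) : ℂ × ℂ :=
  ((t0 P - (P.2.1 + P.2.2.1) / conj P.1) / 2, (-t0 P - (P.2.1 + P.2.2.1) / conj P.1) / 2)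
noncomputable def bIn (P : Par) : ℂ × ℂ := (bb P.1 P.2.1, bb P.1 P.2.2.1)
noncomputable def bOut (P : Par) : ℂ × ℂ :=
  (bb P.1 (U3 P.2.1 P.2.2.1 P.2.2.2), bb P.1 (U4 P.2.1 P.2.2.1 P.2.2.2))

def Dom (P : Par) : Prop := P.1 ≠ 0 ∧ P.2.1 ≠ P.2.2.1 ∧ P.2.2.2 ≠ 0

theorem sub_I_ne (t : ℝ) : (t : ℂ) - I ≠ 0 := fun h => by simpa using congrArg im h

variable {P : Par}

theorem Dom.wm (h : Dom P) : 0 < ‖wm P‖ :=
  norm_pos_iff.2 (div_ne_zero (sub_ne_zero.2 h.2.1.symm) (by simpa using h.1))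

theorem Dom.ai (h : Dom P) : (ai P * conj I).im ≠ 0 ∧ (I * conj (ai P)).im ≠ 0 ∧
    2 * ‖Pl.wm P‖ ^ 2 * (ai P * conj I).re = -2 ∧ 2 * ‖Pl.wm P‖ ^ 2 * (I * conj (ai P)).re = -2 ∧
    ai P / conj (ai P) = om P.2.2.2 ∧ conj (ai P + I) ≠ 0 := by
  have h0 := h.wm
  have e : Pl.ai P = (‖Pl.wm P‖ ^ 2)⁻¹ • (-I - P.2.2.2) := by
    rw [Pl.ai, real_smul, div_eq_inv_mul]; push_cast; rfl
  have h1 : (‖Pl.wm P‖ ^ 2)⁻¹ ≠ 0 := by positivity
  have h2 : ‖Pl.wm P‖ ^ 2 * (‖Pl.wm P‖ ^ 2)⁻¹ = 1 := mul_inv_cancel₀ (by positivity)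
  have h3 := h.2.2
  rw [e]
  generalize (‖Pl.wm P‖ ^ 2)⁻¹ = r at *
  refine ⟨by simp [h1, h3], by simp [h1, h3], by simp; linarith, by simp; linarith, ?_,
    fun e => by simpa [h1, h3] using congrArg re e⟩
  have h4 : (r : ℂ) ≠ 0 := by exact_mod_cast h1
  have h5 := sub_I_ne P.2.2.2
  have h6 : I - P.2.2.2 ≠ 0 := fun e => h5 (by linear_combination -e)
  simp only [real_smul, map_mul, map_sub, map_neg, conj_ofReal, conj_I, neg_neg, om]
  field_simp
  ring

theorem enc_one {c : ℝ} (hc : 0 < c) (S : ℝ) {δ : ℝ} (hδ : 0 < δ) : ∀ᶠ e in 𝓝[>] (0 : ℝ),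
    ∀ P : Par, Dom P → Unif c P.1 P.2.1 P.2.2.1 →
    Unif c P.1 (U3 P.2.1 P.2.2.1 P.2.2.2) (U4 P.2.1 P.2.2.1 P.2.2.2) →
    c ≤ cst (ai P) I ‖wm P‖ → c ≤ cst I (ai P) ‖wm P‖ → ‖s0 P‖ ≤ S →
    (∃ B q p, Esc (c / 8) (e ^ 2) q p B ∧ q 0 = q0 (e ^ 2) P ∧ p 0 = p0 P ∧ ‖B - bOut P‖ ≤ δ) ∧
    ∃ A q p, Esc (c / 8) (e ^ 2) q p A ∧ q 0 = q0 (e ^ 2) P ∧ p 0 = -p0 P ∧ ‖A - bIn P‖ ≤ δ := by
  filter_upwards [half hc S hδ] with e he P hP h1 h2 c1 c2 hS
  obtain ⟨a1, a2, a3, a4, a5, a6⟩ := hP.ai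
  have hw := hP.wm
  have hw' : (‖wm P‖ : ℂ) ≠ 0 := by exact_mod_cast hw.ne'
  have hφ : ‖wm P / ‖wm P‖‖ = 1 := by simp [hw.ne']
  have hz : conj P.1 ≠ 0 := by simpa using hP.1
  obtain ⟨k1, k2, k3⟩ := kepA hw a1 zero_le_two a3
  obtain ⟨l1, l2, l3⟩ := kepA hw a2 zero_le_two a4
  constructor
  · obtain ⟨m1, m2, m3⟩ := h2.1.kep
    obtain ⟨n1, n2, n3⟩ := h2.2.1.kep
    have hb : vU P.1 (U3 P.2.1 P.2.2.1 P.2.2.2) 0 - vU P.1 (U4 P.2.1 P.2.2.1 P.2.2.2) 0 =
        wm P / ‖wm P‖ * (‖wm P‖ * ai P / conj (ai P)) := by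
      rw [m3, n3, mul_div_assoc, a5, ← mul_assoc, div_mul_cancel₀ _ hw', U3, U4, wm]; ring
    obtain ⟨q, p, B, b1, b2, b3, b4⟩ := he _ _ _ _ _ _ _ _ _ (m1.mono h2.2.2.1) (n1.mono h2.2.2.2.1)
      ((k1.mono c1).rot hφ) (n2.trans m2.symm) hb h2.2.2.2.2 (by rw [k2]; exact hS)
    refine ⟨B, q, p, b1, by rw [b2, m2, k2]; rfl, ?_, b4⟩
    rw [b3, ← hb, m3, n3, k3, p0, t0, U3, U4]
    simp only [real_smul]
    push_cast
    congr 1 <;> ring
  · obtain ⟨m1, m2, m3⟩ := h1.1.kep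
    obtain ⟨n1, n2, n3⟩ := h1.2.1.kep
    have hb : vU P.1 P.2.1 0 - vU P.1 P.2.2.1 0 = wm P / ‖wm P‖ * (‖wm P‖ * I / conj I) := by
      rw [m3, n3, mul_div_assoc, conj_I, div_neg, div_self I_ne_zero, ← mul_assoc,
        div_mul_cancel₀ _ hw', wm]; ring
    obtain ⟨q, p, B, b1, b2, b3, b4⟩ := he _ _ _ _ _ _ _ _ _ (m1.mono h1.2.2.1) (n1.mono h1.2.2.2.1)
      ((l1.mono c2).rot hφ) (n2.trans m2.symm) hb h1.2.2.2.2 (by rw [l2, add_comm]; exact hS)
    refine ⟨B, q, p, b1, by rw [b2, m2, l2, add_comm I]; rfl, ?_, b4⟩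
    rw [b3, ← hb, m3, n3, l3, p0, t0, add_comm I, Prod.neg_mk]
    simp only [real_smul]
    push_cast
    congr 1 <;> ring

theorem Dom.cont (h : Dom P) : ContinuousAt Pl.wm P ∧ ContinuousAt Pl.ai P ∧ ContinuousAt s0 P ∧
    ContinuousAt p0 P := by
  have hz : conj P.1 ≠ 0 := by simpa using h.1
  have hw : (‖Pl.wm P‖ : ℂ) ≠ 0 := by exact_mod_cast h.wm.ne'
  have hw2 := pow_ne_zero 2 hw
  have h6 := h.ai.2.2.2.2.2
  have h1 : ContinuousAt Pl.wm P := by unfold Pl.wm; fun_prop (disch := assumption)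
  have h2 : ContinuousAt Pl.ai P := by unfold Pl.ai; fun_prop (disch := assumption)
  have h3 : ContinuousAt t0 P := by unfold t0; fun_prop (disch := assumption)
  exact ⟨h1, h2, by unfold s0; fun_prop (disch := assumption),
    by unfold p0; fun_prop (disch := assumption)⟩

theorem om_cont : Continuous om := by
  unfold om
  exact Continuous.div (by fun_prop) (by fun_prop) sub_I_ne

theorem cont_of_esc {c ε : ℝ} (hc : 0 < c) (hε : 0 < ε) (h1 : ε ≤ 1) {N : Set Par}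
    {B x y : Par → ℂ × ℂ} (hx : ContinuousOn x N) (hy : ContinuousOn y N)
    (h : ∀ P ∈ N, ∃ q p, Esc c ε q p (B P) ∧ q 0 = x P ∧ p 0 = y P) : ContinuousOn B N := by
  obtain ⟨K, hK⟩ := Esc.lip hc hε h1
  intro P hP
  refine tendsto_iff_norm_sub_tendsto_zero.2 (squeeze_zero' (Eventually.of_forall fun _ =>
    norm_nonneg _) (g := fun R => K * (‖x R - x P‖ + ‖y R - y P‖)) ?_ ?_)
  · filter_upwards [self_mem_nhdsWithin] with R hR
    obtain ⟨q, p, a1, a2, a3⟩ := h P hP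
    obtain ⟨q', p', b1, b2, b3⟩ := h R hR
    simpa only [a2, a3, b2, b3] using hK _ _ _ _ _ _ b1 a1
  · simpa using ((tendsto_iff_norm_sub_tendsto_zero.1 (hx P hP)).add
      (tendsto_iff_norm_sub_tendsto_zero.1 (hy P hP))).const_mul K

/-- motions shadowing a limiting orbit with one encounter, depending continuously on it -/
theorem encounter {P₀ : Par} (ht : P₀.2.2.2 ≠ 0) (h1 : Good P₀.1 P₀.2.1 P₀.2.2.1)
    (h2 : Good P₀.1 (U3 P₀.2.1 P₀.2.2.1 P₀.2.2.2) (U4 P₀.2.1 P₀.2.2.1 P₀.2.2.2)) :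
    ∃ N ∈ 𝓝 P₀, ∀ δ > 0, ∀ᶠ e in 𝓝[>] (0 : ℝ), ∃ A B : Par → ℂ × ℂ, ContinuousOn A N ∧
      ContinuousOn B N ∧ ∀ P ∈ N, ‖A P - bIn P‖ ≤ δ ∧ ‖B P - bOut P‖ ≤ δ ∧
        Scat (e ^ 2) (A P) (B P) := by
  have hD : Dom P₀ := ⟨h1.1.ne, h1.2.2.1, ht⟩
  have := om_cont
  obtain ⟨c1, hc1, u1⟩ := unif_near (f := fun P : Par => P.1) (h := fun P => P.2.1)
    (h' := fun P => P.2.2.1) (by fun_prop) (by fun_prop) (by fun_prop) h1
  obtain ⟨c2, hc2, u2⟩ := unif_near (f := fun P : Par => P.1)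
    (h := fun P => U3 P.2.1 P.2.2.1 P.2.2.2) (h' := fun P => U4 P.2.1 P.2.2.1 P.2.2.2) (by fun_prop)
    (by unfold U3; fun_prop) (by unfold U4; fun_prop) h2
  obtain ⟨d1, d2, d3, -⟩ := hD.cont
  have e1 := cst_at d2 continuousAt_const d1.norm hD.wm hD.ai.1
  have e2 := cst_at continuousAt_const d2 d1.norm hD.wm hD.ai.2.1
  have f1 := cst_pos hD.wm hD.ai.1
  have f2 := cst_pos hD.wm hD.ai.2.1
  obtain ⟨c, hc, g1, g2, g3, g4⟩ : ∃ c > 0, c ≤ c1 ∧ c ≤ c2 ∧ c ≤ cst (ai P₀) I ‖wm P₀‖ / 2 ∧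
      c ≤ cst I (ai P₀) ‖wm P₀‖ / 2 := ⟨min (min c1 c2) (min _ _), by positivity,
    (min_le_left _ _).trans (min_le_left _ _), (min_le_left _ _).trans (min_le_right _ _),
    (min_le_right _ _).trans (min_le_left _ _), (min_le_right _ _).trans (min_le_right _ _)⟩
  refine ⟨{P | Dom P ∧ Unif c1 P.1 P.2.1 P.2.2.1 ∧
    Unif c2 P.1 (U3 P.2.1 P.2.2.1 P.2.2.2) (U4 P.2.1 P.2.2.1 P.2.2.2) ∧
    c < cst (ai P) I ‖wm P‖ ∧ c < cst I (ai P) ‖wm P‖ ∧ ‖s0 P‖ < ‖s0 P₀‖ + 1},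
    Eventually.and (Eventually.and (ContinuousAt.eventually_ne (by fun_prop) hD.1)
      (Eventually.and ((ContinuousAt.eventually_ne (g := fun P : Par => P.2.1 - P.2.2.1)
        (by fun_prop) (sub_ne_zero.2 hD.2.1)).mono fun P => sub_ne_zero.1)
      (ContinuousAt.eventually_ne (by fun_prop) ht)))
    (u1.and (u2.and ((continuousAt_const.eventually_lt e1 (by linarith)).and
      ((continuousAt_const.eventually_lt e2 (by linarith)).and
      (d3.norm.eventually_lt continuousAt_const (by linarith)))))), fun δ hδ => ?_⟩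
  filter_upwards [enc_one hc (‖s0 P₀‖ + 1) hδ, self_mem_nhdsWithin, small 1 one_pos]
    with e he (h0 : 0 < e) h3
  generalize hN : {P | Dom P ∧ _} = N
  have hN1 : ∀ P ∈ N, Dom P := fun P hP => (hN ▸ hP).1
  have key := fun P (hP : P ∈ N) => he P (hN1 P hP) ((hN ▸ hP).2.1.mono g1) ((hN ▸ hP).2.2.1.mono g2)
    (hN ▸ hP).2.2.2.1.le (hN ▸ hP).2.2.2.2.1.le (hN ▸ hP).2.2.2.2.2.le
  choose! B hB using fun P hP => (key P hP).1
  choose! A hA using fun P hP => (key P hP).2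
  have cq : ContinuousOn (q0 (e ^ 2)) N := fun P hP => by
    have := (hN1 P hP).cont.2.2.1
    refine ContinuousAt.continuousWithinAt ?_
    unfold q0; fun_prop
  have cp : ContinuousOn p0 N := fun P hP => (hN1 P hP).cont.2.2.2.continuousWithinAt
  have h8 : 0 < c / 8 := by positivity
  have h9 : 0 < e ^ 2 := by positivity
  have h10 : e ^ 2 ≤ 1 := by nlinarith
  refine ⟨A, B, cont_of_esc h8 h9 h10 cq cp.neg fun P hP => ?_,
    cont_of_esc h8 h9 h10 cq cp fun P hP => ?_, fun P hP => ?_⟩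
  · obtain ⟨q, p, a1, a2, a3, -⟩ := hA P hP
    exact ⟨q, p, a1, a2, a3⟩
  · obtain ⟨q, p, a1, a2, a3, -⟩ := hB P hP
    exact ⟨q, p, a1, a2, a3⟩
  · obtain ⟨q, p, a1, a2, a3, a4⟩ := hA P (hN ▸ hP)
    obtain ⟨q', p', b1, b2, b3, b4⟩ := hB P (hN ▸ hP)
    exact ⟨a4, b4, b1.scat h8 h9 a1 (a2.trans b2.symm) (by rw [a3, b3])⟩

end Pool.Agent.Lib.MP_e310f3_mp.Pl

/-! The limiting scattering map reaches almost every outgoing shape regularly. -/

set_option autoImplicit false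

namespace Pool.Agent.Lib.MP_e310f3_mp.Pl

open Set Filter Topology Complex ComplexConjugate Metric MeasureTheory

variable {ν ν' z : ℂ}

theorem kk_PV (hν : ν ≠ 0) (hz : z ≠ 0) : kk z (PV ν z) = normSq ν := by
  rw [kk, nsq_PV hν, add_sub_cancel_right, mul_div_cancel_right₀ _ (normSq_pos.2 hz).ne',
    Real.sqrt_sq (normSq_nonneg _)]

theorem al_PV (hν : ν ≠ 0) (hz : z ≠ 0) : al z (PV ν z) = (mu ν z / (2 * normSq ν)) • ν := by
  have := (normSq_pos.2 hν).ne'
  rw [al, kk_PV hν hz, PV, smul_sub, smul_smul _ _ z, inv_mul_cancel₀ this, one_smul,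
    add_sub_cancel, smul_smul, smul_smul]
  congr 1
  field_simp

theorem lam_pos (hν : ν ≠ 0) (z : ℂ) : 0 < mu ν z / (2 * normSq ν) :=
  div_pos (mu_pos hν z) (mul_pos two_pos (normSq_pos.2 hν))

theorem bb_PV (hν : ν ≠ 0) (hz : z ≠ 0) : bb z (PV ν z) = ν ^ 2 := by
  have h1 : ((mu ν z / (2 * normSq ν) : ℝ) : ℂ) ≠ 0 := by exact_mod_cast (lam_pos hν z).ne'
  have h2 : conj ν ≠ 0 := by simpa using hν
  rw [bb, kk_PV hν hz, al_PV hν hz, real_smul, map_mul, conj_ofReal, ← mul_conj]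
  field_simp

theorem big_PV (hν : ν ≠ 0) (hz : z ≠ 0) : 2 < normSq (PV ν z) := by
  rw [nsq_PV hν]
  linarith [mul_pos (pow_pos (normSq_pos.2 hν) 2) (normSq_pos.2 hz)]

theorem crs_PV (ν z : ℂ) : crs z (PV ν z) = mu ν z * crs z ν := by
  simp only [crs, PV, sub_re, sub_im, smul_re, smul_im, smul_eq_mul]; ring

theorem good_PV (hν : ν ≠ 0) (hν' : ν' ≠ 0) (hz : z ≠ 0) (h : crs z (PV ν z) ≠ 0)
    (h' : crs z (PV ν' z) ≠ 0) (hn : ν ^ 2 ≠ ν' ^ 2)
    (H : ∀ l l' : ℝ, 0 < l → 0 < l' → ∀ β β', l • ν + β = z → l' • ν' + β' = z →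
      2 * normSq ν ^ 2 * (l • ν * conj β).re = -1 → 2 * normSq ν' ^ 2 * (l' • ν' * conj β').re = -1 →
      ∀ s s', 0 < s → 0 < s' → Zf (l • ν) β s = -Zf (l' • ν') β' s' →
      Tm (l • ν) β (normSq ν) s ≠ Tm (l' • ν') β' (normSq ν') s') :
    Good z (PV ν z) (PV ν' z) := by
  have v1 : Val z (PV ν z) := ⟨big_PV hν hz, h⟩
  have v2 : Val z (PV ν' z) := ⟨big_PV hν' hz, h'⟩
  have hb : bb z (PV ν z) ≠ bb z (PV ν' z) := by rwa [bb_PV hν hz, bb_PV hν' hz]
  have hU : PV ν z ≠ PV ν' z := fun e => hb (by rw [e])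
  refine ⟨v1, v2, hU, hb, fun t ht e => ?_⟩
  have a1 := al_add z (PV ν z)
  have a2 := al_add z (PV ν' z)
  have b1 := al_re hz v1.1
  have b2 := al_re hz v2.1
  have c1 := v1.im
  have c2 := v2.im
  simp only [xU, xA, al_PV hν hz, al_PV hν' hz, kk_PV hν hz, kk_PV hν' hz] at *
  have d1 := sg_arc (normSq_pos.2 hν) c1
  have d2 := sg_arc (normSq_pos.2 hν') c2
  rcases sq_eq_sq_iff_eq_or_eq_neg.1 e with e | e
  · have := calib hν hν' (lam_pos hν z) (lam_pos hν' z) b1 b2 c1 c2 d1 d2 (a1.trans a2.symm) ht e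
    rw [a1] at this
    exact hU this
  · exact H _ _ (lam_pos hν z) (lam_pos hν' z) _ _ a1 a2 b1 b2 _ _ (d1.pos t ht) (d2.pos t ht) e
      ((d1.tm t).trans (d2.tm t).symm)

theorem good_in {n : ℂ} (hn : n = I ∨ n = -I) (h : z.re * z.im * (z.re ^ 2 - z.im ^ 2) ≠ 0) :
    Good z (PV 1 z) (PV n z) := by
  have h1 : normSq n = 1 := by rcases hn with rfl | rfl <;> simp
  have h2 : n ≠ 0 := fun e => by simp [e] at h1
  obtain ⟨⟨h3, h4⟩, h5⟩ := (mul_ne_zero_iff.1 h).imp_left mul_ne_zero_iff.1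
  refine good_PV one_ne_zero h2 (fun e => by simp [e] at h3) ?_ ?_ ?_ ?_
  · rw [crs_PV]; exact mul_ne_zero (mu_pos one_ne_zero z).ne' (by simpa [crs] using h4)
  · rw [crs_PV]
    exact mul_ne_zero (mu_pos h2 z).ne' (by rcases hn with rfl | rfl <;> simpa [crs] using h3)
  · rcases hn with rfl | rfl <;> norm_num
  · intro l l' hl hl' β β' e e' b b' s s' hs _ m hT
    rw [h1, normSq_one] at *
    obtain ⟨a, p, hp⟩ := opp_eq (e.trans e'.symm) (by simpa using b) (by simpa using b') hs m hT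
    rw [e] at hp
    refine h5 ?_
    rw [hp]
    rcases hn with rfl | rfl <;> simp at a ⊢ <;> linear_combination p ^ 2 * a

theorem good_out (hν : ν ≠ 0) (hν' : ν' ≠ 0) (hz : z ≠ 0) (h : crs z (PV ν z) ≠ 0)
    (h' : crs z (PV ν' z) ≠ 0) (hn : ν ^ 2 ≠ ν' ^ 2)
    (H : ∀ p q : ℝ, 0 < p → 0 < q → z ≠ -(p • ν) - q • ν') : Good z (PV ν z) (PV ν' z) :=
  good_PV hν hν' hz h h' hn fun l l' hl hl' β β' e e' _ _ s s' hs hs' m _ => by
    obtain ⟨p, q, hp, hq, e2⟩ := opp_cone (e.trans e'.symm) hs hs' m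
    exact H (p * l) (q * l') (by positivity) (by positivity) (by rw [← e, e2, smul_smul, smul_smul])

/-- the data of the limiting orbit -/
noncomputable def par (ν w : ℂ × ℂ) : Par := (w.1, PV ν.1 w.1, PV ν.2 w.1, w.2.re)

/-- the limiting scattering map -/
noncomputable def NN (ν w : ℂ × ℂ) : ℂ × ℂ := w.2.im • bOut (par ν w)

def DD (ν : ℂ × ℂ) : Set (ℂ × ℂ) := {w | w.1 ≠ 0 ∧
  2 < normSq (U3 (PV ν.1 w.1) (PV ν.2 w.1) w.2.re) ∧ 2 < normSq (U4 (PV ν.1 w.1) (PV ν.2 w.1) w.2.re)}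

section diff
variable {X : Type} [NormedAddCommGroup X] [NormedSpace ℝ X] {f h : X → ℂ} {x : X}

theorem nsq_diff (hf : DifferentiableAt ℝ f x) : DifferentiableAt ℝ (fun y => normSq (f y)) x := by
  simp only [normSq_apply]; fun_prop

theorem PV_diff (hf : DifferentiableAt ℝ f x) (hh : DifferentiableAt ℝ h x) (h0 : f x ≠ 0) :
    DifferentiableAt ℝ (fun y => PV (f y) (h y)) x := by
  have h1 := nsq_diff hf
  have h2 := normSq_pos.2 h0
  have h3 : DifferentiableAt ℝ (fun y => dot (f y) (h y)) x := by unfold dot; fun_prop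
  unfold PV mu
  simp only [div_eq_mul_inv]
  fun_prop (disch := positivity)

theorem bb_diff (hf : DifferentiableAt ℝ f x) (hh : DifferentiableAt ℝ h x) (h0 : f x ≠ 0)
    (h1 : 2 < normSq (h x)) : DifferentiableAt ℝ (fun y => bb (f y) (h y)) x := by
  have h2 := kk_pos h0 h1
  have h3 : DifferentiableAt ℝ (fun y => kk (f y) (h y)) x :=
    (((nsq_diff hh).sub_const 2).fun_mul ((nsq_diff hf).fun_inv (normSq_pos.2 h0).ne')).sqrt
      (div_pos (sub_pos.2 h1) (normSq_pos.2 h0)).ne'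
  have h4 : DifferentiableAt ℝ (fun y => al (f y) (h y)) x := by
    unfold al; fun_prop (disch := positivity)
  have h5 : conj (al (f x) (h x)) ≠ 0 := by simpa using al_ne h0 h1
  unfold bb
  simp only [div_eq_mul_inv]
  fun_prop (disch := assumption)

end diff

theorem om_diff : Differentiable ℝ om := fun t => by
  have := sub_I_ne t
  unfold om
  simp only [div_eq_mul_inv]
  fun_prop (disch := assumption)

theorem NN_diff {p : (ℂ × ℂ) × ℂ × ℂ} (h1 : p.1.1 ≠ 0) (h2 : p.1.2 ≠ 0) (h : p.2 ∈ DD p.1) :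
    DifferentiableAt ℝ (fun p : (ℂ × ℂ) × ℂ × ℂ => NN p.1 p.2) p := by
  have a1 := PV_diff (f := fun p : (ℂ × ℂ) × ℂ × ℂ => p.1.1) (h := fun p => p.2.1) (by fun_prop)
    (by fun_prop) h1
  have a2 := PV_diff (f := fun p : (ℂ × ℂ) × ℂ × ℂ => p.1.2) (h := fun p => p.2.1) (by fun_prop)
    (by fun_prop) h2
  have := om_diff
  refine DifferentiableAt.fun_smul (by fun_prop) (DifferentiableAt.prodMk
    (bb_diff (by unfold par; fun_prop) ?_ h.1 h.2.1) (bb_diff (by unfold par; fun_prop) ?_ h.1 h.2.2))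
  · simp only [par, U3, div_eq_mul_inv]; fun_prop
  · simp only [par, U4, div_eq_mul_inv]; fun_prop

theorem NN_diff' {ν w : ℂ × ℂ} (h1 : ν.1 ≠ 0) (h2 : ν.2 ≠ 0) (h : w ∈ DD ν) :
    DifferentiableAt ℝ (NN ν) w :=
  (NN_diff (p := (ν, w)) h1 h2 h).comp w (f := fun w => (ν, w)) (by fun_prop)

theorem null_line {a : ℂ} (ha : a ≠ 0) : volume {z : ℂ | crs a z = 0} = 0 := by
  refine measure_mono_null (t := LinearMap.ker (a.re • imLm - a.im • reLm))
    (fun z hz => by simpa [crs] using hz) (Measure.addHaar_submodule _ _ fun h => ha ?_)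
  rw [LinearMap.ker_eq_top] at h
  exact Complex.ext (by simpa using LinearMap.congr_fun h I) (by simpa using LinearMap.congr_fun h 1)

theorem null_fst {s : Set ℂ} (h : volume s = 0) : volume {w : ℂ × ℂ | w.1 ∈ s} = 0 :=
  Measure.quasiMeasurePreserving_fst.preimage_null h

theorem null_snd {s : Set ℂ} (h : volume s = 0) : volume {w : ℂ × ℂ | w.2 ∈ s} = 0 :=
  Measure.quasiMeasurePreserving_snd.preimage_null h

theorem null_quad {a : ℂ → ℝ} {b : ℂ → ℂ} (ha : Continuous a) (hb : Continuous b) :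
    volume {w : ℂ × ℂ | b w.1 ≠ 0 ∧ a w.1 + (b w.1 * om w.2.re).im = 0} = 0 := by
  have := om_cont
  refine Measure.measure_prod_null_of_ae_null (MeasurableSet.inter
    (isOpen_ne_fun (by fun_prop) continuous_const).measurableSet
    (isClosed_eq (by fun_prop) continuous_const).measurableSet) (Eventually.of_forall fun z => ?_)
  by_cases h0 : b z = 0
  · simp [h0]
  have hp : (Polynomial.C (a z + (b z).im) * Polynomial.X ^ 2 + Polynomial.C (2 * (b z).re) *
      Polynomial.X + Polynomial.C (a z - (b z).im) : Polynomial ℝ) ≠ 0 := fun h => by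
    have h1 := congrArg (Polynomial.eval 0) h
    have h2 := congrArg (Polynomial.eval 1) h
    have h3 := congrArg (Polynomial.eval (-1)) h
    simp at h1 h2 h3
    exact h0 (Complex.ext (by simp; linarith) (by simp; linarith))
  refine measure_mono_null (fun w hw => ?_) ((Measure.quasiMeasurePreserving_fst.comp
    volume_preserving_equiv_real_prod.quasiMeasurePreserving).preimage_null
    ((Polynomial.finite_setOfPred_isRoot hp).measure_zero volume))
  have h1 := hw.2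
  have h3 : om w.re * ((w.re ^ 2 + 1 : ℝ) : ℂ) = (w.re + I) ^ 2 := by
    have := sub_I_ne w.re
    rw [om]; push_cast; field_simp
    linear_combination ((w.re : ℂ) + I) * I_sq
  have h4 := congrArg re h3
  have h5 := congrArg im h3
  simp only [mul_re, mul_im, ofReal_re, ofReal_im, sq, add_re, add_im, I_re, I_im] at h1 h4 h5
  simp [Polynomial.IsRoot]
  linear_combination (w.re ^ 2 + 1) * h1 - (b z).re * h5 - (b z).im * h4

/-- a regular limiting orbit -/
def Nice (n : ℂ) (w : ℂ × ℂ) : Prop := w ∈ DD (1, n) ∧ (fderiv ℝ (NN (1, n)) w).det ≠ 0 ∧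
  w.2.re ≠ 0 ∧ 0 < w.2.im ∧ Good w.1 (PV 1 w.1) (PV n w.1) ∧
  Good w.1 (U3 (PV 1 w.1) (PV n w.1) w.2.re) (U4 (PV 1 w.1) (PV n w.1) w.2.re)

def Wall (n : ℂ) : Set (ℂ × ℂ) := {w | w.1.re * w.1.im * (w.1.re ^ 2 - w.1.im ^ 2) = 0 ∨
  w.1 ≠ 0 ∧ PV 1 w.1 ≠ PV n w.1 ∧ (crs w.1 (U3 (PV 1 w.1) (PV n w.1) w.2.re) = 0 ∨
    crs w.1 (U4 (PV 1 w.1) (PV n w.1) w.2.re) = 0)}

theorem null_wall {n : ℂ} (hn : n ≠ 0) : volume (Wall n) = 0 := by
  have c1 : Continuous (PV 1) := continuous_iff_continuousAt.2 fun z => (PV_diff (f := fun _ => 1)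
    (differentiableAt_const _) differentiableAt_id one_ne_zero).continuousAt
  have c2 : Continuous (PV n) := continuous_iff_continuousAt.2 fun z => (PV_diff (f := fun _ => n)
    (differentiableAt_const _) differentiableAt_id hn).continuousAt
  refine measure_mono_null (fun w hw => ?_) (measure_union_null (measure_union_null
    (measure_union_null (null_fst (null_line I_ne_zero)) (null_fst (null_line one_ne_zero)))
    (measure_union_null (null_fst (null_line (a := 1 + I) fun h => by simpa using congrArg re h))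
      (null_fst (null_line (a := 1 - I) fun h => by simpa using congrArg re h))))
    (measure_union_null (null_quad (a := fun z => crs z (-(PV 1 z + PV n z) / 2))
      (b := fun z => conj z * ((PV n z - PV 1 z) / 2)) (by unfold crs; fun_prop) (by fun_prop))
      (null_quad (a := fun z => crs z (-(PV 1 z + PV n z) / 2))
      (b := fun z => -(conj z * ((PV n z - PV 1 z) / 2))) (by unfold crs; fun_prop) (by fun_prop))))
  rcases hw with h | ⟨h0, h1, h⟩
  · left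
    simp only [sq_sub_sq, mul_eq_zero] at h
    rcases h with (h | h) | h | h
    · exact Or.inl (Or.inl (by simp [crs, h]))
    · exact Or.inl (Or.inr (by simp [crs, h]))
    · exact Or.inr (Or.inr (by simp [crs]; linarith))
    · exact Or.inr (Or.inl (by simp [crs]; linarith))
  · have h2 : conj w.1 * ((PV n w.1 - PV 1 w.1) / 2) ≠ 0 :=
      mul_ne_zero (by simpa using h0) (div_ne_zero (sub_ne_zero.2 h1.symm) two_ne_zero)
    right
    rcases h with h | h
    · refine Or.inl ⟨h2, ?_⟩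
      rw [← h, U3, mul_div_assoc]
      simp only [crs, add_re, add_im, mul_re, mul_im, conj_re, conj_im]; ring
    · refine Or.inr ⟨neg_ne_zero.2 h2, ?_⟩
      rw [← h, U4, mul_div_assoc]
      simp only [crs, sub_re, sub_im, mul_re, mul_im, conj_re, conj_im, neg_re, neg_im]; ring

theorem null_bad {n : ℂ} (hn : n ≠ 0) : volume (NN (1, n) '' {w | w ∈ DD (1, n) ∧
    (w ∈ Wall n ∨ (fderiv ℝ (NN (1, n)) w).det = 0)}) = 0 := by
  have : (volume : Measure (ℂ × ℂ)).IsAddHaarMeasure := Measure.prod.instIsAddHaarMeasure _ _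
  simp only [and_or_left, ofPred_or, image_union]
  refine measure_union_null (addHaar_image_eq_zero_of_differentiableOn_of_addHaar_eq_zero _
    (fun w hw => (NN_diff' one_ne_zero hn hw.1).differentiableWithinAt)
    (measure_mono_null (fun w hw => hw.2) (null_wall hn)))
    (addHaar_image_eq_zero_of_det_fderivWithin_eq_zero _ (f' := fderiv ℝ (NN (1, n)))
      (fun w hw => (NN_diff' one_ne_zero hn hw.1).hasFDerivAt.hasFDerivWithinAt) fun w hw => hw.2)

theorem exists_om {ω : ℂ} (h : normSq ω = 1) (h1 : ω ≠ 1) : ∃ t, om t = ω := by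
  rw [normSq_apply] at h
  have h2 : 1 - ω.re ≠ 0 := fun e => h1 (Complex.ext (by simp; linarith) (by
    rw [show ω.re = 1 by linarith] at h; simpa using h))
  refine ⟨ω.im / (1 - ω.re), ?_⟩
  rw [om, div_eq_iff (sub_I_ne _)]
  generalize ht : ω.im / (1 - ω.re) = t
  rw [div_eq_iff h2] at ht
  refine Complex.ext (by simp; linarith) (mul_left_cancel₀ h2 ?_)
  simp
  linear_combination ω.im * ht - h

theorem bal_nice {n c d : ℂ} (hn : n = I ∨ n = -I) (hc : c ≠ 0) (hd : d ≠ 0)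
    (h4 : normSq c ^ 2 + normSq d ^ 2 = 2) (h5 : normSq d ≠ normSq c) (h : Bal 1 n c d) {κ : ℝ}
    (hκ : 0 < κ) : ∃ w ∈ DD (1, n), NN (1, n) w = κ • (c ^ 2, d ^ 2) ∧
      (¬(w ∈ Wall n ∨ (fderiv ℝ (NN (1, n)) w).det = 0) → Nice n w) := by
  obtain ⟨c', d', z, e1, e2, hz, h, H⟩ := h
  have f : ∀ {a b : ℂ}, a ^ 2 = b ^ 2 → normSq a = normSq b := fun h => by
    rcases sq_eq_sq_iff_eq_or_eq_neg.1 h with h | h <;> simp [h]
  rw [← e1, ← e2]
  rw [← f e1, ← f e2] at h4 h5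
  replace hc : c' ≠ 0 := fun h => hc (by simpa [h] using e1.symm)
  replace hd : d' ≠ 0 := fun h => hd (by simpa [h] using e2.symm)
  have h1 : normSq n = 1 := by rcases hn with rfl | rfl <;> simp
  have h2 : n ≠ 0 := fun e => by simp [e] at h1
  have a1 := nsq_PV one_ne_zero z
  have a2 := nsq_PV h2 z
  have a3 := nsq_PV hc z
  have a4 := nsq_PV hd z
  rw [normSq_one] at a1
  rw [h1] at a2
  have k3 := normSq_pos.2 hc
  have k4 := normSq_pos.2 hd
  have k0 := normSq_pos.2 hz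
  have b1 : normSq (PV c' z) ≠ 1 ^ 2 * normSq z + 2 := fun e => by
    have : normSq c' ^ 2 = 1 ^ 2 := mul_right_cancel₀ k0.ne' (by linarith)
    exact h5 ((pow_left_inj₀ k4.le k3.le two_ne_zero).1 (by linarith))
  have b2 : normSq (PV c' z - PV d' z) = normSq (PV n z - PV 1 z) := by
    have r1 := congrArg re h
    have r2 := congrArg im h
    have : normSq (PV 1 z) + normSq (PV n z) = normSq (PV c' z) + normSq (PV d' z) := by
      linear_combination a1 + a2 - a3 - a4 - normSq z * h4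
    simp only [normSq_apply, add_re, add_im, sub_re, sub_im, zero_re, zero_im] at r1 r2 this ⊢
    linear_combination (-2 : ℝ) * this +
      ((PV 1 z).re + (PV n z).re - (PV c' z).re - (PV d' z).re) * r1 +
      ((PV 1 z).im + (PV n z).im - (PV c' z).im - (PV d' z).im) * r2
  have b3 : PV n z - PV 1 z ≠ 0 := fun e => by
    rw [e, normSq_zero, normSq_eq_zero, sub_eq_zero] at b2
    rw [b2] at a3
    have : normSq d' ^ 2 = normSq c' ^ 2 := mul_right_cancel₀ k0.ne' (by linarith)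
    exact h5 ((pow_left_inj₀ k4.le k3.le two_ne_zero).1 this)
  obtain ⟨t, ht⟩ := exists_om (ω := (PV c' z - PV d' z) / (PV n z - PV 1 z))
    (by rw [normSq_div, b2, div_self (normSq_pos.2 b3).ne']) fun e => b1 (by
      rw [div_eq_one_iff_eq b3] at e
      rw [← a1, ← normSq_neg (PV 1 z)]
      congr 1
      linear_combination (e + h) / 2)
  rw [eq_div_iff b3] at ht
  have u3 : U3 (PV 1 z) (PV n z) t = PV c' z := by rw [U3]; linear_combination (ht - h) / 2
  have u4 : U4 (PV 1 z) (PV n z) t = PV d' z := by rw [U4]; linear_combination (-ht - h) / 2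
  have hD : ((z, ⟨t, κ⟩) : ℂ × ℂ) ∈ DD (1, n) :=
    ⟨hz, u3.symm ▸ big_PV hc hz, u4.symm ▸ big_PV hd hz⟩
  refine ⟨(z, ⟨t, κ⟩), hD, by simp only [NN, bOut, par, u3, u4, bb_PV hc hz, bb_PV hd hz],
    fun hw => ?_⟩
  simp only [Wall, mem_ofPred_eq, u3, u4, not_or, not_and] at hw
  obtain ⟨w1, w2⟩ := hw.1.2 hz (sub_ne_zero.1 b3).symm
  refine ⟨hD, hw.2, fun e : t = 0 => b1 ?_, hκ, good_in hn hw.1.1, ?_⟩
  · rw [e, show om 0 = -1 by simp [om]] at ht
    rw [← a2, ← normSq_neg (PV n z)]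
    congr 1
    linear_combination (h - ht) / 2
  · simp only [u3, u4]
    exact good_out hc hd hz w1 w2 (fun e => h5 (f e).symm) H

theorem ae_nice : ∀ᵐ y : ℂ × ℂ, y.1 ≠ 0 ∧ y.2 ≠ 0 ∧ y.1 ≠ y.2 ∧
    ∃ n, (n = I ∨ n = -I) ∧ ∃ w, Nice n w ∧ NN (1, n) w = y := by
  have n1 : volume {y : ℂ × ℂ | crs y.1 y.2 = 0} = 0 :=
    Measure.measure_prod_null_of_ae_null
      (isClosed_eq (by unfold crs; fun_prop) continuous_const).measurableSet
      ((Measure.ae_ne volume 0).mono fun z hz => null_line hz)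
  have n2 : volume {y : ℂ × ℂ | ‖y.2‖ = ‖y.1‖} = 0 :=
    Measure.measure_prod_null_of_ae_null (isClosed_eq (by fun_prop) (by fun_prop)).measurableSet
      (Eventually.of_forall fun z => measure_mono_null (fun w hw => by simpa using hw)
        (Measure.addHaar_sphere volume (0 : ℂ) ‖z‖))
  filter_upwards [measure_eq_zero_iff_ae_notMem.1 n1, measure_eq_zero_iff_ae_notMem.1 n2,
    measure_eq_zero_iff_ae_notMem.1 (null_fst (null_line one_ne_zero)),
    measure_eq_zero_iff_ae_notMem.1 (null_snd (null_line one_ne_zero)),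
    measure_eq_zero_iff_ae_notMem.1 (null_bad I_ne_zero),
    measure_eq_zero_iff_ae_notMem.1 (null_bad (neg_ne_zero.2 I_ne_zero))] with y h1 h2 h3 h4 h5 h6
  replace h3 : y.1.im ≠ 0 := by simpa [crs] using h3
  replace h4 : y.2.im ≠ 0 := by simpa [crs] using h4
  have y1 : y.1 ≠ 0 := fun e => h3 (by simp [e])
  refine ⟨y1, fun e => h4 (by simp [e]), fun e => h2 (by simp [e]), ?_⟩
  obtain ⟨κ, hκ, k2⟩ : ∃ κ > 0, κ ^ 2 = (‖y.1‖ ^ 2 + ‖y.2‖ ^ 2) / 2 :=
    ⟨_, Real.sqrt_pos.2 (by positivity), Real.sq_sqrt (by positivity)⟩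
  obtain ⟨c, hc⟩ := IsAlgClosed.exists_pow_nat_eq (κ⁻¹ • y.1) two_pos
  obtain ⟨d, hd⟩ := IsAlgClosed.exists_pow_nat_eq (κ⁻¹ • y.2) two_pos
  have e : κ • (c ^ 2, d ^ 2) = y := by
    rw [hc, hd, ← Prod.smul_mk, smul_smul, mul_inv_cancel₀ hκ.ne', one_smul]
  have e1 : ‖y.1‖ = κ * normSq c := by simp [← e, hκ.le, abs_of_nonneg, Complex.sq_norm]
  have e2 : ‖y.2‖ = κ * normSq d := by simp [← e, hκ.le, abs_of_nonneg, Complex.sq_norm]
  have c1 : c.re * c.im ≠ 0 := fun h => h3 (by simp [← e, sq]; right; linarith)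
  have c2 : d.re * d.im ≠ 0 := fun h => h4 (by simp [← e, sq]; right; linarith)
  have c3 : normSq c ^ 2 + normSq d ^ 2 = 2 := mul_left_cancel₀ (pow_pos hκ 2).ne' (by
    rw [e1, e2] at k2; linear_combination -2 * k2)
  have c4 : normSq d ≠ normSq c := fun h => h2 (by simp [e1, e2, h])
  have c5 := left_ne_zero_of_mul c1
  have c6 := left_ne_zero_of_mul c2
  have key : ∀ n, n = I ∨ n = -I → Bal 1 n c d → y ∉ NN (1, n) '' {w | w ∈ DD (1, n) ∧
      (w ∈ Wall n ∨ (fderiv ℝ (NN (1, n)) w).det = 0)} →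
      ∃ n, (n = I ∨ n = -I) ∧ ∃ w, Nice n w ∧ NN (1, n) w = y := fun n hn hb hy => by
    obtain ⟨w, w1, w2, w3⟩ := bal_nice hn (fun h => c5 (by simp [h])) (fun h => c6 (by simp [h]))
      c3 c4 hb hκ
    exact ⟨n, hn, w, w3 fun h => hy ⟨w, ⟨w1, h⟩, w2.trans e⟩, w2.trans e⟩
  rcases exists_bal c1 c2 (fun h => h1 (by
    simp only [crs] at h ⊢
    simp [← e, sq]
    linear_combination (2 * κ ^ 2 * (c.re * d.re + c.im * d.im)) * h)) c3 c4 with h | h
  · exact key _ (Or.inl rfl) h h5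
  · exact key _ (Or.inr rfl) h h6

end Pool.Agent.Lib.MP_e310f3_mp.Pl

/-! The scattered image for two light bodies. -/

set_option autoImplicit false

namespace Pool.Agent.Lib.MP_e310f3_mp.Pl

open Set Filter Topology Complex ComplexConjugate Metric MeasureTheory

theorem line_d {X Y : Type} [NormedAddCommGroup X] [NormedSpace ℝ X] [NormedAddCommGroup Y]
    [NormedSpace ℝ Y] {f : X → Y} {p : X} (hf : DifferentiableAt ℝ f p) (v : X) :
    HasDerivAt (fun s : ℝ => f (p + s • v)) (fderiv ℝ f p v) 0 :=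
  hf.hasFDerivAt.comp_hasDerivAt_of_eq 0 (by
    simpa using ((hasDerivAt_id' (0 : ℝ)).smul_const v).const_add p) (by simp)

theorem nice_local {n : ℂ} (hn : n = I ∨ n = -I) {w : ℂ × ℂ} (h : Nice n w) : ∃ ρ > 0,
    ∀ᶠ e in 𝓝[>] (0 : ℝ), ∀ c y : ℂ × ℂ, ‖c - (1, -1)‖ ≤ ρ → ‖y - NN (1, n) w‖ ≤ ρ →
      ∃ κ : ℝ, 0 < κ ∧ Scat (e ^ 2) c (κ • y) := by
  obtain ⟨h1, h2, h3, h4, h5, h6⟩ := h
  have n0 : n ≠ 0 := by rcases hn with rfl | rfl <;> simp
  have n2 : n ^ 2 = -1 := by rcases hn with rfl | rfl <;> simp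
  obtain ⟨N, hN, hE⟩ := encounter (P₀ := par (1, n) w) h3 h5 h6
  have cp : ∀ p : (ℂ × ℂ) × ℂ × ℂ, p.1.1 ≠ 0 → p.1.2 ≠ 0 →
      ContinuousAt (fun p : (ℂ × ℂ) × ℂ × ℂ => par p.1 p.2) p := fun p a b => by
    have a1 := (PV_diff (f := fun p : (ℂ × ℂ) × ℂ × ℂ => p.1.1) (h := fun p => p.2.1) (by fun_prop)
      (by fun_prop) a).continuousAt
    have a2 := (PV_diff (f := fun p : (ℂ × ℂ) × ℂ × ℂ => p.1.2) (h := fun p => p.2.1) (by fun_prop)
      (by fun_prop) b).continuousAt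
    unfold par
    fun_prop
  have dM : DifferentiableAt ℝ (fun p : (ℂ × ℂ) × ℂ × ℂ => ((p.1.1 ^ 2, p.1.2 ^ 2), NN p.1 p.2))
      ((1, n), w) := DifferentiableAt.prodMk (by fun_prop) (NN_diff one_ne_zero n0 h1)
  have ci : ContinuousAt (fun p : (ℂ × ℂ) × ℂ × ℂ => p.2.2.im) ((1, n), w) := by fun_prop
  obtain ⟨δ, hδ, hF⟩ := local_onto dM ((injective_iff_map_eq_zero _).2 fun v hv => by
      have a := line_d dM v
      rw [hv] at a
      have key : ∀ x u : ℂ, x ≠ 0 → HasDerivAt (fun s : ℝ => (x + s • u) ^ 2) 0 0 → u = 0 :=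
        fun x u hx hd => by
          simpa [hx] using hd.unique
            ((((hasDerivAt_id' (0 : ℝ)).smul_const u).const_add x).fun_pow 2)
      have v3 : v.1 = 0 := Prod.ext (key 1 v.1.1 one_ne_zero a.fst.fst) (key n v.1.2 n0 a.fst.snd)
      have a' : HasDerivAt (fun s : ℝ => NN ((1, n) + s • v.1) (w + s • v.2)) 0 0 := a.snd
      have b : HasDerivAt (fun s : ℝ => NN (1, n) (w + s • v.2)) 0 0 := by simpa [v3] using a'
      have := (line_d (NN_diff' one_ne_zero n0 h1) v.2).unique b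
      exact Prod.ext v3 ((ContinuousLinearMap.toContinuousLinearEquivOfDetNeZero _ h2).injective
        (by simpa using this)))
    (N := {p | par p.1 p.2 ∈ N ∧ p.1.1 ≠ 0 ∧ p.1.2 ≠ 0 ∧ p.2.1 ≠ 0 ∧ 0 < p.2.2.im ∧
      p.2.2.im < w.2.im + 1})
    (Eventually.and (cp _ one_ne_zero n0 hN) ((continuousAt_fst.fst.eventually_ne
      one_ne_zero).and ((continuousAt_fst.snd.eventually_ne n0).and
      ((continuousAt_snd.fst.eventually_ne h1.1).and
      ((continuousAt_const.eventually_lt ci h4).and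
      (ci.eventually_lt continuousAt_const (lt_add_one _)))))))
  refine ⟨δ, hδ, (hE (δ / (w.2.im + 1)) (by positivity)).mono fun e ⟨A, B, hA, hB, H⟩ c y hc hy => ?_⟩
  have cq := fun p (hp : p ∈ {p : (ℂ × ℂ) × ℂ × ℂ | par p.1 p.2 ∈ N ∧ p.1.1 ≠ 0 ∧ p.1.2 ≠ 0 ∧
    p.2.1 ≠ 0 ∧ 0 < p.2.2.im ∧ p.2.2.im < w.2.im + 1}) =>
      (cp p hp.2.1 hp.2.2.1).continuousWithinAt (s := {p | par p.1 p.2 ∈ N ∧ p.1.1 ≠ 0 ∧ p.1.2 ≠ 0 ∧
        p.2.1 ≠ 0 ∧ 0 < p.2.2.im ∧ p.2.2.im < w.2.im + 1})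
  obtain ⟨p, hp, e⟩ := hF (fun p => (A (par p.1 p.2), p.2.2.im • B (par p.1 p.2)))
    ((hA.comp cq fun p hp => hp.1).prodMk (ContinuousOn.smul (f := fun p : (ℂ × ℂ) × ℂ × ℂ =>
      p.2.2.im) (by fun_prop)
      (hB.comp cq fun p hp => hp.1))) (fun p hp => by
      obtain ⟨a1, a2, -⟩ := H _ hp.1
      refine norm_prod_le_iff.2 ⟨?_, ?_⟩
      · simp only [bIn, par, bb_PV hp.2.1 hp.2.2.2.1, bb_PV hp.2.2.1 hp.2.2.2.1] at a1
        exact a1.trans (div_le_self hδ.le (by linarith))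
      · simp only [Prod.snd_sub, NN, ← smul_sub, norm_smul_of_nonneg hp.2.2.2.2.1.le]
        rw [le_div_iff₀ (by positivity)] at a2
        nlinarith [norm_nonneg (B (par p.1 p.2) - bOut (par p.1 p.2)), hp.2.2.2.2.2])
    (c, y) (norm_prod_le_iff.2 ⟨by simpa [n2] using hc, hy⟩)
  obtain ⟨rfl, rfl⟩ := Prod.ext_iff.1 e
  refine ⟨_, inv_pos.2 hp.2.2.2.2.1, ?_⟩
  rw [smul_smul, inv_mul_cancel₀ hp.2.2.2.2.1.ne', one_smul]
  exact (H _ hp.1).2.2

/-- the outgoing shape `y` is reached from the incoming shape `c` -/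
def Reach (ε : ℝ) (c y : ℂ × ℂ) : Prop :=
  y.1 ≠ 0 ∧ y.2 ≠ 0 ∧ y.1 ≠ y.2 ∧ ∃ κ : ℝ, 0 < κ ∧ Scat ε c (κ • y)

theorem exists_G : ∃ G : Set (ℂ × ℂ), IsOpen G ∧ volume Gᶜ = 0 ∧ ∀ K ⊆ G, IsCompact K → ∃ ρ > 0,
    ∀ᶠ e in 𝓝[>] (0 : ℝ), ∀ c : ℂ × ℂ, ‖c - (1, -1)‖ ≤ ρ → ∀ y ∈ K, Reach (e ^ 2) c y := by
  refine ⟨{y | ∃ ρ > 0, ∀ᶠ e in 𝓝[>] (0 : ℝ), ∀ c : ℂ × ℂ, ‖c - (1, -1)‖ ≤ ρ →
    ∀ y' ∈ ball y ρ, Reach (e ^ 2) c y'}, Metric.isOpen_iff.2 fun y ⟨ρ, hρ, h⟩ => ⟨ρ / 2, half_pos hρ,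
      fun x hx => ⟨ρ / 2, half_pos hρ, h.mono fun e he c hc y' hy' => he c (by linarith) y'
        (by rw [mem_ball] at *; linarith [dist_triangle y' x y])⟩⟩,
    measure_eq_zero_iff_ae_notMem.2 (ae_nice.mono fun y ⟨h1, h2, h3, n, hn, w, hw, hy'⟩ hy => hy ?_),
    fun K hK hc => hc.induction_on (p := fun K => ∃ ρ > 0, ∀ᶠ e in 𝓝[>] (0 : ℝ), ∀ c : ℂ × ℂ,
      ‖c - (1, -1)‖ ≤ ρ → ∀ y ∈ K, Reach (e ^ 2) c y) ⟨1, one_pos, by simp⟩
      (fun s t hst ⟨ρ, hρ, h⟩ => ⟨ρ, hρ, h.mono fun e he c hc y hy => he c hc y (hst hy)⟩)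
      (fun s t ⟨ρ, hρ, h⟩ ⟨ρ', hρ', h'⟩ => ⟨min ρ ρ', lt_min hρ hρ', (h.and h').mono
        fun e he c hc y hy => hy.elim (he.1 c (hc.trans (min_le_left _ _)) y)
          (he.2 c (hc.trans (min_le_right _ _)) y)⟩)
      fun y hy => ?_⟩
  · obtain ⟨ρ, hρ, h⟩ := nice_local hn hw
    obtain ⟨r, hr, h'⟩ := Metric.eventually_nhds_iff_ball.1
      ((continuousAt_fst.eventually_ne h1).and ((continuousAt_snd.eventually_ne h2).and
        ((continuousAt_fst.sub continuousAt_snd).eventually_ne (sub_ne_zero.2 h3))))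
    refine ⟨min ρ r, lt_min hρ hr, h.mono fun e he c hc x hx => ?_⟩
    obtain ⟨a1, a2, a3⟩ := h' x (ball_subset_ball (min_le_right _ _) hx)
    exact ⟨a1, a2, sub_ne_zero.1 a3, he c x (hc.trans (min_le_left _ _))
      (hy' ▸ (mem_ball_iff_norm.1 hx).le.trans (min_le_left _ _))⟩
  · obtain ⟨ρ, hρ, h⟩ := hK hy
    exact ⟨ball y ρ, nhdsWithin_le_nhds (ball_mem_nhds y hρ), ρ, hρ, h⟩

/-- the plane as the complex line -/
noncomputable abbrev TT : ℂ ≃ₗᵢ[ℝ] E2 := orthonormalBasisOneI.repr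

/-- positions relative to the heavy body -/
noncomputable def rel (s : Cfg 3 2) : ℂ × ℂ := (TT.symm (s 1 - s 0), TT.symm (s 2 - s 0))

/-- the centred configuration with given relative positions -/
noncomputable def lift (ε : ℝ) : (ℂ × ℂ) →L[ℝ] Cfg 3 2 := LinearMap.toContinuousLinearMap
  { toFun := fun x => ![TT (-(ε / (1 + 2 * ε)) • (x.1 + x.2)),
      TT (-(ε / (1 + 2 * ε)) • (x.1 + x.2) + x.1), TT (-(ε / (1 + 2 * ε)) • (x.1 + x.2) + x.2)]
    map_add' := fun x y => by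
      funext i; fin_cases i <;> simp only [Fin.zero_eta, Fin.mk_one, Fin.reduceFinMk, Pi.add_apply,
        Matrix.cons_val, Prod.fst_add, Prod.snd_add, ← map_add] <;> congr 1 <;> module
    map_smul' := fun r x => by
      funext i; fin_cases i <;> simp only [Fin.zero_eta, Fin.mk_one, Fin.reduceFinMk, Pi.smul_apply,
        Matrix.cons_val, Prod.smul_fst, Prod.smul_snd, RingHom.id_apply, ← map_smul] <;>
        congr 1 <;> module }

theorem lift_apply (ε : ℝ) (x : ℂ × ℂ) : lift ε x = ![TT (-(ε / (1 + 2 * ε)) • (x.1 + x.2)),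
    TT (-(ε / (1 + 2 * ε)) • (x.1 + x.2) + x.1), TT (-(ε / (1 + 2 * ε)) • (x.1 + x.2) + x.2)] := rfl

variable {ε : ℝ}

theorem lift_rel (hε : 0 < ε) {s : Cfg 3 2} (hs : ∑ i, ![1, ε, ε] i • s i = 0) :
    lift ε (rel s) = s := by
  have h0 : (1 + 2 * ε) ≠ 0 := by positivity
  have h1 : TT (-(ε / (1 + 2 * ε)) • ((rel s).1 + (rel s).2)) = s 0 := by
    simp only [rel, map_smul, map_add, LinearIsometryEquiv.apply_symm_apply, Fin.sum_univ_three,
      Matrix.cons_val] at hs ⊢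
    refine smul_right_injective _ h0 ?_
    simp only [smul_smul, mul_neg, mul_div_cancel₀ _ h0]
    linear_combination (norm := module) -hs
  funext i
  fin_cases i <;> simp only [lift_apply, Fin.zero_eta, Fin.mk_one, Fin.reduceFinMk,
    Matrix.cons_val, map_add TT _ (rel s).1, map_add TT _ (rel s).2, h1] <;>
    simp only [rel, LinearIsometryEquiv.apply_symm_apply, add_sub_cancel]

theorem lift_om {x : ℂ × ℂ} (h : x.1 ≠ 0 ∧ x.2 ≠ 0 ∧ x.1 - x.2 ≠ 0) : lift ε x ∈ Om 3 2 := by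
  have h3 := sub_ne_zero.1 h.2.2
  intro i j hij
  fin_cases i <;> fin_cases j <;> simp [lift_apply, h.1, h.2.1, h3, h3.symm] at hij ⊢

theorem lift_Fe (hε : 0 < ε) (x : ℂ × ℂ) : lift ε (Fe ε x) = newt ![1, ε, ε] (lift ε x) := by
  have h0 : (1 + 2 * ε) ≠ 0 := by positivity
  have h1 : -(ε / (1 + 2 * ε)) • ((Fe ε x).1 + (Fe ε x).2) = ε • g x.1 + ε • g x.2 := by
    refine smul_right_injective _ h0 ?_
    simp only [smul_smul, mul_neg, mul_div_cancel₀ _ h0, Fe]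
    module
  have h2 : ∀ (m : ℝ) (a b : ℂ), (m / ‖TT a - TT b‖ ^ 3) • (TT a - TT b) = TT (m • g (a - b)) :=
    fun m a b => by rw [← map_sub, TT.norm_map, g, smul_smul, map_smul, div_eq_mul_inv]
  have h4 : g (x.2 - x.1) = -g (x.1 - x.2) := by rw [← g_neg, neg_sub]
  funext i
  fin_cases i <;> simp only [lift_apply, newt, Fin.sum_univ_three, Fin.zero_eta, Fin.mk_one,
    Fin.reduceFinMk, Matrix.cons_val, h1, h2, ← map_add, sub_self, add_sub_cancel_left, smul_zero,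
    sub_add_cancel_left, add_sub_add_left_eq_sub, g_neg, h4, add_zero, zero_add] <;> congr 1 <;>
    simp only [Fe] <;> module

theorem scat_mem (hε : 0 < ε) {E r r' : ℝ} (hE : 0 < E) (hr : 0 < r) (hr' : 0 < r')
    {s x : Cfg 3 2} (hs : ∑ i, ![1, ε, ε] i • s i = 0) (hx : ∑ i, ![1, ε, ε] i • x i = 0)
    (hs1 : massNorm ![1, ε, ε] s = 1) (hx1 : massNorm ![1, ε, ε] x = 1) (hsO : s ∈ Om 3 2)
    (hxO : x ∈ Om 3 2) (h : Scat ε (r • rel s) (r' • rel x)) :
    x ∈ scatteredImage ![1, ε, ε] E s := by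
  obtain ⟨Q, V, h1, h2, h3, h4, h5⟩ := h
  obtain ⟨l, hl, hl2⟩ : ∃ l > 0, (l * r) ^ 2 = 2 * E :=
    ⟨√(2 * E) / r, by positivity, by rw [div_mul_cancel₀ _ hr.ne', Real.sq_sqrt (by positivity)]⟩
  have hd : ∀ t, HasDerivAt (fun t : ℝ => l * t) l t := fun t => by
    simpa using (hasDerivAt_id' t).const_mul l
  have p1 := mul_pos hl hr
  have p2 := mul_pos hl hr'
  have := (realize (m := ![1, ε, ε]) (by simp [Fin.sum_univ_three]; positivity) (pow_pos hl 2)
    (Q := fun t => lift ε (Q (l * t))) (V := fun t => l • lift ε (V (l * t)))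
    (a := -((l * r) • s)) (b := (l * r') • x)
    (fun t => ((lift ε).hasFDerivAt.comp_hasDerivAt t ((h1 _).scomp t (hd t))).congr_deriv
      (map_smul _ _ _))
    (fun t => (((lift ε).hasFDerivAt.comp_hasDerivAt t ((h2 _).scomp t (hd t))).fun_const_smul
      l).congr_deriv (by rw [map_smul, lift_Fe hε, smul_smul, sq]))
    (fun t => lift_om (h3 _))
    (by simpa [lift_rel hε hs, smul_smul] using (((lift ε).continuous.tendsto _).comp
      (h4.comp (tendsto_id.const_mul_atBot hl))).const_smul l)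
    (by simpa [lift_rel hε hx, smul_smul] using (((lift ε).continuous.tendsto _).comp
      (h5.comp (tendsto_id.const_mul_atTop hl))).const_smul l)
    (by rw [← neg_smul]; exact Om_smul (neg_ne_zero.2 p1.ne') hsO) (Om_smul p2.ne' hxO)
    (by simp only [Pi.neg_apply, Pi.smul_apply, smul_neg, smul_comm _ (l * r), Finset.sum_neg_distrib,
      ← Finset.smul_sum, hs, smul_zero, neg_zero])
    (by rw [neg_neg, massNorm_smul _ _ p1, hs1, mul_one]; exact p1.ne')).2.2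
  rw [neg_neg, massNorm_smul _ _ p1, massNorm_smul _ _ p2, hs1, hx1, mul_one, mul_one, smul_smul,
    smul_smul, inv_mul_cancel₀ p1.ne', inv_mul_cancel₀ p2.ne', one_smul, one_smul] at this
  convert this using 2
  rw [massNorm, Real.sqrt_eq_one] at hs1
  simp only [Pi.neg_apply, Pi.smul_apply, norm_neg, norm_smul_of_nonneg p1.le, mul_pow _ ‖s _‖, hl2,
    mul_left_comm _ (2 * E), ← Finset.mul_sum, hs1]
  ring

theorem planetary : ∃ G : Set (E2 × E2), IsOpen G ∧ volume Gᶜ = 0 ∧ ∀ K ⊆ G, IsCompact K →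
    ∃ ε₀ > 0, ∃ ρ > 0, ∀ ε : ℝ, 0 < ε → ε < ε₀ → ∀ E : ℝ, 0 < E → ∀ s x : Cfg 3 2,
      ∑ i, ![1, ε, ε] i • s i = 0 → massNorm ![1, ε, ε] s = 1 →
      (∃ r : ℝ, 0 < r ∧ ‖r • (s 1 - s 0) - !₂[1, 0]‖ < ρ ∧ ‖r • (s 2 - s 0) + !₂[1, 0]‖ < ρ) →
      ∑ i, ![1, ε, ε] i • x i = 0 → massNorm ![1, ε, ε] x = 1 →
      (∃ r : ℝ, 0 < r ∧ (r • (x 1 - x 0), r • (x 2 - x 0)) ∈ K) →
      x ∈ scatteredImage ![1, ε, ε] E s := by
  obtain ⟨G, h1, h2, h3⟩ := exists_G
  have hc : Continuous (Prod.map TT.symm TT.symm) := by fun_prop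
  refine ⟨Prod.map TT.symm TT.symm ⁻¹' G, h1.preimage hc,
    (TT.symm.measurePreserving.prod TT.symm.measurePreserving).quasiMeasurePreserving.preimage_null
      h2, fun K hK hK' => ?_⟩
  obtain ⟨ρ, hρ, h⟩ := h3 _ (image_subset_iff.2 hK) (hK'.image hc)
  obtain ⟨η, hη, h⟩ := (nhdsGT_basis 0).eventually_iff.1 h
  refine ⟨η ^ 2, by positivity, min ρ 1, by positivity,
    fun ε hε hε' E hE s x hs hs1 ⟨r, hr, a1, a2⟩ hx hx1 ⟨r', hr', hy⟩ => ?_⟩
  have e1 : TT.symm !₂[1, 0] = 1 := by simp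
  rw [← TT.symm.norm_map, map_sub, map_smul, e1] at a1
  rw [← TT.symm.norm_map, map_add, map_smul, e1] at a2
  obtain ⟨b1, b2, b3, κ, hκ, b4⟩ := h (x := √ε) ⟨Real.sqrt_pos.2 hε, (Real.sqrt_lt' hη).2 hε'⟩
    (r • rel s) (norm_prod_le_iff.2 ⟨(a1.trans_le (min_le_left _ _)).le,
      by simpa [rel] using (a2.trans_le (min_le_left _ _)).le⟩) _ ⟨_, hy, rfl⟩
  have e2 : Prod.map TT.symm TT.symm (r' • (x 1 - x 0), r' • (x 2 - x 0)) = r' • rel x := by
    simp only [rel, Prod.map, map_smul, Prod.smul_mk]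
  rw [e2] at b1 b2 b3 b4
  rw [Real.sq_sqrt hε.le, smul_smul] at b4
  have om : ∀ {s : Cfg 3 2} {r : ℝ}, ∑ i, ![1, ε, ε] i • s i = 0 → (r • rel s).1 ≠ 0 →
      (r • rel s).2 ≠ 0 → (r • rel s).1 ≠ (r • rel s).2 → s ∈ Om 3 2 := fun hs c1 c2 c3 =>
    lift_rel hε hs ▸ lift_om ⟨right_ne_zero_of_smul c1, right_ne_zero_of_smul c2,
      sub_ne_zero.2 fun e => c3 (by simp only [Prod.smul_fst, Prod.smul_snd, e])⟩
  replace a1 : ‖(r • rel s).1 - 1‖ < 1 := a1.trans_le (min_le_right _ _)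
  replace a2 : ‖(r • rel s).2 + 1‖ < 1 := a2.trans_le (min_le_right _ _)
  refine scat_mem hε hE hr (mul_pos hκ hr') hs hx hs1 hx1 (om (r := r) hs (fun e => by simp [e] at a1)
    (fun e => by simp [e] at a2) fun e => ?_) (om hx b1 b2 b3) b4
  have := norm_sub_le ((r • rel s).2 + 1) ((r • rel s).1 - 1)
  rw [e, add_sub_sub_cancel, one_add_one_eq_two, Complex.norm_two] at this
  rw [e] at a1
  linarith

end Pool.Agent.Lib.MP_e310f3_mp.Pl
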